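import Mathlib

set_option autoImplicit false

/-! Numeric core of the counterexample: for `n ≥ 25` the tree with three hubs
(one hub with `n` pendant leaves, two hubs with `n` legs of length two each) has no
strongly antimagic labeling. -/

namespace Pool.Agent.R236.Anti

/-- `k` distinct naturals larger than `M`. -/
theorem low (k : ℕ) : ∀ (M : ℕ) (s : Finset ℕ), s.card = k → (∀ x ∈ s, M < x) →
    2 * k * M + k * k + k ≤ 2 * ∑ x ∈ s, x := by
  induction k with
  | zero => intro M s _ _; simp
  | succ k ih =>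
    intro M s hs hM
    have hne : s.Nonempty := by
      rw [← Finset.card_pos]; omega
    set x := s.max' hne with hx
    have hxs : x ∈ s := s.max'_mem hne
    have hsub : s ⊆ Finset.Ioc M x := by
      intro y hy
      rw [Finset.mem_Ioc]
      exact ⟨hM y hy, s.le_max' y hy⟩
    have hc := Finset.card_le_card hsub
    rw [hs, Nat.card_Ioc] at hc
    have h1 := ih M (s.erase x) (by rw [Finset.card_erase_of_mem hxs, hs]; rfl)
      (fun y hy => hM y (Finset.mem_of_mem_erase hy))
    have h2 := Finset.add_sum_erase s (fun y => y) hxs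
    have h3 : M + (k + 1) ≤ x := by omega
    rw [← h2]
    nlinarith

/-- `k` distinct naturals at most `M`. -/
theorem high (k : ℕ) : ∀ (M : ℕ) (s : Finset ℕ), s.card = k → (∀ x ∈ s, x ≤ M) →
    2 * (∑ x ∈ s, x) + k * k ≤ 2 * k * M + k := by
  induction k with
  | zero =>
    intro M s hs _
    rw [Finset.card_eq_zero] at hs
    subst hs
    simp
  | succ k ih =>
    intro M s hs hM
    have hne : s.Nonempty := by
      rw [← Finset.card_pos]; omega
    set x := s.min' hne with hx
    have hxs : x ∈ s := s.min'_mem hne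
    have hsub : s ⊆ Finset.Icc x M := by
      intro y hy
      rw [Finset.mem_Icc]
      exact ⟨s.min'_le y hy, hM y hy⟩
    have hc := Finset.card_le_card hsub
    rw [hs, Nat.card_Icc] at hc
    have h1 := ih M (s.erase x) (by rw [Finset.card_erase_of_mem hxs, hs]; rfl)
      (fun y hy => hM y (Finset.mem_of_mem_erase hy))
    have h2 := Finset.add_sum_erase s (fun y => y) hxs
    have h3 : x + k ≤ M := by omega
    rw [← h2]
    nlinarith

theorem low' {ι : Type*} (S : Finset ι) (g : ι → ℕ) (M : ℕ) (hg : Set.InjOn g S)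
    (hM : ∀ x ∈ S, M < g x) :
    2 * S.card * M + S.card * S.card + S.card ≤ 2 * ∑ x ∈ S, g x := by
  classical
  have h := low S.card M (S.image g) (Finset.card_image_of_injOn hg) (by
    intro y hy
    rw [Finset.mem_image] at hy
    obtain ⟨x, hx, rfl⟩ := hy
    exact hM x hx)
  rwa [Finset.sum_image hg] at h

theorem high' {ι : Type*} (S : Finset ι) (g : ι → ℕ) (M : ℕ) (hg : Set.InjOn g S)
    (hM : ∀ x ∈ S, g x ≤ M) :
    2 * (∑ x ∈ S, g x) + S.card * S.card ≤ 2 * S.card * M + S.card := by
  classical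
  have h := high S.card M (S.image g) (Finset.card_image_of_injOn hg) (by
    intro y hy
    rw [Finset.mem_image] at hy
    obtain ⟨x, hx, rfl⟩ := hy
    exact hM x hx)
  rwa [Finset.sum_image hg] at h

set_option maxHeartbeats 1000000 in
theorem finalZ (n SP SA SB TB LB LA B0 B1 c0 c1 t l M S : ℤ) (hn : 25 ≤ n) (ht0 : 0 ≤ t)
    (hcard : t + l = 2 * n)
    (g1 : 2 * t * M + t * t + t ≤ 2 * TB)
    (g2 : 2 * l * M + l * l + l ≤ 2 * (LA + LB))
    (g3 : 2 * (SP + LA) + (n + l) * (n + l) ≤ 2 * (n + l) * M + (n + l))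
    (g4 : 2 * (2 * n) * M + (2 * n) * (2 * n) + 2 * n ≤ 2 * (SA + SB))
    (g6 : 5 * n + 2 ≤ M + (t + 2))
    (htot : 2 * S = (5 * n + 2) * (5 * n + 3))
    (hsplit : S = (SP + SA) + (SB + (c0 + c1)))
    (hsumB : SB = TB + LB)
    (hC0 : B0 + c0 < SP + (c0 + c1)) (hC1 : B1 + c1 < SP + (c0 + c1))
    (hBsplit : SB = B0 + B1) : False := by
  have hl : l = 2 * n - t := by linarith
  subst hl
  have hM : (5 * n : ℤ) - t ≤ M := by linarith
  have key : ((5 * n : ℤ) - t) * (t + n) ≤ (M : ℤ) * (t + n) :=
    mul_le_mul_of_nonneg_right hM (by linarith)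
  have h1 : (2 : ℤ) * SB + 4 ≤ 4 * SP + 2 * (c0 + c1) := by omega
  have h3 : ((n : ℤ) - t) ^ 2 + n * n + t - 24 * n - 2 ≤ 0 := by
    subst hsplit
    subst hsumB
    ring_nf at g1 g2 g3 g4 htot key h1 ⊢
    linarith
  nlinarith [sq_nonneg ((n : ℤ) - t)]

theorem final (n SP SA SB TB LB LA B0 B1 c0 c1 t l M S : ℕ) (hn : 25 ≤ n)
    (hcard : t + l = 2 * n)
    (g1 : 2 * t * M + t * t + t ≤ 2 * TB)
    (g2 : 2 * l * M + l * l + l ≤ 2 * (LA + LB))
    (g3 : 2 * (SP + LA) + (n + l) * (n + l) ≤ 2 * (n + l) * M + (n + l))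
    (g4 : 2 * (2 * n) * M + (2 * n) * (2 * n) + 2 * n ≤ 2 * (SA + SB))
    (g6 : 5 * n + 2 ≤ M + (t + 2))
    (htot : 2 * S = (5 * n + 2) * (5 * n + 3))
    (hsplit : S = (SP + SA) + (SB + (c0 + c1)))
    (hsumB : SB = TB + LB)
    (hC0 : B0 + c0 < SP + (c0 + c1)) (hC1 : B1 + c1 < SP + (c0 + c1))
    (hBsplit : SB = B0 + B1) : False :=
  finalZ n SP SA SB TB LB LA B0 B1 c0 c1 t l M S (by exact_mod_cast hn) (by positivity)
    (by exact_mod_cast hcard) (by exact_mod_cast g1) (by exact_mod_cast g2) (by exact_mod_cast g3)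
    (by exact_mod_cast g4) (by exact_mod_cast g6) (by exact_mod_cast htot)
    (by exact_mod_cast hsplit) (by exact_mod_cast hsumB) (by exact_mod_cast hC0)
    (by exact_mod_cast hC1) (by exact_mod_cast hBsplit)

set_option maxHeartbeats 4000000 in
theorem core (n : ℕ) (hn : 25 ≤ n) (P : Fin n → ℕ) (A B : Bool × Fin n → ℕ) (C : Bool → ℕ) (M : ℕ)
    (hinj : Function.Injective (Sum.elim (Sum.elim P A) (Sum.elim B C)))
    (hran : ∀ y, (∃ e, Sum.elim (Sum.elim P A) (Sum.elim B C) e = y) ↔ 1 ≤ y ∧ y ≤ 5 * n + 2)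
    (hA : ∀ x, A x ≤ M) (hP : ∀ j, P j ≤ M) (hS : ∀ x, M < A x + B x)
    (hSinj : Function.Injective (fun x => A x + B x))
    (hC : ∀ k, (∑ i, B (k, i)) + C k < (∑ j, P j) + (C false + C true)) : False := by
  classical
  set lab := Sum.elim (Sum.elim P A) (Sum.elim B C) with hlab
  -- total
  have htot : 2 * ∑ e, lab e = (5 * n + 2) * (5 * n + 3) := by
    have h1 : Finset.univ.image lab = Finset.Icc 1 (5 * n + 2) := by
      ext y
      rw [Finset.mem_image, Finset.mem_Icc, ← hran y]
      simp
    have h2 : ∑ y ∈ Finset.univ.image lab, y = ∑ e, lab e :=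
      Finset.sum_image (fun _ _ _ _ h => hinj h)
    rw [← h2, h1]
    have h3 : ∑ y ∈ Finset.Icc 1 (5 * n + 2), y = ∑ y ∈ Finset.range (5 * n + 3), y := by
      rw [Finset.range_eq_Ico, ← Finset.sum_Ioo_add_eq_sum_Ico (by omega : 0 < 5 * n + 3)]
      · have : Finset.Ioo 0 (5 * n + 3) = Finset.Icc 1 (5 * n + 2) := by
          ext y; simp only [Finset.mem_Ioo, Finset.mem_Icc]; omega
        rw [this]; simp
    rw [h3]
    have h4 := Finset.sum_range_id_mul_two (5 * n + 3)
    have h5 : 5 * n + 3 - 1 = 5 * n + 2 := by omega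
    rw [h5] at h4
    nlinarith
  have hsplit : ∑ e, lab e = (∑ j, P j + ∑ x, A x) + (∑ x, B x + (C false + C true)) := by
    rw [hlab]
    simp only [Fintype.sum_sum_type, Sum.elim_inl, Sum.elim_inr, Fintype.sum_bool]
    ring
  -- T and L
  set T := Finset.univ.filter (fun x => M < B x) with hT
  set L := Finset.univ.filter (fun x => ¬ M < B x) with hL
  have hcard : T.card + L.card = 2 * n := by
    have := Finset.card_filter_add_card_filter_not (s := (Finset.univ : Finset (Bool × Fin n)))
      (fun x => M < B x)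
    rw [Finset.card_univ, Fintype.card_prod, Fintype.card_bool, Fintype.card_fin] at this
    exact this
  have hsumB : ∑ x, B x = ∑ x ∈ T, B x + ∑ x ∈ L, B x :=
    (Finset.sum_filter_add_sum_filter_not _ _ _).symm
  have hBinj : Function.Injective B := by
    intro x y h
    have : lab (Sum.inr (Sum.inl x)) = lab (Sum.inr (Sum.inl y)) := by
      simp [hlab, h]
    have := hinj this
    simpa using this
  have g1 := low' T B M hBinj.injOn (by intro x hx; simpa [hT] using hx)
  have g2 := low' L (fun x => A x + B x) M hSinj.injOn (fun x _ => hS x)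
  have g4 := low' Finset.univ (fun x => A x + B x) M hSinj.injOn (fun x _ => hS x)
  rw [Finset.card_univ, Fintype.card_prod, Fintype.card_bool, Fintype.card_fin] at g4
  have g3 := high' ((Finset.univ : Finset (Fin n)).disjSum L) (Sum.elim P A) M (by
      intro x _ y _ h
      have : lab (Sum.inl x) = lab (Sum.inl y) := by
        simp only [hlab, Sum.elim_inl]; exact h
      have := hinj this
      simpa using this) (by
      intro x _
      cases x with
      | inl j => exact hP j
      | inr x => exact hA x)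
  rw [Finset.sum_disjSum, Finset.card_disjSum, Finset.card_univ, Fintype.card_fin] at g3
  simp only [Sum.elim_inl, Sum.elim_inr] at g3
  simp only [Finset.sum_add_distrib] at g2 g4
  -- labels above M
  have g6 : 5 * n + 2 ≤ M + (T.card + 2) := by
    have hsub : Finset.Ioc M (5 * n + 2) ⊆ T.image B ∪ Finset.univ.image C := by
      intro y hy
      rw [Finset.mem_Ioc] at hy
      obtain ⟨e, he⟩ := (hran y).2 ⟨by omega, hy.2⟩
      rw [Finset.mem_union, Finset.mem_image, Finset.mem_image]
      rcases e with (j | x) | (x | k)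
      · exfalso
        have := hP j
        simp [hlab] at he
        omega
      · exfalso
        have := hA x
        simp [hlab] at he
        omega
      · left
        simp [hlab] at he
        exact ⟨x, by simp [hT]; omega, he⟩
      · right
        simp [hlab] at he
        exact ⟨k, Finset.mem_univ _, he⟩
    have h1 := Finset.card_le_card hsub
    rw [Nat.card_Ioc] at h1
    have h2 := Finset.card_union_le (T.image B) (Finset.univ.image C)
    have h3 : (T.image B).card ≤ T.card := Finset.card_image_le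
    have h4 : (Finset.univ.image C).card ≤ 2 := by
      refine Finset.card_image_le.trans ?_
      simp
    omega
  have hC0 := hC false
  have hC1 := hC true
  have hBsplit : ∑ x, B x = ∑ i, B (false, i) + ∑ i, B (true, i) := by
    rw [Fintype.sum_prod_type, Fintype.sum_bool]
    ring
  exact final n _ _ _ _ _ _ _ _ _ _ _ _ _ _ hn hcard g1 g2 g3 g4 g6 htot hsplit hsumB hC0 hC1 hBsplit

end Pool.Agent.R236.Anti
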