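import Pool.Agent.R236.AntiCore

set_option autoImplicit false

/-! The tree: hub `c0` with `n` pendant leaves `p j`, two hubs `c k` adjacent to `c0`, each with
`n` legs `c k - q (k,i) - r (k,i)` of length two. -/

namespace Pool.Agent.R236.Anti

inductive W (n : ℕ)
  | c0 : W n
  | c (k : Bool) : W n
  | p (j : Fin n) : W n
  | q (x : Bool × Fin n) : W n
  | r (x : Bool × Fin n) : W n
  deriving DecidableEq, Fintype

open W

variable {n : ℕ}

def adjb : W n → W n → Bool
  | c0, c _ => true
  | c _, c0 => true
  | c0, p _ => true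
  | p _, c0 => true
  | c k, q x => decide (x.1 = k)
  | q x, c k => decide (x.1 = k)
  | q x, r y => decide (x = y)
  | r y, q x => decide (x = y)
  | _, _ => false

def T (n : ℕ) : SimpleGraph (W n) where
  Adj u v := adjb u v = true
  symm := ⟨by
    intro u v h
    cases u <;> cases v <;> simp_all [adjb]⟩
  loopless := ⟨by
    intro u h
    cases u <;> simp_all [adjb]⟩

instance : DecidableRel (T n).Adj := fun u v => inferInstanceAs (Decidable (adjb u v = true))

theorem adj_iff (u v : W n) : (T n).Adj u v ↔ adjb u v = true := Iff.rfl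

theorem conn : (T n).Connected := by
  rw [SimpleGraph.connected_iff_exists_forall_reachable]
  refine ⟨c0, fun w => ?_⟩
  have hc : ∀ k, (T n).Reachable c0 (c k) := fun k => SimpleGraph.Adj.reachable (by simp [adj_iff, adjb])
  have hq : ∀ x, (T n).Reachable c0 (q x) := fun x =>
    (hc x.1).trans (SimpleGraph.Adj.reachable (by simp [adj_iff, adjb]))
  cases w with
  | c0 => exact SimpleGraph.Reachable.refl _
  | c k => exact hc k
  | p j => exact SimpleGraph.Adj.reachable (by simp [adj_iff, adjb])
  | q x => exact hq x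
  | r x => exact (hq x).trans (SimpleGraph.Adj.reachable (by simp [adj_iff, adjb]))

theorem N_r (x : Bool × Fin n) : (T n).neighborFinset (r x) = {q x} := by
  ext w
  rw [SimpleGraph.mem_neighborFinset, adj_iff]
  cases w <;> simp [adjb]

theorem N_p (j : Fin n) : (T n).neighborFinset (p j) = {c0} := by
  ext w
  rw [SimpleGraph.mem_neighborFinset, adj_iff]
  cases w <;> simp [adjb]

theorem N_q (x : Bool × Fin n) : (T n).neighborFinset (q x) = {c x.1, r x} := by
  ext w
  rw [SimpleGraph.mem_neighborFinset, adj_iff]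
  cases w <;> simp [adjb, eq_comm]

theorem N_c (k : Bool) : (T n).neighborFinset (c k) =
    insert c0 (Finset.univ.image (fun i : Fin n => q (k, i))) := by
  ext w
  rw [SimpleGraph.mem_neighborFinset, adj_iff]
  cases w with
  | q x =>
    obtain ⟨a, b⟩ := x
    simp [adjb, eq_comm]
  | c0 => simp [adjb]
  | c k => simp [adjb]
  | p j => simp [adjb]
  | r x => simp [adjb]

theorem N_c0 : (T n).neighborFinset c0 =
    (Finset.univ.image (fun k : Bool => (c k : W n))) ∪ (Finset.univ.image (fun j : Fin n => p j)) := by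
  ext w
  rw [SimpleGraph.mem_neighborFinset, adj_iff]
  cases w <;> simp [adjb]

/-- The edges. -/
def e : (Fin n ⊕ (Bool × Fin n)) ⊕ ((Bool × Fin n) ⊕ Bool) → Sym2 (W n)
  | Sum.inl (Sum.inl j) => s(p j, c0)
  | Sum.inl (Sum.inr x) => s(r x, q x)
  | Sum.inr (Sum.inl x) => s(q x, c x.1)
  | Sum.inr (Sum.inr k) => s(c k, c0)

theorem e_inj : Function.Injective (e (n := n)) := by
  intro a b h
  rcases a with (j | x) | (x | k) <;> rcases b with (j' | x') | (x' | k') <;>
    simp_all [e, Sym2.eq_iff]

theorem e_mem (a : (Fin n ⊕ (Bool × Fin n)) ⊕ ((Bool × Fin n) ⊕ Bool)) : e a ∈ (T n).edgeSet := by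
  rcases a with (j | x) | (x | k) <;> simp [e, adj_iff, adjb]

theorem e_surj (s : Sym2 (W n)) (hs : s ∈ (T n).edgeSet) : ∃ a, e a = s := by
  induction s using Sym2.ind with
  | _ u v =>
    rw [SimpleGraph.mem_edgeSet, adj_iff] at hs
    cases u with
    | c0 =>
      cases v with
      | c k => exact ⟨Sum.inr (Sum.inr k), by simp [e, Sym2.eq_swap]⟩
      | p j => exact ⟨Sum.inl (Sum.inl j), by simp [e, Sym2.eq_swap]⟩
      | _ => simp [adjb] at hs
    | c k =>
      cases v with
      | c0 => exact ⟨Sum.inr (Sum.inr k), rfl⟩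
      | q x =>
        simp [adjb] at hs
        subst hs
        exact ⟨Sum.inr (Sum.inl x), by simp [e, Sym2.eq_swap]⟩
      | _ => simp [adjb] at hs
    | p j =>
      cases v with
      | c0 => exact ⟨Sum.inl (Sum.inl j), rfl⟩
      | _ => simp [adjb] at hs
    | q x =>
      cases v with
      | c k =>
        simp [adjb] at hs
        subst hs
        exact ⟨Sum.inr (Sum.inl x), rfl⟩
      | r y =>
        simp [adjb] at hs
        subst hs
        exact ⟨Sum.inl (Sum.inr x), by simp [e, Sym2.eq_swap]⟩
      | _ => simp [adjb] at hs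
    | r y =>
      cases v with
      | q x =>
        simp [adjb] at hs
        subst hs
        exact ⟨Sum.inl (Sum.inr x), rfl⟩
      | _ => simp [adjb] at hs

theorem card_edges : (T n).edgeFinset.card = 5 * n + 2 := by
  have h : (T n).edgeFinset = Finset.univ.image (e (n := n)) := by
    ext s
    rw [SimpleGraph.mem_edgeFinset, Finset.mem_image]
    constructor
    · intro hs
      obtain ⟨a, ha⟩ := e_surj s hs
      exact ⟨a, Finset.mem_univ _, ha⟩
    · rintro ⟨a, _, rfl⟩
      exact e_mem a
  rw [h, Finset.card_image_of_injective _ e_inj, Finset.card_univ]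
  simp only [Fintype.card_sum, Fintype.card_prod, Fintype.card_bool, Fintype.card_fin]
  omega

section sums
variable (f : Sym2 (W n) → ℕ)

theorem sum_r (x : Bool × Fin n) :
    ∑ w ∈ (T n).neighborFinset (r x), f s(r x, w) = f (e (Sum.inl (Sum.inr x))) := by
  rw [N_r, Finset.sum_singleton]; rfl

theorem sum_p (j : Fin n) :
    ∑ w ∈ (T n).neighborFinset (p j), f s(p j, w) = f (e (Sum.inl (Sum.inl j))) := by
  rw [N_p, Finset.sum_singleton]; rfl

theorem sum_q (x : Bool × Fin n) :
    ∑ w ∈ (T n).neighborFinset (q x), f s(q x, w) =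
      f (e (Sum.inl (Sum.inr x))) + f (e (Sum.inr (Sum.inl x))) := by
  rw [N_q, Finset.sum_pair (by simp), add_comm]
  congr 2
  simp [e, Sym2.eq_swap]

theorem sum_c (k : Bool) :
    ∑ w ∈ (T n).neighborFinset (c k), f s(c k, w) =
      (∑ i, f (e (Sum.inr (Sum.inl (k, i))))) + f (e (Sum.inr (Sum.inr k))) := by
  rw [N_c, Finset.sum_insert (by simp), Finset.sum_image (by intro a _ b _ h; simpa using h), add_comm]
  congr 1
  refine Finset.sum_congr rfl (fun i _ => ?_)
  congr 1
  simp [e, Sym2.eq_swap]

theorem sum_c0 :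
    ∑ w ∈ (T n).neighborFinset c0, f s(c0, w) =
      (∑ j, f (e (Sum.inl (Sum.inl j)))) + (f (e (Sum.inr (Sum.inr false))) + f (e (Sum.inr (Sum.inr true)))) := by
  rw [N_c0, Finset.sum_union, Finset.sum_image (by intro a _ b _ h; simpa using h),
    Finset.sum_image (by intro a _ b _ h; simpa using h), add_comm]
  · congr 1
    · refine Finset.sum_congr rfl (fun i _ => ?_)
      congr 1
      simp [e, Sym2.eq_swap]
    · rw [Fintype.sum_bool, add_comm]
      congr 2 <;> simp [e, Sym2.eq_swap]
  · rw [Finset.disjoint_left]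
    intro w h1 h2
    simp only [Finset.mem_image, Finset.mem_univ, true_and] at h1 h2
    obtain ⟨k, rfl⟩ := h1
    obtain ⟨j, hj⟩ := h2
    simp at hj

end sums

theorem deg_r (x : Bool × Fin n) : (T n).degree (r x) = 1 := by
  rw [← SimpleGraph.card_neighborFinset_eq_degree, N_r, Finset.card_singleton]

theorem deg_p (j : Fin n) : (T n).degree (p j) = 1 := by
  rw [← SimpleGraph.card_neighborFinset_eq_degree, N_p, Finset.card_singleton]

theorem deg_q (x : Bool × Fin n) : (T n).degree (q x) = 2 := by
  rw [← SimpleGraph.card_neighborFinset_eq_degree, N_q, Finset.card_pair (by simp)]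

theorem deg_c (k : Bool) : (T n).degree (c k) = n + 1 := by
  rw [← SimpleGraph.card_neighborFinset_eq_degree, N_c, Finset.card_insert_of_notMem (by simp),
    Finset.card_image_of_injective _ (by intro a b h; simpa using h), Finset.card_univ, Fintype.card_fin]

theorem deg_c0 : (T n).degree c0 = n + 2 := by
  rw [← SimpleGraph.card_neighborFinset_eq_degree, N_c0, Finset.card_union_of_disjoint,
    Finset.card_image_of_injective _ (by intro a b h; simpa using h),
    Finset.card_image_of_injective _ (by intro a b h; simpa using h), Finset.card_univ, Finset.card_univ,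
    Fintype.card_fin, Fintype.card_bool, add_comm]
  rw [Finset.disjoint_left]
  intro w h1 h2
  simp only [Finset.mem_image, Finset.mem_univ, true_and] at h1 h2
  obtain ⟨k, rfl⟩ := h1
  obtain ⟨j, hj⟩ := h2
  simp at hj

/-- No strongly antimagic labeling. -/
theorem no_strong (hn : 25 ≤ n) (f : Sym2 (W n) → ℕ)
    (hb : Set.BijOn f (T n).edgeSet (Set.Icc 1 (T n).edgeFinset.card))
    (hi : Function.Injective (fun v : W n => ∑ w ∈ (T n).neighborFinset v, f s(v, w)))
    (hm : ∀ u v : W n, (T n).degree u < (T n).degree v →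
      (∑ w ∈ (T n).neighborFinset u, f s(u, w)) < (∑ w ∈ (T n).neighborFinset v, f s(v, w))) :
    False := by
  rw [card_edges] at hb
  set P : Fin n → ℕ := fun j => f (e (Sum.inl (Sum.inl j))) with hP
  set A : Bool × Fin n → ℕ := fun x => f (e (Sum.inl (Sum.inr x))) with hA
  set B : Bool × Fin n → ℕ := fun x => f (e (Sum.inr (Sum.inl x))) with hB
  set C : Bool → ℕ := fun k => f (e (Sum.inr (Sum.inr k))) with hC
  have hlab : Sum.elim (Sum.elim P A) (Sum.elim B C) = fun a => f (e a) := by
    funext a
    rcases a with (j | x) | (x | k) <;> rfl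
  -- the leaf maximum
  set M : ℕ := (Finset.univ : Finset (Fin n ⊕ (Bool × Fin n))).sup (Sum.elim P A) with hM
  have hne : (Finset.univ : Finset (Fin n ⊕ (Bool × Fin n))).Nonempty :=
    ⟨Sum.inl ⟨0, by omega⟩, Finset.mem_univ _⟩
  obtain ⟨a0, -, ha0⟩ := Finset.exists_mem_eq_sup _ hne (Sum.elim P A)
  refine core n hn P A B C M ?_ ?_ ?_ ?_ ?_ ?_ ?_
  · rw [hlab]
    intro a b h
    exact e_inj (hb.injOn (e_mem a) (e_mem b) h)
  · rw [hlab]
    intro y
    constructor
    · rintro ⟨a, rfl⟩
      exact hb.mapsTo (e_mem a)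
    · intro hy
      obtain ⟨s, hs, hsy⟩ := hb.surjOn hy
      obtain ⟨a, rfl⟩ := e_surj s hs
      exact ⟨a, hsy⟩
  · intro x
    exact Finset.le_sup (f := Sum.elim P A) (Finset.mem_univ (Sum.inr x))
  · intro j
    exact Finset.le_sup (f := Sum.elim P A) (Finset.mem_univ (Sum.inl j))
  · intro x
    rw [hM, ha0]
    rcases a0 with j | y
    · have := hm (p j) (q x) (by rw [deg_p, deg_q]; norm_num)
      rwa [sum_p, sum_q] at this
    · have := hm (r y) (q x) (by rw [deg_r, deg_q]; norm_num)
      rwa [sum_r, sum_q] at this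
  · intro x y h
    have : (fun v : W n => ∑ w ∈ (T n).neighborFinset v, f s(v, w)) (q x) =
        (fun v : W n => ∑ w ∈ (T n).neighborFinset v, f s(v, w)) (q y) := by
      simp only [sum_q]
      exact h
    have := hi this
    simpa using this
  · intro k
    have := hm (c k) c0 (by rw [deg_c, deg_c0]; omega)
    rwa [sum_c, sum_c0] at this

end Pool.Agent.R236.Anti
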