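import Pool.Agent.R236.AntiGraph

set_option autoImplicit false

/-! An explicit antimagic labeling of the tree with `n = 25` (127 edges). -/

namespace Pool.Agent.R236.Anti

open W

abbrev ET := (Fin 25 ⊕ (Bool × Fin 25)) ⊕ ((Bool × Fin 25) ⊕ Bool)

def o (k : Bool) : ℕ := if k then 25 else 0

def lab0 : ET → ℕ
  | Sum.inl (Sum.inl j) => 51 + j.val
  | Sum.inl (Sum.inr x) => 1 + o x.1 + x.2.val
  | Sum.inr (Sum.inl x) => 76 + o x.1 + x.2.val
  | Sum.inr (Sum.inr k) => if k then 127 else 126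

theorem lab0_inj : Function.Injective lab0 := by
  intro a b h
  rcases a with (j | ⟨k, i⟩) | (⟨k, i⟩ | k) <;> rcases b with (j' | ⟨k', i'⟩) | (⟨k', i'⟩ | k') <;>
    (try cases k) <;> (try cases k') <;> simp [lab0, o, Fin.ext_iff] at h ⊢ <;> omega

theorem lab0_range (a : ET) : 1 ≤ lab0 a ∧ lab0 a ≤ 127 := by
  rcases a with (j | ⟨k, i⟩) | (⟨k, i⟩ | k) <;>
    (try cases k) <;> simp [lab0, o] <;> omega

noncomputable def f0 : Sym2 (W 25) → ℕ := Function.extend e lab0 0

theorem f0_e (a : ET) : f0 (e a) = lab0 a := e_inj.extend_apply _ _ _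

theorem f0_bij : Set.BijOn f0 (T 25).edgeSet (Set.Icc 1 (T 25).edgeFinset.card) := by
  rw [card_edges]
  refine ⟨?_, ?_, ?_⟩
  · intro s hs
    obtain ⟨a, rfl⟩ := e_surj s hs
    rw [f0_e]
    exact lab0_range a
  · intro s hs t ht h
    obtain ⟨a, rfl⟩ := e_surj s hs
    obtain ⟨b, rfl⟩ := e_surj t ht
    rw [f0_e, f0_e] at h
    rw [lab0_inj h]
  · intro y hy
    have h1 : Finset.univ.image lab0 = Finset.Icc 1 127 := by
      apply Finset.eq_of_subset_of_card_le
      · intro z hz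
        rw [Finset.mem_image] at hz
        obtain ⟨a, -, rfl⟩ := hz
        rw [Finset.mem_Icc]
        exact lab0_range a
      · rw [Finset.card_image_of_injective _ lab0_inj, Finset.card_univ]
        simp
    have h2 : y ∈ Finset.Icc 1 127 := by
      rw [Finset.mem_Icc]; exact hy
    rw [← h1, Finset.mem_image] at h2
    obtain ⟨a, -, ha⟩ := h2
    exact ⟨e a, e_mem a, by rw [f0_e, ha]⟩

theorem sum_fin (s : ℕ) : ∑ i : Fin 25, (s + i.val) = 25 * s + 300 := by
  rw [Finset.sum_add_distrib, Finset.sum_const, Finset.card_univ, Fintype.card_fin, smul_eq_mul]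
  congr 1

theorem val_c0 : ∑ w ∈ (T 25).neighborFinset c0, f0 s(c0, w) = 1828 := by
  rw [sum_c0]
  simp only [f0_e, lab0, sum_fin]
  norm_num

theorem val_c (k : Bool) : ∑ w ∈ (T 25).neighborFinset (c k), f0 s(c k, w) =
    if k then 2952 else 2326 := by
  rw [sum_c]
  simp only [f0_e, lab0, sum_fin]
  cases k <;> simp [o]

theorem f0_inj : Function.Injective (fun v : W 25 => ∑ w ∈ (T 25).neighborFinset v, f0 s(v, w)) := by
  intro u v h
  simp only at h
  rcases u with _ | k | j | ⟨k, i⟩ | ⟨k, i⟩ <;> rcases v with _ | k' | j' | ⟨k', i'⟩ | ⟨k', i'⟩ <;>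
    simp only [val_c0, val_c, sum_p, sum_q, sum_r, f0_e, lab0] at h <;>
    (try cases k) <;> (try cases k') <;> simp [o, Fin.ext_iff] at h ⊢ <;> omega

end Pool.Agent.R236.Anti
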