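import Mathlib

set_option autoImplicit false
open Filter Topology MeasureTheory

namespace Pool.Agent.R236.Cogen

/-- If `f` is close to a derivative `G'` then its integral is small. -/
lemma norm_integral_le_of_deriv {a b : ℝ} (hab : a ≤ b) {f G G' : ℝ → ℂ} {q : ℝ → ℝ} {M B : ℝ}
    (hf : Continuous f) (hG : ∀ x, HasDerivAt G (G' x) x) (hG' : Continuous G')
    (hq : Continuous q)
    (hM : ∀ x, ‖G x‖ ≤ M) (hfG : ∀ x ∈ Set.Icc a b, ‖f x - G' x‖ ≤ q x)
    (hB : ∫ x in a..b, q x ≤ B) :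
    ‖∫ x in a..b, f x‖ ≤ 2 * M + B := by
  have h1 : ∫ x in a..b, G' x = G b - G a :=
    intervalIntegral.integral_eq_sub_of_hasDerivAt (fun x _ => hG x) (hG'.intervalIntegrable _ _)
  have h2 : ∫ x in a..b, f x = (∫ x in a..b, (f x - G' x)) + (G b - G a) := by
    rw [← h1, ← intervalIntegral.integral_add]
    · simp
    · exact (hf.sub hG').intervalIntegrable _ _
    · exact hG'.intervalIntegrable _ _
  have h3 : ‖∫ x in a..b, (f x - G' x)‖ ≤ ∫ x in a..b, q x :=
    intervalIntegral.norm_integral_le_of_norm_le hab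
      (Filter.Eventually.of_forall fun x hx => hfG x (Set.Ioc_subset_Icc_self hx))
      (hq.intervalIntegrable _ _)
  rw [h2]
  calc ‖(∫ x in a..b, (f x - G' x)) + (G b - G a)‖
      ≤ ‖∫ x in a..b, (f x - G' x)‖ + ‖G b - G a‖ := norm_add_le _ _
    _ ≤ B + (‖G b‖ + ‖G a‖) := by
        gcongr
        · exact h3.trans hB
        · exact norm_sub_le _ _
    _ ≤ 2 * M + B := by linarith [hM a, hM b]

/-- The phase `r x - 2 n arctan x`. -/
noncomputable def ph (n : ℕ) (r x : ℝ) : ℝ := r * x - 2 * n * Real.arctan x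

/-- The oscillating function `exp (i (r x - 2 n arctan x))`. -/
noncomputable def osc (n : ℕ) (r x : ℝ) : ℂ := Complex.exp ((ph n r x : ℝ) * Complex.I)

noncomputable def ph1 (n : ℕ) (r x : ℝ) : ℝ := r - 2 * n / (1 + x ^ 2)
noncomputable def ph2 (n : ℕ) (x : ℝ) : ℝ := 4 * n * x / (1 + x ^ 2) ^ 2

lemma one_add_sq_pos (x : ℝ) : 0 < 1 + x ^ 2 := by positivity
lemma one_add_sq_ne (x : ℝ) : (1 + x ^ 2) ≠ 0 := (one_add_sq_pos x).ne'

lemma hasDerivAt_ph (n : ℕ) (r x : ℝ) : HasDerivAt (ph n r) (ph1 n r x) x := by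
  have h1 : HasDerivAt (fun x : ℝ => r * x) r x := by
    simpa using (hasDerivAt_id x).const_mul r
  have h2 := (Real.hasDerivAt_arctan x).const_mul (2 * (n : ℝ))
  have h3 := h1.sub h2
  convert! h3 using 1
  rw [ph1]
  ring

lemma hasDerivAt_ph1 (n : ℕ) (r x : ℝ) : HasDerivAt (ph1 n r) (ph2 n x) x := by
  have h1 : HasDerivAt (fun x : ℝ => 1 + x ^ 2) (2 * x) x := by
    have := (hasDerivAt_pow 2 x).const_add 1
    simpa using this
  have h2 := (h1.inv (one_add_sq_ne x)).const_mul (2 * (n : ℝ))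
  have h3 := h2.const_sub r
  convert! h3 using 1
  rw [ph2]
  have := one_add_sq_ne x
  field_simp
  ring

lemma continuous_ph (n : ℕ) (r : ℝ) : Continuous (ph n r) :=
  continuous_iff_continuousAt.2 fun x => (hasDerivAt_ph n r x).continuousAt
lemma continuous_ph1 (n : ℕ) (r : ℝ) : Continuous (ph1 n r) :=
  continuous_iff_continuousAt.2 fun x => (hasDerivAt_ph1 n r x).continuousAt
lemma continuous_ph2 (n : ℕ) : Continuous (ph2 n) := by
  unfold ph2
  refine Continuous.div (by fun_prop) (by fun_prop) fun x => ?_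
  exact pow_ne_zero _ (one_add_sq_ne x)
lemma continuous_osc (n : ℕ) (r : ℝ) : Continuous (osc n r) := by
  unfold osc
  have := continuous_ph n r
  fun_prop

lemma norm_osc (n : ℕ) (r x : ℝ) : ‖osc n r x‖ = 1 := by
  unfold osc
  exact Complex.norm_exp_ofReal_mul_I _

lemma hasDerivAt_osc (n : ℕ) (r x : ℝ) :
    HasDerivAt (osc n r) ((ph1 n r x : ℝ) * Complex.I * osc n r x) x := by
  have h1 := ((hasDerivAt_ph n r x).ofReal_comp.mul_const Complex.I).cexp
  convert! h1 using 1
  rw [osc]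
  ring

/-- Uniform decay (van der Corput, second derivative). -/
lemma norm_integral_osc_le {n : ℕ} (hn : 1 ≤ n) (r : ℝ) :
    ‖∫ x in (1:ℝ)..2, osc n r x‖ ≤ 16 / Real.sqrt n := by
  have hn0 : (0 : ℝ) < n := by exact_mod_cast hn
  set l : ℝ := 8 * n / 25 with hl
  have hl0 : 0 < l := by positivity
  set A : ℝ := Real.sqrt l with hA
  have hA0 : 0 < A := Real.sqrt_pos.2 hl0
  have hA2 : A ^ 2 = l := Real.sq_sqrt hl0.le
  have hden : ∀ x, 0 < A ^ 2 + ph1 n r x ^ 2 := fun x => by positivity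
  have hden' : ∀ x, A ^ 2 + ph1 n r x ^ 2 ≠ 0 := fun x => (hden x).ne'
  -- the weight
  set w : ℝ → ℝ := fun x => ph1 n r x / (A ^ 2 + ph1 n r x ^ 2) with hw
  set w' : ℝ → ℝ := fun x => ph2 n x * (A ^ 2 - ph1 n r x ^ 2) / (A ^ 2 + ph1 n r x ^ 2) ^ 2 with hw'
  have hwd : ∀ x, HasDerivAt w (w' x) x := by
    intro x
    have h1 := hasDerivAt_ph1 n r x
    have h2 : HasDerivAt (fun x => A ^ 2 + ph1 n r x ^ 2) (2 * ph1 n r x * ph2 n x) x := by
      have := (h1.pow 2).const_add (A ^ 2)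
      convert! this using 1
      simp
    have h3 := h1.div h2 (hden' x)
    convert! h3 using 1
    simp only [hw']
    congr 1
    ring
  have hwb : ∀ x, |w x| ≤ 1 / (2 * A) := by
    intro x
    simp only [hw, abs_div, abs_of_pos (hden x)]
    rw [div_le_div_iff₀ (hden x) (by positivity)]
    nlinarith [sq_nonneg (|ph1 n r x| - A), sq_abs (ph1 n r x)]
  have cph1 := continuous_ph1 n r
  have cph2 := continuous_ph2 n
  have cosc := continuous_osc n r
  have hwc' : Continuous w' := by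
    simp only [hw']
    exact Continuous.div (by fun_prop) (by fun_prop) fun x => pow_ne_zero _ (hden' x)
  have hwc : Continuous w := by
    simp only [hw]
    exact Continuous.div (by fun_prop) (by fun_prop) fun x => hden' x
  set q : ℝ → ℝ := fun x => ph2 n x / (A ^ 2 + ph1 n r x ^ 2) with hq
  have hqc : Continuous q := by
    simp only [hq]
    exact Continuous.div (by fun_prop) (by fun_prop) fun x => hden' x
  have hqd : ∀ x, HasDerivAt (fun x => (1 / A) * Real.arctan (ph1 n r x / A)) (q x) x := by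
    intro x
    have h1 := ((hasDerivAt_ph1 n r x).div_const A).arctan.const_mul (1 / A)
    convert! h1 using 1
    simp only [hq]
    have := hden' x
    field_simp
  have hph2 : ∀ x ∈ Set.Icc (1:ℝ) 2, l ≤ ph2 n x := by
    intro x hx
    rw [ph2, hl, div_le_div_iff₀ (by norm_num) (by positivity)]
    have h1 : 1 ≤ x := hx.1
    have h2 : x ≤ 2 := hx.2
    have : 8 * (1 + x ^ 2) ^ 2 ≤ 100 * x := by nlinarith [mul_nonneg (sub_nonneg.2 h1) (sub_nonneg.2 h2), mul_nonneg (mul_nonneg (sub_nonneg.2 h1) (sub_nonneg.2 h2)) (by positivity : (0:ℝ) ≤ x ^ 2 ), mul_nonneg (mul_nonneg (sub_nonneg.2 h1) (sub_nonneg.2 h2)) (by positivity : (0:ℝ) ≤ x )]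
    nlinarith
  have key := norm_integral_le_of_deriv (a := 1) (b := 2) (by norm_num)
    (f := osc n r) (G := fun x => -Complex.I * (w x : ℂ) * osc n r x)
    (G' := fun x => -Complex.I * (w' x : ℂ) * osc n r x + (w x : ℂ) * (ph1 n r x : ℂ) * osc n r x)
    (q := fun x => 2 * q x) (M := 1 / (2 * A)) (B := 2 * Real.pi / A) cosc
    ?_ (by fun_prop) (by fun_prop) ?_ ?_ ?_
  · refine key.trans ?_
    have hs : 0 < Real.sqrt n := Real.sqrt_pos.2 hn0
    have h1 : 2 * (1 / (2 * A)) + 2 * Real.pi / A = (1 + 2 * Real.pi) / A := by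
      field_simp
    rw [h1, div_le_div_iff₀ hA0 hs]
    have h2 : (0.5 : ℝ) * Real.sqrt n ≤ A := by
      rw [hA]
      refine Real.le_sqrt_of_sq_le ?_
      rw [mul_pow, Real.sq_sqrt hn0.le, hl]
      nlinarith
    have hpi := Real.pi_lt_d2
    nlinarith [Real.pi_pos]
  · intro x
    have h1 := ((hwd x).ofReal_comp.const_mul (-Complex.I)).mul (hasDerivAt_osc n r x)
    convert! h1 using 1
    have := Complex.I_sq
    linear_combination ((w x : ℂ) * (ph1 n r x : ℂ) * osc n r x) * this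
  · intro x
    simp only [norm_mul, norm_neg, Complex.norm_I, one_mul, norm_osc, mul_one, Complex.norm_real,
      Real.norm_eq_abs]
    exact hwb x
  · intro x hx
    have hx2 := hph2 x hx
    have e1 : osc n r x - (-Complex.I * (w' x : ℂ) * osc n r x
        + (w x : ℂ) * (ph1 n r x : ℂ) * osc n r x)
        = (((A ^ 2 / (A ^ 2 + ph1 n r x ^ 2) : ℝ) : ℂ) + Complex.I * (w' x : ℂ)) * osc n r x := by
      have h4 : ((A ^ 2 / (A ^ 2 + ph1 n r x ^ 2) : ℝ) : ℂ) = 1 - (w x : ℂ) * (ph1 n r x : ℂ) := by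
        have h5 : A ^ 2 / (A ^ 2 + ph1 n r x ^ 2) = 1 - w x * ph1 n r x := by
          simp only [hw]
          have := hden' x
          field_simp
          ring
        rw [h5]
        push_cast
        ring
      rw [h4]
      ring
    rw [e1, norm_mul, norm_osc, mul_one]
    refine (norm_add_le _ _).trans ?_
    rw [norm_mul, Complex.norm_I, one_mul, Complex.norm_real, Complex.norm_real,
      Real.norm_eq_abs, Real.norm_eq_abs]
    have h6 : |A ^ 2 / (A ^ 2 + ph1 n r x ^ 2)| ≤ q x := by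
      rw [abs_of_pos (by positivity)]
      simp only [hq]
      gcongr
      rw [hA2]
      exact hx2
    have h7 : |w' x| ≤ q x := by
      simp only [hw', hq, abs_div, abs_mul, abs_pow]
      rw [abs_of_pos (hden x), abs_of_pos (hl0.trans_le hx2), div_le_div_iff₀ (by positivity) (hden x)]
      have h8 : |A ^ 2 - ph1 n r x ^ 2| ≤ A ^ 2 + ph1 n r x ^ 2 := by
        rw [abs_le]
        constructor <;> nlinarith [sq_nonneg A, sq_nonneg (ph1 n r x)]
      have h9 : 0 < ph2 n x := hl0.trans_le hx2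
      calc ph2 n x * |A ^ 2 - ph1 n r x ^ 2| * (A ^ 2 + ph1 n r x ^ 2)
          ≤ ph2 n x * (A ^ 2 + ph1 n r x ^ 2) * (A ^ 2 + ph1 n r x ^ 2) := by gcongr
        _ = ph2 n x * (A ^ 2 + ph1 n r x ^ 2) ^ 2 := by ring
    linarith
  · rw [intervalIntegral.integral_const_mul,
      intervalIntegral.integral_eq_sub_of_hasDerivAt (fun x _ => hqd x) (hqc.intervalIntegrable _ _)]
    have h1 := Real.arctan_lt_pi_div_two (ph1 n r 2 / A)
    have h2 := Real.neg_pi_div_two_lt_arctan (ph1 n r 1 / A)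
    have : 2 * (1 / A * Real.arctan (ph1 n r 2 / A) - 1 / A * Real.arctan (ph1 n r 1 / A))
      = 2 * (Real.arctan (ph1 n r 2 / A) - Real.arctan (ph1 n r 1 / A)) / A := by ring
    rw [this]
    gcongr
    linarith

/-- Decay for large `r`. -/
lemma norm_integral_osc_le' (n : ℕ) {r : ℝ} (hr : r ≠ 0) :
    ‖∫ x in (1:ℝ)..2, osc n r x‖ ≤ (n + 2) / |r| := by
  have cph1 := continuous_ph1 n r
  have cosc := continuous_osc n r
  have hr' : 0 < |r| := abs_pos.2 hr
  have hrc : (r : ℂ) ≠ 0 := by exact_mod_cast hr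
  have key := norm_integral_le_of_deriv (a := 1) (b := 2) (by norm_num)
    (f := osc n r) (G := fun x => -Complex.I / (r : ℂ) * osc n r x)
    (G' := fun x => ((ph1 n r x : ℂ) / r) * osc n r x)
    (q := fun _ => n / |r|) (M := 1 / |r|) (B := n / |r|) cosc
    ?_ (by fun_prop) (by fun_prop) ?_ ?_ ?_
  · refine key.trans (le_of_eq ?_)
    ring
  · intro x
    have h1 := (hasDerivAt_osc n r x).const_mul (-Complex.I / (r : ℂ))
    convert! h1 using 1
    have := Complex.I_sq
    field_simp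
    linear_combination ((ph1 n r x : ℂ) * osc n r x) * this
  · intro x
    simp [norm_osc]
  · intro x hx
    have e1 : osc n r x - ((ph1 n r x : ℂ) / r) * osc n r x
      = (((2 * n / (1 + x ^ 2) : ℝ) : ℂ) / r) * osc n r x := by
      rw [ph1]
      push_cast
      field_simp
      ring
    rw [e1, norm_mul, norm_osc, mul_one, norm_div, Complex.norm_real, Complex.norm_real,
      Real.norm_eq_abs, Real.norm_eq_abs]
    gcongr
    rw [abs_of_nonneg (by positivity), div_le_iff₀ (one_add_sq_pos x)]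
    have h1 : 1 ≤ x := hx.1
    have h2 : (0 : ℝ) ≤ n := Nat.cast_nonneg n
    have h3 : (1 : ℝ) ≤ x ^ 2 := one_le_pow₀ h1
    nlinarith [mul_nonneg h2 (sub_nonneg.2 h3)]
  · simp
    norm_num

end Pool.Agent.R236.Cogen
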