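import Pool.Agent.R236.CogenA

set_option autoImplicit false
open Filter Topology MeasureTheory

namespace Pool.Agent.R236.Cogen

/-- The frequencies `64 ^ (k + 1)`. -/
def fr (k : ℕ) : ℤ := 64 ^ (k + 1)

/-- The real frequencies. -/
noncomputable def om (k : ℕ) : ℝ := 2 * Real.pi * (fr k : ℝ)

/-- The Riesz products. -/
noncomputable def P : ℕ → ℝ → ℝ
  | 0 => fun _ => 1
  | (k + 1) => fun x => P k x * (1 + Real.cos (om k * x))

lemma P_nonneg (k : ℕ) (x : ℝ) : 0 ≤ P k x := by
  induction k with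
  | zero => simp [P]
  | succ k ih =>
    simp only [P]
    have := Real.neg_one_le_cos (om k * x)
    exact mul_nonneg ih (by linarith)

lemma continuous_P (k : ℕ) : Continuous (P k) := by
  induction k with
  | zero => simp only [P]; fun_prop
  | succ k ih => simp only [P]; fun_prop

/-- The oscillatory integrals against Riesz products. -/
noncomputable def J (n k : ℕ) (r : ℝ) : ℂ := ∫ x in (1:ℝ)..2, (P k x : ℂ) * osc n r x

lemma osc_add (n : ℕ) (r s x : ℝ) : osc n (r + s) x = osc n r x * Complex.exp ((s * x : ℝ) * Complex.I) := by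
  rw [osc, osc, ← Complex.exp_add]
  congr 1
  simp only [ph]
  push_cast
  ring

lemma J_succ (n k : ℕ) (r : ℝ) :
    J n (k + 1) r = J n k r + 1 / 2 * J n k (r + om k) + 1 / 2 * J n k (r - om k) := by
  have c1 := continuous_P k
  have c2 : ∀ r, Continuous (osc n r) := continuous_osc n
  have hi : ∀ r, IntervalIntegrable (fun x => (P k x : ℂ) * osc n r x) volume (1:ℝ) 2 := fun r =>
    Continuous.intervalIntegrable (by have := c2 r; fun_prop) _ _
  unfold J
  rw [← intervalIntegral.integral_const_mul, ← intervalIntegral.integral_const_mul,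
    ← intervalIntegral.integral_add (hi r) ((hi _).const_mul _),
    ← intervalIntegral.integral_add ((hi r).add ((hi _).const_mul _)) ((hi _).const_mul _)]
  refine intervalIntegral.integral_congr fun x _ => ?_
  simp only [P]
  rw [sub_eq_add_neg, osc_add, osc_add]
  have h : ((Real.cos (om k * x) : ℝ) : ℂ)
      = 1 / 2 * Complex.exp ((om k * x : ℝ) * Complex.I) + 1 / 2 * Complex.exp ((-om k * x : ℝ) * Complex.I) := by
    rw [Complex.ofReal_cos, Complex.cos]
    push_cast
    ring_nf
  push_cast at h ⊢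
  rw [h]
  ring

lemma J_zero (n : ℕ) (r : ℝ) : J n 0 r = ∫ x in (1:ℝ)..2, osc n r x := by
  simp [J, P]

/-- Uniform bound. -/
lemma norm_J_le {n : ℕ} (hn : 1 ≤ n) (k : ℕ) (r : ℝ) : ‖J n k r‖ ≤ 2 ^ k * (16 / Real.sqrt n) := by
  induction k generalizing r with
  | zero => simpa [J_zero] using norm_integral_osc_le hn r
  | succ k ih =>
    rw [J_succ]
    have h1 := ih r
    have h2 := ih (r + om k)
    have h3 := ih (r - om k)
    refine (norm_add₃_le).trans ?_
    rw [norm_mul, norm_mul]
    have : ‖(1 / 2 : ℂ)‖ = 1 / 2 := by norm_num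
    rw [this, pow_succ]
    linarith

/-- The sum of the first frequencies. -/
lemma sum_fr (k : ℕ) : 63 * (∑ i ∈ Finset.range k, fr i) = 64 ^ (k + 1) - 64 := by
  induction k with
  | zero => simp
  | succ k ih =>
    rw [Finset.sum_range_succ, mul_add, ih, fr]
    ring

/-- The sum of the first real frequencies. -/
noncomputable def Om (k : ℕ) : ℝ := ∑ i ∈ Finset.range k, om i

lemma om_pos (k : ℕ) : 0 < om k := by
  unfold om fr
  push_cast
  have := Real.pi_pos
  positivity

lemma Om_succ (k : ℕ) : Om (k + 1) = Om k + om k := by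
  simp [Om, Finset.sum_range_succ]

lemma om_eq (k : ℕ) : om k = 2 * Real.pi * 64 ^ (k + 1) := by
  simp [om, fr]

lemma Om_le (k : ℕ) : 63 * Om k ≤ om k := by
  induction k with
  | zero => simp [Om, (om_pos 0).le]
  | succ k ih =>
    rw [Om_succ]
    have : om (k + 1) = 64 * om k := by
      rw [om_eq, om_eq]; ring
    rw [this]
    linarith

/-- The bound for large `r`. -/
lemma norm_J_le' (n k : ℕ) {r : ℝ} (hr : Om k < |r|) :
    ‖J n k r‖ ≤ 2 ^ k * ((n + 2) / (|r| - Om k)) := by
  induction k generalizing r with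
  | zero =>
    have h0 : Om 0 = 0 := by simp [Om]
    rw [h0] at hr ⊢
    have hr0 : r ≠ 0 := abs_pos.1 hr
    simpa [J_zero] using norm_integral_osc_le' n hr0
  | succ k ih =>
    rw [Om_succ] at hr ⊢
    have hp := om_pos k
    have hpa : |om k| = om k := abs_of_pos hp
    have a1 : |r| - om k ≤ |r + om k| := by
      have := abs_sub_abs_le_abs_sub r (-om k)
      simpa [hpa] using this
    have a2 : |r| - om k ≤ |r - om k| := by
      have := abs_sub_abs_le_abs_sub r (om k)
      simpa [hpa] using this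
    have h1 := ih (r := r) (by linarith)
    have h2 := ih (r := r + om k) (by linarith)
    have h3 := ih (r := r - om k) (by linarith)
    have hd : 0 < |r| - (Om k + om k) := by linarith
    have b1 : (n + 2 : ℝ) / (|r| - Om k) ≤ (n + 2) / (|r| - (Om k + om k)) := by
      gcongr; linarith
    have b2 : (n + 2 : ℝ) / (|r + om k| - Om k) ≤ (n + 2) / (|r| - (Om k + om k)) :=
      div_le_div_of_nonneg_left (by positivity) hd (by linarith)
    have b3 : (n + 2 : ℝ) / (|r - om k| - Om k) ≤ (n + 2) / (|r| - (Om k + om k)) :=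
      div_le_div_of_nonneg_left (by positivity) hd (by linarith)
    have c1 := h1.trans (mul_le_mul_of_nonneg_left b1 (by positivity : (0:ℝ) ≤ 2 ^ k))
    have c2 := h2.trans (mul_le_mul_of_nonneg_left b2 (by positivity : (0:ℝ) ≤ 2 ^ k))
    have c3 := h3.trans (mul_le_mul_of_nonneg_left b3 (by positivity : (0:ℝ) ≤ 2 ^ k))
    rw [J_succ]
    refine (norm_add₃_le).trans ?_
    rw [norm_mul, norm_mul]
    have : ‖(1 / 2 : ℂ)‖ = 1 / 2 := by norm_num
    rw [this, pow_succ]
    linarith

/-- The increments are uniformly small. -/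
lemma norm_J_sub_le {n : ℕ} (hn : 1 ≤ n) {k : ℕ} {r : ℝ} (hr : 4 * |r| ≤ om k) :
    ‖J n (k + 1) r - J n k r‖ ≤ 16 * (1 / 2) ^ k := by
  have hn1 : (1 : ℝ) ≤ n := by exact_mod_cast hn
  have hn0 : (0 : ℝ) < n := by linarith
  have hp := om_pos k
  have hpa : |om k| = om k := abs_of_pos hp
  have key : ∀ s : ℝ, om k - |r| ≤ |s| → ‖J n k s‖ ≤ 16 * (1 / 2) ^ k := by
    intro s hs
    rcases le_total ((16 : ℝ) ^ k) n with h | h
    · refine (norm_J_le hn k s).trans ?_
      have h1 : (4 : ℝ) ^ k ≤ Real.sqrt n := by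
        refine Real.le_sqrt_of_sq_le ?_
        rw [← pow_mul, mul_comm, pow_mul]
        norm_num
        exact h
      have h4 : (0 : ℝ) < 4 ^ k := by positivity
      calc (2:ℝ) ^ k * (16 / Real.sqrt n) ≤ 2 ^ k * (16 / 4 ^ k) := by gcongr
        _ = 16 * (1 / 2) ^ k := by
          rw [one_div, inv_pow, show (4:ℝ) = 2 * 2 by norm_num, mul_pow]
          field_simp
    · have hO := Om_le k
      have hb : om k / 2 ≤ |s| - Om k := by linarith
      refine (norm_J_le' n k (by linarith)).trans ?_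
      have h3 : (n + 2 : ℝ) ≤ 3 * 16 ^ k := by
        have : (1 : ℝ) ≤ 16 ^ k := one_le_pow₀ (by norm_num)
        linarith
      have h4 : (0:ℝ) < 32 ^ k := by positivity
      calc (2:ℝ) ^ k * ((n + 2) / (|s| - Om k)) ≤ 2 ^ k * ((3 * 16 ^ k) / (om k / 2)) := by gcongr
        _ ≤ 2 ^ k * ((3 * 16 ^ k) / (64 ^ k)) := by
          gcongr
          rw [om_eq, pow_succ]
          have h5 : (0:ℝ) < 64 ^ k := by positivity
          nlinarith [Real.pi_gt_three]
        _ = 3 * (1 / 2) ^ k := by
          rw [one_div, inv_pow, show (64:ℝ) = 2 * 2 * 16 by norm_num, mul_pow, mul_pow]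
          field_simp
        _ ≤ 16 * (1 / 2) ^ k := by gcongr; norm_num
  rw [J_succ]
  have e : J n k r + 1 / 2 * J n k (r + om k) + 1 / 2 * J n k (r - om k) - J n k r
    = 1 / 2 * J n k (r + om k) + 1 / 2 * J n k (r - om k) := by ring
  rw [e]
  have a1 : om k - |r| ≤ |r + om k| := by
    have := abs_sub_abs_le_abs_sub (om k) (-r)
    rw [abs_neg, hpa, sub_neg_eq_add, add_comm] at this
    exact this
  have a2 : om k - |r| ≤ |r - om k| := by
    have := abs_sub_abs_le_abs_sub (om k) r
    rw [hpa, abs_sub_comm] at this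
    exact this
  have h2 := key _ a1
  have h3 := key _ a2
  refine (norm_add_le _ _).trans ?_
  rw [norm_mul, norm_mul]
  have : ‖(1 / 2 : ℂ)‖ = 1 / 2 := by norm_num
  rw [this]
  linarith

lemma norm_J_add_sub_le {n : ℕ} (hn : 1 ≤ n) {K : ℕ} {r : ℝ} (hr : 4 * |r| ≤ om K) (L : ℕ) :
    ‖J n (K + L) r - J n K r‖ ≤ 32 * (1 / 2) ^ K * (1 - (1 / 2) ^ L) := by
  induction L with
  | zero => simp
  | succ L ih =>
    have hmono : om K ≤ om (K + L) := by
      rw [om_eq, om_eq]
      have := Real.pi_pos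
      gcongr
      · norm_num
      · omega
    have h1 := norm_J_sub_le hn (k := K + L) (r := r) (hr.trans hmono)
    have e : J n (K + (L + 1)) r - J n K r
      = (J n (K + L + 1) r - J n (K + L) r) + (J n (K + L) r - J n K r) := by
      rw [← add_assoc]; ring
    rw [e]
    refine (norm_add_le _ _).trans ((add_le_add h1 ih).trans (le_of_eq ?_))
    rw [pow_add, pow_succ]
    ring

/-- The integrals against all Riesz products are bounded by a quantity going to zero with `n`. -/
lemma exists_bound (r : ℝ) {ε : ℝ} (hε : 0 < ε) :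
    ∃ N : ℕ, ∃ K : ℕ, ∀ n : ℕ, N ≤ n → ∀ k : ℕ, K ≤ k → ‖J n k r‖ ≤ ε := by
  have t1 : Tendsto (fun K : ℕ => 32 * (1 / 2 : ℝ) ^ K) atTop (𝓝 0) := by
    have := (tendsto_pow_atTop_nhds_zero_of_lt_one (r := (1/2:ℝ)) (by norm_num) (by norm_num)).const_mul 32
    simpa using this
  have t2 : Tendsto om atTop atTop := by
    have h := (tendsto_pow_atTop_atTop_of_one_lt (r := (64:ℝ)) (by norm_num))
    have h' := (h.comp (tendsto_add_atTop_nat 1)).const_mul_atTop (r := 2 * Real.pi) (by positivity)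
    refine h'.congr fun k => ?_
    rw [om_eq]; rfl
  obtain ⟨K, hK1, hK2⟩ := ((t1.eventually_lt_const (show (0:ℝ) < ε / 2 by linarith)).and
    (t2.eventually_ge_atTop (4 * |r|))).exists
  have t3 : Tendsto (fun n : ℕ => (2:ℝ) ^ K * (16 / Real.sqrt n)) atTop (𝓝 0) := by
    have h1 : Tendsto (fun n : ℕ => Real.sqrt n) atTop atTop :=
      Real.tendsto_sqrt_atTop.comp tendsto_natCast_atTop_atTop
    have := (h1.const_div_atTop 16).const_mul ((2:ℝ) ^ K)
    simpa using this
  obtain ⟨N, hN⟩ := ((t3.eventually_lt_const (show (0:ℝ) < ε / 2 by linarith)).and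
    (eventually_ge_atTop 1)).exists_forall_of_atTop
  refine ⟨N, K, fun n hn k hk => ?_⟩
  obtain ⟨L, rfl⟩ := Nat.exists_eq_add_of_le hk
  have h1 := norm_J_add_sub_le (hN n hn).2 hK2 L
  have h2 := norm_J_le (hN n hn).2 K r
  have h3 := (hN n hn).1
  have h4 : (0:ℝ) < (1/2) ^ L := by positivity
  have h5 : (0:ℝ) < (1/2) ^ K := by positivity
  have h6 : ‖J n (K + L) r‖ ≤ ‖J n (K + L) r - J n K r‖ + ‖J n K r‖ := by
    have := norm_add_le (J n (K + L) r - J n K r) (J n K r)
    simpa using this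
  have h7 : 32 * (1 / 2 : ℝ) ^ K * (1 - (1 / 2) ^ L) ≤ 32 * (1 / 2) ^ K := by
    nlinarith [mul_pos h4 h5]
  linarith

/-! ### Exact values for `n = 0` -/

lemma J_zero_int (j : ℤ) : J 0 0 (2 * Real.pi * j) = if j = 0 then 1 else 0 := by
  rw [J_zero]
  by_cases hj : j = 0
  · subst hj
    have h : ∀ x, osc 0 (2 * Real.pi * ((0:ℤ):ℝ)) x = 1 := by
      intro x; simp [osc, ph]
    simp_rw [h]
    simp
    norm_num
  · rw [if_neg hj]
    have h1 : ∀ x, osc 0 (2 * Real.pi * (j:ℝ)) x = Complex.exp ((2 * Real.pi * j * Complex.I) * x) := by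
      intro x
      simp only [osc, ph]
      push_cast
      congr 1
      ring
    simp_rw [h1]
    have hc : (2 * Real.pi * j * Complex.I : ℂ) ≠ 0 := by
      have : (Real.pi : ℂ) ≠ 0 := by exact_mod_cast Real.pi_ne_zero
      have : (j : ℂ) ≠ 0 := by exact_mod_cast hj
      simp [*, Complex.I_ne_zero]
    rw [integral_exp_mul_complex hc]
    have e1 : Complex.exp (2 * Real.pi * j * Complex.I * ((2:ℝ):ℂ)) = 1 := by
      rw [Complex.exp_eq_one_iff]
      exact ⟨2 * j, by push_cast; ring⟩
    have e2 : Complex.exp (2 * Real.pi * j * Complex.I * ((1:ℝ):ℂ)) = 1 := by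
      rw [Complex.exp_eq_one_iff]
      exact ⟨j, by push_cast; ring⟩
    rw [e1, e2]
    simp

/-- The sum of the first frequencies. -/
def S (k : ℕ) : ℤ := ∑ i ∈ Finset.range k, fr i

lemma S_succ (k : ℕ) : S (k + 1) = S k + fr k := by
  simp [S, Finset.sum_range_succ]

lemma fr_pos (k : ℕ) : 0 < fr k := by unfold fr; positivity

lemma S_lt (k : ℕ) : 63 * S k < fr k := by
  have h : 63 * S k = 64 ^ (k + 1) - 64 := sum_fr k
  rw [h, fr]
  linarith

lemma fr_mono {j k : ℕ} (h : j < k) : 64 * fr j ≤ fr k := by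
  unfold fr
  calc (64:ℤ) * 64 ^ (j + 1) = 64 ^ (j + 1 + 1) := by ring
    _ ≤ 64 ^ (k + 1) := by
      apply pow_le_pow_right₀ (by norm_num)
      omega

lemma J_int_succ (k : ℕ) (j : ℤ) :
    J 0 (k + 1) (2 * Real.pi * j) = J 0 k (2 * Real.pi * j)
      + 1 / 2 * J 0 k (2 * Real.pi * ((j + fr k : ℤ) : ℝ))
      + 1 / 2 * J 0 k (2 * Real.pi * ((j - fr k : ℤ) : ℝ)) := by
  rw [J_succ, om]
  push_cast
  rw [mul_add, mul_sub]

lemma J_int_eq_zero (k : ℕ) (j : ℤ) (hj : S k < |j|) : J 0 k (2 * Real.pi * j) = 0 := by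
  induction k generalizing j with
  | zero =>
    rw [J_zero_int, if_neg]
    rintro rfl
    simp [S] at hj
  | succ k ih =>
    rw [S_succ] at hj
    have hp := fr_pos k
    have hpa : |fr k| = fr k := abs_of_pos hp
    have a1 : |j| - fr k ≤ |j + fr k| := by
      have := abs_sub_abs_le_abs_sub j (-fr k)
      simpa [hpa] using this
    have a2 : |j| - fr k ≤ |j - fr k| := by
      have := abs_sub_abs_le_abs_sub j (fr k)
      simpa [hpa] using this
    rw [J_int_succ, ih j (by linarith), ih _ (by linarith), ih _ (by linarith)]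
    simp

lemma J_int_zero (k : ℕ) : J 0 k (2 * Real.pi * ((0:ℤ):ℝ)) = 1 := by
  induction k with
  | zero => rw [J_zero_int]; simp
  | succ k ih =>
    have h0 : 0 ≤ S k := Finset.sum_nonneg fun i _ => (fr_pos i).le
    have h := S_lt k
    have hp := fr_pos k
    rw [J_int_succ, ih, J_int_eq_zero k _ (by rw [zero_add, abs_of_pos hp]; linarith),
      J_int_eq_zero k _ (by rw [zero_sub, abs_neg, abs_of_pos hp]; linarith)]
    simp

lemma J_int_fr {k j : ℕ} (h : j < k) : J 0 k (2 * Real.pi * (fr j : ℝ)) = 1 / 2 := by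
  have h0 : ∀ k, 0 ≤ S k := fun k => Finset.sum_nonneg fun i _ => (fr_pos i).le
  induction k, h using Nat.le_induction with
  | base =>
    have hS := S_lt j
    have hp := fr_pos j
    have := h0 j
    rw [J_int_succ, J_int_eq_zero j _ (by rw [abs_of_pos hp]; linarith),
      J_int_eq_zero j _ (by rw [abs_of_pos (by linarith)]; linarith), sub_self, J_int_zero]
    simp
  | succ k hk ih =>
    have hS := S_lt k
    have hp := fr_pos j
    have hp' := fr_pos k
    have hm := fr_mono (show j < k from hk)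
    have := h0 k
    rw [J_int_succ, ih, J_int_eq_zero k _ (by rw [abs_of_pos (by linarith)]; linarith),
      J_int_eq_zero k _ (by rw [abs_sub_comm, abs_of_pos (by linarith)]; linarith)]
    simp

end Pool.Agent.R236.Cogen
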