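import Pool.Agent.R236.CogenB

set_option autoImplicit false
open Filter Topology MeasureTheory

namespace Pool.Agent.R236.Cogen

/-- The interval `[1, 2]`. -/
abbrev X : Type := Set.Icc (1:ℝ) 2

/-- Lebesgue measure on `[1, 2]`. -/
noncomputable def leb : Measure X := Measure.comap ((↑) : X → ℝ) volume

instance : IsFiniteMeasureOnCompacts leb := by
  unfold leb
  exact IsFiniteMeasureOnCompacts.comap' _ continuous_subtype_val
    (MeasurableEmbedding.subtype_coe measurableSet_Icc)

/-- The measures with Riesz product densities. -/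
noncomputable def nuM (k : ℕ) : Measure X :=
  leb.withDensity fun x => ENNReal.ofReal (P k x)

lemma integral_nuM (k : ℕ) (F : ℝ → ℂ) :
    ∫ x : X, F x ∂(nuM k) = ∫ x in (1:ℝ)..2, (P k x : ℂ) * F x := by
  have c1 := continuous_P k
  unfold nuM
  rw [integral_withDensity_eq_integral_toReal_smul (by fun_prop) (by simp)]
  have h1 : ∀ x : X, (ENNReal.ofReal (P k x)).toReal • F x = (fun y : ℝ => (P k y : ℂ) * F y) x := by
    intro x
    rw [ENNReal.toReal_ofReal (P_nonneg k x)]
    simp
  simp_rw [h1]
  rw [intervalIntegral.integral_of_le (by norm_num), ← integral_Icc_eq_integral_Ioc]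
  exact integral_subtype_comap measurableSet_Icc (fun y : ℝ => (P k y : ℂ) * F y)

instance isProb (k : ℕ) : IsProbabilityMeasure (nuM k) := by
  have h := J_int_zero k
  have c1 := continuous_P k
  constructor
  have hfin : IsFiniteMeasure (nuM k) := by
    unfold nuM
    apply isFiniteMeasure_withDensity_ofReal
    have : Integrable (fun x : X => P k x) leb :=
      (by fun_prop : Continuous fun x : X => P k x).integrable_of_hasCompactSupport
        (HasCompactSupport.of_compactSpace _)
    exact this.2
  have h1 := integral_nuM k (fun _ => 1)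
  have h2 : J 0 k (2 * Real.pi * ((0:ℤ):ℝ)) = ∫ x in (1:ℝ)..2, (P k x : ℂ) * 1 := by
    unfold J
    congr 1
    ext x
    simp [osc, ph]
  rw [← h2, h] at h1
  simp only [integral_const, smul_eq_mul, mul_one] at h1
  have h3 : (nuM k).real Set.univ = 1 := by
    have : (((nuM k).real Set.univ : ℝ) : ℂ) = ((1:ℝ) : ℂ) := by
      simpa using h1
    exact_mod_cast this
  rw [measureReal_def] at h3
  have := (ENNReal.toReal_eq_one_iff _).1 h3
  exact this

/-- The measures as probability measures. -/
noncomputable def nu (k : ℕ) : ProbabilityMeasure X := ⟨nuM k, inferInstance⟩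

/-- There is a probability measure on `[1, 2]`, the Riesz product, whose Fourier transform does not
vanish at infinity, but whose image under the Cayley transform has vanishing Fourier
coefficients. -/
theorem exists_measure : ∃ μ : Measure X, IsProbabilityMeasure μ ∧
    (∀ j : ℕ, ∫ x : X, Complex.exp ((om j * x : ℝ) * Complex.I) ∂μ = 1 / 2) ∧
    (∀ r : ℝ, Tendsto (fun n : ℕ => ∫ x : X, osc n r x ∂μ) atTop (𝓝 0)) := by
  obtain ⟨μ, -, hμ⟩ := (isCompact_univ (X := ProbabilityMeasure X)).ultrafilter_le_nhds
    ((hyperfilter ℕ).map nu) (by simp)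
  have hμ' : Tendsto nu (hyperfilter ℕ : Filter ℕ) (𝓝 μ) := hμ
  have hR := ProbabilityMeasure.tendsto_iff_forall_integral_tendsto.1 hμ'
  have hC : ∀ F : ℝ → ℂ, Continuous F →
      Tendsto (fun k => ∫ x in (1:ℝ)..2, (P k x : ℂ) * F x) (hyperfilter ℕ : Filter ℕ)
        (𝓝 (∫ x : X, F x ∂(μ : Measure X))) := by
    intro F hF
    have hint : ∀ m : Measure X, IsProbabilityMeasure m → Integrable (fun x : X => F x) m := by
      intro m hm
      exact (by fun_prop : Continuous fun x : X => F x).integrable_of_hasCompactSupport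
        (HasCompactSupport.of_compactSpace _)
    let re : BoundedContinuousFunction X ℝ :=
      BoundedContinuousFunction.mkOfCompact ⟨fun x : X => (F x).re, by fun_prop⟩
    let im : BoundedContinuousFunction X ℝ :=
      BoundedContinuousFunction.mkOfCompact ⟨fun x : X => (F x).im, by fun_prop⟩
    have h1 := (hR re)
    have h2 := (hR im)
    have h3 := (Complex.continuous_ofReal.tendsto _).comp h1
    have h4 := ((Complex.continuous_ofReal.tendsto _).comp h2).mul_const Complex.I
    have h5 := h3.add h4
    have e : ∀ m : Measure X, IsProbabilityMeasure m →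
        ((∫ x, re x ∂m : ℝ) : ℂ) + ((∫ x, im x ∂m : ℝ) : ℂ) * Complex.I = ∫ x : X, F x ∂m := by
      intro m hm
      exact integral_re_add_im (hint m hm)
    rw [e _ inferInstance] at h5
    refine h5.congr fun k => ?_
    rw [← integral_nuM]
    exact e (nuM k) inferInstance
  refine ⟨μ, inferInstance, fun j => ?_, fun r => ?_⟩
  · have h1 := hC (fun x => Complex.exp ((om j * x : ℝ) * Complex.I)) (by fun_prop)
    have h2 : Tendsto (fun k => ∫ x in (1:ℝ)..2, (P k x : ℂ) * Complex.exp ((om j * x : ℝ) * Complex.I))
        (hyperfilter ℕ : Filter ℕ) (𝓝 (1 / 2)) := by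
      refine tendsto_const_nhds.congr' ?_
      have : ∀ᶠ k in atTop, (1 / 2 : ℂ)
          = ∫ x in (1:ℝ)..2, (P k x : ℂ) * Complex.exp ((om j * x : ℝ) * Complex.I) := by
        filter_upwards [eventually_gt_atTop j] with k hk
        rw [← J_int_fr hk]
        unfold J
        congr 1
        ext x
        simp [osc, ph, om]
      exact (Nat.hyperfilter_le_atTop) this
    exact tendsto_nhds_unique h1 h2
  · rw [Metric.tendsto_atTop]
    intro ε hε
    obtain ⟨N, K, h⟩ := exists_bound r (show 0 < ε / 2 by linarith)
    refine ⟨N, fun n hn => ?_⟩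
    have h1 := hC (osc n r) (continuous_osc n r)
    have h2 : ‖∫ x : X, osc n r x ∂(μ : Measure X)‖ ≤ ε / 2 := by
      refine le_of_tendsto h1.norm ?_
      have : ∀ᶠ k in atTop, ‖∫ x in (1:ℝ)..2, (P k x : ℂ) * osc n r x‖ ≤ ε / 2 := by
        filter_upwards [eventually_ge_atTop K] with k hk
        exact h n hn k hk
      exact (Nat.hyperfilter_le_atTop) this
    rw [dist_zero_right]
    linarith

end Pool.Agent.R236.Cogen
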