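import Pool.Agent.R236.CogenC

set_option autoImplicit false
open Filter Topology MeasureTheory
open scoped ENNReal ComplexConjugate

namespace Pool.Agent.R236.Cogen

section Op

variable (μ : Measure X) [IsProbabilityMeasure μ]

/-- The Hilbert space. -/
abbrev H : Type := Lp ℂ 2 μ

/-- Multiplication operators. -/
noncomputable def M : C(X, ℂ) →L[ℂ] (H μ →L[ℂ] H μ) :=
  ((ContinuousLinearMap.mul ℂ ℂ).holderL μ ∞ 2 2) ∘L (ContinuousMap.toLp ∞ μ ℂ)

lemma coeFn_M (f : C(X, ℂ)) (g : H μ) : (M μ f g : X → ℂ) =ᵐ[μ] fun x => f x * g x := by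
  have h1 : (M μ f g : X → ℂ) =ᵐ[μ] fun x => (ContinuousMap.toLp ∞ μ ℂ f) x * g x := by
    have := (ContinuousLinearMap.mul ℂ ℂ).coeFn_holder (p := ∞) (q := 2) (r := 2)
      (ContinuousMap.toLp ∞ μ ℂ f) g
    simpa [M] using this
  filter_upwards [h1, ContinuousMap.coeFn_toLp (p := ∞) (𝕜 := ℂ) μ f] with x hx hx2
  rw [hx, hx2]

lemma M_mul (f g : C(X, ℂ)) (h : H μ) : M μ (f * g) h = M μ f (M μ g h) := by
  apply Lp.ext
  filter_upwards [coeFn_M μ (f * g) h, coeFn_M μ f (M μ g h), coeFn_M μ g h] with x h1 h2 h3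
  rw [h1, h2, h3]
  simp [mul_assoc]

lemma M_one (h : H μ) : M μ 1 h = h := by
  apply Lp.ext
  filter_upwards [coeFn_M μ 1 h] with x h1
  rw [h1]
  simp

lemma norm_M_le (f : C(X, ℂ)) {c : ℝ} (hf : ∀ x, ‖f x‖ ≤ c) (h : H μ) : ‖M μ f h‖ ≤ c * ‖h‖ := by
  apply Lp.norm_le_mul_norm_of_ae_le_mul
  filter_upwards [coeFn_M μ f h] with x h1
  rw [h1, norm_mul]
  gcongr
  exact hf x

lemma norm_M_le_one (f : C(X, ℂ)) (hf : ∀ x, ‖f x‖ ≤ 1) (h : H μ) : ‖M μ f h‖ ≤ ‖h‖ := by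
  simpa using norm_M_le μ f hf h

/-- The function `i x`. -/
noncomputable def a : C(X, ℂ) := ⟨fun x => ((x : ℝ) : ℂ) * Complex.I, by fun_prop⟩

lemma exp_apply (f : C(X, ℂ)) (x : X) : (NormedSpace.exp f) x = Complex.exp (f x) := by
  rw [Complex.exp_eq_exp_ℂ]
  exact NormedSpace.map_exp (ContinuousMap.evalStarAlgHom ℂ ℂ x)
    (continuous_eval_const x) f

/-- The group of functions `exp (i t x)`. -/
noncomputable def e (t : ℝ) : C(X, ℂ) := NormedSpace.exp (t • a)

lemma e_apply (t : ℝ) (x : X) : e t x = Complex.exp ((t * x : ℝ) * Complex.I) := by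
  rw [e, exp_apply]
  congr 1
  simp [a]
  ring

lemma norm_e (t : ℝ) (x : X) : ‖e t x‖ = 1 := by
  rw [e_apply]
  exact Complex.norm_exp_ofReal_mul_I _

lemma e_add (s t : ℝ) : e (s + t) = e s * e t := by
  ext x
  rw [ContinuousMap.mul_apply, e_apply, e_apply, e_apply, ← Complex.exp_add]
  congr 1
  push_cast
  ring

lemma e_zero : e 0 = 1 := by
  ext x
  rw [e_apply]
  simp

lemma hasDerivAt_e (t : ℝ) : HasDerivAt e (e t * a) t :=
  hasDerivAt_exp_smul_const (𝕂 := ℝ) a t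

/-- The semigroup. -/
noncomputable def T (t : ℝ) : H μ →L[ℂ] H μ := M μ (e t)

lemma T_zero : T μ 0 = 1 := by
  ext1 h
  rw [T, e_zero, M_one]
  rfl

lemma T_add (s t : ℝ) : T μ (s + t) = T μ s * T μ t := by
  ext1 h
  rw [T, e_add, M_mul]
  rfl

lemma norm_T_apply_le (t : ℝ) (h : H μ) : ‖T μ t h‖ ≤ ‖h‖ :=
  norm_M_le_one μ _ (fun x => (norm_e t x).le) h

lemma norm_T_le (t : ℝ) : ‖T μ t‖ ≤ 1 :=
  ContinuousLinearMap.opNorm_le_bound _ zero_le_one fun h => by
    simpa using norm_T_apply_le μ t h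

lemma hasDerivAt_T (t : ℝ) (h : H μ) : HasDerivAt (fun t => T μ t h) (T μ t (M μ a h)) t := by
  have h1 := ((M μ).restrictScalars ℝ).hasFDerivAt.comp_hasDerivAt t (hasDerivAt_e t)
  have h2 := (((ContinuousLinearMap.apply ℂ (H μ)) h).restrictScalars ℝ).hasFDerivAt.comp_hasDerivAt t h1
  have e1 : T μ t (M μ a h) = M μ (e t * a) h := by rw [M_mul]; rfl
  rw [e1]
  exact h2

lemma continuous_T (h : H μ) : Continuous (fun t => T μ t h) :=
  continuous_iff_continuousAt.2 fun t => (hasDerivAt_T μ t h).continuousAt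

/-- The function `1 - i x`. -/
noncomputable def b : C(X, ℂ) := 1 - a

lemma b_ne (x : X) : b x ≠ 0 := by
  intro h
  have := congrArg Complex.re h
  simp [b, a] at this

/-- The function `1 / (1 - i x)`. -/
noncomputable def binv : C(X, ℂ) := ⟨fun x => (b x)⁻¹, by
  exact Continuous.inv₀ b.continuous b_ne⟩

lemma b_mul_binv : b * binv = 1 := by
  ext x
  simp [binv, b_ne x]

lemma integral_T (z : H μ) :
    ∫ t in Set.Ioi (0 : ℝ), ((Real.exp (-t) : ℝ) : ℂ) • T μ t z = M μ binv z := by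
  set w := M μ binv z with hw
  have hz : z = M μ b w := by rw [hw, ← M_mul, b_mul_binv, M_one]
  have hz' : z = w - M μ a w := by
    conv_lhs => rw [hz, b]
    rw [map_sub, sub_apply, M_one]
  have hd : ∀ t ∈ Set.Ici (0:ℝ), HasDerivAt (fun t : ℝ => -(((Real.exp (-t) : ℝ) : ℂ) • T μ t w))
      (((Real.exp (-t) : ℝ) : ℂ) • T μ t z) t := by
    intro t _
    have h1 : HasDerivAt (fun t : ℝ => ((Real.exp (-t) : ℝ) : ℂ)) (-((Real.exp (-t) : ℝ) : ℂ)) t := by
      have := ((hasDerivAt_id t).neg.exp).ofReal_comp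
      simpa using this
    have h2 := (h1.smul (hasDerivAt_T μ t w)).neg
    convert! h2 using 1
    rw [hz', map_sub]
    module
  have hint : IntegrableOn (fun t : ℝ => ((Real.exp (-t) : ℝ) : ℂ) • T μ t z) (Set.Ioi 0) := by
    have h1 : IntegrableOn (fun t : ℝ => Real.exp (-t) * ‖z‖) (Set.Ioi 0) := by
      exact (integrableOn_exp_neg_Ioi 0).mul_const _
    have cT := continuous_T μ z
    refine Integrable.mono' h1 ?_ ?_
    · exact (by fun_prop : Continuous fun t : ℝ => ((Real.exp (-t) : ℝ) : ℂ) • T μ t z).aestronglyMeasurable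
    · refine Filter.Eventually.of_forall fun t => ?_
      rw [norm_smul, Complex.norm_real, Real.norm_eq_abs, abs_of_pos (Real.exp_pos _)]
      gcongr
      exact norm_T_apply_le μ t z
  have hlim : Tendsto (fun t : ℝ => -(((Real.exp (-t) : ℝ) : ℂ) • T μ t w)) atTop (𝓝 0) := by
    have h1 : Tendsto (fun t : ℝ => Real.exp (-t) * ‖w‖) atTop (𝓝 0) := by
      have := (Real.tendsto_exp_neg_atTop_nhds_zero).mul_const ‖w‖
      simpa using this
    refine squeeze_zero_norm (fun t => ?_) h1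
    rw [norm_neg, norm_smul, Complex.norm_real, Real.norm_eq_abs, abs_of_pos (Real.exp_pos _)]
    gcongr
    exact norm_T_apply_le μ t w
  rw [integral_Ioi_of_hasDerivAt_of_tendsto' hd hint hlim]
  rw [T_zero]
  simp

/-- The symbol of the cogenerator. -/
noncomputable def v : C(X, ℂ) := 1 - (2 : ℂ) • binv

lemma cogen (z : H μ) :
    z - (2 : ℂ) • ∫ t in Set.Ioi (0 : ℝ), ((Real.exp (-t) : ℝ) : ℂ) • T μ t z = M μ v z := by
  rw [integral_T, v, map_sub, sub_apply, M_one, map_smul]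
  rfl

lemma v_apply (x : X) : v x = -Complex.exp ((2 * Real.arctan x : ℝ) * Complex.I) := by
  have h1 : Complex.exp ((2 * Real.arctan x : ℝ) * Complex.I)
      = (1 + (x:ℝ) * Complex.I) * (1 - (x:ℝ) * Complex.I)⁻¹ := by
    have hb : (1 - (x:ℝ) * Complex.I : ℂ) ≠ 0 := b_ne x
    rw [eq_mul_inv_iff_mul_eq₀ hb]
    have hc := Real.cos_arctan_pos (x : ℝ)
    have hcc : ((Real.cos (Real.arctan x) : ℝ) : ℂ) ≠ 0 := by exact_mod_cast hc.ne'
    have hx : ((x : ℝ) : ℂ) = ((Real.sin (Real.arctan x) : ℝ) : ℂ) / ((Real.cos (Real.arctan x) : ℝ) : ℂ) := by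
      rw [← Complex.ofReal_div, ← Real.tan_eq_sin_div_cos, Real.tan_arctan]
    have e1 : Complex.exp ((2 * Real.arctan x : ℝ) * Complex.I)
      = (((Real.cos (Real.arctan x) : ℝ) : ℂ) + ((Real.sin (Real.arctan x) : ℝ) : ℂ) * Complex.I) ^ 2 := by
      rw [Complex.ofReal_cos, Complex.ofReal_sin, ← Complex.exp_mul_I, ← Complex.exp_nat_mul]
      congr 1
      push_cast
      ring
    rw [e1, hx]
    have e2 : ((Real.cos (Real.arctan x) : ℝ) : ℂ) ^ 2 + ((Real.sin (Real.arctan x) : ℝ) : ℂ) ^ 2 = 1 := by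
      exact_mod_cast Real.cos_sq_add_sin_sq _
    have hI := Complex.I_sq
    generalize ((Real.cos (Real.arctan x) : ℝ) : ℂ) = c at *
    generalize ((Real.sin (Real.arctan x) : ℝ) : ℂ) = s at *
    field_simp
    linear_combination (c + s * Complex.I) * e2 - (c + s * Complex.I) * s ^ 2 * hI
  rw [h1]
  have hb : (1 - (x:ℝ) * Complex.I : ℂ) ≠ 0 := b_ne x
  simp only [v, binv, b, a, ContinuousMap.sub_apply, ContinuousMap.one_apply, ContinuousMap.smul_apply,
    ContinuousMap.coe_mk, smul_eq_mul]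
  field_simp
  ring

lemma norm_v (x : X) : ‖v x‖ = 1 := by
  rw [v_apply, norm_neg]
  exact Complex.norm_exp_ofReal_mul_I _

end Op

end Pool.Agent.R236.Cogen
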