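import Pool.Agent.R236.CogenD

set_option autoImplicit false
open Filter Topology MeasureTheory
open scoped ENNReal ComplexConjugate

namespace Pool.Agent.R236.Cogen

/-- The span of the characters is dense in `C(X, ℂ)`. -/
lemma span_dense : (Submodule.span ℂ (Set.range e)).topologicalClosure = ⊤ := by
  have h1 : StarSubalgebra.topologicalClosure (StarAlgebra.adjoin ℂ {e 1}) = ⊤ := by
    apply ContinuousMap.starSubalgebra_topologicalClosure_eq_top_of_separatesPoints
    intro x y hxy
    refine ⟨e 1, ⟨e 1, StarAlgebra.self_mem_adjoin_singleton ℂ _, rfl⟩, ?_⟩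
    intro h
    rw [e_apply, e_apply, Complex.exp_eq_exp_iff_exists_int] at h
    obtain ⟨n, hn⟩ := h
    have h2 : (x : ℝ) = y + n * (2 * Real.pi) := by
      have := congrArg Complex.im hn
      simpa using this
    have hx := x.2
    have hy := y.2
    have hpi := Real.pi_gt_three
    have hn0 : n = 0 := by
      by_contra hne
      rcases lt_or_gt_of_ne hne with h0 | h0
      · have : (n : ℝ) ≤ -1 := by exact_mod_cast Int.le_sub_one_of_lt h0
        nlinarith [hx.1, hx.2, hy.1, hy.2]
      · have : (1 : ℝ) ≤ n := by exact_mod_cast h0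
        nlinarith [hx.1, hx.2, hy.1, hy.2]
    rw [hn0] at h2
    apply hxy
    ext
    simpa using h2
  have h2 : (StarAlgebra.adjoin ℂ {e 1}).toSubalgebra.toSubmodule ≤ Submodule.span ℂ (Set.range e) := by
    rw [StarAlgebra.adjoin_eq_span]
    refine Submodule.span_mono ?_
    intro f hf
    have hstar : star (e 1) = e (-1) := by
      ext x
      rw [ContinuousMap.star_apply, e_apply, e_apply]
      rw [Complex.star_def, ← Complex.exp_conj]
      congr 1
      simp
    induction hf using Submonoid.closure_induction with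
    | mem g hg =>
      rcases hg with hg | hg
      · rw [Set.mem_singleton_iff] at hg
        exact ⟨1, hg.symm⟩
      · rw [Set.mem_star, Set.mem_singleton_iff] at hg
        refine ⟨-1, ?_⟩
        rw [← hstar, ← hg, star_star]
    | one => exact ⟨0, e_zero⟩
    | mul _ _ _ _ hs ht =>
      obtain ⟨s, rfl⟩ := hs
      obtain ⟨t, rfl⟩ := ht
      exact ⟨s + t, e_add s t⟩
  rw [eq_top_iff]
  intro f _
  have h3 : f ∈ StarSubalgebra.topologicalClosure (StarAlgebra.adjoin ℂ {e 1}) := by
    rw [h1]; trivial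
  have h4 : f ∈ closure ((StarAlgebra.adjoin ℂ {e 1} : StarSubalgebra ℂ C(X, ℂ)) : Set C(X, ℂ)) := h3
  exact closure_mono h2 h4

/-- Convergence to zero of the Fourier coefficients of the image, against every continuous
function. -/
lemma tendsto_integral (μ : Measure X) [IsProbabilityMeasure μ]
    (h : ∀ r : ℝ, Tendsto (fun n : ℕ => ∫ x : X, osc n r x ∂μ) atTop (𝓝 0)) (f : C(X, ℂ)) :
    Tendsto (fun n : ℕ => ∫ x : X, (conj (v x)) ^ n * f x ∂μ) atTop (𝓝 0) := by
  have hint : ∀ (n : ℕ) (f : C(X, ℂ)), Integrable (fun x : X => (conj (v x)) ^ n * f x) μ := by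
    intro n f
    exact (by fun_prop : Continuous fun x : X => (conj (v x)) ^ n * f x).integrable_of_hasCompactSupport
      (HasCompactSupport.of_compactSpace _)
  have hspan : ∀ f ∈ Submodule.span ℂ (Set.range e),
      Tendsto (fun n : ℕ => ∫ x : X, (conj (v x)) ^ n * f x ∂μ) atTop (𝓝 0) := by
    intro f hf
    induction hf using Submodule.span_induction with
    | mem f hf =>
      obtain ⟨r, rfl⟩ := hf
      have h1 : ∀ n : ℕ, ∫ x : X, (conj (v x)) ^ n * e r x ∂μ = (-1) ^ n * ∫ x : X, osc n r x ∂μ := by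
        intro n
        rw [← integral_const_mul]
        refine integral_congr_ae (Filter.Eventually.of_forall fun x => ?_)
        simp only
        rw [v_apply, e_apply, map_neg, ← Complex.exp_conj, neg_pow, ← Complex.exp_nat_mul, mul_assoc,
          ← Complex.exp_add, osc, ph]
        congr 2
        simp only [map_mul, Complex.conj_ofReal, Complex.conj_I]
        push_cast
        ring
      simp_rw [h1]
      rw [tendsto_zero_iff_norm_tendsto_zero]
      simpa using (h r).norm
    | zero => simp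
    | add f g _ _ hf hg =>
      have := hf.add hg
      rw [add_zero] at this
      refine this.congr fun n => ?_
      rw [← integral_add (hint n f) (hint n g)]
      simp [mul_add]
    | smul c f _ hf =>
      have := hf.const_mul c
      rw [mul_zero] at this
      refine this.congr fun n => ?_
      rw [← integral_const_mul]
      simp [mul_left_comm]
  rw [Metric.tendsto_atTop]
  intro ε hε
  have hf : f ∈ closure (Submodule.span ℂ (Set.range e) : Set C(X, ℂ)) := by
    have : f ∈ (Submodule.span ℂ (Set.range e)).topologicalClosure := by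
      rw [span_dense]; trivial
    exact this
  obtain ⟨g, hg, hfg⟩ := Metric.mem_closure_iff.1 hf (ε / 2) (by linarith)
  obtain ⟨N, hN⟩ := Metric.tendsto_atTop.1 (hspan g hg) (ε / 2) (by linarith)
  refine ⟨N, fun n hn => ?_⟩
  have h1 := hN n hn
  rw [dist_zero_right] at h1 ⊢
  have h2 : ∫ x : X, (conj (v x)) ^ n * f x ∂μ
      = ∫ x : X, (conj (v x)) ^ n * (f - g) x ∂μ + ∫ x : X, (conj (v x)) ^ n * g x ∂μ := by
    rw [← integral_add (hint n _) (hint n g)]
    refine integral_congr_ae (Filter.Eventually.of_forall fun x => ?_)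
    simp only [ContinuousMap.sub_apply]
    ring
  have h3 : ‖∫ x : X, (conj (v x)) ^ n * (f - g) x ∂μ‖ ≤ dist f g := by
    have := norm_integral_le_of_norm_le_const (μ := μ) (f := fun x : X => (conj (v x)) ^ n * (f - g) x)
      (C := dist f g) (Filter.Eventually.of_forall fun x => by
        rw [norm_mul, norm_pow, RCLike.norm_conj, norm_v, one_pow, one_mul, dist_eq_norm]
        exact ContinuousMap.norm_coe_le_norm _ x)
    simpa using this
  rw [h2]
  calc _ ≤ _ := norm_add_le _ _
    _ < ε := by linarith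

/-- Inner products of continuous functions. -/
lemma inner_toLp (μ : Measure X) [IsProbabilityMeasure μ] (f : C(X, ℂ)) (g h : C(X, ℂ)) :
    inner ℂ (M μ f (ContinuousMap.toLp 2 μ ℂ g)) (ContinuousMap.toLp 2 μ ℂ h)
      = ∫ x, conj (f x) * (conj (g x) * h x) ∂μ := by
  rw [L2.inner_def]
  refine integral_congr_ae ?_
  filter_upwards [coeFn_M μ f (ContinuousMap.toLp 2 μ ℂ g),
    ContinuousMap.coeFn_toLp (p := 2) (𝕜 := ℂ) μ g, ContinuousMap.coeFn_toLp (p := 2) (𝕜 := ℂ) μ h]
    with x h1 h2 h3
  rw [h1, h2, h3]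
  simp
  ring

lemma M_pow (μ : Measure X) [IsProbabilityMeasure μ] (f : C(X, ℂ)) (n : ℕ) (z : H μ) :
    (fun z => M μ f z)^[n] z = M μ (f ^ n) z := by
  induction n with
  | zero => simp [M_one]
  | succ n ih =>
    rw [Function.iterate_succ_apply', ih, ← M_mul, pow_succ']

/-- Weak stability of the cogenerator. -/
theorem weakly_stable (μ : Measure X) [IsProbabilityMeasure μ]
    (h : ∀ r : ℝ, Tendsto (fun n : ℕ => ∫ x : X, osc n r x ∂μ) atTop (𝓝 0)) (x y : H μ) :
    Tendsto (fun n : ℕ => inner ℂ (M μ (v ^ n) x) y) atTop (𝓝 0) := by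
  have hd : Dense (Set.range (ContinuousMap.toLp 2 μ ℂ : C(X, ℂ) →L[ℂ] H μ)) := by
    have := ContinuousMap.toLp_denseRange (E := ℂ) (μ := μ) (p := 2) ℂ (by norm_num)
    exact this
  have hnorm : ∀ (n : ℕ) (x : H μ), ‖M μ (v ^ n) x‖ ≤ ‖x‖ := fun n x =>
    norm_M_le_one μ _ (fun x => by rw [ContinuousMap.pow_apply, norm_pow, norm_v, one_pow]) x
  rw [Metric.tendsto_atTop]
  intro ε hε
  set δ : ℝ := ε / (2 * (‖x‖ + ‖y‖ + 2)) with hδ
  have hden : 0 < 2 * (‖x‖ + ‖y‖ + 2) := by positivity
  have hδ0 : 0 < δ := by positivity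
  obtain ⟨_, ⟨f, rfl⟩, hf⟩ := hd.exists_dist_lt x (show 0 < min δ 1 by positivity)
  obtain ⟨_, ⟨g, rfl⟩, hg⟩ := hd.exists_dist_lt y (show 0 < min δ 1 by positivity)
  set F : H μ := ContinuousMap.toLp 2 μ ℂ f with hF
  set G : H μ := ContinuousMap.toLp 2 μ ℂ g with hG
  have key : Tendsto (fun n : ℕ => inner ℂ (M μ (v ^ n) F) G) atTop (𝓝 0) := by
    have h1 := tendsto_integral μ h (star f * g)
    refine h1.congr fun n => ?_
    rw [hF, hG, inner_toLp]
    refine integral_congr_ae (Filter.Eventually.of_forall fun x => ?_)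
    simp
  obtain ⟨N, hN⟩ := Metric.tendsto_atTop.1 key (ε / 2) (by linarith)
  refine ⟨N, fun n hn => ?_⟩
  have h1 := hN n hn
  rw [dist_zero_right] at h1 ⊢
  have e1 : inner ℂ (M μ (v ^ n) x) y = inner ℂ (M μ (v ^ n) (x - F)) y
      + inner ℂ (M μ (v ^ n) F) (y - G) + inner ℂ (M μ (v ^ n) F) G := by
    rw [map_sub, inner_sub_left, inner_sub_right]
    ring
  rw [dist_eq_norm] at hf hg
  have hF1 : ‖F‖ ≤ ‖x‖ + 1 := by
    have h2 : ‖F‖ ≤ ‖x‖ + ‖x - F‖ := by
      have := norm_sub_le x (x - F)
      simpa using this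
    linarith [hf.trans_le (min_le_right δ 1)]
  have h2 : ‖inner ℂ (M μ (v ^ n) (x - F)) y‖ ≤ δ * ‖y‖ :=
    (norm_inner_le_norm _ _).trans (by
      gcongr
      exact (hnorm n _).trans (hf.le.trans (min_le_left _ _)))
  have h3 : ‖inner ℂ (M μ (v ^ n) F) (y - G)‖ ≤ (‖x‖ + 1) * δ :=
    (norm_inner_le_norm _ _).trans (by
      gcongr
      · exact (hnorm n _).trans hF1
      · exact hg.le.trans (min_le_left _ _))
  have h4 : δ * (2 * (‖x‖ + ‖y‖ + 2)) = ε := by
    rw [hδ]; field_simp
  rw [e1]
  refine (norm_add₃_le).trans_lt ?_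
  nlinarith [hδ0]

end Pool.Agent.R236.Cogen
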