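import Mathlib

/-!
Functionals of degree `m` on real vector spaces (Mazur–Orlicz): functions that are polynomials of
degree at most `m` in a rational parameter along every line.
-/

namespace Pool.Agent.R236.Deg

open Filter Topology Polynomial

/-- `F` is a functional of degree `m`: for all `x₀, h₀` there are reals `a 0, …, a m` with
`F (x₀ + t h₀) = a 0 + a 1 t + ⋯ + a m t ^ m` for every rational `t`. -/
def IsDeg {E : Type*} [AddCommGroup E] [Module ℝ E] (m : ℕ) (F : E → ℝ) : Prop :=
  ∀ x₀ h₀ : E, ∃ a : Fin (m + 1) → ℝ, ∀ t : ℚ,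
    F (x₀ + (t : ℝ) • h₀) = ∑ i : Fin (m + 1), a i * (t : ℝ) ^ (i : ℕ)

section Basic

variable {E : Type*} [AddCommGroup E] [Module ℝ E] {m : ℕ} {F : E → ℝ}

theorem IsDeg.exists_poly (hF : IsDeg m F) (x h : E) :
    ∃ p : ℝ[X], p.natDegree ≤ m ∧ ∀ t : ℚ, F (x + (t : ℝ) • h) = p.eval (t : ℝ) := by
  obtain ⟨a, ha⟩ := hF x h
  refine ⟨∑ i : Fin (m + 1), C (a i) * X ^ (i : ℕ), ?_, ?_⟩
  · refine natDegree_sum_le_of_forall_le _ _ ?_
    intro i _
    refine (natDegree_C_mul_X_pow_le _ _).trans ?_
    have := i.2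
    omega
  · intro t
    rw [ha t, eval_finsetSum]
    simp

theorem isDeg_of_exists_poly
    (hF : ∀ x h : E, ∃ p : ℝ[X], p.natDegree ≤ m ∧
      ∀ t : ℚ, F (x + (t : ℝ) • h) = p.eval (t : ℝ)) : IsDeg m F := by
  intro x h
  obtain ⟨p, hp, hpe⟩ := hF x h
  refine ⟨fun i => p.coeff i, fun t => ?_⟩
  rw [hpe t, eval_eq_sum_range' (n := m + 1) (by omega)]
  rw [Finset.sum_range]

theorem poly_unique {p q : ℝ[X]} (h : ∀ t : ℚ, p.eval (t : ℝ) = q.eval (t : ℝ)) : p = q := by
  refine eq_of_infinite_eval_eq p q ?_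
  refine Set.Infinite.mono ?_ (Set.infinite_range_of_injective (Rat.cast_injective (α := ℝ)))
  rintro _ ⟨t, rfl⟩
  exact h t

/-- the polynomial of `F` along the line `x + t h`. -/
noncomputable def lp (hF : IsDeg m F) (x h : E) : ℝ[X] := (hF.exists_poly x h).choose

theorem lp_natDegree (hF : IsDeg m F) (x h : E) : (lp hF x h).natDegree ≤ m :=
  (hF.exists_poly x h).choose_spec.1

theorem lp_eval (hF : IsDeg m F) (x h : E) (t : ℚ) :
    F (x + (t : ℝ) • h) = (lp hF x h).eval (t : ℝ) :=
  (hF.exists_poly x h).choose_spec.2 t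

theorem lp_eval_nat (hF : IsDeg m F) (x h : E) (n : ℕ) :
    F (x + (n : ℝ) • h) = (lp hF x h).eval (n : ℝ) := by
  have := lp_eval hF x h (n : ℚ)
  simpa using this

theorem lp_eq (hF : IsDeg m F) (x h : E) {p : ℝ[X]}
    (hp : ∀ t : ℚ, F (x + (t : ℝ) • h) = p.eval (t : ℝ)) : lp hF x h = p :=
  poly_unique fun t => by rw [← lp_eval hF x h t, hp t]

/-- Lagrange basis polynomials for the nodes `0, …, m`. -/
noncomputable def ell (m s : ℕ) : ℝ[X] :=
  Lagrange.basis (Finset.range (m + 1)) (fun i : ℕ => (i : ℝ)) s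

theorem node_injOn (m : ℕ) :
    Set.InjOn (fun i : ℕ => (i : ℝ)) (Finset.range (m + 1) : Set ℕ) := by
  intro a _ b _ h
  exact Nat.cast_injective (R := ℝ) h

theorem poly_interp {p : ℝ[X]} (hp : p.natDegree ≤ m) :
    p = ∑ s ∈ Finset.range (m + 1), C (p.eval (s : ℝ)) * ell m s := by
  have h1 : p.degree < ((Finset.range (m + 1)).card : WithBot ℕ) := by
    refine lt_of_le_of_lt degree_le_natDegree ?_
    rw [Finset.card_range]
    exact_mod_cast Nat.lt_succ_of_le hp
  have h2 := Lagrange.eq_interpolate (node_injOn m) h1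
  conv_lhs => rw [h2]
  rw [Lagrange.interpolate_apply]
  rfl

theorem ell_natDegree (m s : ℕ) (hs : s ≤ m) : (ell m s).natDegree ≤ m := by
  have h := Lagrange.degree_basis (node_injOn m) (i := s) (Finset.mem_range.2 (by omega))
  rw [Finset.card_range] at h
  have h' : (ell m s).degree = (m : WithBot ℕ) := by
    have : (ell m s).degree = ((m + 1 - 1 : ℕ) : WithBot ℕ) := h
    simpa using this
  exact natDegree_le_of_degree_le h'.le

end Basic

/-! ### Several variables -/

section Several

variable {E : Type*} [AddCommGroup E] [Module ℝ E] {m : ℕ} {F : E → ℝ}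
variable {ι : Type*}

theorem exists_mv_aux [DecidableEq ι] (hF : IsDeg m F) (w : ι → E) (s : Finset ι) :
    ∀ x : E, ∃ P : MvPolynomial ι ℝ, ∀ q : ι → ℚ,
      F (x + ∑ i ∈ s, ((q i : ℚ) : ℝ) • w i) = MvPolynomial.eval (fun i => ((q i : ℚ) : ℝ)) P := by
  induction s using Finset.induction_on with
  | empty =>
    intro x
    exact ⟨MvPolynomial.C (F x), fun q => by simp⟩
  | insert a s ha ih =>
    intro x
    have ih' : ∀ j : ℕ, ∃ P : MvPolynomial ι ℝ, ∀ q : ι → ℚ,
      F ((x + (j : ℝ) • w a) + ∑ i ∈ s, ((q i : ℚ) : ℝ) • w i) =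
        MvPolynomial.eval (fun i => ((q i : ℚ) : ℝ)) P := fun j => ih _
    choose P hP using ih'
    refine ⟨∑ j ∈ Finset.range (m + 1), P j * Polynomial.aeval (MvPolynomial.X a) (ell m j), ?_⟩
    intro q
    have h1 : F (x + ∑ i ∈ insert a s, ((q i : ℚ) : ℝ) • w i) =
        F ((x + ∑ i ∈ s, ((q i : ℚ) : ℝ) • w i) + ((q a : ℚ) : ℝ) • w a) := by
      rw [Finset.sum_insert ha]
      congr 1
      abel
    rw [h1, lp_eval hF, poly_interp (lp_natDegree hF _ _), eval_finsetSum, map_sum]
    refine Finset.sum_congr rfl fun j _ => ?_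
    have h2 : MvPolynomial.eval (fun i => ((q i : ℚ) : ℝ))
        (Polynomial.aeval (MvPolynomial.X a : MvPolynomial ι ℝ) (ell m j)) =
        (ell m j).eval ((q a : ℚ) : ℝ) := by
      rw [← Polynomial.coe_aeval_eq_eval]
      rw [show (MvPolynomial.eval fun i => ((q i : ℚ) : ℝ))
          (Polynomial.aeval (MvPolynomial.X a : MvPolynomial ι ℝ) (ell m j)) =
          (MvPolynomial.aeval fun i => ((q i : ℚ) : ℝ))
          (Polynomial.aeval (MvPolynomial.X a : MvPolynomial ι ℝ) (ell m j)) from by
            rw [← MvPolynomial.coe_aeval_eq_eval]; rfl]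
      rw [← Polynomial.aeval_algHom_apply]
      simp
    rw [map_mul, h2, eval_mul, eval_C, ← lp_eval_nat, ← hP j q]
    congr 2
    abel

theorem denseRange_rat : DenseRange (fun (q : ι → ℚ) (i : ι) => ((q i : ℚ) : ℝ)) := by
  have h : DenseRange (fun q : ℚ => (q : ℝ)) := Rat.denseRange_cast
  exact DenseRange.piMap (fun _ => h)

theorem mv_unique {P Q : MvPolynomial ι ℝ}
    (h : ∀ q : ι → ℚ, MvPolynomial.eval (fun i => ((q i : ℚ) : ℝ)) P =
      MvPolynomial.eval (fun i => ((q i : ℚ) : ℝ)) Q) : P = Q := by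
  refine MvPolynomial.funext fun v => ?_
  have hc : (fun v : ι → ℝ => MvPolynomial.eval v P) = fun v => MvPolynomial.eval v Q :=
    DenseRange.equalizer denseRange_rat (MvPolynomial.continuous_eval P)
      (MvPolynomial.continuous_eval Q) (funext h)
  exact congrFun hc v

theorem hom_eval [Fintype ι] {n : ℕ} {P : MvPolynomial ι ℝ} (hP : P.IsHomogeneous n) (c : ℝ) (v : ι → ℝ) :
    MvPolynomial.eval (fun i => c * v i) P = c ^ n * MvPolynomial.eval v P := by
  rw [MvPolynomial.eval_eq', MvPolynomial.eval_eq', Finset.mul_sum]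
  refine Finset.sum_congr rfl fun d hd => ?_
  have hdeg : ∑ i, d i = n := by
    have := hP (MvPolynomial.mem_support_iff.1 hd)
    rw [Finsupp.weight_apply, Finsupp.sum_fintype] at this
    · simpa using this
    · simp
  simp_rw [mul_pow]
  rw [Finset.prod_mul_distrib, Finset.prod_pow_eq_pow_sum, hdeg]
  ring

/-- The polynomial representing `F` on a finite-dimensional rational affine subspace, with
homogeneous components of degree at most `m`. -/
theorem exists_mv [Fintype ι] [DecidableEq ι] (hF : IsDeg m F) (w : ι → E) (x : E) :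
    ∃ P : MvPolynomial ι ℝ, (∀ q : ι → ℚ,
      F (x + ∑ i, ((q i : ℚ) : ℝ) • w i) = MvPolynomial.eval (fun i => ((q i : ℚ) : ℝ)) P) ∧
      P = ∑ l ∈ Finset.range (m + 1), MvPolynomial.homogeneousComponent l P := by
  obtain ⟨P, hP⟩ := exists_mv_aux hF w Finset.univ x
  refine ⟨P, hP, ?_⟩
  -- the components of degree > m vanish
  have key : ∀ l, m < l → MvPolynomial.homogeneousComponent l P = 0 := by
    intro l hl
    refine mv_unique fun q => ?_
    rw [map_zero]
    -- the two polynomials in t
    have hT : lp hF x (∑ i, ((q i : ℚ) : ℝ) • w i) =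
        ∑ j ∈ Finset.range (P.totalDegree + 1),
          C (MvPolynomial.eval (fun i => ((q i : ℚ) : ℝ))
            (MvPolynomial.homogeneousComponent j P)) * X ^ j := by
      refine lp_eq hF _ _ fun t => ?_
      have h1 : x + (t : ℝ) • ∑ i, ((q i : ℚ) : ℝ) • w i =
          x + ∑ i, (((t * q i : ℚ)) : ℝ) • w i := by
        rw [Finset.smul_sum]
        congr 1
        refine Finset.sum_congr rfl fun i _ => ?_
        rw [smul_smul]
        push_cast
        rfl
      rw [h1, hP (fun i => t * q i)]
      conv_lhs => rw [← MvPolynomial.sum_homogeneousComponent P]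
      rw [map_sum, eval_finsetSum]
      refine Finset.sum_congr rfl fun j _ => ?_
      have h2 : (fun i => ((t * q i : ℚ) : ℝ)) = fun i => (t : ℝ) * ((q i : ℚ) : ℝ) := by
        funext i
        push_cast
        rfl
      rw [h2, hom_eval (MvPolynomial.homogeneousComponent_isHomogeneous j P)]
      simp
      ring
    have h3 : (lp hF x (∑ i, ((q i : ℚ) : ℝ) • w i)).coeff l = 0 :=
      coeff_eq_zero_of_natDegree_lt (lt_of_le_of_lt (lp_natDegree hF _ _) hl)
    rw [hT, finsetSum_coeff] at h3
    by_cases hlD : l ∈ Finset.range (P.totalDegree + 1)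
    · rw [Finset.sum_eq_single_of_mem l hlD] at h3
      · simpa using h3
      · intro j _ hj
        rw [coeff_C_mul_X_pow, if_neg (Ne.symm hj)]
    · have : P.totalDegree < l := by
        simp only [Finset.mem_range, not_lt] at hlD
        omega
      rw [MvPolynomial.homogeneousComponent_eq_zero _ _ this, map_zero]
  rcases le_or_gt P.totalDegree m with h | h
  · conv_lhs => rw [← MvPolynomial.sum_homogeneousComponent P]
    refine Finset.sum_subset ?_ ?_
    · intro j hj
      simp only [Finset.mem_range] at hj ⊢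
      omega
    · intro j _ hj
      refine MvPolynomial.homogeneousComponent_eq_zero _ _ ?_
      simp only [Finset.mem_range, not_lt] at hj
      omega
  · conv_lhs => rw [← MvPolynomial.sum_homogeneousComponent P]
    symm
    refine Finset.sum_subset ?_ ?_
    · intro j hj
      simp only [Finset.mem_range] at hj ⊢
      omega
    · intro j _ hj
      refine key _ ?_
      simp only [Finset.mem_range, not_lt] at hj
      omega

end Several

/-! ### The top homogeneous part -/

section Top

variable {E : Type*} [AddCommGroup E] [Module ℝ E] {m : ℕ} {F : E → ℝ}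

/-- The coefficient of `t ^ m` in `F (x + t h)` does not depend on `x`. -/
theorem lp_coeff_top (hF : IsDeg m F) (x h : E) :
    (lp hF x h).coeff m = (lp hF 0 h).coeff m := by
  classical
  -- the polynomial in two variables
  obtain ⟨P, hP, hPm⟩ := exists_mv hF (![x, h]) 0
  have hline : ∀ s : ℚ, (lp hF ((s : ℝ) • x) h).coeff m =
      MvPolynomial.coeff (Finsupp.single 1 m) P := by
    intro s
    have h1 : lp hF ((s : ℝ) • x) h =
        ∑ d ∈ P.support, C (MvPolynomial.coeff d P * (s : ℝ) ^ (d 0)) * X ^ (d 1) := by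
      refine lp_eq hF _ _ fun t => ?_
      have h2 := hP ![s, t]
      rw [Fin.sum_univ_two] at h2
      simp only [Matrix.cons_val_zero, Matrix.cons_val_one, zero_add] at h2
      rw [h2, MvPolynomial.eval_eq', eval_finsetSum]
      refine Finset.sum_congr rfl fun d _ => ?_
      rw [Fin.prod_univ_two]
      simp
      ring
    rw [h1, finsetSum_coeff]
    have hdeg : ∀ d ∈ P.support, d 0 + d 1 ≤ m := by
      intro d hd
      by_contra hcon
      have h3 : MvPolynomial.coeff d P = 0 := by
        rw [hPm, MvPolynomial.coeff_sum]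
        refine Finset.sum_eq_zero fun l hl => ?_
        rw [MvPolynomial.coeff_homogeneousComponent, if_neg]
        intro hdl
        have : d 0 + d 1 = l := by
          rw [← hdl, Finsupp.degree_eq_sum, Fin.sum_univ_two]
        simp only [Finset.mem_range] at hl
        omega
      exact (MvPolynomial.mem_support_iff.1 hd) h3
    by_cases hs : Finsupp.single (1 : Fin 2) m ∈ P.support
    · rw [Finset.sum_eq_single_of_mem _ hs]
      · simp
      · intro d hd hne
        rw [coeff_C_mul_X_pow, if_neg]
        intro hm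
        apply hne
        have := hdeg d hd
        ext i
        fin_cases i
        · simp
          omega
        · simp [← hm]
    · rw [MvPolynomial.notMem_support_iff.1 hs]
      refine Finset.sum_eq_zero fun d hd => ?_
      rw [coeff_C_mul_X_pow, if_neg]
      intro hm
      apply hs
      have h4 := hdeg d hd
      have : d = Finsupp.single 1 m := by
        ext i
        fin_cases i
        · simp
          omega
        · simp [← hm]
      rwa [← this]
  have h0 := hline 0
  have h1 := hline 1
  simp only [Rat.cast_zero, zero_smul, Rat.cast_one, one_smul] at h0 h1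
  rw [h0, h1]

/-- The homogeneous top part of `F`. -/
noncomputable def top (hF : IsDeg m F) (h : E) : ℝ := (lp hF 0 h).coeff m

theorem top_eq (hF : IsDeg m F) (x h : E) : (lp hF x h).coeff m = top hF h :=
  lp_coeff_top hF x h

theorem top_formula (hF : IsDeg m F) (h : E) :
    top hF h = ∑ s ∈ Finset.range (m + 1), F ((s : ℝ) • h) * (ell m s).coeff m := by
  unfold top
  conv_lhs => rw [poly_interp (lp_natDegree hF 0 h)]
  rw [finsetSum_coeff]
  refine Finset.sum_congr rfl fun s _ => ?_
  rw [coeff_C_mul, ← lp_eval_nat, zero_add]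

theorem top_isDeg (hF : IsDeg m F) : IsDeg m (top hF) := by
  refine isDeg_of_exists_poly fun x h => ?_
  refine ⟨∑ s ∈ Finset.range (m + 1),
    C ((ell m s).coeff m) * (lp hF ((s : ℝ) • x) ((s : ℝ) • h)), ?_, ?_⟩
  · refine natDegree_sum_le_of_forall_le _ _ fun s _ => ?_
    exact (natDegree_C_mul_le _ _).trans (lp_natDegree hF _ _)
  · intro t
    rw [top_formula, eval_finsetSum]
    refine Finset.sum_congr rfl fun s _ => ?_
    rw [eval_mul, eval_C, ← lp_eval, mul_comm]
    congr 2
    rw [smul_add, smul_comm]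

theorem top_smul (hF : IsDeg m F) (q : ℚ) (h : E) :
    top hF ((q : ℝ) • h) = (q : ℝ) ^ m * top hF h := by
  unfold top
  have h1 : lp hF 0 ((q : ℝ) • h) = (lp hF 0 h).comp (C (q : ℝ) * X) := by
    refine lp_eq hF _ _ fun t => ?_
    rw [eval_comp, eval_mul, eval_C, eval_X]
    have := lp_eval hF 0 h (q * t)
    push_cast at this
    rw [← this, smul_smul, mul_comm]
  rw [h1, comp_C_mul_X_coeff, mul_comm]

theorem top_top (hF : IsDeg m F) (h : E) : top (top_isDeg hF) h = top hF h := by
  have h1 : lp (top_isDeg hF) 0 h = C (top hF h) * X ^ m := by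
    refine lp_eq _ _ _ fun t => ?_
    rw [zero_add, top_smul]
    simp
    ring
  have h2 : top (top_isDeg hF) h = (lp (top_isDeg hF) 0 h).coeff m := rfl
  rw [h2, h1]
  simp

/-- Subtracting the top part lowers the degree. -/
theorem sub_top_isDeg {F : E → ℝ} (hF : IsDeg (m + 1) F) :
    IsDeg m (fun x => F x - top hF x) := by
  refine isDeg_of_exists_poly fun x h => ?_
  refine ⟨lp hF x h - lp (top_isDeg hF) x h, ?_, ?_⟩
  · have h1 : (lp hF x h - lp (top_isDeg hF) x h).natDegree ≤ m + 1 :=
      (natDegree_sub_le _ _).trans (max_le (lp_natDegree _ _ _) (lp_natDegree _ _ _))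
    have h2 : (lp hF x h - lp (top_isDeg hF) x h).coeff (m + 1) = 0 := by
      rw [coeff_sub, top_eq, top_eq, top_top, sub_self]
    generalize lp hF x h - lp (top_isDeg hF) x h = p at h1 h2
    by_contra hcon
    have h3 : p.natDegree = m + 1 := by omega
    rw [← h3, coeff_natDegree, leadingCoeff_eq_zero] at h2
    rw [h2] at h3
    simp at h3
  · intro t
    rw [eval_sub, ← lp_eval, ← lp_eval]

end Top

end Pool.Agent.R236.Deg
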