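import Pool.Agent.R236.Deg

/-!
Functionals of degree `m` on real normed spaces: local boundedness gives continuity, and a
discontinuous functional of degree `m` blows up along one null sequence at every point.
-/

namespace Pool.Agent.R236.Deg

open Filter Topology Polynomial

section Normed

variable {E : Type*} [NormedAddCommGroup E] [NormedSpace ℝ E] {m : ℕ} {F : E → ℝ}

/-- the constant in the interpolation estimates. -/
noncomputable def KK (m : ℕ) : ℝ :=
  ∑ i ∈ Finset.range (m + 1), ∑ s ∈ Finset.range (m + 1), |(ell m s).coeff i|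

theorem KK_nonneg (m : ℕ) : 0 ≤ KK m :=
  Finset.sum_nonneg fun _ _ => Finset.sum_nonneg fun _ _ => abs_nonneg _

theorem lp_coeff (hF : IsDeg m F) (x h : E) (i : ℕ) :
    (lp hF x h).coeff i = ∑ s ∈ Finset.range (m + 1), F (x + (s : ℝ) • h) * (ell m s).coeff i := by
  conv_lhs => rw [poly_interp (lp_natDegree hF x h)]
  rw [finsetSum_coeff]
  refine Finset.sum_congr rfl fun s _ => ?_
  rw [coeff_C_mul, ← lp_eval_nat]

theorem sum_abs_coeff_le (hF : IsDeg m F) (x h : E) {M : ℝ}
    (hM : ∀ s ∈ Finset.range (m + 1), |F (x + (s : ℝ) • h)| ≤ M) :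
    ∑ i ∈ Finset.range (m + 1), |(lp hF x h).coeff i| ≤ M * KK m := by
  unfold KK
  rw [Finset.mul_sum]
  refine Finset.sum_le_sum fun i _ => ?_
  rw [lp_coeff hF, Finset.mul_sum]
  refine (Finset.abs_sum_le_sum_abs _ _).trans ?_
  refine Finset.sum_le_sum fun s hs => ?_
  rw [abs_mul]
  exact mul_le_mul_of_nonneg_right (hM s hs) (abs_nonneg _)

theorem abs_sub_le (hF : IsDeg m F) (x h : E) {M : ℝ}
    (hM : ∀ s ∈ Finset.range (m + 1), |F (x + (s : ℝ) • h)| ≤ M) (N : ℕ) (hN : 1 ≤ N) :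
    |F (x + ((N : ℝ)⁻¹) • h) - F x| ≤ M * KK m / N := by
  have hN' : (1 : ℝ) ≤ N := by exact_mod_cast hN
  have hN0 : (0 : ℝ) < N := by linarith
  have h1 : F (x + ((N : ℝ)⁻¹) • h) = (lp hF x h).eval ((N : ℝ)⁻¹) := by
    have := lp_eval hF x h ((N : ℚ)⁻¹)
    push_cast at this
    exact this
  have h0 : F x = (lp hF x h).eval 0 := by
    have := lp_eval hF x h 0
    simpa using this
  rw [h1, h0, eval_eq_sum_range' (n := m + 1) (Nat.lt_succ_of_le (lp_natDegree hF x h)),
    eval_eq_sum_range' (n := m + 1) (Nat.lt_succ_of_le (lp_natDegree hF x h)),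
    ← Finset.sum_sub_distrib]
  refine (Finset.abs_sum_le_sum_abs _ _).trans ?_
  have h2 : ∑ i ∈ Finset.range (m + 1), |(lp hF x h).coeff i * ((N : ℝ)⁻¹) ^ i -
      (lp hF x h).coeff i * 0 ^ i| ≤
      ∑ i ∈ Finset.range (m + 1), |(lp hF x h).coeff i| * (N : ℝ)⁻¹ := by
    refine Finset.sum_le_sum fun i _ => ?_
    rw [← mul_sub, abs_mul]
    refine mul_le_mul_of_nonneg_left ?_ (abs_nonneg _)
    rcases Nat.eq_zero_or_pos i with hi | hi
    · subst hi
      simp
    · rw [zero_pow (by omega), sub_zero, abs_of_nonneg (by positivity)]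
      calc ((N : ℝ)⁻¹) ^ i ≤ ((N : ℝ)⁻¹) ^ 1 :=
            pow_le_pow_of_le_one (by positivity) (inv_le_one_of_one_le₀ hN') hi
        _ = (N : ℝ)⁻¹ := pow_one _
  refine h2.trans ?_
  rw [← Finset.sum_mul, div_eq_mul_inv]
  exact mul_le_mul_of_nonneg_right (sum_abs_coeff_le hF x h hM) (by positivity)

/-- A functional of degree `m` bounded near `x` is continuous at `x`. -/
theorem continuousAt_of_bdd (hF : IsDeg m F) (x : E) {r M : ℝ} (hr : 0 < r)
    (hM : ∀ y, ‖y - x‖ < r → |F y| ≤ M) : ContinuousAt F x := by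
  have hM0 : 0 ≤ M := (abs_nonneg _).trans (hM x (by simpa using hr))
  rw [Metric.continuousAt_iff]
  intro ε hε
  obtain ⟨N, hN⟩ := exists_nat_gt (M * KK m / ε)
  have hN1 : 1 ≤ N + 1 := by omega
  refine ⟨r / ((m + 1) * (N + 1)), by positivity, ?_⟩
  intro y hy
  rw [dist_eq_norm] at hy
  rw [Real.dist_eq]
  have hy' : ‖y - x‖ * ((m + 1) * (N + 1)) < r := by
    rwa [lt_div_iff₀ (by positivity)] at hy
  have hb : ∀ s ∈ Finset.range (m + 1),
      |F (x + (s : ℝ) • (((N + 1 : ℕ) : ℝ) • (y - x)))| ≤ M := by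
    intro s hs
    refine hM _ ?_
    rw [add_sub_cancel_left, norm_smul, norm_smul]
    simp only [Real.norm_natCast]
    have hs' : (s : ℝ) ≤ m + 1 := by
      have := Finset.mem_range.1 hs
      exact_mod_cast this.le
    calc (s : ℝ) * (((N + 1 : ℕ) : ℝ) * ‖y - x‖)
        ≤ (m + 1) * (((N + 1 : ℕ) : ℝ) * ‖y - x‖) :=
          mul_le_mul_of_nonneg_right hs' (by positivity)
      _ = ‖y - x‖ * ((m + 1) * (N + 1)) := by push_cast; ring
      _ < r := hy'
  have h1 := abs_sub_le hF x (((N + 1 : ℕ) : ℝ) • (y - x)) hb (N + 1) hN1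
  have h2 : x + (((N + 1 : ℕ) : ℝ)⁻¹) • (((N + 1 : ℕ) : ℝ) • (y - x)) = y := by
    rw [smul_smul, inv_mul_cancel₀ (by positivity), one_smul]
    abel
  rw [h2] at h1
  refine lt_of_le_of_lt h1 ?_
  rw [div_lt_iff₀ (by positivity)]
  have h3 : M * KK m < N * ε := by
    rwa [div_lt_iff₀ hε] at hN
  push_cast
  nlinarith

theorem top_continuous_of_bdd (hF : IsDeg m F) {r M : ℝ} (hr : 0 < r)
    (hM : ∀ y, ‖y‖ < r → |top hF y| ≤ M) : Continuous (top hF) := by
  rw [continuous_iff_continuousAt]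
  intro x
  obtain ⟨N, hN⟩ := exists_nat_gt ((‖x‖ + 1) / r)
  have hN0 : (0 : ℝ) < N := lt_of_le_of_lt (by positivity) hN
  refine continuousAt_of_bdd (top_isDeg hF) x (r := 1) (M := (N : ℝ) ^ m * M) one_pos ?_
  intro y hy
  have h1 : y = ((N : ℚ) : ℝ) • ((N : ℝ)⁻¹ • y) := by
    rw [smul_smul]
    push_cast
    rw [mul_inv_cancel₀ hN0.ne', one_smul]
  rw [h1, top_smul, abs_mul]
  push_cast
  rw [abs_of_pos (pow_pos hN0 m)]
  refine mul_le_mul_of_nonneg_left (hM _ ?_) (by positivity)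
  rw [norm_smul, norm_inv, Real.norm_natCast]
  rw [inv_mul_lt_iff₀ hN0]
  have h2 : ‖y‖ < ‖x‖ + 1 := by
    calc ‖y‖ = ‖x + (y - x)‖ := by congr 1; abel
      _ ≤ ‖x‖ + ‖y - x‖ := norm_add_le _ _
      _ < ‖x‖ + 1 := by linarith
  rw [div_lt_iff₀ hr] at hN
  linarith

theorem top_unbdd (hF : IsDeg m F) (hd : ¬ Continuous (top hF)) (r M : ℝ) (hr : 0 < r) :
    ∃ y, ‖y‖ < r ∧ M < |top hF y| := by
  by_contra hcon
  push Not at hcon
  exact hd (top_continuous_of_bdd hF hr hcon)

theorem isDeg_zero_continuous (hF : IsDeg 0 F) : Continuous F := by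
  have h : ∀ x, F x = F 0 := by
    intro x
    have h1 := lp_eval hF 0 x 1
    have h0 := lp_eval hF 0 x 0
    have h2 : (lp hF 0 x) = C ((lp hF 0 x).coeff 0) :=
      eq_C_of_natDegree_le_zero (lp_natDegree hF 0 x)
    rw [h2] at h1 h0
    simp at h1 h0
    rw [h1, h0]
  have h' : F = fun _ => F 0 := funext h
  rw [h']
  exact continuous_const

/-- The blow-up sequence when the top part is discontinuous. -/
theorem blowup_of_top (hF : IsDeg m F) (hd : ¬ Continuous (top hF)) :
    ∃ x : ℕ → E, Tendsto x atTop (𝓝 0) ∧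
      ∀ y : E, ∀ C : ℝ, ∃ᶠ n in atTop, C < |F (x n + y)| := by
  have h := fun k : ℕ => top_unbdd hF hd (1 / ((k : ℝ) + 1)) k (by positivity)
  choose y hy1 hy2 using h
  refine ⟨fun n => ((n % (m + 1) : ℕ) : ℝ) • y (n / (m + 1)), ?_, ?_⟩
  · rw [tendsto_zero_iff_norm_tendsto_zero]
    have hdiv : Tendsto (fun n : ℕ => n / (m + 1)) atTop atTop :=
      Nat.tendsto_div_const_atTop (by omega)
    have hlim : Tendsto (fun n : ℕ => ((m : ℝ) + 1) * (1 / (((n / (m + 1) : ℕ) : ℝ) + 1)))
        atTop (𝓝 0) := by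
      have := (tendsto_one_div_add_atTop_nhds_zero_nat (𝕜 := ℝ)).comp hdiv
      have h2 := this.const_mul ((m : ℝ) + 1)
      simpa using h2
    refine squeeze_zero (fun _ => norm_nonneg _) (fun n => ?_) hlim
    rw [norm_smul, Real.norm_natCast]
    have h1 : ((n % (m + 1) : ℕ) : ℝ) ≤ (m : ℝ) + 1 := by
      have := Nat.mod_lt n (show 0 < m + 1 by omega)
      exact_mod_cast this.le
    exact mul_le_mul h1 (hy1 _).le (norm_nonneg _) (by positivity)
  · intro z C
    rw [Filter.frequently_atTop]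
    intro n₀
    by_contra hcon
    push Not at hcon
    obtain ⟨k, hk⟩ := exists_nat_gt (max (C * KK m) n₀)
    have hkC : C * KK m < k := lt_of_le_of_lt (le_max_left _ _) hk
    have hkn : (n₀ : ℝ) < k := lt_of_le_of_lt (le_max_right _ _) hk
    have hkn' : n₀ < k := by exact_mod_cast hkn
    have hb : ∀ s ∈ Finset.range (m + 1), |F (z + (s : ℝ) • y k)| ≤ C := by
      intro s hs
      have hs' := Finset.mem_range.1 hs
      have h1 := hcon ((m + 1) * k + s) (by nlinarith)
      have h2 : ((m + 1) * k + s) % (m + 1) = s := by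
        rw [Nat.mul_add_mod, Nat.mod_eq_of_lt hs']
      have h3 : ((m + 1) * k + s) / (m + 1) = k := by
        rw [Nat.mul_add_div (by omega), Nat.div_eq_of_lt hs', add_zero]
      rw [h2, h3] at h1
      rw [add_comm]
      exact h1
    have h1 := sum_abs_coeff_le hF z (y k) hb
    have h2 : |(lp hF z (y k)).coeff m| ≤ ∑ i ∈ Finset.range (m + 1),
        |(lp hF z (y k)).coeff i| :=
      Finset.single_le_sum (f := fun i => |(lp hF z (y k)).coeff i|)
        (fun _ _ => abs_nonneg _) (Finset.mem_range.2 (by omega))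
    rw [top_eq] at h2
    have h3 := hy2 k
    linarith

/-- A discontinuous functional of degree `m` is unbounded along (tails of) all translates of one
null sequence. -/
theorem blowup (m : ℕ) : ∀ {F : E → ℝ}, IsDeg m F → ¬ Continuous F →
    ∃ x : ℕ → E, Tendsto x atTop (𝓝 0) ∧
      ∀ y : E, ∀ C : ℝ, ∃ᶠ n in atTop, C < |F (x n + y)| := by
  induction m with
  | zero =>
    intro F hF hd
    exact absurd (isDeg_zero_continuous hF) hd
  | succ m ih =>
    intro F hF hd
    by_cases ht : Continuous (top hF)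
    · have hF' := sub_top_isDeg hF
      have hd' : ¬ Continuous (fun x => F x - top hF x) := by
        intro hc
        apply hd
        have h1 : Continuous (fun x => (F x - top hF x) + top hF x) := hc.add ht
        simpa using h1
      obtain ⟨x, hx, hx2⟩ := ih hF' hd'
      refine ⟨x, hx, fun y C => ?_⟩
      have h1 : Tendsto (fun n => top hF (x n + y)) atTop (𝓝 (top hF (0 + y))) :=
        (ht.tendsto _).comp (hx.add_const y)
      have h2 : ∀ᶠ n in atTop, |top hF (x n + y)| < |top hF (0 + y)| + 1 :=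
        h1.abs.eventually_lt_const (by linarith)
      refine ((hx2 y (C + (|top hF (0 + y)| + 1))).and_eventually h2).mono ?_
      rintro n ⟨h3, h4⟩
      have h5 : |F (x n + y) - top hF (x n + y)| ≤ |F (x n + y)| + |top hF (x n + y)| :=
        abs_sub _ _
      linarith
    · exact blowup_of_top hF ht

end Normed

end Pool.Agent.R236.Deg
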