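import Pool.Agent.R236.DegB

/-!
Functionals of degree `m` on finite-dimensional spaces: a discontinuous one tends to infinity in
absolute value along all translates of a single null sequence.
-/

namespace Pool.Agent.R236.Deg

open Filter Topology Polynomial

section Alg

variable {E : Type*} [AddCommGroup E] [Module ℝ E] {m : ℕ} {F : E → ℝ}
variable {ι : Type*} [Fintype ι] [DecidableEq ι]

/-- `P` represents `F` on the rational affine space `x + ∑ ℚ w i`. -/
def Rep (F : E → ℝ) (m : ℕ) (w : ι → E) (x : E) (P : MvPolynomial ι ℝ) : Prop :=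
  (∀ q : ι → ℚ, F (x + ∑ i, ((q i : ℚ) : ℝ) • w i) =
    MvPolynomial.eval (fun i => ((q i : ℚ) : ℝ)) P) ∧
  P = ∑ l ∈ Finset.range (m + 1), MvPolynomial.homogeneousComponent l P

omit [DecidableEq ι] in
theorem Rep.degree_le {w : ι → E} {x : E} {P : MvPolynomial ι ℝ} (hP : Rep F m w x P)
    {d : ι →₀ ℕ} (hd : d ∈ P.support) : d.degree ≤ m := by
  by_contra hcon
  apply MvPolynomial.mem_support_iff.1 hd
  rw [hP.2, MvPolynomial.coeff_sum]
  refine Finset.sum_eq_zero fun l hl => ?_
  rw [MvPolynomial.coeff_homogeneousComponent, if_neg]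
  intro hdl
  simp only [Finset.mem_range] at hl
  omega

omit [DecidableEq ι] in
theorem Rep.le {w : ι → E} {x : E} {P : MvPolynomial ι ℝ} (hP : Rep F m w x P)
    {d : ι →₀ ℕ} (hd : d ∈ P.support) (i : ι) : d i ≤ m :=
  (Finsupp.le_degree i d).trans (hP.degree_le hd)

omit [DecidableEq ι] in
theorem Rep.lp_eq_sum (hF : IsDeg m F) {w : ι → E} {x : E} {P : MvPolynomial ι ℝ}
    (hP : Rep F m w x P) (q : ι → ℚ) :
    lp hF x (∑ i, ((q i : ℚ) : ℝ) • w i) =
        ∑ j ∈ Finset.range (m + 1),
          C (MvPolynomial.eval (fun i => ((q i : ℚ) : ℝ))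
            (MvPolynomial.homogeneousComponent j P)) * X ^ j := by
  refine lp_eq hF _ _ fun t => ?_
  have h1 : x + (t : ℝ) • ∑ i, ((q i : ℚ) : ℝ) • w i =
      x + ∑ i, (((t * q i : ℚ)) : ℝ) • w i := by
    rw [Finset.smul_sum]
    congr 1
    refine Finset.sum_congr rfl fun i _ => ?_
    rw [smul_smul]
    push_cast
    rfl
  rw [h1, hP.1 (fun i => t * q i)]
  conv_lhs => rw [hP.2]
  rw [map_sum, eval_finsetSum]
  refine Finset.sum_congr rfl fun j _ => ?_
  have h2 : (fun i => ((t * q i : ℚ) : ℝ)) = fun i => (t : ℝ) * ((q i : ℚ) : ℝ) := by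
    funext i
    push_cast
    rfl
  rw [h2, hom_eval (MvPolynomial.homogeneousComponent_isHomogeneous j P)]
  simp
  ring

omit [DecidableEq ι] in
/-- The top homogeneous component represents the top part, whatever the base point. -/
theorem Rep.hc_top (hF : IsDeg m F) {w : ι → E} {x : E} {P Q : MvPolynomial ι ℝ}
    (hP : Rep F m w x P) (hQ : Rep (top hF) m w 0 Q) :
    MvPolynomial.homogeneousComponent m P = Q := by
  refine mv_unique fun q => ?_
  rw [← hQ.1 q, zero_add, ← top_eq hF x, hP.lp_eq_sum hF q, finsetSum_coeff,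
    Finset.sum_eq_single_of_mem m (Finset.mem_range.2 (by omega))]
  · simp
  · intro j _ hj
    rw [coeff_C_mul_X_pow, if_neg (Ne.symm hj)]

/-- substitution of the real line `v + τ u`. -/
noncomputable def sub1 (v u : ι → ℝ) (P : MvPolynomial ι ℝ) : ℝ[X] :=
  MvPolynomial.aeval (fun i => C (v i) + C (u i) * X) P

omit [Fintype ι] [DecidableEq ι] in
theorem sub1_eval (v u : ι → ℝ) (P : MvPolynomial ι ℝ) (τ : ℝ) :
    (sub1 v u P).eval τ = MvPolynomial.eval (fun i => v i + τ * u i) P := by
  have h : (Polynomial.evalRingHom τ).comp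
      (MvPolynomial.aeval (fun i => C (v i) + C (u i) * X) :
        MvPolynomial ι ℝ →ₐ[ℝ] ℝ[X]).toRingHom =
      MvPolynomial.eval (fun i => v i + τ * u i) := by
    refine MvPolynomial.ringHom_ext ?_ ?_
    · intro r
      simp
    · intro i
      simp
      ring
  exact RingHom.congr_fun h P

/-- The polynomial whose value at `t` is `t ^ m` times the value at `t⁻¹ v + t ^ (m+1) u`. -/
noncomputable def SS (m : ℕ) (v u : ι → ℝ) (P : MvPolynomial ι ℝ) : ℝ[X] :=
  ∑ l ∈ Finset.range (m + 1), X ^ (m - l) *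
    expand ℝ (m + 2) (sub1 v u (MvPolynomial.homogeneousComponent l P))

omit [DecidableEq ι] in
theorem SS_eval {w : ι → E} {x : E} {P : MvPolynomial ι ℝ} (hP : Rep F m w x P)
    (v u : ι → ℝ) (t : ℝ) (ht : t ≠ 0) :
    MvPolynomial.eval (fun i => t⁻¹ * v i + t ^ (m + 1) * u i) P =
      (SS m v u P).eval t / t ^ m := by
  rw [eq_div_iff (pow_ne_zero _ ht)]
  conv_lhs => rw [hP.2]
  unfold SS
  rw [map_sum, eval_finsetSum, Finset.sum_mul]
  refine Finset.sum_congr rfl fun l hl => ?_
  have hl' : l ≤ m := by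
    have := Finset.mem_range.1 hl
    omega
  rw [eval_mul, eval_pow, eval_X, expand_eval, sub1_eval]
  have h1 : (fun i => t⁻¹ * v i + t ^ (m + 1) * u i) =
      fun i => t⁻¹ * (v i + t ^ (m + 2) * u i) := by
    funext i
    field_simp
    ring
  rw [h1, hom_eval (MvPolynomial.homogeneousComponent_isHomogeneous l P)]
  have h2 : t ^ m = t ^ (m - l) * t ^ l := by
    rw [← pow_add]
    congr 1
    omega
  rw [h2, inv_pow]
  field_simp

omit [Fintype ι] [DecidableEq ι] in
theorem SS_coeff (m : ℕ) (v u : ι → ℝ) (P : MvPolynomial ι ℝ) (ρ : ℕ) :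
    (SS m v u P).coeff ((m + 2) * ρ) =
      (sub1 v u (MvPolynomial.homogeneousComponent m P)).coeff ρ := by
  unfold SS
  rw [finsetSum_coeff, Finset.sum_eq_single_of_mem m (Finset.mem_range.2 (by omega))]
  · rw [Nat.sub_self, pow_zero, one_mul, coeff_expand_mul' (by omega)]
  · intro l hl hne
    have hl' : l < m := by
      have := Finset.mem_range.1 hl
      omega
    rw [coeff_X_pow_mul']
    split_ifs with h
    · rw [coeff_expand (by omega), if_neg]
      intro hdvd
      have h3 : (m + 2) ∣ (m - l) := by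
        have h4 := Nat.dvd_sub (Dvd.intro ρ rfl : (m + 2) ∣ (m + 2) * ρ) hdvd
        have h5 : (m + 2) * ρ - ((m + 2) * ρ - (m - l)) = m - l := by omega
        rwa [h5] at h4
      have := Nat.le_of_dvd (by omega) h3
      omega
    · rfl

end Alg

section Fin

variable {E : Type*} [NormedAddCommGroup E] [NormedSpace ℝ E] {m : ℕ} {F : E → ℝ}

/-- Simultaneous rational approximation of a real point. -/
theorem exists_rat_approx {ι : Type*} [Fintype ι] (m : ℕ) (w : ι → E) (p : ι → ℝ) {ε : ℝ}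
    (hε : 0 < ε) :
    ∃ q : ι → ℚ, (∀ d : ι → Fin (m + 1),
      |∏ i, ((q i : ℚ) : ℝ) ^ (d i : ℕ) - ∏ i, p i ^ (d i : ℕ)| < ε) ∧
      ‖∑ i, ((q i : ℚ) : ℝ) • w i - ∑ i, p i • w i‖ < ε := by
  classical
  have h1 : ∀ d : ι → Fin (m + 1), ∀ᶠ q : ι → ℝ in 𝓝 p,
      |∏ i, q i ^ (d i : ℕ) - ∏ i, p i ^ (d i : ℕ)| < ε := by
    intro d
    have hc : Continuous fun q : ι → ℝ => |∏ i, q i ^ (d i : ℕ) - ∏ i, p i ^ (d i : ℕ)| := by
      fun_prop
    exact hc.continuousAt.eventually_lt_const (by simpa using hε)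
  have h2 : ∀ᶠ q : ι → ℝ in 𝓝 p, ‖∑ i, q i • w i - ∑ i, p i • w i‖ < ε := by
    have hc : Continuous fun q : ι → ℝ => ‖∑ i, q i • w i - ∑ i, p i • w i‖ := by
      fun_prop
    exact hc.continuousAt.eventually_lt_const (by simpa using hε)
  have h3 : ∀ᶠ q : ι → ℝ in 𝓝 p, (∀ d : ι → Fin (m + 1),
      |∏ i, q i ^ (d i : ℕ) - ∏ i, p i ^ (d i : ℕ)| < ε) ∧
      ‖∑ i, q i • w i - ∑ i, p i • w i‖ < ε :=
    (eventually_all.2 h1).and h2
  obtain ⟨U, hU, hUo, hpU⟩ := eventually_nhds_iff.1 h3
  obtain ⟨q, hq⟩ := (denseRange_rat (ι := ι)).exists_mem_open hUo ⟨p, hpU⟩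
  exact ⟨q, hU _ hq⟩

theorem eval_sub_le {ι : Type*} [Fintype ι] {w : ι → E} {x : E} {P : MvPolynomial ι ℝ}
    (hP : Rep F m w x P) (p p' : ι → ℝ) {ε : ℝ}
    (h : ∀ d : ι → Fin (m + 1), |∏ i, p' i ^ (d i : ℕ) - ∏ i, p i ^ (d i : ℕ)| < ε) :
    |MvPolynomial.eval p' P - MvPolynomial.eval p P| ≤
      (∑ d ∈ P.support, |MvPolynomial.coeff d P|) * ε := by
  rw [MvPolynomial.eval_eq', MvPolynomial.eval_eq', ← Finset.sum_sub_distrib, Finset.sum_mul]
  refine (Finset.abs_sum_le_sum_abs _ _).trans (Finset.sum_le_sum fun d hd => ?_)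
  rw [← mul_sub, abs_mul]
  refine mul_le_mul_of_nonneg_left ?_ (abs_nonneg _)
  exact (h (fun i => ⟨d i, Nat.lt_succ_of_le (hP.le hd i)⟩)).le

/-- The main step: blow-up along a suitable rational sequence. -/
theorem blowup_of_line {ι : Type*} [Fintype ι] [DecidableEq ι] (hF : IsDeg m F) (w : ι → E)
    (u v : ι → ℝ) (hu : ∑ i, u i • w i = 0) {Q : MvPolynomial ι ℝ}
    (hQ : Rep (top hF) m w 0 Q) {ρ : ℕ} (hρ : 1 ≤ ρ) (hc : (sub1 v u Q).coeff ρ ≠ 0) :
    ∃ x : ℕ → E, Tendsto x atTop (𝓝 0) ∧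
      ∀ y : E, Tendsto (fun n => |F (x n + y)|) atTop atTop := by
  let t : ℕ → ℝ := fun n => (n : ℝ) + 1
  have ht : ∀ n, 0 < t n := fun n => by positivity
  have htt : Tendsto t atTop atTop :=
    tendsto_atTop_add_const_right _ _ tendsto_natCast_atTop_atTop
  let p : ℕ → ι → ℝ := fun n i => (t n)⁻¹ * v i + (t n) ^ (m + 1) * u i
  have h := fun n => exists_rat_approx (E := E) m w (p n) (ε := (t n)⁻¹) (inv_pos.2 (ht n))
  choose q hq1 hq2 using h
  have htinv : Tendsto (fun n => (t n)⁻¹) atTop (𝓝 0) := tendsto_inv_atTop_zero.comp htt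
  refine ⟨fun n => ∑ i, ((q n i : ℚ) : ℝ) • w i, ?_, ?_⟩
  · rw [tendsto_zero_iff_norm_tendsto_zero]
    have hlim : Tendsto (fun n => (t n)⁻¹ * ‖∑ i, v i • w i‖ + (t n)⁻¹) atTop (𝓝 0) := by
      have := (htinv.mul_const ‖∑ i, v i • w i‖).add htinv
      simpa using this
    refine squeeze_zero (fun _ => norm_nonneg _) (fun n => ?_) hlim
    have h1 : ∑ i, p n i • w i = (t n)⁻¹ • ∑ i, v i • w i := by
      simp only [p, add_smul, Finset.sum_add_distrib, mul_smul, ← Finset.smul_sum, hu, smul_zero,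
        add_zero]
    calc ‖∑ i, ((q n i : ℚ) : ℝ) • w i‖
        = ‖∑ i, p n i • w i + (∑ i, ((q n i : ℚ) : ℝ) • w i - ∑ i, p n i • w i)‖ := by
          congr 1; abel
      _ ≤ ‖∑ i, p n i • w i‖ + ‖∑ i, ((q n i : ℚ) : ℝ) • w i - ∑ i, p n i • w i‖ :=
          norm_add_le _ _
      _ ≤ (t n)⁻¹ * ‖∑ i, v i • w i‖ + (t n)⁻¹ := by
          rw [h1, norm_smul, Real.norm_of_nonneg (inv_pos.2 (ht n)).le]
          exact add_le_add le_rfl (by rw [← h1]; exact (hq2 n).le)
  · intro y
    obtain ⟨P, hP1, hP2⟩ := exists_mv hF w y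
    have hP : Rep F m w y P := ⟨hP1, hP2⟩
    have hS : (SS m v u P).coeff ((m + 2) * ρ) ≠ 0 := by
      rw [SS_coeff, hP.hc_top hF hQ]
      exact hc
    have hdeg : (X ^ m : ℝ[X]).degree < (SS m v u P).degree := by
      rw [degree_X_pow]
      refine lt_of_lt_of_le ?_ (le_degree_of_ne_zero hS)
      have : m < (m + 2) * ρ := by nlinarith
      exact_mod_cast this
    have hlim := (abs_div_tendsto_atTop_atTop_of_degree_gt (SS m v u P) (X ^ m) hdeg
      (pow_ne_zero _ X_ne_zero)).comp htt
    have hlim2 : Tendsto (fun n => |MvPolynomial.eval (p n) P| -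
        (∑ d ∈ P.support, |MvPolynomial.coeff d P|) * (t n)⁻¹) atTop atTop := by
      have h2 : Tendsto (fun n => -((∑ d ∈ P.support, |MvPolynomial.coeff d P|) * (t n)⁻¹))
          atTop (𝓝 (-((∑ d ∈ P.support, |MvPolynomial.coeff d P|) * 0))) :=
        (htinv.const_mul _).neg
      have h3 := hlim.atTop_add h2
      refine h3.congr fun n => ?_
      simp only [Function.comp, eval_pow, eval_X]
      rw [← SS_eval hP v u (t n) (ht n).ne', ← sub_eq_add_neg]
    refine tendsto_atTop_mono (fun n => ?_) hlim2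
    have h4 : F (∑ i, ((q n i : ℚ) : ℝ) • w i + y) =
        MvPolynomial.eval (fun i => ((q n i : ℚ) : ℝ)) P := by
      rw [add_comm, hP.1]
    rw [h4]
    have h5 := eval_sub_le hP (p n) (fun i => ((q n i : ℚ) : ℝ)) (hq1 n)
    have h6 : |MvPolynomial.eval (p n) P| - |MvPolynomial.eval (fun i => ((q n i : ℚ) : ℝ)) P| ≤
        |MvPolynomial.eval (fun i => ((q n i : ℚ) : ℝ)) P - MvPolynomial.eval (p n) P| := by
      rw [abs_sub_comm]
      exact abs_sub_abs_le_abs_sub _ _
    linarith

/-- In a finite-dimensional space, some rational subspace with one extra generator sees the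
discontinuity of the top part. -/
theorem exists_line [FiniteDimensional ℝ E] (hF : IsDeg m F) (hd : ¬ Continuous (top hF)) :
    ∃ (w : Option (Fin (Module.finrank ℝ E)) → E) (u v : Option (Fin (Module.finrank ℝ E)) → ℝ)
      (Q : MvPolynomial (Option (Fin (Module.finrank ℝ E))) ℝ) (ρ : ℕ),
      ∑ i, u i • w i = 0 ∧ Rep (top hF) m w 0 Q ∧ 1 ≤ ρ ∧ (sub1 v u Q).coeff ρ ≠ 0 := by
  classical
  let b := Module.finBasis ℝ E
  let w : E → Option (Fin (Module.finrank ℝ E)) → E := fun y o => o.elim y b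
  let u : E → Option (Fin (Module.finrank ℝ E)) → ℝ := fun y o => o.elim 1 (fun i => - b.repr y i)
  have hu : ∀ y, ∑ i, u y i • w y i = 0 := by
    intro y
    rw [Fintype.sum_option]
    simp only [u, w, Option.elim_none, Option.elim_some, one_smul, neg_smul,
      Finset.sum_neg_distrib, b.sum_repr y, add_neg_cancel]
  have hQ := fun y => exists_mv (top_isDeg hF) (w y) 0
  choose Q hQ1 hQ2 using hQ
  by_contra hcon
  push Not at hcon
  have hconst : ∀ y v, MvPolynomial.eval (fun i => v i + (-1) * u y i) (Q y) =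
      MvPolynomial.eval v (Q y) := by
    intro y v
    have h1 : ∀ ρ, 1 ≤ ρ → (sub1 v (u y) (Q y)).coeff ρ = 0 := fun ρ hρ =>
      hcon (w y) (u y) v (Q y) ρ (hu y) ⟨hQ1 y, hQ2 y⟩ hρ
    have h2 : sub1 v (u y) (Q y) = C ((sub1 v (u y) (Q y)).coeff 0) := by
      ext ρ
      rcases Nat.eq_zero_or_pos ρ with h | h
      · subst h
        simp
      · rw [h1 ρ h, coeff_C, if_neg (by omega)]
    have h3 := sub1_eval v (u y) (Q y) (-1)
    have h4 := sub1_eval v (u y) (Q y) 0
    rw [h2, eval_C] at h3 h4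
    rw [← h3, h4]
    congr 2
    funext i
    ring
  -- the polynomial on the rational span of the basis
  have hbase : ∀ y (v : Fin (Module.finrank ℝ E) → ℝ),
      MvPolynomial.eval (fun o : Option (Fin (Module.finrank ℝ E)) => o.elim 0 v) (Q y) =
      MvPolynomial.eval (fun o : Option (Fin (Module.finrank ℝ E)) => o.elim 0 v) (Q 0) := by
    intro y
    have hcont : ∀ P : MvPolynomial (Option (Fin (Module.finrank ℝ E))) ℝ,
        Continuous fun v : Fin (Module.finrank ℝ E) → ℝ =>
          MvPolynomial.eval (fun o : Option (Fin (Module.finrank ℝ E)) => o.elim 0 v) P := by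
      intro P
      refine (MvPolynomial.continuous_eval P).comp ?_
      refine continuous_pi fun o => ?_
      cases o with
      | none => exact continuous_const
      | some i => exact continuous_apply i
    have hfun := DenseRange.equalizer (denseRange_rat (ι := Fin (Module.finrank ℝ E)))
      (hcont (Q y)) (hcont (Q 0)) (by
        funext q
        have hq : (fun o : Option (Fin (Module.finrank ℝ E)) =>
            o.elim (0 : ℝ) (fun i => ((q i : ℚ) : ℝ))) =
            fun o => (((o.elim (0 : ℚ) q : ℚ)) : ℝ) := by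
          funext o
          cases o <;> simp
        simp only [Function.comp]
        rw [hq, ← hQ1 y, ← hQ1 0]
        congr 2
        rw [Fintype.sum_option, Fintype.sum_option]
        simp [w])
    exact fun v => congrFun hfun v
  have htop : ∀ y, top hF y =
      MvPolynomial.eval (fun o : Option (Fin (Module.finrank ℝ E)) => o.elim 0 (b.repr y))
        (Q 0) := by
    intro y
    rw [← hbase y]
    have h1 := hQ1 y (fun o => o.elim 1 (fun _ => 0))
    have h2 : (0 : E) + ∑ i, (((fun o : Option (Fin (Module.finrank ℝ E)) =>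
        o.elim (1 : ℚ) (fun _ => 0)) i : ℚ) : ℝ) • w y i = y := by
      rw [Fintype.sum_option]
      simp [w]
    rw [h2] at h1
    rw [h1, ← hconst y]
    congr 2
    funext o
    cases o with
    | none => simp [u]
    | some i => simp [u]
  apply hd
  have : top hF = fun y => MvPolynomial.eval
      (fun o : Option (Fin (Module.finrank ℝ E)) => o.elim 0 (b.repr y)) (Q 0) := funext htop
  rw [this]
  refine (MvPolynomial.continuous_eval (Q 0)).comp ?_
  refine continuous_pi fun o => ?_
  cases o with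
  | none => exact continuous_const
  | some i => exact (b.coord i).continuous_of_finiteDimensional

/-- **Q1 in finite dimension.** -/
theorem blowup_fin [FiniteDimensional ℝ E] (m : ℕ) : ∀ {F : E → ℝ}, IsDeg m F →
    ¬ Continuous F → ∃ x : ℕ → E, Tendsto x atTop (𝓝 0) ∧
      ∀ y : E, Tendsto (fun n => |F (x n + y)|) atTop atTop := by
  induction m with
  | zero =>
    intro F hF hd
    exact absurd (isDeg_zero_continuous hF) hd
  | succ m ih =>
    intro F hF hd
    by_cases ht : Continuous (top hF)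
    · have hF' := sub_top_isDeg hF
      have hd' : ¬ Continuous (fun x => F x - top hF x) := by
        intro hc
        apply hd
        have h1 : Continuous (fun x => (F x - top hF x) + top hF x) := hc.add ht
        simpa using h1
      obtain ⟨x, hx, hx2⟩ := ih hF' hd'
      refine ⟨x, hx, fun y => ?_⟩
      have h1 : Tendsto (fun n => top hF (x n + y)) atTop (𝓝 (top hF (0 + y))) :=
        (ht.tendsto _).comp (hx.add_const y)
      have h2 : Tendsto (fun n => |F (x n + y) - top hF (x n + y)| - |top hF (x n + y)|)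
          atTop atTop := by
        have := (hx2 y).atTop_add h1.abs.neg
        refine this.congr fun n => ?_
        rw [← sub_eq_add_neg]
      refine tendsto_atTop_mono (fun n => ?_) h2
      have h5 : |F (x n + y) - top hF (x n + y)| ≤ |F (x n + y)| + |top hF (x n + y)| :=
        abs_sub _ _
      linarith
    · classical
      obtain ⟨w, u, v, Q, ρ, hu, hQ, hρ, hc⟩ := exists_line hF ht
      exact blowup_of_line hF w u v hu hQ hρ hc

end Fin

end Pool.Agent.R236.Deg
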