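import Mathlib

/-!
A symmetric bilinear form on a large real vector space realizing every prescription of values on
sequences of vectors that is realizable by a linear functional.
-/

namespace Pool.Agent.R236.Deg

open Cardinal Set

universe u

/-- an uncountable linear order in which countable sets are bounded. -/
abbrev Om : Type := (aleph 1).ord.ToType

theorem om_bounded (C : Set Om) (hC : C.Countable) : ∃ a : Om, ∀ c ∈ C, c < a := by
  by_contra hcon
  push Not at hcon
  have h1 : (Set.univ : Set Om) ⊆ ⋃ c ∈ C, Set.Iic c := by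
    intro a _
    obtain ⟨c, hc, hac⟩ := hcon a
    exact Set.mem_iUnion₂.2 ⟨c, hc, hac⟩
  have h2 : ∀ c : Om, (Set.Iic c).Countable := by
    intro c
    have h3 : (Set.Iio c).Countable := by
      rw [← Cardinal.le_aleph0_iff_set_countable]
      have h4 : #(Set.Iio c) < aleph 1 := by
        simpa using Cardinal.mk_Iio_lt c (by simp)
      exact Order.lt_succ_iff.1 (by rw [Cardinal.succ_aleph0]; exact h4)
    rw [← Set.Iio_insert]
    exact h3.insert c
  have h3 : (Set.univ : Set Om).Countable := (hC.biUnion fun c _ => h2 c).mono h1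
  rw [← Cardinal.le_aleph0_iff_set_countable, Cardinal.mk_univ] at h3
  have h5 : #Om = aleph 1 := by simp
  rw [h5, ← Cardinal.succ_aleph0] at h3
  exact absurd h3 (not_le.2 (Order.lt_succ _))

variable (E : Type u) [AddCommGroup E] [Module ℝ E]

/-- The tasks: a sequence of vectors and a sequence of values. -/
abbrev Task : Type u := (ℕ → E) × (ℕ → ℝ)

variable {E}

open Classical in
/-- a functional solving a task, if there is one. -/
noncomputable def sol (t : Task E) : E →ₗ[ℝ] ℝ :=
  if h : ∃ L : E →ₗ[ℝ] ℝ, ∀ n, L (t.1 n) = t.2 n then h.choose else 0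

theorem sol_spec (t : Task E) (h : ∃ L : E →ₗ[ℝ] ℝ, ∀ n, L (t.1 n) = t.2 n) (n : ℕ) :
    sol t (t.1 n) = t.2 n := by
  unfold sol
  rw [dif_pos h]
  exact h.choose_spec n

/-- The key construction. -/
theorem exists_form_of_basis (b : Module.Basis (Om × Task E) ℝ E) :
    ∃ B : E →ₗ[ℝ] E →ₗ[ℝ] ℝ, (∀ x y, B x y = B y x) ∧
      ∀ t : Task E, (∃ L : E →ₗ[ℝ] ℝ, ∀ n, L (t.1 n) = t.2 n) →
        ∃ x, ∀ n, B x (t.1 n) = t.2 n := by
  classical
  let M : Om × Task E → Om × Task E → ℝ := fun i j =>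
    if j.1 < i.1 then sol i.2 (b j) else if i.1 < j.1 then sol j.2 (b i) else 0
  let B : E →ₗ[ℝ] E →ₗ[ℝ] ℝ := b.constr ℝ (fun i => b.constr ℝ (fun j => M i j))
  have hB : ∀ i j, B (b i) (b j) = M i j := by
    intro i j
    simp only [B, Module.Basis.constr_basis]
  have hM : ∀ i j, M i j = M j i := by
    intro i j
    simp only [M]
    rcases lt_trichotomy i.1 j.1 with h | h | h
    · rw [if_neg (not_lt.2 h.le), if_pos h, if_pos h]
    · rw [if_neg (by rw [h]; exact lt_irrefl _), if_neg (by rw [h]; exact lt_irrefl _),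
        if_neg (by rw [h]; exact lt_irrefl _), if_neg (by rw [h]; exact lt_irrefl _)]
    · rw [if_pos h, if_neg (not_lt.2 h.le), if_pos h]
  have hsymm : B = B.flip := by
    refine LinearMap.ext_basis b b fun i j => ?_
    rw [LinearMap.flip_apply, hB, hB, hM]
  refine ⟨B, fun x y => ?_, fun t ht => ?_⟩
  · conv_lhs => rw [hsymm]
    rfl
  · obtain ⟨a, ha⟩ := om_bounded (⋃ n, Prod.fst '' ((b.repr (t.1 n)).support : Set (Om × Task E)))
      (Set.countable_iUnion fun n =>
        (((b.repr (t.1 n)).support.finite_toSet).image Prod.fst).countable)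
    refine ⟨b (a, t), fun n => ?_⟩
    rw [← sol_spec t ht n]
    have h1 : t.1 n = ∑ j ∈ (b.repr (t.1 n)).support, b.repr (t.1 n) j • b j := by
      conv_lhs => rw [← b.linearCombination_repr (t.1 n)]
      rfl
    rw [h1, map_sum, map_sum]
    refine Finset.sum_congr rfl fun j hj => ?_
    rw [map_smul, map_smul, hB]
    congr 1
    have h2 : j.1 < a := ha j.1 (Set.mem_iUnion.2 ⟨n, j, hj, rfl⟩)
    simp only [M]
    rw [if_pos h2]

/-- Cardinal condition under which the construction applies. -/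
theorem exists_form (h1 : (#E) ^ (ℵ₀ : Cardinal.{u}) = #E) (h2 : Module.rank ℝ E = #E)
    (h3 : (𝔠 : Cardinal.{u}) ≤ #E) :
    ∃ B : E →ₗ[ℝ] E →ₗ[ℝ] ℝ, (∀ x y, B x y = B y x) ∧
      ∀ t : Task E, (∃ L : E →ₗ[ℝ] ℝ, ∀ n, L (t.1 n) = t.2 n) →
        ∃ x, ∀ n, B x (t.1 n) = t.2 n := by
  have hinf : ℵ₀ ≤ #E := Cardinal.aleph0_le_continuum.trans h3
  have hT : #(Task E) = #E := by
    rw [Cardinal.mk_prod]
    have ha : lift.{0} #(ℕ → E) = #E := by
      rw [Cardinal.lift_uzero, Cardinal.mk_pi, Cardinal.prod_const]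
      simp [h1]
    have hb : lift.{u} #(ℕ → ℝ) = 𝔠 := by
      rw [Cardinal.mk_pi, Cardinal.prod_const]
      simp [Cardinal.mk_real]
    rw [ha, hb]
    exact Cardinal.mul_eq_left hinf h3 Cardinal.continuum_ne_zero
  have hI : #(Om × Task E) = #E := by
    rw [Cardinal.mk_prod, hT]
    have hb : lift.{u} #Om = aleph 1 := by simp
    rw [hb, Cardinal.lift_uzero]
    refine Cardinal.mul_eq_right hinf (Cardinal.aleph_one_le_continuum.trans h3) ?_
    exact (Cardinal.aleph_pos 1).ne'
  let b0 := Module.Free.chooseBasis ℝ E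
  have hb0 : #(Module.Free.ChooseBasisIndex ℝ E) = #(Om × Task E) := by
    rw [hI, ← h2, b0.mk_eq_rank'']
  obtain ⟨e⟩ := Cardinal.eq.1 hb0
  exact exists_form_of_basis (b0.reindex e)

end Pool.Agent.R236.Deg
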