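import Pool.Agent.R236.DegC
import Pool.Agent.R236.DegD

/-!
The failure of the uniform blow-up in infinite-dimensional Banach spaces.
-/

namespace Pool.Agent.R236.Deg

open Cardinal Set Filter Topology

universe u

section Rank

variable {E : Type u} [NormedAddCommGroup E] [NormedSpace ℝ E]

/-- In an infinite-dimensional space finitely many functionals have a common nonzero zero. -/
theorem exists_common_zero (hinf : ¬ FiniteDimensional ℝ E) (s : Finset (E × (E →L[ℝ] ℝ))) :
    ∃ y : E, y ≠ 0 ∧ ∀ p ∈ s, p.2 y = 0 := by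
  by_contra hcon
  push Not at hcon
  apply hinf
  let T : E →ₗ[ℝ] (s → ℝ) := LinearMap.pi fun p => (p.1.2 : E →ₗ[ℝ] ℝ)
  have hT : Function.Injective T := by
    rw [← LinearMap.ker_eq_bot, LinearMap.ker_eq_bot']
    intro y hy
    by_contra hy0
    obtain ⟨p, hp, hpy⟩ := hcon y hy0
    exact hpy (congrFun hy ⟨p, hp⟩)
  exact FiniteDimensional.of_injective T hT

/-- A triangular system of unit vectors and functionals. -/
theorem exists_triangular (hinf : ¬ FiniteDimensional ℝ E) :
    ∃ (e : ℕ → E) (f : ℕ → E →L[ℝ] ℝ), (∀ n, ‖e n‖ = 1 ∧ f n (e n) ≠ 0) ∧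
      ∀ m n, m < n → f m (e n) = 0 := by
  obtain ⟨g, hg1, hg2⟩ := exists_seq_of_forall_finset_exists
    (fun p : E × (E →L[ℝ] ℝ) => ‖p.1‖ = 1 ∧ p.2 p.1 ≠ 0) (fun p q => p.2 q.1 = 0)
    (by
      intro s _
      obtain ⟨y, hy, hys⟩ := exists_common_zero hinf s
      obtain ⟨f, _, hf⟩ := exists_dual_vector ℝ y (norm_ne_zero_iff.2 hy)
      refine ⟨(‖y‖⁻¹ • y, f), ⟨?_, ?_⟩, ?_⟩
      · simp only
        rw [norm_smul, norm_inv, norm_norm, inv_mul_cancel₀ (norm_ne_zero_iff.2 hy)]
      · simp only [map_smul, hf, smul_eq_mul]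
        have := norm_ne_zero_iff.2 hy
        simp [this]
      · intro p hp
        simp only [map_smul, hys p hp, smul_zero])
  exact ⟨fun n => (g n).1, fun n => (g n).2, hg1, hg2⟩

theorem linearIndependent_of_triangular {e : ℕ → E} {f : ℕ → E →L[ℝ] ℝ}
    (h1 : ∀ n, ‖e n‖ = 1 ∧ f n (e n) ≠ 0) (h2 : ∀ m n, m < n → f m (e n) = 0) :
    LinearIndependent ℝ e := by
  rw [linearIndependent_iff']
  intro s c hc
  by_contra hcon
  push Not at hcon
  have hne : (s.filter fun i => c i ≠ 0).Nonempty := by
    obtain ⟨i, hi, hci⟩ := hcon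
    exact ⟨i, Finset.mem_filter.2 ⟨hi, hci⟩⟩
  set i₀ := (s.filter fun i => c i ≠ 0).min' hne with hi₀
  have hi₀m := Finset.mem_filter.1 (Finset.min'_mem _ hne)
  rw [← hi₀] at hi₀m
  have h3 := congrArg (f i₀) hc
  rw [map_sum, map_zero, Finset.sum_eq_single_of_mem i₀ hi₀m.1] at h3
  · rw [map_smul, smul_eq_mul] at h3
    rcases mul_eq_zero.1 h3 with h | h
    · exact hi₀m.2 h
    · exact (h1 i₀).2 h
  · intro j hj hne'
    rw [map_smul, smul_eq_mul]
    by_cases hcj : c j = 0
    · rw [hcj, zero_mul]
    · have h4 : i₀ ≤ j := Finset.min'_le _ _ (Finset.mem_filter.2 ⟨hj, hcj⟩)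
      rw [h2 i₀ j (lt_of_le_of_ne h4 (Ne.symm hne')), mul_zero]

variable [CompleteSpace E]

theorem continuum_le_rank (hinf : ¬ FiniteDimensional ℝ E) :
    (𝔠 : Cardinal.{u}) ≤ Module.rank ℝ E := by
  obtain ⟨e, f, h1, h2⟩ := exists_triangular hinf
  have hsum : ∀ a : Ioo (0 : ℝ) 1, Summable fun n => (a : ℝ) ^ n • e n := by
    intro a
    refine Summable.of_norm ?_
    have h3 : (fun n => ‖(a : ℝ) ^ n • e n‖) = fun n => (a : ℝ) ^ n := by
      funext n
      rw [norm_smul, (h1 n).1, mul_one, Real.norm_of_nonneg (pow_nonneg a.2.1.le n)]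
    rw [h3]
    exact summable_geometric_of_lt_one a.2.1.le a.2.2
  let v : Ioo (0 : ℝ) 1 → E := fun a => ∑' n, (a : ℝ) ^ n • e n
  have hv : LinearIndependent ℝ v := by
    rw [linearIndependent_iff']
    intro s c hc
    -- all the moments vanish
    have hmom : ∀ n : ℕ, ∑ a ∈ s, c a * (a : ℝ) ^ n = 0 := by
      intro n
      induction n using Nat.strong_induction_on with
      | _ n ih =>
        have h3 := congrArg (f n) hc
        rw [map_sum, map_zero] at h3
        have h4 : ∀ a : Ioo (0 : ℝ) 1, f n (v a) =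
            ∑ k ∈ Finset.range (n + 1), (a : ℝ) ^ k * f n (e k) := by
          intro a
          simp only [v]
          rw [(f n).map_tsum (hsum a), tsum_eq_sum (s := Finset.range (n + 1))]
          · refine Finset.sum_congr rfl fun k _ => ?_
            rw [map_smul, smul_eq_mul]
          · intro k hk
            rw [Finset.mem_range, not_lt] at hk
            rw [map_smul, h2 n k (by omega), smul_zero]
        have h5 : ∑ a ∈ s, f n (c a • v a) =
            ∑ k ∈ Finset.range (n + 1), (∑ a ∈ s, c a * (a : ℝ) ^ k) * f n (e k) := by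
          simp_rw [map_smul, h4, smul_eq_mul, Finset.mul_sum, Finset.sum_mul]
          rw [Finset.sum_comm]
          refine Finset.sum_congr rfl fun k _ => Finset.sum_congr rfl fun a _ => ?_
          ring
        rw [h5, Finset.sum_range_succ, Finset.sum_eq_zero, zero_add] at h3
        · exact (mul_eq_zero.1 h3).resolve_right (h1 n).2
        · intro k hk
          rw [ih k (Finset.mem_range.1 hk), zero_mul]
    -- hence all polynomial moments vanish
    have hpoly : ∀ p : Polynomial ℝ, ∑ a ∈ s, c a * p.eval (a : ℝ) = 0 := by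
      intro p
      simp_rw [Polynomial.eval_eq_sum_range, Finset.mul_sum]
      rw [Finset.sum_comm]
      refine Finset.sum_eq_zero fun i _ => ?_
      have : ∑ a ∈ s, c a * (p.coeff i * (a : ℝ) ^ i) =
          p.coeff i * ∑ a ∈ s, c a * (a : ℝ) ^ i := by
        rw [Finset.mul_sum]
        refine Finset.sum_congr rfl fun a _ => ?_
        ring
      rw [this, hmom, mul_zero]
    intro a ha
    classical
    have h6 := hpoly (∏ b ∈ s.erase a, (Polynomial.X - Polynomial.C (b : ℝ)))
    rw [Finset.sum_eq_single_of_mem a ha] at h6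
    · rcases mul_eq_zero.1 h6 with h | h
      · exact h
      · exfalso
        rw [Polynomial.eval_prod, Finset.prod_eq_zero_iff] at h
        obtain ⟨b, hb, hb0⟩ := h
        simp only [Polynomial.eval_sub, Polynomial.eval_X, Polynomial.eval_C] at hb0
        apply (Finset.mem_erase.1 hb).1
        exact Subtype.ext (sub_eq_zero.1 hb0).symm
    · intro b hb hba
      rw [Polynomial.eval_prod, Finset.prod_eq_zero (i := b) (Finset.mem_erase.2 ⟨hba, hb⟩),
        mul_zero]
      simp
  have h7 := hv.cardinal_lift_le_rank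
  rw [Cardinal.mk_Ioo_real one_pos] at h7
  simpa using h7

end Rank

section Fail

variable {E : Type u} [NormedAddCommGroup E] [NormedSpace ℝ E]

theorem exists_functional {κ : Type*} {v : κ → E} (hv : LinearIndependent ℝ v) (φ : κ → ℝ) :
    ∃ L : E →ₗ[ℝ] ℝ, ∀ i, L (v i) = φ i := by
  obtain ⟨L, hL⟩ := LinearMap.exists_extend ((Module.Basis.span hv).constr ℝ φ)
  refine ⟨L, fun i => ?_⟩
  have h1 := LinearMap.congr_fun hL (Module.Basis.span hv i)
  rw [Module.Basis.constr_basis] at h1
  rw [← h1, LinearMap.comp_apply, Submodule.subtype_apply, Module.Basis.span_apply]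

/-- the quadratic form of `B` has degree 2. -/
theorem isDeg_quad (B : E →ₗ[ℝ] E →ₗ[ℝ] ℝ) (hB : ∀ x y, B x y = B y x) :
    IsDeg 2 (fun x => B x x) := by
  intro x h
  refine ⟨![B x x, 2 * B x h, B h h], fun t => ?_⟩
  simp [Fin.sum_univ_three, hB h x]
  ring

theorem quad_add (B : E →ₗ[ℝ] E →ₗ[ℝ] ℝ) (hB : ∀ x y, B x y = B y x) (x y : E) :
    B (x + y) (x + y) = B x x + 2 * B y x + B y y := by
  simp [hB x y]
  ring

theorem fails_of_form (hinf : ¬ FiniteDimensional ℝ E) (B : E →ₗ[ℝ] E →ₗ[ℝ] ℝ)
    (hB : ∀ x y, B x y = B y x)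
    (hB2 : ∀ t : Task E, (∃ L : E →ₗ[ℝ] ℝ, ∀ n, L (t.1 n) = t.2 n) →
      ∃ x, ∀ n, B x (t.1 n) = t.2 n) :
    ¬ Continuous (fun x => B x x) ∧ ∀ x : ℕ → E, Tendsto x atTop (𝓝 0) →
      ∃ y : E, ¬ Tendsto (fun n => |B (x n + y) (x n + y)|) atTop atTop := by
  classical
  constructor
  · intro hcont
    obtain ⟨e, f, h1, h2⟩ := exists_triangular hinf
    have hli := linearIndependent_of_triangular h1 h2
    let e' : ℕ → E := fun n => ((n : ℝ) + 1)⁻¹ • e n
    have he' : Tendsto e' atTop (𝓝 0) := by
      rw [tendsto_zero_iff_norm_tendsto_zero]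
      have : (fun n => ‖e' n‖) = fun n : ℕ => 1 / ((n : ℝ) + 1) := by
        funext n
        simp only [e']
        rw [norm_smul, (h1 n).1, mul_one, Real.norm_of_nonneg (by positivity), one_div]
      rw [this]
      exact tendsto_one_div_add_atTop_nhds_zero_nat
    obtain ⟨L, hL⟩ := exists_functional hli (fun n : ℕ => ((n : ℝ) + 1))
    obtain ⟨x, hx⟩ := hB2 (e', fun _ => 1) ⟨L, fun n => by
      simp only [e']
      rw [map_smul, hL, smul_eq_mul, inv_mul_cancel₀ (by positivity)]⟩
    have h3 : Tendsto (fun n => B (e' n + x) (e' n + x) - B (e' n) (e' n) - B x x) atTop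
        (𝓝 (B (0 + x) (0 + x) - B 0 0 - B x x)) := by
      have ha : Tendsto (fun n => B (e' n + x) (e' n + x)) atTop (𝓝 (B (0 + x) (0 + x))) :=
        (hcont.tendsto (0 + x)).comp (he'.add_const x)
      have hb : Tendsto (fun n => B (e' n) (e' n)) atTop (𝓝 (B 0 0)) :=
        (hcont.tendsto 0).comp he'
      exact (ha.sub hb).sub_const _
    have h4 : (fun n => B (e' n + x) (e' n + x) - B (e' n) (e' n) - B x x) = fun _ => (2 : ℝ) := by
      funext n
      rw [quad_add B hB]
      have := hx n
      simp only at this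
      rw [this]
      ring
    rw [h4] at h3
    have h5 := tendsto_nhds_unique h3 tendsto_const_nhds
    simp at h5
  · intro x hx
    obtain ⟨κ, a, ha, hspan, hli⟩ := exists_linearIndependent' ℝ x
    by_cases hκ : Finite κ
    · -- finite-dimensional span
      refine ⟨0, fun hcon => ?_⟩
      have hfd : FiniteDimensional ℝ (Submodule.span ℝ (Set.range x)) := by
        rw [← hspan]
        exact FiniteDimensional.span_of_finite ℝ (Set.finite_range _)
      let V := Submodule.span ℝ (Set.range x)
      let b := Module.finBasis ℝ V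
      have hxV : ∀ n, x n ∈ V := fun n => Submodule.subset_span ⟨n, rfl⟩
      have hquad : ∀ v : V, B (v : E) (v : E) =
          ∑ i, ∑ j, b.repr v i * (b.repr v j * B (b i : E) (b j : E)) := by
        intro v
        have h1 : (v : E) = ∑ i, b.repr v i • (b i : E) := by
          have h := congrArg V.subtype (b.sum_repr v)
          rw [map_sum] at h
          simp only [map_smul, Submodule.subtype_apply] at h
          exact h.symm
        conv_lhs => rw [h1]
        simp only [map_sum, map_smul, LinearMap.sum_apply, LinearMap.smul_apply, smul_eq_mul,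
          Finset.mul_sum]
        rw [Finset.sum_comm]
        refine Finset.sum_congr rfl fun i _ => Finset.sum_congr rfl fun j _ => ?_
        ring
      have hcontV : Continuous fun v : V => B (v : E) (v : E) := by
        have h1 : (fun v : V => B (v : E) (v : E)) = fun v : V =>
            ∑ i, ∑ j, b.repr v i * (b.repr v j * B (b i : E) (b j : E)) := funext hquad
        rw [h1]
        have h2 : ∀ i, Continuous fun v : V => b.repr v i := fun i =>
          (b.coord i).continuous_of_finiteDimensional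
        exact continuous_finsetSum _ fun i _ => continuous_finsetSum _ fun j _ =>
          (h2 i).mul ((h2 j).mul continuous_const)
      have hx' : Tendsto (fun n => (⟨x n, hxV n⟩ : V)) atTop (𝓝 0) := by
        rw [tendsto_subtype_rng]
        exact hx
      have h3 : Tendsto (fun n => |B (x n) (x n)|) atTop (𝓝 |B ((0 : V) : E) ((0 : V) : E)|) :=
        ((hcontV.tendsto 0).comp hx').abs
      simp only [add_zero] at hcon
      exact not_tendsto_nhds_of_tendsto_atTop hcon _ h3
    · -- infinitely many independent vectors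
      have hκ' : Infinite κ := not_finite_iff_infinite.1 hκ
      let S : Set ℕ := Set.range a
      have hS : S.Infinite := Set.infinite_range_of_injective ha
      let t : Task E := (fun n => if n ∈ S then x n else 0,
        fun n => if n ∈ S then -(B (x n) (x n)) / 2 else 0)
      obtain ⟨L, hL⟩ := exists_functional hli (fun i => -(B (x (a i)) (x (a i))) / 2)
      obtain ⟨y, hy⟩ := hB2 t ⟨L, fun n => by
        simp only [t]
        split_ifs with h
        · obtain ⟨i, rfl⟩ := h
          exact hL i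
        · simp⟩
      refine ⟨y, fun hcon => ?_⟩
      have h1 : ∀ᶠ n in atTop, |B y y| + 1 ≤ |B (x n + y) (x n + y)| :=
        hcon.eventually_ge_atTop _
      have h2 : ∃ᶠ n in atTop, n ∈ S := Nat.frequently_atTop_iff_infinite.2 hS
      obtain ⟨n, h3, h4⟩ := (h1.and_frequently h2).exists
      have h5 := hy n
      simp only [t, if_pos h4] at h5
      rw [quad_add B hB, h5] at h3
      have h6 : B (x n) (x n) + 2 * (-(B (x n) (x n)) / 2) + B y y = B y y := by ring
      rw [h6] at h3
      linarith

variable [CompleteSpace E]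

/-- **Q1 fails** (already for degree two) on every infinite-dimensional real Banach space `E`
with `#E ^ ℵ₀ = #E`. -/
theorem fails (hinf : ¬ FiniteDimensional ℝ E) (hE : (#E) ^ (ℵ₀ : Cardinal.{u}) = #E) :
    ∃ F : E → ℝ, IsDeg 2 F ∧ ¬ Continuous F ∧ ∀ x : ℕ → E, Tendsto x atTop (𝓝 0) →
      ∃ y : E, ¬ Tendsto (fun n => |F (x n + y)|) atTop atTop := by
  have hr := continuum_le_rank hinf
  have hle : Module.rank ℝ E ≤ #E := rank_le_card ℝ E
  have hc : (𝔠 : Cardinal.{u}) ≤ #E := hr.trans hle
  have hrank : Module.rank ℝ E = #E := by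
    rcases hc.lt_or_eq with h | h
    · refine Module.Free.rank_eq_mk_of_infinite_lt ℝ E ?_
      rw [Cardinal.mk_real]
      simpa using h
    · exact le_antisymm hle (by rw [← h]; exact hr)
  obtain ⟨B, hB, hB2⟩ := exists_form hE hrank hc
  obtain ⟨h1, h2⟩ := fails_of_form hinf B hB hB2
  exact ⟨fun x => B x x, isDeg_quad B hB, h1, h2⟩

theorem fails_of_le (hinf : ¬ FiniteDimensional ℝ E) (hE : #E ≤ (𝔠 : Cardinal.{u})) :
    ∃ F : E → ℝ, IsDeg 2 F ∧ ¬ Continuous F ∧ ∀ x : ℕ → E, Tendsto x atTop (𝓝 0) →
      ∃ y : E, ¬ Tendsto (fun n => |F (x n + y)|) atTop atTop := by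
  have hr := continuum_le_rank hinf
  have hle : Module.rank ℝ E ≤ #E := rank_le_card ℝ E
  have h : #E = 𝔠 := le_antisymm hE (hr.trans hle)
  refine fails hinf ?_
  rw [h, Cardinal.continuum_power_aleph0]

end Fail

end Pool.Agent.R236.Deg
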