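import Pool.Agent.R236.DegE

/-!
The number of sequences in a Banach space equals the number of its points.
-/

namespace Pool.Agent.R236.Deg

open Cardinal Set Filter Topology

universe u

section Net

variable {E : Type u} [NormedAddCommGroup E] [NormedSpace ℝ E]

omit [NormedSpace ℝ E] in
/-- maximal separated subsets of the unit ball. -/
theorem exists_net (ε : ℝ) :
    ∃ M : Set E, (∀ x ∈ M, ‖x‖ ≤ 1) ∧ (∀ x ∈ M, ∀ y ∈ M, x ≠ y → ε ≤ ‖x - y‖) ∧
      ∀ x : E, ‖x‖ ≤ 1 → ∃ m ∈ M, m = x ∨ ‖x - m‖ < ε := by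
  let S : Set (Set E) := {M | (∀ x ∈ M, ‖x‖ ≤ 1) ∧ (∀ x ∈ M, ∀ y ∈ M, x ≠ y → ε ≤ ‖x - y‖)}
  obtain ⟨M, hM⟩ := zorn_subset S (by
    intro c hcS hc
    refine ⟨⋃₀ c, ⟨?_, ?_⟩, fun s hs => subset_sUnion_of_mem hs⟩
    · rintro x ⟨s, hs, hxs⟩
      exact (hcS hs).1 x hxs
    · rintro x ⟨s, hs, hxs⟩ y ⟨t, ht, hyt⟩ hxy
      rcases hc.total hs ht with h | h
      · exact (hcS ht).2 x (h hxs) y hyt hxy
      · exact (hcS hs).2 x hxs y (h hyt) hxy)
  refine ⟨M, hM.prop.1, hM.prop.2, fun x hx => ?_⟩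
  by_contra hcon
  push Not at hcon
  have h1 : insert x M ∈ S := by
    refine ⟨?_, ?_⟩
    · intro y hy
      rcases hy with rfl | hy
      · exact hx
      · exact hM.prop.1 y hy
    · intro y hy z hz hyz
      rcases hy with rfl | hy
      · rcases hz with rfl | hz
        · exact absurd rfl hyz
        · exact (hcon z hz).2
      · rcases hz with rfl | hz
        · rw [norm_sub_rev]
          exact (hcon y hy).2
        · exact hM.prop.2 y hy z hz hyz
  have h2 : x ∈ M := hM.le_of_ge h1 (subset_insert x M) (mem_insert x M)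
  exact (hcon x h2).1 rfl

/-- weights. -/
noncomputable def cc (n : ℕ) : ℝ := (1 / 2) ^ (n * n + 3 * n)

theorem cc_pos (n : ℕ) : 0 < cc n := by unfold cc; positivity

theorem cc_add_le (n i : ℕ) : cc (n + 1 + i) ≤ cc n * (1 / 2) ^ (n + 3) * (1 / 2) ^ i := by
  unfold cc
  rw [← pow_add, ← pow_add]
  refine pow_le_pow_of_le_one (by norm_num) (by norm_num) ?_
  nlinarith

theorem cc_summable : Summable cc := by
  refine Summable.of_nonneg_of_le (fun n => (cc_pos n).le) (fun n => ?_)
    (summable_geometric_of_lt_one (by norm_num : (0 : ℝ) ≤ 1 / 2) (by norm_num))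
  unfold cc
  refine pow_le_pow_of_le_one (by norm_num) (by norm_num) ?_
  nlinarith

theorem cc_tail (n : ℕ) : ∑' i, 2 * cc (i + (n + 1)) < cc n * (1 / 2) ^ n := by
  have h1 : Summable fun i : ℕ => 2 * (cc n * (1 / 2) ^ (n + 3) * (1 / 2 : ℝ) ^ i) :=
    ((summable_geometric_of_lt_one (by norm_num : (0 : ℝ) ≤ 1 / 2) (by norm_num)).mul_left
      _).mul_left _
  have h2 : ∑' i, 2 * cc (i + (n + 1)) ≤
      ∑' i : ℕ, 2 * (cc n * (1 / 2) ^ (n + 3) * (1 / 2 : ℝ) ^ i) := by
    refine Summable.tsum_le_tsum (fun i => ?_) ?_ h1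
    · have := cc_add_le n i
      rw [add_comm i]
      linarith
    · exact ((summable_nat_add_iff (n + 1)).2 cc_summable).mul_left 2
  refine lt_of_le_of_lt h2 ?_
  rw [tsum_mul_left, tsum_mul_left, tsum_geometric_of_lt_one (by norm_num) (by norm_num)]
  have h3 : (0 : ℝ) < cc n * (1 / 2) ^ n := mul_pos (cc_pos n) (by positivity)
  have h4 : 2 * (cc n * (1 / 2) ^ (n + 3) * (1 - 1 / 2)⁻¹) = (cc n * (1 / 2) ^ n) * (1 / 2) := by
    rw [pow_add]
    norm_num
    ring
  rw [h4]
  linarith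

variable [CompleteSpace E]

/-- The number of sequences in a Banach space equals the number of its points. -/
theorem mk_pow_aleph0 (E : Type u) [NormedAddCommGroup E] [NormedSpace ℝ E] [CompleteSpace E] :
    (#E) ^ (ℵ₀ : Cardinal.{u}) = #E := by
  have hnet := fun j : ℕ => exists_net (E := E) ((1 / 2) ^ j)
  choose M hM1 hM2 hM3 using hnet
  -- nearest points
  have hr : ∀ (j : ℕ) (x : E), ∃ m, m ∈ M j ∧ (‖x‖ ≤ 1 → m = x ∨ ‖x - m‖ < (1 / 2) ^ j) := by
    intro j x
    by_cases hx : ‖x‖ ≤ 1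
    · obtain ⟨m, hm, hm2⟩ := hM3 j x hx
      exact ⟨m, hm, fun _ => hm2⟩
    · obtain ⟨m, hm, _⟩ := hM3 j 0 (by simp)
      exact ⟨m, hm, fun h => absurd h hx⟩
  choose r hr1 hr2 using hr
  -- the shrinking map
  let σ : E → E := fun x => (1 + ‖x‖)⁻¹ • x
  have hσ1 : ∀ x, ‖σ x‖ ≤ 1 := by
    intro x
    simp only [σ]
    rw [norm_smul, Real.norm_of_nonneg (by positivity), inv_mul_le_iff₀ (by positivity)]
    linarith
  have hσn : ∀ x, ‖σ x‖ = 1 - (1 + ‖x‖)⁻¹ := by
    intro x
    simp only [σ]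
    rw [norm_smul, Real.norm_of_nonneg (by positivity)]
    have : (1 + ‖x‖) ≠ 0 := by positivity
    field_simp
    ring
  have hσ2 : Function.Injective σ := by
    intro x y hxy
    have h1 : ‖σ x‖ = ‖σ y‖ := by rw [hxy]
    rw [hσn, hσn] at h1
    have h2 : (1 + ‖x‖)⁻¹ = (1 + ‖y‖)⁻¹ := by linarith
    simp only [σ] at hxy
    rw [h2] at hxy
    exact smul_right_injective E (inv_ne_zero (by positivity)) hxy
  let μ : (ℕ → E) → ℕ → E := fun x n => r (Nat.unpair n).2 (σ (x (Nat.unpair n).1))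
  have hμ1 : ∀ x n, ‖μ x n‖ ≤ 1 := fun x n => hM1 _ _ (hr1 _ _)
  let Φ : (ℕ → E) → E := fun x => ∑' n, cc n • μ x n
  have hsum : ∀ x, Summable fun n => cc n • μ x n := by
    intro x
    refine Summable.of_norm_bounded cc_summable fun n => ?_
    rw [norm_smul, Real.norm_of_nonneg (cc_pos n).le]
    exact mul_le_of_le_one_right (cc_pos n).le (hμ1 x n)
  have hΦ : Function.Injective Φ := by
    intro x y hxy
    have key : ∀ n, μ x n = μ y n := by
      intro n
      induction n using Nat.strong_induction_on with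
      | _ n ih =>
        by_contra hne
        have hd : Summable fun j => cc j • μ x j - cc j • μ y j := (hsum x).sub (hsum y)
        have h0 : ∑' j, (cc j • μ x j - cc j • μ y j) = 0 := by
          rw [(hsum x).tsum_sub (hsum y)]
          exact sub_eq_zero.2 hxy
        rw [← hd.sum_add_tsum_nat_add (n + 1), Finset.sum_range_succ, Finset.sum_eq_zero,
          zero_add] at h0
        · have h1 : cc n • μ x n - cc n • μ y n =
              - ∑' j, (cc (j + (n + 1)) • μ x (j + (n + 1)) - cc (j + (n + 1)) • μ y (j + (n + 1))) :=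
            eq_neg_of_add_eq_zero_left h0
          have h2 : ‖∑' j, (cc (j + (n + 1)) • μ x (j + (n + 1)) -
              cc (j + (n + 1)) • μ y (j + (n + 1)))‖ ≤ ∑' j, 2 * cc (j + (n + 1)) := by
            refine tsum_of_norm_bounded
              (((summable_nat_add_iff (n + 1)).2 cc_summable).mul_left 2).hasSum fun j => ?_
            rw [← smul_sub, norm_smul, Real.norm_of_nonneg (cc_pos _).le, mul_comm]
            refine mul_le_mul_of_nonneg_right ?_ (cc_pos _).le
            refine (norm_sub_le _ _).trans ?_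
            have := hμ1 x (j + (n + 1))
            have := hμ1 y (j + (n + 1))
            linarith
          have h3 : ‖cc n • μ x n - cc n • μ y n‖ < cc n * (1 / 2) ^ n := by
            rw [h1, norm_neg]
            exact lt_of_le_of_lt h2 (cc_tail n)
          rw [← smul_sub, norm_smul, Real.norm_of_nonneg (cc_pos n).le] at h3
          have h4 := lt_of_mul_lt_mul_left h3 (cc_pos n).le
          have h5 := hM2 _ _ (hr1 (Nat.unpair n).2 (σ (x (Nat.unpair n).1))) _
            (hr1 (Nat.unpair n).2 (σ (y (Nat.unpair n).1))) hne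
          have h6 : ((1 : ℝ) / 2) ^ n ≤ (1 / 2) ^ (Nat.unpair n).2 :=
            pow_le_pow_of_le_one (by norm_num) (by norm_num) (Nat.unpair_right_le n)
          exact absurd (lt_of_lt_of_le h4 h6) (not_lt.2 h5)
        · intro j hj
          rw [ih j (Finset.mem_range.1 hj), sub_self]
    funext i
    apply hσ2
    have h1 : ∀ j : ℕ, ‖σ (x i) - σ (y i)‖ ≤ 2 * (1 / 2) ^ j := by
      intro j
      have h2 := key (Nat.pair i j)
      simp only [μ, Nat.unpair_pair] at h2
      have h3 : ∀ z : E, ‖σ z - r j (σ z)‖ ≤ (1 / 2) ^ j := by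
        intro z
        rcases hr2 j (σ z) (hσ1 z) with h | h
        · rw [h, sub_self, norm_zero]
          positivity
        · exact h.le
      calc ‖σ (x i) - σ (y i)‖
          = ‖(σ (x i) - r j (σ (x i))) - (σ (y i) - r j (σ (y i)))‖ := by
            rw [h2]
            congr 1
            abel
        _ ≤ ‖σ (x i) - r j (σ (x i))‖ + ‖σ (y i) - r j (σ (y i))‖ := norm_sub_le _ _
        _ ≤ (1 / 2) ^ j + (1 / 2) ^ j := add_le_add (h3 _) (h3 _)
        _ = 2 * (1 / 2) ^ j := by ring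
    have h4 : Tendsto (fun j : ℕ => 2 * ((1 : ℝ) / 2) ^ j) atTop (𝓝 (2 * 0)) :=
      (tendsto_pow_atTop_nhds_zero_of_lt_one (by norm_num) (by norm_num)).const_mul 2
    rw [mul_zero] at h4
    have h5 : ‖σ (x i) - σ (y i)‖ ≤ 0 := ge_of_tendsto' h4 h1
    exact sub_eq_zero.1 (norm_le_zero_iff.1 h5)
  refine le_antisymm ?_ ?_
  · have h1 : #(ℕ → E) ≤ #E := Cardinal.mk_le_of_injective hΦ
    rw [Cardinal.mk_pi, Cardinal.prod_const] at h1
    simpa using h1
  · exact Cardinal.self_le_power _ (by simp)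

end Net

end Pool.Agent.R236.Deg
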