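import Pool.Agent.R236.ExcB

/-!
MP_75608d_al: the trace method at the threshold `√(2k-1)/k`, in a representation.
-/

namespace Pool.Agent.R236.Den
open RC14
open scoped InnerProductSpace
open Finset

noncomputable section

/-! ### words which are trivial in the free group -/

lemma step (k : ℕ) (s : ℝ) (hs : 0 < s) (hk : s ^ 2 = 2 * (k : ℝ) - 1) (hk1 : 1 ≤ k)
    (l : List (Fin k × Bool)) :
    ∑ x : Fin k × Bool, (1 / s) ^ (FreeGroup.reduce (x :: l)).length ≤
      (2 * s) * (1 / s) ^ (FreeGroup.reduce l).length := by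
  have hk' : (1 : ℝ) ≤ k := by exact_mod_cast hk1
  cases hl : FreeGroup.reduce l with
  | nil =>
    have : ∀ x : Fin k × Bool, (FreeGroup.reduce (x :: l)).length = 1 := by
      intro x
      rw [FreeGroup.reduce.cons, hl]
      rfl
    simp only [this]
    rw [Finset.sum_const, Finset.card_univ, Fintype.card_prod, Fintype.card_fin,
      Fintype.card_bool, nsmul_eq_mul, List.length_nil, pow_zero, pow_one, mul_one, mul_one_div,
      div_le_iff₀ hs]
    push_cast
    nlinarith
  | cons hd tl =>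
    have key : ∀ x : Fin k × Bool, (1 / s) ^ (FreeGroup.reduce (x :: l)).length =
        (1 / s) ^ (tl.length + 2) +
          if x = (hd.1, !hd.2) then ((1 / s) ^ tl.length - (1 / s) ^ (tl.length + 2))
            else 0 := by
      intro x
      rw [FreeGroup.reduce.cons, hl]
      by_cases hx : x = (hd.1, !hd.2)
      · subst hx
        simp
      · have hx' : ¬ (x.1 = hd.1 ∧ x.2 = !hd.2) := by
          intro h
          exact hx (Prod.ext h.1 h.2)
        simp only [hx, hx', if_false, add_zero]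
        simp
    simp only [key]
    rw [Finset.sum_add_distrib, Finset.sum_const, Finset.card_univ, Finset.sum_ite_eq']
    simp only [Finset.mem_univ, if_true, Fintype.card_prod, Fintype.card_fin, Fintype.card_bool,
      List.length_cons]
    have h0 : (0 : ℝ) < (1 / s) ^ tl.length := by positivity
    have e0 : (1 / s) ^ (tl.length + 2) = (1 / s) ^ tl.length * (1 / s) ^ 2 := pow_add _ _ _
    have e0' : (1 / s) ^ (tl.length + 1) = (1 / s) ^ tl.length * (1 / s) := pow_succ _ _
    rw [e0, e0']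
    simp only [nsmul_eq_mul]
    push_cast
    have e1 : (2 * s) * ((1 / s) ^ tl.length * (1 / s)) = 2 * (1 / s) ^ tl.length := by
      field_simp
    have e2 : (1 / s) ^ 2 * s ^ 2 = 1 := by
      field_simp
    rw [e1]
    have e3 : ((k : ℝ) * 2 - 1) * ((1 / s) ^ tl.length * (1 / s) ^ 2) = (1 / s) ^ tl.length := by
      have : (k : ℝ) * 2 - 1 = s ^ 2 := by rw [hk]; ring
      rw [this]
      calc s ^ 2 * ((1 / s) ^ tl.length * (1 / s) ^ 2) =
          (1 / s) ^ tl.length * ((1 / s) ^ 2 * s ^ 2) := by ring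
        _ = _ := by rw [e2, mul_one]
    linarith

lemma total (k : ℕ) (s : ℝ) (hs : 0 < s) (hk : s ^ 2 = 2 * (k : ℝ) - 1) (hk1 : 1 ≤ k) (t : ℕ) :
    ∑ w : Fin t → Fin k × Bool, (1 / s) ^ (FreeGroup.reduce (List.ofFn w)).length ≤
      (2 * s) ^ t := by
  induction t with
  | zero => simp
  | succ t ih =>
    rw [← (Fin.consEquiv (fun _ : Fin (t + 1) => Fin k × Bool)).sum_comp,
      Fintype.sum_prod_type_right]
    calc _ ≤ ∑ w : Fin t → Fin k × Bool,
          (2 * s) * (1 / s) ^ (FreeGroup.reduce (List.ofFn w)).length := by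
          refine Finset.sum_le_sum fun w _ => ?_
          refine le_trans (le_of_eq ?_) (step k s hs hk hk1 (List.ofFn w))
          refine Finset.sum_congr rfl fun x _ => ?_
          simp [Fin.consEquiv, List.ofFn_succ]
      _ = (2 * s) * ∑ w : Fin t → Fin k × Bool,
          (1 / s) ^ (FreeGroup.reduce (List.ofFn w)).length := by
          rw [Finset.mul_sum]
      _ ≤ (2 * s) * (2 * s) ^ t := by gcongr
      _ = (2 * s) ^ (t + 1) := by ring

/-- the number of words of length `t` in the `2k` letters which are trivial in the free group -/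
theorem free_count (k : ℕ) (hk1 : 1 ≤ k) (t : ℕ) :
    (Nat.card {w : Fin t → Fin k × Bool // FreeGroup.mk (List.ofFn w) = 1} : ℝ) ≤
      (2 * Real.sqrt (2 * k - 1)) ^ t := by
  classical
  have hk' : (1 : ℝ) ≤ k := by exact_mod_cast hk1
  have hs : 0 < Real.sqrt (2 * k - 1) := Real.sqrt_pos.2 (by linarith)
  rw [Nat.card_eq_fintype_card, Fintype.card_subtype]
  have h1 := total k (Real.sqrt (2 * k - 1)) hs (Real.sq_sqrt (by linarith)) hk1 t
  refine le_trans ?_ h1
  rw [Finset.card_eq_sum_ones, Finset.sum_filter]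
  push_cast
  refine Finset.sum_le_sum fun w _ => ?_
  split_ifs with hw
  · have : FreeGroup.reduce (List.ofFn w) = [] := by
      rw [← FreeGroup.toWord_mk, hw, FreeGroup.toWord_one]
    rw [this]
    simp
  · positivity

/-! ### the walk operator and its powers -/

section
variable {G : Type*} [Group G]
variable {V : Type*} [NormedAddCommGroup V] [InnerProductSpace ℂ V]

/-- `P_x = (1/2k) ∑_i (ρ(x_i) + ρ(x_i)⁻¹)` -/
def PX (ρ : G →* (V ≃ₗᵢ[ℂ] V)) {k : ℕ} (x : Fin k → G) : Module.End ℂ V :=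
  (1 / (2 * (k : ℂ))) • ∑ i, (op ρ (x i) + op ρ (x i)⁻¹)

/-- the operator of a word -/
def wo (ρ : G →* (V ≃ₗᵢ[ℂ] V)) {k : ℕ} (x : Fin k → G) (l : List (Fin k × Bool)) :
    Module.End ℂ V := op ρ (FreeGroup.lift x (FreeGroup.mk l))

lemma wo_nil (ρ : G →* (V ≃ₗᵢ[ℂ] V)) {k : ℕ} (x : Fin k → G) : wo ρ x [] = 1 := by
  rw [wo, ← FreeGroup.one_eq_mk, map_one, op_one]

lemma wo_cons (ρ : G →* (V ≃ₗᵢ[ℂ] V)) {k : ℕ} (x : Fin k → G) (a : Fin k × Bool)
    (l : List (Fin k × Bool)) : wo ρ x (a :: l) = wo ρ x [a] * wo ρ x l := by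
  rw [wo, wo, wo, ← op_mul, ← map_mul, FreeGroup.mul_mk]
  rfl

lemma PX_eq (ρ : G →* (V ≃ₗᵢ[ℂ] V)) {k : ℕ} (x : Fin k → G) :
    PX ρ x = (1 / (2 * (k : ℂ))) • ∑ a : Fin k × Bool, wo ρ x [a] := by
  rw [PX]
  congr 1
  rw [Fintype.sum_prod_type]
  refine Finset.sum_congr rfl fun i _ => ?_
  rw [Fintype.sum_bool]
  simp [wo]

lemma PX_pow (ρ : G →* (V ≃ₗᵢ[ℂ] V)) {k : ℕ} (x : Fin k → G) (t : ℕ) :
    PX ρ x ^ t = ((1 / (2 * (k : ℂ)))) ^ t • ∑ w : Fin t → Fin k × Bool,
      wo ρ x (List.ofFn w) := by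
  induction t with
  | zero => simp [wo_nil]
  | succ t ih =>
    rw [pow_succ', ih, PX_eq, smul_mul_smul_comm, ← pow_succ']
    congr 1
    rw [Finset.sum_mul_sum, ← Fintype.sum_prod_type',
      ← (Fin.consEquiv (fun _ : Fin (t + 1) => Fin k × Bool)).sum_comp]
    refine Finset.sum_congr rfl fun p _ => ?_
    rw [← wo_cons]
    simp [Fin.consEquiv, List.ofFn_succ]

lemma PX_symm (ρ : G →* (V ≃ₗᵢ[ℂ] V)) {k : ℕ} (x : Fin k → G) : (PX ρ x).IsSymmetric := by
  intro v w
  have h1 : ∀ g : G, ⟪ρ g v, w⟫_ℂ = ⟪v, ρ g⁻¹ w⟫_ℂ := fun g => FR.inner_rho ρ g v w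
  simp only [PX, LinearMap.smul_apply, LinearMap.sum_apply, LinearMap.add_apply, op_apply]
  rw [inner_smul_left, inner_smul_right, sum_inner, inner_sum]
  have h2 : (starRingEnd ℂ) (1 / (2 * (k : ℂ))) = 1 / (2 * (k : ℂ)) := by
    rw [map_div₀, map_one, map_mul, Complex.conj_natCast, Complex.conj_ofNat]
  rw [h2]
  congr 1
  refine Finset.sum_congr rfl fun i _ => ?_
  rw [inner_add_left, inner_add_right, h1, h1, inv_inv]
  ring

end

section
variable {G : Type*} [Group G]
variable {V : Type*} [NormedAddCommGroup V] [InnerProductSpace ℂ V] [FiniteDimensional ℂ V]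

/-- trace of a power of the walk operator from bounds of the characters at nontrivial words -/
theorem trace_le (ρ : G →* (V ≃ₗᵢ[ℂ] V)) {k : ℕ} (hk : 1 ≤ k) (x : Fin k → G) (t : ℕ) (β : ℝ)
    (hβ : 0 ≤ β)
    (h : ∀ u : FreeGroup (Fin k), u ≠ 1 → u.norm ≤ t →
      ‖chr ρ (FreeGroup.lift x u)‖ ≤ β * Module.finrank ℂ V) :
    rtr (PX ρ x ^ t) ≤ ((Real.sqrt (2 * k - 1) / k) ^ t + β) * Module.finrank ℂ V := by
  classical
  have hk' : (1 : ℝ) ≤ k := by exact_mod_cast hk
  set d : ℝ := (Module.finrank ℂ V : ℝ) with hd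
  have hd0 : 0 ≤ d := by positivity
  rw [rtr, PX_pow, map_smul, map_sum]
  have h16 : ((1 / (2 * (k : ℂ)))) ^ t = (((1 / (2 * (k : ℝ))) ^ t : ℝ) : ℂ) := by
    push_cast; rfl
  rw [h16, smul_eq_mul, Complex.re_ofReal_mul, Complex.re_sum]
  have key : ∀ w : Fin t → Fin k × Bool,
      (LinearMap.trace ℂ V (wo ρ x (List.ofFn w))).re ≤
        (if FreeGroup.mk (List.ofFn w) = 1 then d else 0) + β * d := by
    intro w
    split_ifs with hw
    · rw [wo, hw, map_one, op_one]
      have : (LinearMap.trace ℂ V (1 : Module.End ℂ V)) = (Module.finrank ℂ V : ℂ) := by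
        simp
      rw [this, Complex.natCast_re]
      nlinarith [mul_nonneg hβ hd0]
    · rw [zero_add]
      refine le_trans (Complex.re_le_norm _) ?_
      refine h _ hw ?_
      refine le_trans (FreeGroup.norm_mk_le) ?_
      simp
  have hsum := Finset.sum_le_sum fun (w : Fin t → Fin k × Bool) (_ : w ∈ univ) => key w
  rw [Finset.sum_add_distrib, ← Finset.sum_filter, Finset.sum_const, Finset.sum_const,
    Finset.card_univ] at hsum
  have hF := free_count k hk t
  rw [Nat.card_eq_fintype_card, Fintype.card_subtype] at hF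
  have hcard : (Fintype.card (Fin t → Fin k × Bool) : ℝ) = (2 * (k : ℝ)) ^ t := by
    simp only [Fintype.card_fun, Fintype.card_prod, Fintype.card_fin, Fintype.card_bool]
    push_cast
    rw [mul_comm (k : ℝ) 2]
  simp only [nsmul_eq_mul] at hsum
  rw [hcard] at hsum
  have h256 : (1 / (2 * (k : ℝ))) ^ t * (2 * Real.sqrt (2 * k - 1)) ^ t =
      (Real.sqrt (2 * k - 1) / k) ^ t := by
    rw [← mul_pow]
    congr 1
    field_simp
  have h256' : (1 / (2 * (k : ℝ))) ^ t * (2 * (k : ℝ)) ^ t = 1 := by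
    rw [← mul_pow, one_div, inv_mul_cancel₀ (by positivity), one_pow]
  have hp : (0 : ℝ) < (1 / (2 * (k : ℝ))) ^ t := by positivity
  calc _ ≤ (1 / (2 * (k : ℝ))) ^ t *
        ((2 * Real.sqrt (2 * k - 1)) ^ t * d + (2 * (k : ℝ)) ^ t * (β * d)) := by
        refine mul_le_mul_of_nonneg_left (hsum.trans ?_) hp.le
        have := mul_le_mul_of_nonneg_right hF hd0
        linarith
    _ = ((1 / (2 * (k : ℝ))) ^ t * (2 * Real.sqrt (2 * k - 1)) ^ t) * d +
        ((1 / (2 * (k : ℝ))) ^ t * (2 * (k : ℝ)) ^ t) * (β * d) := by ring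
    _ = _ := by rw [h256, h256']; ring

/-- the number of eigenvalues of a symmetric operator of absolute value at least `θ` -/
theorem count_le (T : Module.End ℂ V) (hT : T.IsSymmetric) (θ : ℝ) (hθ : 0 < θ) (L : ℕ) :
    ((Finset.univ.filter fun i => θ ≤ |hT.eigenvalues rfl i|).card : ℝ) ≤
      (1 / θ) ^ (2 * L) * rtr (T ^ (2 * L)) := by
  have hpow : ∀ (t : ℕ) (i), (T ^ t) (hT.eigenvectorBasis rfl i) =
      ((hT.eigenvalues rfl i : ℂ)) ^ t • hT.eigenvectorBasis rfl i := by
    intro t i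
    induction t with
    | zero => simp
    | succ t ih =>
      rw [pow_succ', Module.End.mul_apply, ih, map_smul, hT.apply_eigenvectorBasis, smul_smul,
        pow_succ]
      rfl
  have htr : rtr (T ^ (2 * L)) = ∑ i, (hT.eigenvalues rfl i) ^ (2 * L) := by
    unfold rtr
    rw [LinearMap.trace_eq_sum_inner _ (hT.eigenvectorBasis rfl), Complex.re_sum]
    refine Finset.sum_congr rfl fun i _ => ?_
    rw [hpow, inner_smul_right, inner_self_eq_norm_sq_to_K,
      (hT.eigenvectorBasis rfl).orthonormal.1 i]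
    have : ((hT.eigenvalues rfl i : ℂ)) ^ (2 * L) * ((1 : ℝ) : ℂ) ^ 2 =
        (((hT.eigenvalues rfl i) ^ (2 * L) : ℝ) : ℂ) := by
      push_cast
      ring
    exact (congrArg Complex.re this).trans (Complex.ofReal_re _)
  rw [htr]
  have h1 : ((Finset.univ.filter fun i => θ ≤ |hT.eigenvalues rfl i|).card : ℝ) * θ ^ (2 * L) ≤
      ∑ i, (hT.eigenvalues rfl i) ^ (2 * L) := by
    rw [← nsmul_eq_mul, ← Finset.sum_const]
    refine (Finset.sum_le_sum fun i hi => ?_).trans
      (Finset.sum_le_sum_of_subset_of_nonneg (Finset.filter_subset _ _)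
        fun i _ _ => (even_two_mul L).pow_nonneg _)
    have hi' := (Finset.mem_filter.1 hi).2
    rw [← (even_two_mul L).pow_abs (hT.eigenvalues rfl i)]
    exact pow_le_pow_left₀ hθ.le hi' _
  calc ((Finset.univ.filter fun i => θ ≤ |hT.eigenvalues rfl i|).card : ℝ) =
        (1 / θ) ^ (2 * L) * (((Finset.univ.filter fun i =>
          θ ≤ |hT.eigenvalues rfl i|).card : ℝ) * θ ^ (2 * L)) := by
        rw [one_div, inv_pow]
        field_simp
    _ ≤ _ := by gcongr

end

end

end Pool.Agent.R236.Den
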