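import Pool.Agent.R236.ExcB

/-!
MP_75608d_al: words of random even permutations have few fixed points, for `gk` generators.
The proofs are those of the modules H459R2.RC.CNT, H334R2.RC.EXPO1, H287R2.RC.EXPO2 (eight
generators).
-/

namespace Pool.Agent.R236.Den
open RC14
open scoped InnerProductSpace
open Finset

variable {gk : ℕ}

/-- every nontrivial word of length at most `ℓ` in the permutations `x` has fewer than `F`
fixed points -/
def FewFixK (n ℓ F : ℕ) (x : Fin gk → Equiv.Perm (Fin n)) : Prop :=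
  ∀ u : FreeGroup (Fin gk), u ≠ 1 → u.norm ≤ ℓ → nfix (FreeGroup.lift x u) < F


namespace CNT

open Classical in
/-- the tuples satisfying the constraints `C` -/
noncomputable def A (n : ℕ) (C : Finset (Fin gk × Fin n × Fin n)) :
    Finset (Fin gk → Equiv.Perm (Fin n)) :=
  Finset.univ.filter fun x => ∀ c ∈ C, x c.1 c.2.1 = c.2.2

lemma mem_A {n : ℕ} {C : Finset (Fin gk × Fin n × Fin n)} {x : Fin gk → Equiv.Perm (Fin n)} :
    x ∈ A n C ↔ ∀ c ∈ C, x c.1 c.2.1 = c.2.2 := by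
  classical
  simp [A]

open Classical in
lemma step {n : ℕ} (C : Finset (Fin gk × Fin n × Fin n)) (c : Fin gk × Fin n × Fin n)
    (hc : c ∉ C) : #(A n (insert c C)) * (n - #C) ≤ #(A n C) := by
  obtain ⟨i, p, r⟩ := c
  set D : Finset (Fin n) := (C.filter fun d => d.1 = i).image fun d => d.2.1 with hD
  have hDc : #D ≤ #C := Finset.card_image_le.trans (Finset.card_filter_le _ _)
  have hT : n - #C ≤ #(Finset.univ \ D) := by
    rw [Finset.card_sdiff_of_subset (Finset.subset_univ D), Finset.card_univ, Fintype.card_fin]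
    omega
  calc #(A n (insert (i, p, r) C)) * (n - #C)
      ≤ #(A n (insert (i, p, r) C)) * #(Finset.univ \ D) := Nat.mul_le_mul_left _ hT
    _ = #(A n (insert (i, p, r) C) ×ˢ (Finset.univ \ D)) := (Finset.card_product _ _).symm
    _ ≤ #(A n C) := by
      refine Finset.card_le_card_of_injOn
        (fun q => Function.update q.1 i (q.1 i * Equiv.swap p q.2)) ?_ ?_
      · rintro ⟨x, t⟩ hxt
        simp only [Finset.coe_product, Set.mem_prod, Finset.mem_coe, Finset.mem_sdiff,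
          Finset.mem_univ, true_and] at hxt
        obtain ⟨hx, ht⟩ := hxt
        rw [mem_A] at hx
        simp only [Finset.mem_coe]
        rw [mem_A]
        rintro ⟨i', p', r'⟩ hc'
        have h0 := hx (i', p', r') (Finset.mem_insert_of_mem hc')
        have h1 := hx (i, p, r) (Finset.mem_insert_self _ _)
        simp only at h0 h1 ⊢
        by_cases hi : i' = i
        · subst hi
          simp only [Function.update_self, Equiv.Perm.coe_mul, Function.comp_apply]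
          have hp : p' ≠ p := by
            rintro rfl
            apply hc
            rw [h0] at h1
            rw [← h1]
            exact hc'
          have hpt : p' ≠ t := by
            rintro rfl
            apply ht
            rw [hD]
            exact Finset.mem_image.2 ⟨(i', p', r'), Finset.mem_filter.2 ⟨hc', rfl⟩, rfl⟩
          rw [Equiv.swap_apply_of_ne_of_ne hp hpt]
          exact h0
        · rw [Function.update_of_ne hi]
          exact h0
      · rintro ⟨x, t⟩ hxt ⟨y, s⟩ hys hxy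
        simp only [Finset.coe_product, Set.mem_prod, Finset.mem_coe, Finset.mem_sdiff,
          Finset.mem_univ, true_and] at hxt hys
        have hx := mem_A.1 hxt.1 (i, p, r) (Finset.mem_insert_self _ _)
        have hy := mem_A.1 hys.1 (i, p, r) (Finset.mem_insert_self _ _)
        simp only at hx hy hxy
        have h1 := congrFun hxy i
        simp only [Function.update_self] at h1
        have h2 : (x i * Equiv.swap p t) t = r := by simp [hx]
        have h3 : (y i * Equiv.swap p s) s = r := by simp [hy]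
        have hts : t = s := by
          apply (y i * Equiv.swap p s).injective
          rw [h3, ← h1, h2]
        subst hts
        have hxyi : x i = y i := mul_right_cancel h1
        have : x = y := by
          funext j
          by_cases hj : j = i
          · subst hj; exact hxyi
          · have := congrFun hxy j
            rwa [Function.update_of_ne hj, Function.update_of_ne hj] at this
        rw [this]

lemma main (n N : ℕ) (C : Finset (Fin gk × Fin n × Fin n)) (hC : C.card ≤ N) :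
    #(A n C) * (n - N) ^ C.card ≤ n.factorial ^ gk := by
  classical
  induction C using Finset.induction_on with
  | empty =>
    simp only [Finset.card_empty, pow_zero, mul_one]
    refine (Finset.card_le_univ _).trans ?_
    simp [Fintype.card_perm]
  | insert c C hc ih =>
    rw [Finset.card_insert_of_notMem hc] at hC ⊢
    have h1 := ih (by omega)
    have h2 := step C c hc
    calc #(A n (insert c C)) * (n - N) ^ (#C + 1)
        = (#(A n (insert c C)) * (n - N)) * (n - N) ^ #C := by ring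
      _ ≤ (#(A n (insert c C)) * (n - #C)) * (n - N) ^ #C := by
          gcongr
          omega
      _ ≤ #(A n C) * (n - N) ^ #C := Nat.mul_le_mul_right _ h2
      _ ≤ n.factorial ^ gk := h1

end CNT

set_option linter.unusedVariables false in
/-- number of 8-tuples of permutations satisfying `N₀` distinct constraints `x_i(p) = r` -/
theorem CNT (n N : ℕ) (hN : N < n) (C : Finset (Fin gk × Fin n × Fin n)) (hC : C.card ≤ N) :
    Nat.card {x : Fin gk → Equiv.Perm (Fin n) // ∀ c ∈ C, x c.1 c.2.1 = c.2.2} *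
      (n - N) ^ C.card ≤ n.factorial ^ gk := by
  classical
  have h : Nat.card {x : Fin gk → Equiv.Perm (Fin n) // ∀ c ∈ C, x c.1 c.2.1 = c.2.2} =
      #(CNT.A n C) := by
    rw [Nat.card_eq_fintype_card, Fintype.card_subtype]
    rfl
  rw [h]
  exact CNT.main n N C hC


namespace EXPO1

noncomputable section

variable {n : ℕ}

/-- one step of the action of a letter -/
def st (x : Fin gk → Equiv.Perm (Fin n)) (s : Fin gk × Bool) (v : Fin n) : Fin n :=
  if s.2 then x s.1 v else (x s.1)⁻¹ v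

/-- the constraint `st x s v = v'` in the form `x i p = r` -/
def ed (s : Fin gk × Bool) (v v' : Fin n) : Fin gk × Fin n × Fin n :=
  if s.2 then (s.1, v, v') else (s.1, v', v)

/-- `x` satisfies all the constraints in `C` -/
def Sat (x : Fin gk → Equiv.Perm (Fin n)) (C : Finset (Fin gk × Fin n × Fin n)) : Prop :=
  ∀ c ∈ C, x c.1 c.2.1 = c.2.2

instance (x : Fin gk → Equiv.Perm (Fin n)) (C : Finset (Fin gk × Fin n × Fin n)) :
    Decidable (Sat x C) := by
  unfold Sat; infer_instance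

lemma st_iff (x : Fin gk → Equiv.Perm (Fin n)) (s : Fin gk × Bool) (v v' : Fin n) :
    x (ed s v v').1 (ed s v v').2.1 = (ed s v v').2.2 ↔ st x s v = v' := by
  obtain ⟨i, b⟩ := s
  cases b
  · simp only [ed, st, Bool.false_eq_true, if_false]
    constructor
    · intro h; rw [← h]; simp
    · intro h; rw [← h]; simp
  · simp [ed, st]

lemma sat_insert (x : Fin gk → Equiv.Perm (Fin n)) (C : Finset (Fin gk × Fin n × Fin n))
    (s : Fin gk × Bool) (v v' : Fin n) :
    Sat x (insert (ed s v v') C) ↔ Sat x C ∧ st x s v = v' := by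
  unfold Sat
  rw [Finset.forall_mem_insert, st_iff]
  exact and_comm

/-- the end point of the walk -/
def go (x : Fin gk → Equiv.Perm (Fin n)) : List (Fin gk × Bool) → Fin n → Fin n
  | [], v => v
  | s :: w, v => go x w (st x s v)

lemma go_append (x : Fin gk → Equiv.Perm (Fin n)) (l₁ l₂ : List (Fin gk × Bool)) (v : Fin n) :
    go x (l₁ ++ l₂) v = go x l₂ (go x l₁ v) := by
  induction l₁ generalizing v with
  | nil => rfl
  | cons s l ih => simp only [List.cons_append, go]; exact ih _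

lemma prod_go (x : Fin gk → Equiv.Perm (Fin n)) (L : List (Fin gk × Bool)) (v : Fin n) :
    ((L.map fun p => cond p.2 (x p.1) (x p.1)⁻¹).prod) v = go x L.reverse v := by
  induction L generalizing v with
  | nil => simp [go]
  | cons s l ih =>
    rw [List.map_cons, List.prod_cons, Equiv.Perm.mul_apply, ih, List.reverse_cons, go_append]
    simp only [go, st]
    cases s.2 <;> simp

lemma lift_go (x : Fin gk → Equiv.Perm (Fin n)) (u : FreeGroup (Fin gk)) (v : Fin n) :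
    FreeGroup.lift x u v = go x u.toWord.reverse v := by
  rw [← prod_go]
  conv_lhs => rw [← FreeGroup.mk_toWord (x := u)]
  rw [FreeGroup.lift_mk]

/-- exploration: the value `Φ R` at the moment when the walk first hits the recorded set -/
def hit (x : Fin gk → Equiv.Perm (Fin n)) (Φ : Finset (Fin n) → ℝ) :
    List (Fin gk × Bool) → Fin n → Finset (Fin n) → ℝ
  | [], _, _ => 0
  | s :: w, v, R => if st x s v ∈ R then Φ R else hit x Φ w (st x s v) (insert (st x s v) R)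

/-- weighted number of sequences of successful explorations -/
def K (x : Fin gk → Equiv.Perm (Fin n)) (w : List (Fin gk × Bool)) : ℕ → Finset (Fin n) → ℝ
  | 0, _ => 1
  | p + 1, R => ∑ a ∈ Rᶜ, hit x (K x w p) w a (insert a R)

lemma hit_nonneg (x : Fin gk → Equiv.Perm (Fin n)) (Φ : Finset (Fin n) → ℝ)
    (hΦ : ∀ R, 0 ≤ Φ R) (w : List (Fin gk × Bool)) (v : Fin n) (R : Finset (Fin n)) :
    0 ≤ hit x Φ w v R := by
  induction w generalizing v R with
  | nil => simp [hit]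
  | cons s w ih =>
    simp only [hit]
    split_ifs
    · exact hΦ _
    · exact ih _ _

lemma K_nonneg (x : Fin gk → Equiv.Perm (Fin n)) (w : List (Fin gk × Bool)) (p : ℕ)
    (R : Finset (Fin n)) : 0 ≤ K x w p R := by
  induction p generalizing R with
  | zero => simp [K]
  | succ p ih =>
    simp only [K]
    exact Finset.sum_nonneg fun a _ => hit_nonneg x _ ih _ _ _

/-- lower bound for a walk which ends in the recorded set -/
lemma hit_ge (x : Fin gk → Equiv.Perm (Fin n)) (Φ : Finset (Fin n) → ℝ) (c : ℝ)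
    (w : List (Fin gk × Bool)) (v : Fin n) (R : Finset (Fin n)) (hw : w ≠ [])
    (hR : go x w v ∈ R) (hΦ : ∀ R' : Finset (Fin n), R'.card < R.card + w.length → c ≤ Φ R') :
    c ≤ hit x Φ w v R := by
  induction w generalizing v R with
  | nil => exact absurd rfl hw
  | cons s w ih =>
    simp only [hit]
    split_ifs with h
    · exact hΦ R (by simp)
    · have hw' : w ≠ [] := by
        rintro rfl
        exact h (by simpa [go] using hR)
      refine ih _ _ hw' (Finset.mem_insert_of_mem (by simpa [go] using hR)) ?_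
      intro R' hR'
      refine hΦ R' ?_
      rw [Finset.card_insert_of_notMem h] at hR'
      simp only [List.length_cons]
      omega

lemma K_ge (x : Fin gk → Equiv.Perm (Fin n)) (w : List (Fin gk × Bool)) (hw : w ≠ [])
    (ℓ N F : ℕ) (hℓ : w.length ≤ ℓ) (hF : F ≤ #{a | go x w a = a}) (hNF : N ≤ F) (p : ℕ)
    (R : Finset (Fin n)) (hR : R.card + p * ℓ ≤ N) :
    ((F - N : ℕ) : ℝ) ^ p ≤ K x w p R := by
  induction p generalizing R with
  | zero => simp [K]
  | succ p ih =>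
    simp only [K]
    have hsub : ({a | go x w a = a} : Finset (Fin n)) \ R ⊆ Rᶜ := by
      intro a ha
      rw [Finset.mem_sdiff] at ha
      simpa using ha.2
    have h1 : ∑ a ∈ ({a | go x w a = a} : Finset (Fin n)) \ R, ((F - N : ℕ) : ℝ) ^ p ≤
        ∑ a ∈ Rᶜ, hit x (K x w p) w a (insert a R) := by
      refine le_trans (Finset.sum_le_sum fun a ha => ?_)
        (Finset.sum_le_sum_of_subset_of_nonneg hsub
          fun a _ _ => hit_nonneg x _ (K_nonneg x w p) _ _ _)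
      rw [Finset.mem_sdiff, Finset.mem_filter] at ha
      refine hit_ge x _ _ w a _ hw (by rw [ha.1.2]; exact Finset.mem_insert_self _ _) ?_
      intro R' hR'
      refine ih R' ?_
      rw [Finset.card_insert_of_notMem ha.2] at hR'
      have : (p + 1) * ℓ = p * ℓ + ℓ := by ring
      omega
    refine le_trans ?_ h1
    rw [Finset.sum_const, nsmul_eq_mul, pow_succ, mul_comm]
    refine mul_le_mul_of_nonneg_right ?_ (by positivity)
    have h2 := Finset.le_card_sdiff R ({a | go x w a = a} : Finset (Fin n))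
    have h3 : F - N ≤ (({a | go x w a = a} : Finset (Fin n)) \ R).card := by
      have : 0 ≤ (p + 1) * ℓ := Nat.zero_le _
      omega
    exact_mod_cast h3

/-- all vertices of `C` are in `R` -/
def VC (C : Finset (Fin gk × Fin n × Fin n)) (R : Finset (Fin n)) : Prop :=
  ∀ c ∈ C, c.2.1 ∈ R ∧ c.2.2 ∈ R

lemma ed_vert {s : Fin gk × Bool} {v v' : Fin n} {R : Finset (Fin n)} (h : v ∈ R)
    (h' : v' ∈ R) : (ed s v v').2.1 ∈ R ∧ (ed s v v').2.2 ∈ R := by
  unfold ed
  split_ifs <;> simp [h, h']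

lemma not_ed_mem {s : Fin gk × Bool} {v : Fin n} {R : Finset (Fin n)} (h : v ∉ R)
    {C : Finset (Fin gk × Fin n × Fin n)} (hC : VC C R) (y : Fin n) : ed s v y ∉ C := by
  intro hm
  have := hC _ hm
  unfold ed at this
  split_ifs at this
  · exact h this.1
  · exact h this.2

lemma ed_ne {s s' : Fin gk × Bool} (hs : s.1 = s'.1 → s.2 = s'.2) {v v' : Fin n} (hv : v ≠ v')
    (y : Fin n) : ed s' v' y ≠ ed s v v' := by
  obtain ⟨i, b⟩ := s
  obtain ⟨i', b'⟩ := s'
  simp only at hs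
  intro h
  cases b <;> cases b' <;> simp only [ed, if_true, if_false, Bool.false_eq_true, Prod.mk.injEq] at h
  · exact hv h.2.2.symm
  · exact absurd (hs h.1.symm) (by decide)
  · exact absurd (hs h.1.symm) (by decide)
  · exact hv h.2.1.symm

/-- the bound for one exploration -/
def T (n N : ℕ) (r : ℝ) (k : ℕ) : ℝ := k * N * r ^ k / n

lemma T_succ (n N : ℕ) (ρ : ℝ) (hn : 0 < n) (hr : 1 ≤ n * ρ) (k : ℕ) :
    N * ρ + n * ρ * T n N (n * ρ) k ≤ T n N (n * ρ) (k + 1) := by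
  unfold T
  have hn' : (0 : ℝ) < n := by exact_mod_cast hn
  have h1 : (n : ℝ) * ρ * (k * N * (n * ρ) ^ k / n) = k * N * (n * ρ) ^ (k + 1) / n := by
    rw [pow_succ]; ring
  have h2 : (N : ℝ) * ρ = N * (n * ρ) / n := by
    field_simp
  rw [h1, h2, ← add_div]
  refine div_le_div_of_nonneg_right ?_ hn'.le
  push_cast
  have h3 : (n : ℝ) * ρ ≤ (n * ρ) ^ (k + 1) := by
    calc (n : ℝ) * ρ = (n * ρ) ^ 1 := (pow_one _).symm
      _ ≤ (n * ρ) ^ (k + 1) := pow_le_pow_right₀ hr (by omega)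
  have hN : (0 : ℝ) ≤ N := Nat.cast_nonneg _
  nlinarith [mul_le_mul_of_nonneg_left h3 hN]

lemma T_mono (n N : ℕ) (r : ℝ) (hr : 1 ≤ r) {j k : ℕ} (h : j ≤ k) : T n N r j ≤ T n N r k := by
  unfold T
  have h1 : (j : ℝ) ≤ k := by exact_mod_cast h
  have h2 : r ^ j ≤ r ^ k := pow_le_pow_right₀ hr h
  have h3 : (0 : ℝ) ≤ r ^ j := pow_nonneg (by linarith) _
  gcongr

lemma T_nonneg (n N : ℕ) (r : ℝ) (hr : 0 ≤ r) (k : ℕ) : 0 ≤ T n N r k := by
  unfold T; positivity

/-- splitting the sum over `x ⊨ C` according to the next vertex -/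
lemma sum_split (C : Finset (Fin gk × Fin n × Fin n)) (s : Fin gk × Bool) (v : Fin n)
    (f : (Fin gk → Equiv.Perm (Fin n)) → Fin n → ℝ) :
    ∑ x with Sat x C, f x (st x s v) =
      ∑ v', ∑ x with Sat x (insert (ed s v v') C), f x v' := by
  rw [← Finset.sum_fiberwise (s := Finset.univ.filter fun x => Sat x C)
    (g := fun x : Fin gk → Equiv.Perm (Fin n) => st x s v)]
  refine Finset.sum_congr rfl fun v' _ => ?_
  refine Finset.sum_congr_of_eq_on_inter ?_ ?_ ?_ <;>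
    simp +contextual [sat_insert]

lemma hit_sum_le (Φ : (Fin gk → Equiv.Perm (Fin n)) → Finset (Fin n) → ℝ) (N c₁ c₂ : ℕ)
    (D ρ : ℝ) (hn : 0 < n) (hρ : 0 ≤ ρ) (hD : 0 ≤ D) (hr : 1 ≤ n * ρ) (hc : c₂ ≤ N)
    (hΦ : ∀ C R, VC C R → C.card ≤ c₁ → R.card ≤ c₂ →
      ∑ x with Sat x C, Φ x R ≤ D * ρ ^ C.card)
    (w : List (Fin gk × Bool)) (hw : w.IsChain (fun a b => a.1 = b.1 → a.2 = b.2))
    (v : Fin n) (R : Finset (Fin n)) (C : Finset (Fin gk × Fin n × Fin n))
    (hv : v ∈ R) (hVC : VC C R) (hhead : ∀ s ∈ w.head?, ∀ y, ed s v y ∉ C)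
    (h1 : C.card + w.length ≤ c₁) (h2 : R.card + w.length ≤ c₂ + 1) :
    ∑ x with Sat x C, hit x (Φ x) w v R ≤ D * ρ ^ C.card * T n N (n * ρ) w.length := by
  induction w generalizing v R C with
  | nil =>
    simp [hit, T]
  | cons s w ih =>
    have hs : ∀ y, ed s v y ∉ C := hhead s (by simp)
    simp only [hit]
    rw [sum_split C s v (fun x v' => if v' ∈ R then Φ x R else hit x (Φ x) w v' (insert v' R))]
    have hcard : ∀ v', (insert (ed s v v') C).card = C.card + 1 := fun v' =>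
      Finset.card_insert_of_notMem (hs v')
    have key : ∀ v' : Fin n, ∑ x with Sat x (insert (ed s v v') C),
        (if v' ∈ R then Φ x R else hit x (Φ x) w v' (insert v' R)) ≤
        (if v' ∈ R then D * ρ ^ (C.card + 1) else 0) +
          D * ρ ^ (C.card + 1) * T n N (n * ρ) w.length := by
      intro v'
      have hT := T_nonneg n N (n * ρ) (by linarith) w.length
      by_cases h : v' ∈ R
      · simp only [h, if_true]
        have := hΦ (insert (ed s v v') C) R (by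
          intro c hc
          rw [Finset.mem_insert] at hc
          rcases hc with rfl | hc
          · exact ed_vert hv h
          · exact hVC c hc) (by rw [hcard]; simp only [List.length_cons] at h1; omega)
          (by simp only [List.length_cons] at h2; omega)
        rw [hcard] at this
        refine this.trans ?_
        have : 0 ≤ D * ρ ^ (C.card + 1) * T n N (n * ρ) w.length := by positivity
        linarith
      · simp only [h, if_false, zero_add]
        have := ih hw.tail v' (insert v' R) (insert (ed s v v') C)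
          (Finset.mem_insert_self _ _) (by
            intro c hc
            rw [Finset.mem_insert] at hc
            rcases hc with rfl | hc
            · exact ed_vert (Finset.mem_insert_of_mem hv) (Finset.mem_insert_self _ _)
            · exact ⟨Finset.mem_insert_of_mem (hVC c hc).1,
                Finset.mem_insert_of_mem (hVC c hc).2⟩) (by
            intro s' hs' y hmem
            rw [Finset.mem_insert] at hmem
            rcases hmem with hmem | hmem
            · refine ed_ne (s := s) (s' := s') ?_ (v := v) (v' := v')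
                (fun e => h (e ▸ hv)) y hmem
              cases w with
              | nil => simp at hs'
              | cons a w =>
                simp only [List.head?_cons, Option.mem_def, Option.some.injEq] at hs'
                subst hs'
                rw [List.isChain_cons_cons] at hw
                exact hw.1
            · exact not_ed_mem h hVC y hmem)
          (by rw [hcard]; simp only [List.length_cons] at h1; omega)
          (by rw [Finset.card_insert_of_notMem h]; simp only [List.length_cons] at h2; omega)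
        rw [hcard] at this
        exact this
    refine (Finset.sum_le_sum fun v' _ => key v').trans ?_
    rw [Finset.sum_add_distrib, ← Finset.sum_filter, Finset.sum_const, Finset.sum_const,
      nsmul_eq_mul, nsmul_eq_mul, Finset.card_univ, Fintype.card_fin]
    have hfil : (Finset.univ.filter fun v' => v' ∈ R) = R := by ext; simp
    rw [hfil]
    have hRN : (R.card : ℝ) ≤ N := by
      have : R.card ≤ N := by simp only [List.length_cons] at h2; omega
      exact_mod_cast this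
    have hX : 0 ≤ D * ρ ^ C.card := by positivity
    have hTs := T_succ n N ρ hn hr w.length
    calc (R.card : ℝ) * (D * ρ ^ (C.card + 1)) +
          n * (D * ρ ^ (C.card + 1) * T n N (n * ρ) w.length)
        ≤ (N : ℝ) * (D * ρ ^ (C.card + 1)) +
          n * (D * ρ ^ (C.card + 1) * T n N (n * ρ) w.length) := by
          gcongr
      _ = D * ρ ^ C.card * (N * ρ + n * ρ * T n N (n * ρ) w.length) := by
          rw [pow_succ]; ring
      _ ≤ D * ρ ^ C.card * T n N (n * ρ) (w.length + 1) :=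
          mul_le_mul_of_nonneg_left hTs hX
      _ = D * ρ ^ C.card * T n N (n * ρ) (s :: w).length := by simp

lemma K_sum_le (w : List (Fin gk × Bool)) (hw : w.IsChain (fun a b => a.1 = b.1 → a.2 = b.2))
    (ℓ N : ℕ) (hℓ : w.length ≤ ℓ) (hN : N < n) (p : ℕ)
    (C : Finset (Fin gk × Fin n × Fin n)) (R : Finset (Fin n)) (hVC : VC C R)
    (h1 : C.card + p * ℓ ≤ N) (h2 : R.card + p * ℓ ≤ N) :
    ∑ x with Sat x C, K x w p R ≤
      ((n.factorial : ℝ) ^ gk * (n * T n N (n * ((n : ℝ) - N)⁻¹) ℓ) ^ p) *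
        (((n : ℝ) - N)⁻¹) ^ C.card := by
  have hNn : (0 : ℝ) < (n : ℝ) - N := by
    have : (N : ℝ) < n := by exact_mod_cast hN
    linarith
  have hρ : 0 ≤ ((n : ℝ) - N)⁻¹ := by positivity
  have hr : 1 ≤ (n : ℝ) * ((n : ℝ) - N)⁻¹ := by
    rw [← div_eq_mul_inv, le_div_iff₀ hNn]
    have : (0 : ℝ) ≤ N := Nat.cast_nonneg _
    linarith
  have hn : 0 < n := by omega
  have hT0 := T_nonneg n N (n * ((n : ℝ) - N)⁻¹) (by linarith) ℓ
  induction p generalizing C R with
  | zero =>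
    simp only [K, pow_zero, mul_one]
    rw [Finset.sum_const, nsmul_eq_mul, mul_one, inv_pow, ← div_eq_mul_inv,
      le_div_iff₀ (by positivity)]
    have := CNT n N hN C (by omega)
    rw [Nat.card_eq_fintype_card, Fintype.card_subtype] at this
    have h3 : ((n - N : ℕ) : ℝ) = (n : ℝ) - N := Nat.cast_sub hN.le
    rw [← h3]
    exact_mod_cast this
  | succ p ih =>
    simp only [K]
    rw [Finset.sum_comm]
    have key : ∀ a ∈ Rᶜ, ∑ x with Sat x C, hit x (K x w p) w a (insert a R) ≤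
        ((n.factorial : ℝ) ^ gk * (n * T n N (n * ((n : ℝ) - N)⁻¹) ℓ) ^ p) *
        (((n : ℝ) - N)⁻¹) ^ C.card * T n N (n * ((n : ℝ) - N)⁻¹) ℓ := by
      intro a ha
      rw [Finset.mem_compl] at ha
      have hp : (p + 1) * ℓ = p * ℓ + ℓ := by ring
      refine (hit_sum_le (fun x => K x w p) N (N - p * ℓ) (N - p * ℓ)
        ((n.factorial : ℝ) ^ gk * (n * T n N (n * ((n : ℝ) - N)⁻¹) ℓ) ^ p) (((n : ℝ) - N)⁻¹)
        hn hρ (by positivity) hr (by omega) ?_ w hw a (insert a R) C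
        (Finset.mem_insert_self _ _) ?_ ?_ ?_ ?_).trans ?_
      · intro C' R' hV hc hr'
        exact ih C' R' hV (by omega) (by omega)
      · intro c hc
        exact ⟨Finset.mem_insert_of_mem (hVC c hc).1, Finset.mem_insert_of_mem (hVC c hc).2⟩
      · intro s _ y
        exact not_ed_mem ha hVC y
      · omega
      · rw [Finset.card_insert_of_notMem ha]; omega
      · exact mul_le_mul_of_nonneg_left (T_mono n N _ hr hℓ) (by positivity)
    refine (Finset.sum_le_sum key).trans ?_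
    rw [Finset.sum_const, nsmul_eq_mul]
    have hc : ((Rᶜ).card : ℝ) ≤ n := by
      have := Finset.card_le_univ (Rᶜ)
      rw [Fintype.card_fin] at this
      exact_mod_cast this
    refine (mul_le_mul_of_nonneg_right hc (by positivity)).trans (le_of_eq ?_)
    rw [pow_succ]; ring

end

end EXPO1

open EXPO1 in
/-- few tuples of permutations have a given nontrivial word with many fixed points -/
theorem EXPO1 (n ℓ p F : ℕ) (u : FreeGroup (Fin gk)) (hu : u ≠ 1) (hℓ : u.norm ≤ ℓ)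
    (hF : p * ℓ < F) (hn : F ≤ n) :
    Nat.card {x : Fin gk → Equiv.Perm (Fin n) // F ≤ nfix (FreeGroup.lift x u)} *
      (F - p * ℓ) ^ p * (n - p * ℓ) ^ (p * ℓ) ≤
      n.factorial ^ gk * (p * ℓ ^ 2) ^ p * n ^ (p * ℓ) := by
  set N := p * ℓ with hNdef
  set w := u.toWord.reverse with hw
  have hN : N < n := by omega
  have hchain : w.IsChain (fun a b : Fin gk × Bool => a.1 = b.1 → a.2 = b.2) := by
    rw [hw, List.isChain_reverse]
    have := FreeGroup.isReduced_toWord (x := u)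
    refine List.IsChain.imp ?_ this
    intro a b h e
    exact (h e.symm).symm
  have hwne : w ≠ [] := by
    intro h
    apply hu
    rw [hw, List.reverse_eq_nil_iff] at h
    exact FreeGroup.toWord_eq_nil_iff.1 h
  have hwl : w.length ≤ ℓ := by
    rw [hw, List.length_reverse]
    exact hℓ
  have hup := K_sum_le w hchain ℓ N hwl hN p ∅ ∅ (by intro c hc; simp at hc)
    (by simp [hNdef]) (by simp [hNdef])
  have hNn : (0 : ℝ) < (n : ℝ) - N := by
    have : (N : ℝ) < n := by exact_mod_cast hN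
    linarith
  have hsat : (Finset.univ.filter fun x : Fin gk → Equiv.Perm (Fin n) => Sat x ∅) =
      Finset.univ := by
    ext x; simp [Sat]
  rw [hsat, Finset.card_empty, pow_zero, mul_one] at hup
  rw [Nat.card_eq_fintype_card, Fintype.card_subtype]
  have hlow : ∀ x ∈ (Finset.univ.filter fun x : Fin gk → Equiv.Perm (Fin n) =>
      F ≤ nfix (FreeGroup.lift x u)), ((F - N : ℕ) : ℝ) ^ p ≤ K x w p ∅ := by
    intro x hx
    rw [Finset.mem_filter] at hx
    refine K_ge x w hwne ℓ N F hwl ?_ hF.le p ∅ (by simp [hNdef])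
    refine hx.2.trans (le_of_eq ?_)
    unfold nfix
    congr 1
    ext a
    simp only [Finset.mem_filter, Finset.mem_univ, true_and]
    rw [lift_go]
  have h1 : (#{x : Fin gk → Equiv.Perm (Fin n) | F ≤ nfix (FreeGroup.lift x u)} : ℝ) *
      ((F - N : ℕ) : ℝ) ^ p ≤
      (n.factorial : ℝ) ^ gk * (n * T n N (n * ((n : ℝ) - N)⁻¹) ℓ) ^ p := by
    refine le_trans ?_ hup
    rw [← nsmul_eq_mul, ← Finset.sum_const]
    refine (Finset.sum_le_sum hlow).trans ?_
    exact Finset.sum_le_sum_of_subset_of_nonneg (Finset.subset_univ _)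
      fun x _ _ => K_nonneg x w p ∅
  have hn0 : (n : ℝ) ≠ 0 := by
    have : 0 < n := by omega
    positivity
  have h2 : (n : ℝ) * T n N (n * ((n : ℝ) - N)⁻¹) ℓ =
      (p * ℓ ^ 2 : ℕ) * ((n : ℝ) ^ ℓ * (((n : ℝ) - N) ^ ℓ)⁻¹) := by
    unfold T
    rw [mul_pow, inv_pow, hNdef]
    push_cast
    field_simp
  rw [h2, mul_pow, mul_pow, inv_pow, ← pow_mul, ← pow_mul, mul_comm ℓ p, ← hNdef] at h1
  have h4 : ((n - N : ℕ) : ℝ) = (n : ℝ) - N := Nat.cast_sub hN.le
  have h3 : (#{x : Fin gk → Equiv.Perm (Fin n) | F ≤ nfix (FreeGroup.lift x u)} : ℝ) *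
      ((F - N : ℕ) : ℝ) ^ p * ((n - N : ℕ) : ℝ) ^ N ≤
      (n.factorial : ℝ) ^ gk * (p * ℓ ^ 2 : ℕ) ^ p * (n : ℝ) ^ N := by
    rw [h4]
    refine (mul_le_mul_of_nonneg_right h1 (by positivity)).trans (le_of_eq ?_)
    have : ((n : ℝ) - N) ^ N ≠ 0 := by positivity
    field_simp
  exact_mod_cast h3


namespace EXPO2

/-- nontrivial words of length at most `ℓ` -/
abbrev U (gk ℓ : ℕ) := {u : FreeGroup (Fin gk) // u ≠ 1 ∧ u.norm ≤ ℓ}

/-- the letters of a word -/
def code (ℓ : ℕ) (u : U gk ℓ) : Fin ℓ → Option (Fin gk × Bool) := fun i => u.1.toWord[(i : ℕ)]?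

lemma code_inj (gk ℓ : ℕ) : Function.Injective (code (gk := gk) ℓ) := by
  intro u v h
  apply Subtype.ext
  apply FreeGroup.toWord_injective
  apply List.ext_getElem?
  intro i
  by_cases hi : i < ℓ
  · exact congrFun h ⟨i, hi⟩
  · have h1 : u.1.toWord.length ≤ i := u.2.2.trans (not_lt.1 hi)
    have h2 : v.1.toWord.length ≤ i := v.2.2.trans (not_lt.1 hi)
    rw [List.getElem?_eq_none h1, List.getElem?_eq_none h2]

instance (ℓ : ℕ) : Finite (U gk ℓ) := Finite.of_injective _ (code_inj gk ℓ)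

lemma card_U (ℓ : ℕ) : Nat.card (U gk ℓ) ≤ (2 * gk + 1) ^ ℓ := by
  have h1 := Nat.card_le_card_of_injective _ (code_inj gk ℓ)
  have h2 : Nat.card (Fin ℓ → Option (Fin gk × Bool)) = (2 * gk + 1) ^ ℓ := by
    rw [Nat.card_eq_fintype_card]
    simp [mul_comm]
  rwa [h2] at h1

/-- tuples of permutations for which `u` has many fixed points -/
abbrev S (n F : ℕ) (u : FreeGroup (Fin gk)) :=
  {x : Fin gk → Equiv.Perm (Fin n) // F ≤ nfix (FreeGroup.lift x u)}

lemma exists_word {n ℓ F : ℕ} {x : Fin gk → Alt n}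
    (hx : ¬ FewFixK n ℓ F (fun i => (x i : Equiv.Perm (Fin n)))) :
    ∃ u : U gk ℓ, F ≤ nfix (FreeGroup.lift (fun i => (x i : Equiv.Perm (Fin n))) u.1) := by
  unfold FewFixK at hx
  push Not at hx
  obtain ⟨u, h1, h2, h3⟩ := hx
  exact ⟨⟨u, h1, h2⟩, h3⟩

end EXPO2

open EXPO2 in
/-- union bound over all words of length `≤ ℓ`, for even permutations -/
theorem EXPO2 (n ℓ p F : ℕ) (hF : p * ℓ < F) (hn : F ≤ n) (hn2 : 2 ≤ n) (hℓ : 1 ≤ ℓ) :
    Nat.card {x : Fin gk → Alt n // ¬ FewFixK n ℓ F (fun i => (x i : Equiv.Perm (Fin n)))} *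
      (F - p * ℓ) ^ p * (n - p * ℓ) ^ (p * ℓ) ≤
      (2 * gk + 1) ^ ℓ * 2 ^ gk * Fintype.card (Alt n) ^ gk * (p * ℓ ^ 2) ^ p * n ^ (p * ℓ) := by
  classical
  have hinj : Nat.card {x : Fin gk → Alt n // ¬ FewFixK n ℓ F (fun i => (x i : Equiv.Perm (Fin n)))} ≤
      Nat.card (Σ u : U gk ℓ, S n F u.1) := by
    let g : {x : Fin gk → Alt n // ¬ FewFixK n ℓ F (fun i => (x i : Equiv.Perm (Fin n)))} →
        Σ u : U gk ℓ, S n F u.1 := fun x =>
      ⟨(exists_word x.2).choose, ⟨fun i => (x.1 i : Equiv.Perm (Fin n)), (exists_word x.2).choose_spec⟩⟩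
    have hcoe : ∀ x, ((g x).2 : Fin gk → Equiv.Perm (Fin n)) = fun i => (x.1 i : Equiv.Perm (Fin n)) :=
      fun x => rfl
    refine Nat.card_le_card_of_injective g ?_
    intro x y hxy
    apply Subtype.ext
    funext i
    apply Subtype.ext
    have h1 : ∀ a b : (Σ u : U gk ℓ, S n F u.1), a = b →
        (a.2 : Fin gk → Equiv.Perm (Fin n)) = (b.2 : Fin gk → Equiv.Perm (Fin n)) := by
      rintro a b rfl; rfl
    have h2 := h1 _ _ hxy
    rw [hcoe, hcoe] at h2
    exact congrFun h2 i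
  have hsig : Nat.card (Σ u : U gk ℓ, S n F u.1) * ((F - p * ℓ) ^ p * (n - p * ℓ) ^ (p * ℓ)) ≤
      (2 * gk + 1) ^ ℓ * (n.factorial ^ gk * (p * ℓ ^ 2) ^ p * n ^ (p * ℓ)) := by
    have := Fintype.ofFinite (U gk ℓ)
    rw [Nat.card_sigma, Finset.sum_mul]
    calc ∑ u : U gk ℓ, Nat.card (S n F u.1) * ((F - p * ℓ) ^ p * (n - p * ℓ) ^ (p * ℓ))
        ≤ ∑ u : U gk ℓ, n.factorial ^ gk * (p * ℓ ^ 2) ^ p * n ^ (p * ℓ) := by
          refine Finset.sum_le_sum fun u _ => ?_
          have := EXPO1 n ℓ p F u.1 u.2.1 u.2.2 hF hn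
          rw [mul_assoc] at this
          exact this
      _ = Nat.card (U gk ℓ) * (n.factorial ^ gk * (p * ℓ ^ 2) ^ p * n ^ (p * ℓ)) := by
          rw [Finset.sum_const, Finset.card_univ, smul_eq_mul, Nat.card_eq_fintype_card]
      _ ≤ _ := Nat.mul_le_mul_right _ (card_U ℓ)
  have hfact : n.factorial = 2 * Fintype.card (Alt n) := by
    have : Nontrivial (Fin n) := Fin.nontrivial_iff_two_le.2 hn2
    rw [two_mul_card_alternatingGroup, Fintype.card_perm, Fintype.card_fin]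
  calc Nat.card {x : Fin gk → Alt n // ¬ FewFixK n ℓ F (fun i => (x i : Equiv.Perm (Fin n)))} *
      (F - p * ℓ) ^ p * (n - p * ℓ) ^ (p * ℓ)
      = Nat.card {x : Fin gk → Alt n // ¬ FewFixK n ℓ F (fun i => (x i : Equiv.Perm (Fin n)))} *
      ((F - p * ℓ) ^ p * (n - p * ℓ) ^ (p * ℓ)) := by ring
    _ ≤ Nat.card (Σ u : U gk ℓ, S n F u.1) * ((F - p * ℓ) ^ p * (n - p * ℓ) ^ (p * ℓ)) :=
        Nat.mul_le_mul_right _ hinj
    _ ≤ (2 * gk + 1) ^ ℓ * (n.factorial ^ gk * (p * ℓ ^ 2) ^ p * n ^ (p * ℓ)) := hsig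
    _ = _ := by rw [hfact]; ring

namespace EXPO3

/-- the numerical inequality -/
lemma numeric (n ℓ C : ℕ) (δ D M : ℝ) (hn : 2 ≤ n) (hδ : 0 < δ)
    (h1 : (ℓ : ℝ) ^ 3 ≤ 2 * (n : ℝ) ^ (-δ) * D) (hD : 0 < D)
    (hM : (n : ℝ) / 2 ≤ M) (hMn : M = n - (ℓ : ℝ) ^ 2) (h3 : (ℓ : ℝ) ^ 3 ≤ n)
    (h4 : (2 * (2 * gk + 1)) * Real.exp 1 ^ 2 ≤ (n : ℝ) ^ (δ / 2)) (h5 : 2 / δ * (C + gk) ≤ ℓ) :
    (2 * gk + 1) ^ ℓ * 2 ^ gk * ((ℓ : ℝ) ^ 3) ^ ℓ * (n : ℝ) ^ (ℓ * ℓ) * (n : ℝ) ^ C ≤
      D ^ ℓ * M ^ (ℓ * ℓ) := by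
  have hn0 : (0 : ℝ) < n := by
    have : (2 : ℝ) ≤ n := by exact_mod_cast hn
    linarith
  have hn2 : (2 : ℝ) ≤ n := by exact_mod_cast hn
  have hM0 : 0 < M := by linarith
  -- (a)
  have ha : (n : ℝ) ^ (ℓ * ℓ) ≤ M ^ (ℓ * ℓ) * (Real.exp 1 ^ 2) ^ ℓ := by
    have e1 : (n : ℝ) = M * (1 + (ℓ : ℝ) ^ 2 / M) := by
      rw [hMn] at hM0 ⊢
      field_simp
      ring
    have e2 : (1 + (ℓ : ℝ) ^ 2 / M) ≤ Real.exp ((ℓ : ℝ) ^ 2 / M) := by
      have := Real.add_one_le_exp ((ℓ : ℝ) ^ 2 / M)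
      linarith
    have e3 : (1 + (ℓ : ℝ) ^ 2 / M) ^ (ℓ * ℓ) ≤ (Real.exp 1 ^ 2) ^ ℓ := by
      calc (1 + (ℓ : ℝ) ^ 2 / M) ^ (ℓ * ℓ) ≤ Real.exp ((ℓ : ℝ) ^ 2 / M) ^ (ℓ * ℓ) :=
            pow_le_pow_left₀ (by positivity) e2 _
        _ = Real.exp ((ℓ * ℓ : ℕ) * ((ℓ : ℝ) ^ 2 / M)) := by rw [← Real.exp_nat_mul]
        _ ≤ Real.exp ((2 * ℓ : ℕ) * 1) := by
            apply Real.exp_le_exp.2
            push_cast
            have e4 : (ℓ : ℝ) * ℓ * ((ℓ : ℝ) ^ 2 / M) = ℓ * ((ℓ : ℝ) ^ 3 / M) := by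
              field_simp
            rw [e4, mul_one]
            have e5 : (ℓ : ℝ) ^ 3 / M ≤ 2 := by
              rw [div_le_iff₀ hM0]
              linarith
            have e6 : (0 : ℝ) ≤ ℓ := by positivity
            nlinarith
        _ = (Real.exp 1 ^ 2) ^ ℓ := by
            rw [Real.exp_nat_mul, ← pow_mul]
    calc (n : ℝ) ^ (ℓ * ℓ) = M ^ (ℓ * ℓ) * (1 + (ℓ : ℝ) ^ 2 / M) ^ (ℓ * ℓ) := by
          rw [← mul_pow, ← e1]
      _ ≤ M ^ (ℓ * ℓ) * (Real.exp 1 ^ 2) ^ ℓ := by gcongr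
  have hb : ((ℓ : ℝ) ^ 3) ^ ℓ ≤ (2 * (n : ℝ) ^ (-δ) * D) ^ ℓ := by gcongr
  have hc : ((2 * (2 * gk + 1)) * Real.exp 1 ^ 2 * (n : ℝ) ^ (-δ)) ^ ℓ ≤ (n : ℝ) ^ (-((C : ℝ) + gk)) := by
    have e1 : (2 * (2 * gk + 1)) * Real.exp 1 ^ 2 * (n : ℝ) ^ (-δ) ≤ (n : ℝ) ^ (-(δ / 2)) := by
      calc (2 * (2 * gk + 1)) * Real.exp 1 ^ 2 * (n : ℝ) ^ (-δ) ≤ (n : ℝ) ^ (δ / 2) * (n : ℝ) ^ (-δ) := by gcongr
        _ = (n : ℝ) ^ (-(δ / 2)) := by
            rw [← Real.rpow_add hn0]
            congr 1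
            ring
    calc ((2 * (2 * gk + 1)) * Real.exp 1 ^ 2 * (n : ℝ) ^ (-δ)) ^ ℓ ≤ ((n : ℝ) ^ (-(δ / 2))) ^ ℓ :=
          pow_le_pow_left₀ (by positivity) e1 _
      _ = (n : ℝ) ^ (-(δ / 2) * ℓ) := by
          rw [← Real.rpow_natCast, ← Real.rpow_mul hn0.le]
      _ ≤ (n : ℝ) ^ (-((C : ℝ) + gk)) := by
          apply Real.rpow_le_rpow_of_exponent_le (by linarith)
          have e2 : (C : ℝ) + gk ≤ δ / 2 * ℓ := by
            have := mul_le_mul_of_nonneg_left h5 (by positivity : 0 ≤ δ / 2)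
            have e3 : δ / 2 * (2 / δ * (C + gk)) = (C : ℝ) + gk := by field_simp
            linarith
          linarith
  have hd : 2 ^ gk * (n : ℝ) ^ C * (n : ℝ) ^ (-((C : ℝ) + gk)) ≤ 1 := by
    have e1 : (n : ℝ) ^ (-((C : ℝ) + gk)) = ((n : ℝ) ^ C)⁻¹ * ((n : ℝ) ^ gk)⁻¹ := by
      rw [Real.rpow_neg hn0.le, Real.rpow_add hn0, Real.rpow_natCast, mul_inv]
      norm_num
    rw [e1]
    have e2 : 2 ^ gk * (n : ℝ) ^ C * (((n : ℝ) ^ C)⁻¹ * ((n : ℝ) ^ gk)⁻¹) = 2 ^ gk / (n : ℝ) ^ gk := by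
      field_simp
    rw [e2, div_le_one (by positivity)]
    exact pow_le_pow_left₀ (by norm_num) hn2 gk
  calc (2 * gk + 1) ^ ℓ * 2 ^ gk * ((ℓ : ℝ) ^ 3) ^ ℓ * (n : ℝ) ^ (ℓ * ℓ) * (n : ℝ) ^ C
      ≤ (2 * gk + 1) ^ ℓ * 2 ^ gk * (2 * (n : ℝ) ^ (-δ) * D) ^ ℓ * (M ^ (ℓ * ℓ) * (Real.exp 1 ^ 2) ^ ℓ) *
          (n : ℝ) ^ C := by gcongr
    _ = (2 ^ gk * (n : ℝ) ^ C * ((2 * (2 * gk + 1)) * Real.exp 1 ^ 2 * (n : ℝ) ^ (-δ)) ^ ℓ) *
          (D ^ ℓ * M ^ (ℓ * ℓ)) := by
        simp only [mul_pow]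
        ring
    _ ≤ (2 ^ gk * (n : ℝ) ^ C * (n : ℝ) ^ (-((C : ℝ) + gk))) * (D ^ ℓ * M ^ (ℓ * ℓ)) := by
        gcongr
    _ ≤ 1 * (D ^ ℓ * M ^ (ℓ * ℓ)) := by gcongr
    _ = D ^ ℓ * M ^ (ℓ * ℓ) := one_mul _

end EXPO3

open EXPO3 in
/-- asymptotic form -/
theorem EXPO3 (δ : ℝ) (hδ : 0 < δ) (hδ1 : δ ≤ 1 / 4) (C : ℕ) :
    ∀ᶠ n : ℕ in Filter.atTop,
      (Nat.card {x : Fin gk → Alt n // ¬ FewFixK n ⌊(n : ℝ) ^ (1 / 3 - δ / 2)⌋₊
        ⌈(n : ℝ) ^ (1 - δ / 2)⌉₊ (fun i => (x i : Equiv.Perm (Fin n)))} : ℝ) * (n : ℝ) ^ C ≤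
      (Fintype.card (Alt n) : ℝ) ^ gk := by
  have t1 : ∀ s : ℝ, 0 < s → ∀ B : ℝ, ∀ᶠ n : ℕ in Filter.atTop, B ≤ (n : ℝ) ^ s := by
    intro s hs B
    exact ((tendsto_rpow_atTop hs).comp tendsto_natCast_atTop_atTop).eventually_ge_atTop B
  filter_upwards [t1 (1 / 3 - δ / 2) (by linarith) (2 / δ * (C + gk) + 1),
    t1 (δ / 2) (by linarith) ((2 * (2 * gk + 1)) * Real.exp 1 ^ 2),
    t1 (1 / 3 + δ / 2) (by linarith) 2, Filter.eventually_ge_atTop 2] with n h1 h2 h3 h4
  have hn2 : (2 : ℝ) ≤ n := by exact_mod_cast h4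
  have hn0 : (0 : ℝ) < n := by linarith
  set ℓ := ⌊(n : ℝ) ^ (1 / 3 - δ / 2)⌋₊ with hℓ
  set F := ⌈(n : ℝ) ^ (1 - δ / 2)⌉₊ with hF
  have hpos : 0 ≤ (n : ℝ) ^ (1 / 3 - δ / 2) := by positivity
  have hℓ1 : (ℓ : ℝ) ≤ (n : ℝ) ^ (1 / 3 - δ / 2) := Nat.floor_le hpos
  have hℓ2 : 2 / δ * (C + gk) ≤ ℓ := by
    have := Nat.lt_floor_add_one ((n : ℝ) ^ (1 / 3 - δ / 2))
    have h5 : (n : ℝ) ^ (1 / 3 - δ / 2) < ℓ + 1 := this
    linarith
  have hℓpos : 1 ≤ ℓ := by
    apply Nat.le_floor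
    have h5 : 0 ≤ 2 / δ * ((C : ℝ) + gk) := by positivity
    push_cast
    linarith
  have hF1 : (n : ℝ) ^ (1 - δ / 2) ≤ F := Nat.le_ceil _
  have hFn : F ≤ n := by
    rw [hF, Nat.ceil_le]
    calc (n : ℝ) ^ (1 - δ / 2) ≤ (n : ℝ) ^ (1 : ℝ) :=
          Real.rpow_le_rpow_of_exponent_le (by linarith) (by linarith)
      _ = n := Real.rpow_one _
  -- `ℓ² ≤ n^{2/3-δ} ≤ n^{1-δ/2}/2 ≤ n/2`
  have hsq : (ℓ : ℝ) ^ 2 ≤ (n : ℝ) ^ (2 / 3 - δ) := by
    calc (ℓ : ℝ) ^ 2 ≤ ((n : ℝ) ^ (1 / 3 - δ / 2)) ^ 2 := by gcongr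
      _ = (n : ℝ) ^ (2 / 3 - δ) := by
          rw [← Real.rpow_natCast, ← Real.rpow_mul hn0.le]
          congr 1
          push_cast
          ring
  have hcube : (ℓ : ℝ) ^ 3 ≤ (n : ℝ) ^ (1 - 3 * δ / 2) := by
    calc (ℓ : ℝ) ^ 3 ≤ ((n : ℝ) ^ (1 / 3 - δ / 2)) ^ 3 := by gcongr
      _ = (n : ℝ) ^ (1 - 3 * δ / 2) := by
          rw [← Real.rpow_natCast, ← Real.rpow_mul hn0.le]
          congr 1
          push_cast
          ring
  have hhalf : (n : ℝ) ^ (2 / 3 - δ) ≤ (n : ℝ) ^ (1 - δ / 2) / 2 := by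
    rw [le_div_iff₀ (by norm_num)]
    calc (n : ℝ) ^ (2 / 3 - δ) * 2 ≤ (n : ℝ) ^ (2 / 3 - δ) * (n : ℝ) ^ (1 / 3 + δ / 2) := by gcongr
      _ = (n : ℝ) ^ (1 - δ / 2) := by
          rw [← Real.rpow_add hn0]
          congr 1
          ring
  have hle1 : (n : ℝ) ^ (1 - δ / 2) ≤ n := by
    calc (n : ℝ) ^ (1 - δ / 2) ≤ (n : ℝ) ^ (1 : ℝ) :=
          Real.rpow_le_rpow_of_exponent_le (by linarith) (by linarith)
      _ = n := Real.rpow_one _
  set D : ℝ := F - (ℓ : ℝ) ^ 2 with hDdef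
  set M : ℝ := n - (ℓ : ℝ) ^ 2 with hMdef
  have hD2 : (n : ℝ) ^ (1 - δ / 2) / 2 ≤ D := by
    rw [hDdef]; linarith
  have hD0 : 0 < D := lt_of_lt_of_le (by positivity) hD2
  have hM2 : (n : ℝ) / 2 ≤ M := by
    rw [hMdef]; linarith
  have hℓF : ℓ * ℓ < F := by
    have : ((ℓ * ℓ : ℕ) : ℝ) < F := by
      push_cast
      have : 0 < F - (ℓ : ℝ) ^ 2 := hD0
      nlinarith
    exact_mod_cast this
  have hN := numeric n ℓ C δ D M h4 hδ
    (by
      calc (ℓ : ℝ) ^ 3 ≤ (n : ℝ) ^ (1 - 3 * δ / 2) := hcube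
        _ = (n : ℝ) ^ (-δ) * (n : ℝ) ^ (1 - δ / 2) := by
            rw [← Real.rpow_add hn0]
            congr 1
            ring
        _ ≤ (n : ℝ) ^ (-δ) * (2 * D) := by
            gcongr
            linarith
        _ = 2 * (n : ℝ) ^ (-δ) * D := by ring)
    hD0 hM2 hMdef
    (by
      calc (ℓ : ℝ) ^ 3 ≤ (n : ℝ) ^ (1 - 3 * δ / 2) := hcube
        _ ≤ (n : ℝ) ^ (1 : ℝ) := Real.rpow_le_rpow_of_exponent_le (by linarith) (by linarith)
        _ = n := Real.rpow_one _)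
    h2 hℓ2
  have hE := EXPO2 (gk := gk) n ℓ ℓ F hℓF hFn h4 hℓpos
  have hE' : (Nat.card {x : Fin gk → Alt n // ¬ FewFixK n ℓ F
      (fun i => (x i : Equiv.Perm (Fin n)))} : ℝ) * D ^ ℓ * M ^ (ℓ * ℓ) ≤
      (2 * gk + 1) ^ ℓ * 2 ^ gk * (Fintype.card (Alt n) : ℝ) ^ gk * ((ℓ : ℝ) ^ 3) ^ ℓ * (n : ℝ) ^ (ℓ * ℓ) := by
    have e1 : (((F - ℓ * ℓ : ℕ)) : ℝ) = D := by
      rw [Nat.cast_sub hℓF.le, hDdef]
      push_cast
      ring
    have e2 : (((n - ℓ * ℓ : ℕ)) : ℝ) = M := by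
      rw [Nat.cast_sub (hℓF.le.trans hFn), hMdef]
      push_cast
      ring
    have e3 : ((Nat.card {x : Fin gk → Alt n // ¬ FewFixK n ℓ F
      (fun i => (x i : Equiv.Perm (Fin n)))} * (F - ℓ * ℓ) ^ ℓ * (n - ℓ * ℓ) ^ (ℓ * ℓ) : ℕ) : ℝ) ≤
      (((2 * gk + 1) ^ ℓ * 2 ^ gk * Fintype.card (Alt n) ^ gk * (ℓ * ℓ ^ 2) ^ ℓ * n ^ (ℓ * ℓ) : ℕ) : ℝ) := by
      exact_mod_cast hE
    rw [Nat.cast_mul, Nat.cast_mul, Nat.cast_pow, Nat.cast_pow, e1, e2] at e3
    refine e3.trans (le_of_eq ?_)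
    push_cast
    ring
  set N : ℝ := (Nat.card {x : Fin gk → Alt n // ¬ FewFixK n ℓ F
      (fun i => (x i : Equiv.Perm (Fin n)))} : ℝ) with hNdef
  have hM0 : 0 < M := by linarith
  have hDM : 0 < D ^ ℓ * M ^ (ℓ * ℓ) := by positivity
  have hfin : N * (n : ℝ) ^ C * (D ^ ℓ * M ^ (ℓ * ℓ)) ≤
      (Fintype.card (Alt n) : ℝ) ^ gk * (D ^ ℓ * M ^ (ℓ * ℓ)) := by
    calc N * (n : ℝ) ^ C * (D ^ ℓ * M ^ (ℓ * ℓ)) = (N * D ^ ℓ * M ^ (ℓ * ℓ)) * (n : ℝ) ^ C := by ring
      _ ≤ ((2 * gk + 1) ^ ℓ * 2 ^ gk * (Fintype.card (Alt n) : ℝ) ^ gk * ((ℓ : ℝ) ^ 3) ^ ℓ *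
            (n : ℝ) ^ (ℓ * ℓ)) * (n : ℝ) ^ C := by gcongr
      _ = (Fintype.card (Alt n) : ℝ) ^ gk * ((2 * gk + 1) ^ ℓ * 2 ^ gk * ((ℓ : ℝ) ^ 3) ^ ℓ *
            (n : ℝ) ^ (ℓ * ℓ) * (n : ℝ) ^ C) := by ring
      _ ≤ (Fintype.card (Alt n) : ℝ) ^ gk * (D ^ ℓ * M ^ (ℓ * ℓ)) := by gcongr
  exact le_of_mul_le_mul_right hfin hDM


end Pool.Agent.R236.Den
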