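import Pool.Agent.R236.DenA
import Pool.Agent.H14R2.RC.Low

/-!
MP_75608d_al: characters of the representations with a vector fixed by the stabiliser of few
points.
-/

namespace Pool.Agent.R236.Den
open RC14 Finset Pool.Agent.R236.Exc
open scoped InnerProductSpace

noncomputable section

variable {V : Type*} [NormedAddCommGroup V] [InnerProductSpace ℂ V]

open Classical in
/-- the translates of `v0`, extended by zero -/
def E0 {j n : ℕ} (hj : j + 2 ≤ n) (κ : Tup j n) (ρ : Alt n →* (V ≃ₗᵢ[ℂ] V)) (v0 : V)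
    (ψ : Fin j → Fin n) : V :=
  if h : Function.Injective ψ then ρ (sh hj κ ⟨ψ, h⟩) v0 else 0

lemma rho_E0 {j n : ℕ} (hj : j + 2 ≤ n) (κ : Tup j n) (ρ : Alt n →* (V ≃ₗᵢ[ℂ] V)) (v0 : V)
    (hinv : ∀ h : Alt n, mv (h : Equiv.Perm (Fin n)) κ = κ → ρ h v0 = v0) (h : Alt n)
    (ψ : Fin j → Fin n) :
    ρ h (E0 hj κ ρ v0 ψ) = E0 hj κ ρ v0 (fun i => (h : Equiv.Perm (Fin n)) (ψ i)) := by
  unfold E0
  by_cases hψ : Function.Injective ψ
  · have hψ' : Function.Injective (fun i => (h : Equiv.Perm (Fin n)) (ψ i)) :=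
      (h : Equiv.Perm (Fin n)).injective.comp hψ
    rw [dif_pos hψ, dif_pos hψ']
    change (ρ h * ρ (sh hj κ ⟨ψ, hψ⟩)) v0 = _
    rw [← map_mul]
    apply rho_eq κ ρ v0 hinv
    rw [sh_spec, Subgroup.coe_mul, mv_mul, sh_spec]
    ext i
    rfl
  · have hψ' : ¬ Function.Injective (fun i => (h : Equiv.Perm (Fin n)) (ψ i)) := by
      intro h1
      apply hψ
      intro a b hab
      apply h1
      simp only [hab]
    rw [dif_neg hψ, dif_neg hψ', map_zero]

lemma sum_E0 {j n : ℕ} (hj : (j + 1) + 2 ≤ n) (κ : Tup (j + 1) n) (ρ : Alt n →* (V ≃ₗᵢ[ℂ] V))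
    (v0 : V) (hinv : ∀ h : Alt n, mv (h : Equiv.Perm (Fin n)) κ = κ → ρ h v0 = v0)
    (hmin : ∀ κ' : Tup j n, ∀ v, (∀ h : Alt n, mv (h : Equiv.Perm (Fin n)) κ' = κ' → ρ h v = v) →
      v = 0)
    (φ : Fin (j + 1) → Fin n) (l : Fin (j + 1)) :
    ∑ y, E0 hj κ ρ v0 (Function.update φ l y) = 0 := by
  by_cases hφ : Function.Injective (fun i => φ (l.succAbove i))
  · apply hmin ⟨fun i => φ (l.succAbove i), hφ⟩
    intro h hh
    have hfix : ∀ i, (h : Equiv.Perm (Fin n)) (φ (l.succAbove i)) = φ (l.succAbove i) :=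
      fun i => DFunLike.congr_fun hh i
    rw [map_sum]
    rw [← Equiv.sum_comp (h : Equiv.Perm (Fin n)) (fun y => E0 hj κ ρ v0 (Function.update φ l y))]
    refine Finset.sum_congr rfl fun y _ => ?_
    rw [rho_E0 hj κ ρ v0 hinv]
    congr 1
    funext i
    by_cases hi : i = l
    · subst hi; simp
    · obtain ⟨i', rfl⟩ := Fin.exists_succAbove_eq hi
      rw [Function.update_of_ne hi, Function.update_of_ne hi, hfix]
  · refine Finset.sum_eq_zero fun y _ => ?_
    unfold E0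
    rw [dif_neg]
    intro h1
    apply hφ
    intro a b hab
    have h2 : Function.update φ l y (l.succAbove a) = Function.update φ l y (l.succAbove b) := by
      rw [Function.update_of_ne (Fin.succAbove_ne l a), Function.update_of_ne (Fin.succAbove_ne l b)]
      exact hab
    exact Fin.succAbove_right_injective (h1 h2)

/-- the image of `Phi` is of level exactly `j`, if `j` is minimal -/
lemma Phi_mem_Lvl {j n : ℕ} (hj : j + 2 ≤ n) (κ : Tup j n) (ρ : Alt n →* (V ≃ₗᵢ[ℂ] V))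
    (v0 : V) (hinv : ∀ h : Alt n, mv (h : Equiv.Perm (Fin n)) κ = κ → ρ h v0 = v0)
    (hmin : ∀ j' < j, ∀ κ' : Tup j' n, ∀ v,
      (∀ h : Alt n, mv (h : Equiv.Perm (Fin n)) κ' = κ' → ρ h v = v) → v = 0) (v : V) :
    Phi hj κ ρ v0 v ∈ Lvl j n := by
  rw [mem_Lvl]
  intro φ l
  cases j with
  | zero => exact l.elim0
  | succ k =>
    have h1 : ∀ y, ext0 (Phi hj κ ρ v0 v) (Function.update φ l y) =
        ⟪E0 hj κ ρ v0 (Function.update φ l y), v⟫_ℂ := by
      intro y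
      unfold ext0 E0
      by_cases h : Function.Injective (Function.update φ l y)
      · rw [dif_pos h, dif_pos h, Phi_apply]
      · rw [dif_neg h, dif_neg h, inner_zero_left]
    simp only [h1]
    rw [← sum_inner, sum_E0 hj κ ρ v0 hinv (hmin k (Nat.lt_succ_self k)), inner_zero_left]

lemma Phi_ker {j n : ℕ} (hj : j + 2 ≤ n) (κ : Tup j n) (ρ : Alt n →* (V ≃ₗᵢ[ℂ] V))
    (hirr : Irr ρ ⊤) (v0 : V) (hv0 : v0 ≠ 0)
    (hinv : ∀ h : Alt n, mv (h : Equiv.Perm (Fin n)) κ = κ → ρ h v0 = v0) :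
    LinearMap.ker (Phi hj κ ρ v0) = ⊥ := by
  have h1 : Inv ρ (LinearMap.ker (Phi hj κ ρ v0)) := by
    intro g w hw
    rw [LinearMap.mem_ker] at hw ⊢
    rw [Phi_equi hj κ ρ v0 hinv, hw, map_zero]
  rcases hirr.2.2 _ le_top h1 with h2 | h2
  · exact h2
  · exfalso
    have h3 : v0 ∈ LinearMap.ker (Phi hj κ ρ v0) := by rw [h2]; trivial
    rw [LinearMap.mem_ker] at h3
    have h4 : Phi hj κ ρ v0 v0 κ = 0 := by rw [h3]; rfl
    rw [Phi_apply, hinv _ (sh_spec hj κ κ)] at h4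
    exact hv0 (inner_self_eq_zero.1 h4)

/-- character bound for a representation with a vector fixed by the stabiliser of a `j`-tuple,
`j` minimal, and the bound of its dimension -/
theorem low_char {j n : ℕ} (hj : 2 * j + 2 ≤ n) (κ : Tup j n) (ρ : Alt n →* (V ≃ₗᵢ[ℂ] V))
    (hirr : Irr ρ ⊤) (v0 : V) (hv0 : v0 ≠ 0)
    (hinv : ∀ h : Alt n, mv (h : Equiv.Perm (Fin n)) κ = κ → ρ h v0 = v0)
    (hmin : ∀ j' < j, ∀ κ' : Tup j' n, ∀ v,
      (∀ h : Alt n, mv (h : Equiv.Perm (Fin n)) κ' = κ' → ρ h v = v) → v = 0) :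
    Module.finrank ℂ V ≤ n ^ j ∧
    ∀ (j1 F : ℕ), j1 ≤ j → ∀ g : Alt n, nfix (g : Equiv.Perm (Fin n)) ≤ F →
      ‖chr ρ g‖ ≤ bb j j1 n F ^ j1 * Module.finrank ℂ V := by
  have hj' : j + 2 ≤ n := by omega
  set Φ := Phi hj' κ ρ v0 with hΦ
  have hker : LinearMap.ker Φ = ⊥ := Phi_ker hj' κ ρ hirr v0 hv0 hinv
  have hequi : ∀ h v, Φ (ρ h v) = repA j n h (Φ v) := Phi_equi hj' κ ρ v0 hinv
  have hinj : Function.Injective Φ := LinearMap.ker_eq_bot.1 hker
  let e : V ≃ₗ[ℂ] LinearMap.range Φ := LinearEquiv.ofInjective Φ hinj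
  have he : ∀ w : V, ((e w : LinearMap.range Φ) : RC14.V j n) = Φ w := fun w => rfl
  have hInv : Inv (repA j n) (LinearMap.range Φ) := by
    rintro g _ ⟨v, rfl⟩
    exact ⟨ρ g v, hequi g v⟩
  have hL : LinearMap.range Φ ≤ Lvl j n := by
    rintro _ ⟨v, rfl⟩
    exact Phi_mem_Lvl hj' κ ρ v0 hinv hmin v
  have hdim : Module.finrank ℂ (LinearMap.range Φ) = Module.finrank ℂ V := e.finrank_eq.symm
  refine ⟨?_, fun j1 F h1 g hg => ?_⟩
  · rw [← hdim]
    calc Module.finrank ℂ (LinearMap.range Φ) ≤ Module.finrank ℂ (RC14.V j n) :=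
          Submodule.finrank_le _
      _ = Fintype.card (Tup j n) := by rw [finrank_euclideanSpace]
      _ = n.descFactorial j := by
          simp only [Tup, Fintype.card_embedding_eq, Fintype.card_fin]
      _ ≤ n ^ j := Nat.descFactorial_le_pow n j
  · have hchr : chr ρ g = rchr (repA j n) (LinearMap.range Φ) hInv g := by
      unfold rchr chr
      rw [← LinearMap.trace_conj' _ e]
      congr 1
      apply LinearMap.ext
      intro u
      rw [LinearEquiv.conj_apply_apply]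
      apply Subtype.ext
      rw [he, op_apply, op_apply, res_apply, hequi, ← he, e.apply_symm_apply]
    rw [hchr, ← hdim]
    exact CHARB j j1 n F hj h1 _ hInv hL g hg

/-- a nontrivial irreducible representation with a nonzero vector fixed by the stabiliser of a set
`K` of points: the minimal number `j` of points -/
theorem exists_min {n : ℕ} (ρ : Alt n →* (V ≃ₗᵢ[ℂ] V)) (hirr : Irr ρ ⊤)
    (hnt : ∃ g v, ρ g v ≠ v) (K : Finset (Fin n)) (v0 : V) (hv0 : v0 ≠ 0)
    (hinv : ∀ h : Alt n, (∀ a ∈ K, (h : Equiv.Perm (Fin n)) a = a) → ρ h v0 = v0) :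
    ∃ j, 1 ≤ j ∧ j ≤ K.card ∧ ∃ (κ : Tup j n) (v : V), v ≠ 0 ∧
      (∀ h : Alt n, mv (h : Equiv.Perm (Fin n)) κ = κ → ρ h v = v) ∧
      ∀ j' < j, ∀ κ' : Tup j' n, ∀ v,
        (∀ h : Alt n, mv (h : Equiv.Perm (Fin n)) κ' = κ' → ρ h v = v) → v = 0 := by
  classical
  have hex : ∃ j, ∃ (κ : Tup j n) (v : V), v ≠ 0 ∧
      ∀ h : Alt n, mv (h : Equiv.Perm (Fin n)) κ = κ → ρ h v = v := by
    refine ⟨K.card, (K.orderEmbOfFin rfl).toEmbedding, v0, hv0, ?_⟩
    intro h hh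
    apply hinv
    intro a ha
    have h1 : a ∈ Set.range (K.orderEmbOfFin rfl) := by
      rw [Finset.range_orderEmbOfFin]
      exact ha
    obtain ⟨i, rfl⟩ := h1
    exact DFunLike.congr_fun hh i
  obtain ⟨κ, v, hv, hκ⟩ := Nat.find_spec hex
  refine ⟨Nat.find hex, ?_, ?_, κ, v, hv, hκ, ?_⟩
  · by_contra hcon
    have h0 : Nat.find hex = 0 := by omega
    -- the vector is fixed by everything
    have hfix : ∀ h : Alt n, ρ h v = v := by
      intro h
      apply hκ
      ext i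
      exact absurd i.2 (by omega)
    obtain ⟨g, w, hgw⟩ := hnt
    have hinvS : Inv ρ (Submodule.span ℂ {v}) := by
      intro g' u hu
      obtain ⟨a, rfl⟩ := Submodule.mem_span_singleton.1 hu
      rw [map_smul, hfix]
      exact hu
    rcases hirr.2.2 _ le_top hinvS with h2 | h2
    · exact hv (Submodule.span_singleton_eq_bot.1 h2)
    · apply hgw
      have h3 : w ∈ Submodule.span ℂ {v} := by rw [h2]; trivial
      obtain ⟨a, rfl⟩ := Submodule.mem_span_singleton.1 h3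
      rw [map_smul, hfix]
  · apply Nat.find_min' hex
    refine ⟨(K.orderEmbOfFin rfl).toEmbedding, v0, hv0, ?_⟩
    intro h hh
    apply hinv
    intro a ha
    have h1 : a ∈ Set.range (K.orderEmbOfFin rfl) := by
      rw [Finset.range_orderEmbOfFin]
      exact ha
    obtain ⟨i, rfl⟩ := h1
    exact DFunLike.congr_fun hh i
  · intro j' hj' κ' u hu
    by_contra hcon
    exact Nat.find_min hex hj' ⟨κ', u, hcon, hu⟩

end

end Pool.Agent.R236.Den
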