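import Pool.Agent.R236.DenB
import Pool.Agent.R236.DenC
import Pool.Agent.H881R2.LL.HCHAR
import Pool.Agent.H14R2.RC.Asy

/-!
MP_75608d_al: the density bound, deterministic part and numerics.
-/

namespace Pool.Agent.R236.Den
open RC14 Finset Filter Topology Pool.Agent.R236.Exc
open scoped InnerProductSpace

noncomputable section

/-- characters of the nontrivial irreducible representations at the elements with at most `F`
fixed points -/
theorem char_det (n N F J0 : ℕ) (B : ℝ) (hB : 0 ≤ B) (hN : 100 ≤ N) (hNn : 2 * (12096 * N) ≤ n)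
    (hn : 1000 ≤ n) (hF : 2 * F ≤ n) (hJ : 1 ≤ J0)
    (hbb : ∀ j j1, N * j ≤ n → j1 ≤ J0 → bb j j1 n F ≤ B)
    (hhigh : Real.exp (-(1 / (2 * 336 * 12096 * (N : ℝ) ^ 2) * n)) ≤ B ^ J0)
    {V : Type} [NormedAddCommGroup V] [InnerProductSpace ℂ V] [FiniteDimensional ℂ V]
    (ρ : Alt n →* (V ≃ₗᵢ[ℂ] V)) (hirr : Irr ρ ⊤) (hnt : ∃ g v, ρ g v ≠ v) :
    ∃ j, 1 ≤ j ∧ j ≤ J0 ∧ (Module.finrank ℂ V ≤ n ^ j ∨ j = J0) ∧
      ∀ g : Alt n, nfix (g : Equiv.Perm (Fin n)) ≤ F →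
        ‖chr ρ g‖ ≤ B ^ j * Module.finrank ℂ V := by
  by_cases hno : ∀ K : Finset (Fin n), N * K.card ≤ n → ∀ v : V,
      (∀ h : Alt n, (∀ a ∈ K, (h : Equiv.Perm (Fin n)) a = a) → ρ h v = v) → v = 0
  · refine ⟨J0, hJ, le_rfl, Or.inr rfl, fun g hg => ?_⟩
    have hm' : 36 * (n / (12096 * N)) ≤ n := by
      calc 36 * (n / (12096 * N)) ≤ (12096 * N) * (n / (12096 * N)) :=
            Nat.mul_le_mul_right _ (by omega)
        _ ≤ n := Nat.mul_div_le _ _
    have key := LL14.HIGHN N hN n hn ρ hirr hno g (by omega) (n / (12096 * N)) hm'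
    have hd : (0 : ℝ) ≤ Module.finrank ℂ V := Nat.cast_nonneg _
    refine (pow_le_pow_iff_left₀ (norm_nonneg _) (by positivity) two_ne_zero).mp
      (key.trans ?_)
    rw [mul_pow]
    refine mul_le_mul_of_nonneg_right ((LL14.HCHARx.num N n hN hNn).trans ?_) (by positivity)
    exact pow_le_pow_left₀ (Real.exp_pos _).le hhigh 2
  · push Not at hno
    obtain ⟨K, hK, v0, hinv, hv0⟩ := hno
    obtain ⟨j, hj1, hjK, κ, v, hv, hκ, hmin⟩ := exists_min ρ hirr hnt K v0 hv0 hinv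
    have hNj : N * j ≤ n := (Nat.mul_le_mul_left N hjK).trans hK
    have h100 : 100 * j ≤ n := (Nat.mul_le_mul_right j hN).trans hNj
    have h2j : 2 * j + 2 ≤ n := by omega
    obtain ⟨hd, hch⟩ := low_char h2j κ ρ hirr v hv hκ hmin
    refine ⟨min j J0, le_min hj1 hJ, min_le_right _ _, ?_, fun g hg => ?_⟩
    · rcases le_total j J0 with h | h
      · left; rw [min_eq_left h]; exact hd
      · right; exact min_eq_right h
    · refine (hch (min j J0) F (min_le_left _ _) g hg).trans ?_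
      have h1 := hbb j (min j J0) hNj (min_le_right _ _)
      have h2 := bb_nonneg j (min j J0) n F
      gcongr

/-- the numerical inequality -/
theorem num1 (n j L : ℕ) (s0 θ a b c : ℝ) (hs0 : 0 < s0) (hθ : s0 < θ)
    (hb : 0 < b) (hab : 8 * a * max 0 (Real.log (1 / θ)) ≤ b)
    (hc : 0 < c) (hc1 : c ≤ Real.log (θ / s0) * a) (hc2 : c ≤ b / 4)
    (hn : 2 ≤ n) (hj : 1 ≤ j) (hL1 : a * j * Real.log n ≤ L)
    (hL2 : (L : ℝ) ≤ 2 * (a * j * Real.log n)) (h2 : 2 ≤ (n : ℝ) ^ c) :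
    (1 / θ) ^ (2 * L) * (s0 ^ (2 * L) + ((n : ℝ) ^ (-b)) ^ j) ≤ (n : ℝ) ^ (-(c * j)) := by
  have hθ0 : 0 < θ := hs0.trans hθ
  have hn0 : (0 : ℝ) < n := by
    have : (2 : ℝ) ≤ n := by exact_mod_cast hn
    linarith
  have hlg : 0 < Real.log n := Real.log_pos (by
    have : (2 : ℝ) ≤ n := by exact_mod_cast hn
    linarith)
  have hj' : (1 : ℝ) ≤ j := by exact_mod_cast hj
  set lg := Real.log n with hlgdef
  set γ := Real.log (θ / s0) with hγ
  set Λ := max 0 (Real.log (1 / θ)) with hΛ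
  have hγ0 : 0 < γ := Real.log_pos (by rw [lt_div_iff₀ hs0]; linarith)
  have hΛ0 : 0 ≤ Λ := le_max_left _ _
  have hM : 0 ≤ (j : ℝ) * lg := by positivity
  -- first term
  have t1 : (1 / θ) ^ (2 * L) * s0 ^ (2 * L) ≤ Real.exp (-(2 * c * (j * lg))) := by
    have e1 : (1 / θ) * s0 = Real.exp (-γ) := by
      rw [hγ, ← Real.log_inv, Real.exp_log (by positivity)]
      field_simp
    rw [← mul_pow, e1, ← Real.exp_nat_mul]
    apply Real.exp_le_exp.mpr
    push_cast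
    have h3 : γ * (a * j * lg) ≤ γ * L := mul_le_mul_of_nonneg_left hL1 hγ0.le
    have h4 : c * (j * lg) ≤ (γ * a) * (j * lg) := mul_le_mul_of_nonneg_right hc1 hM
    nlinarith
  -- second term
  have t2 : (1 / θ) ^ (2 * L) ≤ Real.exp (b / 2 * (j * lg)) := by
    have e1 : 1 / θ ≤ Real.exp Λ := by
      calc 1 / θ = Real.exp (Real.log (1 / θ)) := (Real.exp_log (by positivity)).symm
        _ ≤ Real.exp Λ := Real.exp_le_exp.mpr (le_max_right _ _)
    calc (1 / θ) ^ (2 * L) ≤ Real.exp Λ ^ (2 * L) := pow_le_pow_left₀ (by positivity) e1 _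
      _ = Real.exp (((2 * L : ℕ) : ℝ) * Λ) := by rw [← Real.exp_nat_mul]
      _ ≤ _ := by
          apply Real.exp_le_exp.mpr
          push_cast
          have h3 : Λ * L ≤ Λ * (2 * (a * j * lg)) := mul_le_mul_of_nonneg_left hL2 hΛ0
          have h4 : (8 * a * Λ) * (j * lg) ≤ b * (j * lg) := mul_le_mul_of_nonneg_right hab hM
          nlinarith
  have t3 : ((n : ℝ) ^ (-b)) ^ j = Real.exp (-(b * (j * lg))) := by
    rw [← Real.rpow_natCast, ← Real.rpow_mul hn0.le, Real.rpow_def_of_pos hn0]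
    congr 1
    ring
  have t4 : (1 / θ) ^ (2 * L) * ((n : ℝ) ^ (-b)) ^ j ≤ Real.exp (-(2 * c * (j * lg))) := by
    rw [t3]
    calc _ ≤ Real.exp (b / 2 * (j * lg)) * Real.exp (-(b * (j * lg))) := by gcongr
      _ ≤ _ := by
          rw [← Real.exp_add]
          apply Real.exp_le_exp.mpr
          have : (4 * c) * (j * lg) ≤ b * (j * lg) :=
            mul_le_mul_of_nonneg_right (by linarith) hM
          nlinarith
  have t5 : (n : ℝ) ^ (-(c * j)) = Real.exp (-(c * (j * lg))) := by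
    rw [Real.rpow_def_of_pos hn0]
    congr 1
    ring
  have t6 : (n : ℝ) ^ c = Real.exp (c * lg) := by
    rw [Real.rpow_def_of_pos hn0]
    congr 1
    ring
  rw [t5]
  calc (1 / θ) ^ (2 * L) * (s0 ^ (2 * L) + ((n : ℝ) ^ (-b)) ^ j)
      = (1 / θ) ^ (2 * L) * s0 ^ (2 * L) + (1 / θ) ^ (2 * L) * ((n : ℝ) ^ (-b)) ^ j := by ring
    _ ≤ Real.exp (-(2 * c * (j * lg))) + Real.exp (-(2 * c * (j * lg))) := add_le_add t1 t4
    _ = 2 * Real.exp (-(2 * c * (j * lg))) := by ring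
    _ ≤ Real.exp (c * lg) * Real.exp (-(2 * c * (j * lg))) := by
        rw [t6] at h2
        gcongr
    _ ≤ Real.exp (-(c * (j * lg))) := by
        rw [← Real.exp_add]
        apply Real.exp_le_exp.mpr
        have : c * lg ≤ c * (j * lg) := by
          have : lg ≤ j * lg := by nlinarith
          nlinarith
        nlinarith

/-- the deterministic density bound -/
theorem dens_det (n k : ℕ) (hk : 1 ≤ k) (ℓ N F J0 : ℕ) (x : Fin k → Alt n)
    (hx : FewFixK n ℓ F (fun i => (x i : Equiv.Perm (Fin n))))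
    (θ a b c X : ℝ) (hθ : Real.sqrt (2 * k - 1) / k < θ) (ha : 0 < a)
    (hb : 0 < b) (hab : 8 * a * max 0 (Real.log (1 / θ)) ≤ b)
    (hc : 0 < c) (hc1 : c ≤ Real.log (θ / (Real.sqrt (2 * k - 1) / k)) * a) (hc2 : c ≤ b / 4)
    (h2 : 2 ≤ (n : ℝ) ^ c) (halg : 1 ≤ a * Real.log n)
    (hℓ : 4 * (a * J0 * Real.log n) ≤ ℓ) (hX : X ≤ c * J0 * Real.log n)
    (hN : 100 ≤ N) (hNn : 2 * (12096 * N) ≤ n)
    (hn : 1000 ≤ n) (hF : 2 * F ≤ n) (hJ : 1 ≤ J0)
    (hbb : ∀ j j1, N * j ≤ n → j1 ≤ J0 → bb j j1 n F ≤ (n : ℝ) ^ (-b))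
    (hhigh : Real.exp (-(1 / (2 * 336 * 12096 * (N : ℝ) ^ 2) * n)) ≤ ((n : ℝ) ^ (-b)) ^ J0)
    {V : Type} [NormedAddCommGroup V] [InnerProductSpace ℂ V] [FiniteDimensional ℂ V]
    (ρ : Alt n →* (V ≃ₗᵢ[ℂ] V)) (hirr : Irr ρ ⊤) (hnt : ∃ g v, ρ g v ≠ v) :
    ((Finset.univ.filter fun i => θ ≤ |(PX_symm ρ x).eigenvalues rfl i|).card : ℝ) ≤
      max ((Module.finrank ℂ V : ℝ) ^ (1 - c)) (Module.finrank ℂ V * Real.exp (-X)) := by
  have hk' : (1 : ℝ) ≤ k := by exact_mod_cast hk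
  have hs0 : 0 < Real.sqrt (2 * k - 1) / k := by
    have : 0 < Real.sqrt (2 * k - 1) := Real.sqrt_pos.2 (by linarith)
    positivity
  have hθ0 : 0 < θ := hs0.trans hθ
  have hnr : (1000 : ℝ) ≤ n := by exact_mod_cast hn
  have hn0 : (0 : ℝ) < n := by linarith
  have hlg : 0 < Real.log n := Real.log_pos (by linarith)
  obtain ⟨j, hj1, hjJ, hdim, hch⟩ := char_det n N F J0 ((n : ℝ) ^ (-b)) (by positivity) hN hNn hn hF
    hJ hbb hhigh ρ hirr hnt
  have hj' : (1 : ℝ) ≤ j := by exact_mod_cast hj1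
  have hjJ' : (j : ℝ) ≤ J0 := by exact_mod_cast hjJ
  set L : ℕ := ⌈a * j * Real.log n⌉₊ with hL
  have hL1 : a * j * Real.log n ≤ L := Nat.le_ceil _
  have hp : 1 ≤ a * j * Real.log n := by nlinarith
  have hL2 : (L : ℝ) ≤ 2 * (a * j * Real.log n) := by
    have := Nat.ceil_lt_add_one (show 0 ≤ a * j * Real.log n by positivity)
    linarith
  have hLℓ : 2 * L ≤ ℓ := by
    have h3 : a * j * Real.log n ≤ a * J0 * Real.log n := by gcongr
    have : ((2 * L : ℕ) : ℝ) ≤ ℓ := by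
      push_cast
      linarith
    exact_mod_cast this
  have hd1 : 0 < Module.finrank ℂ V := by
    have : Nontrivial V := by
      obtain ⟨g, v, hv⟩ := hnt
      exact ⟨⟨_, _, hv⟩⟩
    exact Module.finrank_pos
  have hd0 : (0 : ℝ) < Module.finrank ℂ V := by exact_mod_cast hd1
  have htr := trace_le ρ hk x (2 * L) (((n : ℝ) ^ (-b)) ^ j) (by positivity) (by
    intro u hu hul
    have h1 := hx u hu (hul.trans hLℓ)
    have e : ((FreeGroup.lift x u : Alt n) : Equiv.Perm (Fin n)) =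
        FreeGroup.lift (fun i => (x i : Equiv.Perm (Fin n))) u := by
      have : (Subgroup.subtype (alternatingGroup (Fin n))).comp (FreeGroup.lift x) =
          FreeGroup.lift (fun i => (x i : Equiv.Perm (Fin n))) := by
        ext i
        simp
      exact DFunLike.congr_fun this u
    exact hch _ (by rw [e]; exact h1.le))
  have hcnt := count_le (PX ρ x) (PX_symm ρ x) θ hθ0 L
  have hnum := num1 n j L (Real.sqrt (2 * k - 1) / k) θ a b c hs0 hθ hb hab hc hc1 hc2 (by omega)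
    hj1 hL1 hL2 h2
  have hmain : ((Finset.univ.filter fun i => θ ≤ |(PX_symm ρ x).eigenvalues rfl i|).card : ℝ) ≤
      (n : ℝ) ^ (-(c * j)) * Module.finrank ℂ V := by
    refine hcnt.trans ?_
    calc _ ≤ (1 / θ) ^ (2 * L) * (((Real.sqrt (2 * k - 1) / k) ^ (2 * L) +
          ((n : ℝ) ^ (-b)) ^ j) * Module.finrank ℂ V) := by gcongr
      _ = ((1 / θ) ^ (2 * L) * ((Real.sqrt (2 * k - 1) / k) ^ (2 * L) +
          ((n : ℝ) ^ (-b)) ^ j)) * Module.finrank ℂ V := by ring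
      _ ≤ _ := by gcongr
  refine hmain.trans ?_
  rcases hdim with h | h
  · refine le_trans ?_ (le_max_left _ _)
    have h3 : (n : ℝ) ^ (-(c * j)) ≤ (Module.finrank ℂ V : ℝ) ^ (-c) := by
      have h4 : (Module.finrank ℂ V : ℝ) ≤ (n : ℝ) ^ (j : ℝ) := by
        rw [Real.rpow_natCast]
        exact_mod_cast h
      calc (n : ℝ) ^ (-(c * j)) = ((n : ℝ) ^ (j : ℝ)) ^ (-c) := by
            rw [← Real.rpow_mul hn0.le]
            congr 1
            ring
        _ ≤ _ := Real.rpow_le_rpow_of_nonpos hd0 h4 (by linarith)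
    calc (n : ℝ) ^ (-(c * j)) * Module.finrank ℂ V ≤
          (Module.finrank ℂ V : ℝ) ^ (-c) * Module.finrank ℂ V := by gcongr
      _ = (Module.finrank ℂ V : ℝ) ^ (1 - c) := by
          rw [show (1 : ℝ) - c = -c + 1 by ring, Real.rpow_add hd0, Real.rpow_one]
  · refine le_trans ?_ (le_max_right _ _)
    rw [mul_comm]
    refine mul_le_mul_of_nonneg_left ?_ hd0.le
    rw [Real.rpow_def_of_pos hn0, h]
    apply Real.exp_le_exp.mpr
    nlinarith

end

end Pool.Agent.R236.Den
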