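import Pool.Agent.R236.DenD

/-!
MP_75608d_al: the density bound, asymptotic form.
-/

namespace Pool.Agent.R236.Den
open RC14 Finset Filter Topology Pool.Agent.R236.Exc
open scoped InnerProductSpace

noncomputable section

/-- the bound of the base of the character estimate -/
lemma bb_le (n N F J0 : ℕ) (u : ℝ) (hu : 0 < u) (hu6 : u ≤ 1 / 6) (hn : 1000 ≤ n)
    (hN : 100 ≤ N) (hN1 : (n : ℝ) ^ u ≤ N) (hF : (F : ℝ) ≤ 2 * (n : ℝ) ^ (1 - u))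
    (hJ : (J0 : ℝ) ≤ (n : ℝ) ^ ((1 : ℝ) / 3)) (h10 : 10 * (n : ℝ) ^ (-u) ≤ (n : ℝ) ^ (-(u / 2)))
    (j j1 : ℕ) (hj : N * j ≤ n) (hj1 : j1 ≤ J0) : bb j j1 n F ≤ (n : ℝ) ^ (-(u / 2)) := by
  have hnr : (1000 : ℝ) ≤ n := by exact_mod_cast hn
  have hn0 : (0 : ℝ) < n := by linarith
  have h100 : 100 * j ≤ n := (Nat.mul_le_mul_right j hN).trans hj
  have hjn : j ≤ n := by omega
  have hnj : (n : ℝ) / 2 ≤ ((n - j : ℕ) : ℝ) := by
    rw [Nat.cast_sub hjn]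
    have : 100 * (j : ℝ) ≤ n := by exact_mod_cast h100
    linarith
  have hnj0 : (0 : ℝ) < ((n - j : ℕ) : ℝ) := by linarith
  have hju : (j : ℝ) ≤ (n : ℝ) ^ (1 - u) := by
    have h1 : (n : ℝ) ^ u * j ≤ n := by
      calc (n : ℝ) ^ u * j ≤ N * j := by gcongr
        _ ≤ n := by exact_mod_cast hj
    have h2 : (0 : ℝ) < (n : ℝ) ^ u := by positivity
    rw [Real.rpow_sub hn0, Real.rpow_one, le_div_iff₀ h2]
    linarith
  have e1 : (n : ℝ) ^ (1 - u) = n * (n : ℝ) ^ (-u) := by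
    rw [show (1 : ℝ) - u = 1 + -u by ring, Real.rpow_add hn0, Real.rpow_one]
  set y : ℝ := (n : ℝ) ^ (-u) with hy
  have hy0 : 0 < y := by positivity
  have t1 : 2 * (j : ℝ) / ((n - j : ℕ) : ℝ) ≤ 4 * y := by
    rw [div_le_iff₀ hnj0]
    rw [e1] at hju
    nlinarith
  have t2 : (F : ℝ) / ((n - j : ℕ) : ℝ) ≤ 4 * y := by
    rw [div_le_iff₀ hnj0]
    rw [e1] at hF
    nlinarith
  have t3 : (j1 : ℝ) / Real.sqrt ((n - j : ℕ) : ℝ) ≤ 2 * y := by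
    have hsq : 0 < Real.sqrt ((n - j : ℕ) : ℝ) := Real.sqrt_pos.2 hnj0
    rw [div_le_iff₀ hsq]
    have hj1' : (j1 : ℝ) ≤ (n : ℝ) ^ ((1 : ℝ) / 3) := by
      have : (j1 : ℝ) ≤ J0 := by exact_mod_cast hj1
      linarith
    have h1 : Real.sqrt n / 2 ≤ Real.sqrt ((n - j : ℕ) : ℝ) := by
      rw [show Real.sqrt (n : ℝ) / 2 = Real.sqrt (n / 4) by
        rw [Real.sqrt_div hn0.le, show (4 : ℝ) = 2 ^ 2 by norm_num, Real.sqrt_sq (by norm_num)]]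
      apply Real.sqrt_le_sqrt
      linarith
    have h2 : (n : ℝ) ^ ((1 : ℝ) / 3) ≤ y * Real.sqrt n := by
      rw [hy, Real.sqrt_eq_rpow, ← Real.rpow_add hn0]
      apply Real.rpow_le_rpow_of_exponent_le (by linarith)
      linarith
    nlinarith
  unfold bb
  linarith

theorem dens_n (n k : ℕ) (hk : 1 ≤ k) (δ δ' θ a b c : ℝ) (hδ'0 : 0 < δ') (hδ'1 : δ' ≤ 1 / 4)
    (hδ'2 : δ' ≤ δ) (hbdef : b = δ' / 4) (hθ : Real.sqrt (2 * k - 1) / k < θ) (ha : 0 < a)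
    (hb : 0 < b) (hab : 8 * a * max 0 (Real.log (1 / θ)) ≤ b) (ha1 : 4 * a ≤ 1)
    (hc : 0 < c) (hc1 : c ≤ Real.log (θ / (Real.sqrt (2 * k - 1) / k)) * a) (hc2 : c ≤ b / 4)
    (h1 : 2 ≤ (n : ℝ) ^ c) (h2 : 1 / a ≤ Real.log n) (h3 : 2 / c ≤ Real.log n)
    (h4 : 2 * (n : ℝ) ^ (1 / 3 - δ) * Real.log n ≤ (n : ℝ) ^ (1 / 3 - δ' / 2))
    (h5 : 2 ≤ (n : ℝ) ^ (1 / 3 - δ' / 2)) (h6 : 2 ≤ (n : ℝ) ^ (1 / 3 - δ))
    (h7 : 100 ≤ (n : ℝ) ^ (δ' / 2)) (h8 : 48384 * (n : ℝ) ^ (δ' / 2) ≤ (n : ℝ) ^ (1 : ℝ))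
    (h9 : 4 * (n : ℝ) ^ (1 - δ' / 2) ≤ (n : ℝ) ^ (1 : ℝ))
    (h10 : 10 * (n : ℝ) ^ (-(δ' / 2)) ≤ (n : ℝ) ^ (-(δ' / 2 / 2)))
    (h11 : 32514048 * (n : ℝ) ^ (1 / 3 - δ) * Real.log n ≤ (n : ℝ) ^ (1 - δ'))
    (h12 : 1000 ≤ n) (x : Fin k → Alt n)
    (hx : FewFixK n ⌊(n : ℝ) ^ (1 / 3 - δ' / 2)⌋₊ ⌈(n : ℝ) ^ (1 - δ' / 2)⌉₊
        (fun i => (x i : Equiv.Perm (Fin n))))
    {V : Type} [NormedAddCommGroup V] [InnerProductSpace ℂ V] [FiniteDimensional ℂ V]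
    (ρ : Alt n →* (V ≃ₗᵢ[ℂ] V)) (hirr : Irr ρ ⊤) (hnt : ∃ g v, ρ g v ≠ v) :
    ((Finset.univ.filter fun i => θ ≤ |(PX_symm ρ x).eigenvalues rfl i|).card : ℝ) ≤
      max ((Module.finrank ℂ V : ℝ) ^ (1 - c))
        (Module.finrank ℂ V * Real.exp (-(n : ℝ) ^ (1 / 3 - δ))) := by
  rw [Real.rpow_one] at h8 h9
  have hnr : (1000 : ℝ) ≤ n := by exact_mod_cast h12
  have hn0 : (0 : ℝ) < n := by linarith only [hnr]
  have hlg : 0 < Real.log n := Real.log_pos (by linarith only [hnr])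
  set s : ℝ := (n : ℝ) ^ (1 / 3 - δ) with hs
  set ℓ : ℕ := ⌊(n : ℝ) ^ (1 / 3 - δ' / 2)⌋₊ with hℓ
  set F : ℕ := ⌈(n : ℝ) ^ (1 - δ' / 2)⌉₊ with hF
  set N : ℕ := ⌈(n : ℝ) ^ (δ' / 2)⌉₊ with hN
  set J0 : ℕ := ⌊s⌋₊ with hJ0
  have hJ1 : (J0 : ℝ) ≤ s := Nat.floor_le (by positivity)
  have hJ2 : s / 2 ≤ J0 := by
    have : s < J0 + 1 := Nat.lt_floor_add_one s
    linarith
  have hJ3 : 1 ≤ J0 := by
    have : (0 : ℝ) < J0 := by linarith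
    exact_mod_cast this
  have hs3 : s ≤ (n : ℝ) ^ ((1 : ℝ) / 3) := by
    rw [hs]
    apply Real.rpow_le_rpow_of_exponent_le (by linarith)
    linarith
  have hN1 : (n : ℝ) ^ (δ' / 2) ≤ N := Nat.le_ceil _
  have hN2 : (N : ℝ) ≤ 2 * (n : ℝ) ^ (δ' / 2) := by
    have : (N : ℝ) < (n : ℝ) ^ (δ' / 2) + 1 := Nat.ceil_lt_add_one (by positivity)
    linarith
  have hN100 : 100 ≤ N := by
    have : (100 : ℝ) ≤ N := h7.trans hN1
    exact_mod_cast this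
  have hpF : 1 ≤ (n : ℝ) ^ (1 - δ' / 2) := Real.one_le_rpow (by linarith) (by linarith)
  have hF2 : (F : ℝ) ≤ 2 * (n : ℝ) ^ (1 - δ' / 2) := by
    have : (F : ℝ) < (n : ℝ) ^ (1 - δ' / 2) + 1 := Nat.ceil_lt_add_one (by positivity)
    linarith
  refine dens_det n k hk ℓ N F J0 x hx θ a b c s hθ ha hb hab hc hc1 hc2 h1 ?_ ?_ ?_ hN100 ?_ h12 ?_ hJ3 ?_ ?_ ρ hirr hnt
  · rw [div_le_iff₀ ha] at h2
    linarith
  · have hℓ2 : (n : ℝ) ^ (1 / 3 - δ' / 2) / 2 ≤ ℓ := by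
      have : (n : ℝ) ^ (1 / 3 - δ' / 2) < ℓ + 1 := Nat.lt_floor_add_one _
      linarith
    have h13 : 4 * (a * J0 * Real.log n) ≤ s * Real.log n := by
      have : (4 * a) * (J0 * Real.log n) ≤ 1 * (s * Real.log n) := by gcongr
      linarith
    linarith
  · rw [div_le_iff₀ hc] at h3
    have h13 : c * (s / 2) * Real.log n ≤ c * J0 * Real.log n := by gcongr
    have hs0' : 0 ≤ s := by linarith
    nlinarith
  · have : ((2 * (12096 * N) : ℕ) : ℝ) ≤ n := by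
      push_cast
      linarith
    exact_mod_cast this
  · have : ((2 * F : ℕ) : ℝ) ≤ n := by
      push_cast
      linarith
    exact_mod_cast this
  · intro j j1 hj hj1
    have := bb_le n N F J0 (δ' / 2) (by linarith) (by linarith) h12 hN100 hN1 hF2
      (hJ1.trans hs3) h10 j j1 hj hj1
    have e : b = δ' / 2 / 2 := by rw [hbdef]; ring
    rw [e]
    exact this
  · have e0 : ((n : ℝ) ^ (-b)) ^ J0 = Real.exp (-(b * (J0 * Real.log n))) := by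
      rw [← Real.rpow_natCast, ← Real.rpow_mul hn0.le, Real.rpow_def_of_pos hn0]
      congr 1
      ring
    rw [e0]
    apply Real.exp_le_exp.mpr
    have hNpos : (0 : ℝ) < N := by
      have : (100 : ℝ) ≤ N := by exact_mod_cast hN100
      linarith
    have hNsq : (N : ℝ) ^ 2 ≤ 4 * (n : ℝ) ^ δ' := by
      have e : (n : ℝ) ^ δ' = ((n : ℝ) ^ (δ' / 2)) ^ 2 := by
        rw [← Real.rpow_natCast, ← Real.rpow_mul hn0.le]
        congr 1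
        push_cast
        ring
      rw [e]
      have := pow_le_pow_left₀ hNpos.le hN2 2
      linarith
    have e2 : (n : ℝ) = (n : ℝ) ^ (1 - δ') * (n : ℝ) ^ δ' := by
      rw [← Real.rpow_add hn0]
      norm_num
    have hP : 0 < (n : ℝ) ^ (1 - δ') := by positivity
    have h13 : b * (J0 * Real.log n) ≤ (n : ℝ) ^ (1 - δ') / 32514048 := by
      rw [le_div_iff₀ (by norm_num)]
      have h14 : b * (J0 * Real.log n) ≤ 1 * (s * Real.log n) := by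
        have : b ≤ 1 := by linarith
        gcongr
      linarith
    have h15 : (n : ℝ) ^ (1 - δ') / 32514048 ≤
        1 / (2 * 336 * 12096 * (N : ℝ) ^ 2) * n := by
      rw [div_mul_eq_mul_div, one_mul, div_le_div_iff₀ (by norm_num) (by positivity)]
      have h16 : (n : ℝ) ^ (1 - δ') * (2 * 336 * 12096 * (N : ℝ) ^ 2) ≤
          (n : ℝ) ^ (1 - δ') * (2 * 336 * 12096 * (4 * (n : ℝ) ^ δ')) := by gcongr
      refine h16.trans (le_of_eq ?_)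
      conv_rhs => rw [e2]
      ring
    nlinarith


theorem dens_ev (k : ℕ) (hk : 1 ≤ k) (ε δ : ℝ) (hε : 0 < ε) (hδ : 0 < δ) (hδ3 : δ < 1 / 3) :
    ∃ c : ℝ, 0 < c ∧ ∃ δ' : ℝ, 0 < δ' ∧ δ' ≤ 1 / 4 ∧ ∀ᶠ n : ℕ in atTop, ∀ x : Fin k → Alt n,
      FewFixK n ⌊(n : ℝ) ^ (1 / 3 - δ' / 2)⌋₊ ⌈(n : ℝ) ^ (1 - δ' / 2)⌉₊
        (fun i => (x i : Equiv.Perm (Fin n))) →
      ∀ (V : Type) [NormedAddCommGroup V] [InnerProductSpace ℂ V] [FiniteDimensional ℂ V]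
        (ρ : Alt n →* (V ≃ₗᵢ[ℂ] V)), Irr ρ ⊤ → (∃ g v, ρ g v ≠ v) →
        ((Finset.univ.filter fun i => Real.sqrt (2 * k - 1) / k + ε ≤
          |(PX_symm ρ x).eigenvalues rfl i|).card : ℝ) ≤
        max ((Module.finrank ℂ V : ℝ) ^ (1 - c))
          (Module.finrank ℂ V * Real.exp (-(n : ℝ) ^ (1 / 3 - δ))) := by
  have hk' : (1 : ℝ) ≤ k := by exact_mod_cast hk
  set s0 : ℝ := Real.sqrt (2 * k - 1) / k with hs0def
  have hs0 : 0 < s0 := by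
    have : 0 < Real.sqrt (2 * k - 1) := Real.sqrt_pos.2 (by linarith)
    positivity
  set θ : ℝ := s0 + ε with hθdef
  have hθ : s0 < θ := by linarith
  set δ' : ℝ := min δ (1 / 4) with hδ'def
  have hδ'0 : 0 < δ' := lt_min hδ (by norm_num)
  have hδ'1 : δ' ≤ 1 / 4 := min_le_right _ _
  have hδ'2 : δ' ≤ δ := min_le_left _ _
  set b : ℝ := δ' / 4 with hbdef
  have hb : 0 < b := by positivity
  set Λ : ℝ := max 0 (Real.log (1 / θ)) with hΛ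
  have hΛ0 : 0 ≤ Λ := le_max_left _ _
  set a : ℝ := b / (8 * (Λ + 1)) with hadef
  have ha : 0 < a := by positivity
  have hab : 8 * a * Λ ≤ b := by
    have : 8 * a * Λ = b * (Λ / (Λ + 1)) := by
      rw [hadef]; field_simp
    rw [this]
    have h1 : Λ / (Λ + 1) ≤ 1 := by
      rw [div_le_one (by positivity)]
      linarith
    nlinarith
  have ha1 : 4 * a ≤ 1 := by
    have : a ≤ b / 8 := by
      rw [hadef]
      apply div_le_div_of_nonneg_left hb.le (by norm_num)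
      linarith
    linarith
  set γ : ℝ := Real.log (θ / s0) with hγ
  have hγ0 : 0 < γ := Real.log_pos (by rw [lt_div_iff₀ hs0]; linarith)
  set c : ℝ := min (γ * a) (b / 4) with hcdef
  have hc : 0 < c := lt_min (by positivity) (by positivity)
  refine ⟨c, hc, δ', hδ'0, hδ'1, ?_⟩
  filter_upwards [ev_const c 2 hc, ev_loggt (1 / a), ev_loggt (2 / c),
    ev_log (1 / 3 - δ) (1 / 3 - δ' / 2) 2 (by linarith),
    ev_const (1 / 3 - δ' / 2) 2 (by linarith), ev_const (1 / 3 - δ) 2 (by linarith),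
    ev_const (δ' / 2) 100 (by linarith), ev_le (δ' / 2) 1 48384 (by linarith),
    ev_le (1 - δ' / 2) 1 4 (by linarith), ev_le (-(δ' / 2)) (-(δ' / 2 / 2)) 10 (by linarith),
    ev_log (1 / 3 - δ) (1 - δ') 32514048 (by linarith), eventually_ge_atTop 1000]
    with n h1 h2 h3 h4 h5 h6 h7 h8 h9 h10 h11 h12
  intro x hx V _ _ _ ρ hirr hnt
  exact dens_n n k hk δ δ' θ a b c hδ'0 hδ'1 hδ'2 rfl hθ ha hb hab ha1 hc (min_le_left _ _)
    (min_le_right _ _) h1 h2 h3 h4 h5 h6 h7 h8 h9 h10 h11 h12 x hx ρ hirr hnt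

end

end Pool.Agent.R236.Den
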