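import Pool.Agent.H819R3.RC.RET
import Pool.Agent.H995R2.RC.SPEC
import Pool.Agent.H20R2.RC.FRV
import Pool.Agent.H506R2.RC.TRANS

/-!
MP_75608d_al: exceptional eigenvalues of the walk in a representation.
-/

namespace Pool.Agent.R236.Exc
open RC14 Finset
open scoped InnerProductSpace

noncomputable section

section
variable {G : Type*} [Group G]
variable {V : Type*} [NormedAddCommGroup V] [InnerProductSpace ℂ V]

/-- the operator of the random walk in the representation `ρ`: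
`P v = (1/2k) ∑_i (ρ(x_i) v + ρ(x_i)⁻¹ v)` -/
def wop (ρ : G →* (V ≃ₗᵢ[ℂ] V)) {k : ℕ} (x : Fin k → G) (v : V) : V :=
  (1 / (2 * (k : ℂ))) • ∑ i, (ρ (x i) v + ρ (x i)⁻¹ v)

variable [FiniteDimensional ℂ V] [Fintype G]

/-- `‖v‖² - ⟨P v, v⟩ = En / (2k)` -/
lemma wop_energy (ρ : G →* (V ≃ₗᵢ[ℂ] V)) {k : ℕ} (hk : 1 ≤ k) (y : Fin k → G) (v : V) :
    ‖v‖ ^ 2 - (⟪wop ρ y v, v⟫_ℂ).re = En ρ y v / (2 * k) := by
  have h1 := TL_energy ρ hk y v
  rw [WORDS.TL_apply] at h1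
  have h2 : (⟪(1 / 2 : ℂ) • (v + (1 / (2 * (k : ℂ))) • ∑ i, (ρ (y i) v + ρ (y i)⁻¹ v)), v⟫_ℂ).re =
      1 / 2 * (‖v‖ ^ 2 + (⟪wop ρ y v, v⟫_ℂ).re) := by
    rw [inner_smul_left, inner_add_left]
    have h3 : (starRingEnd ℂ) (1 / 2 : ℂ) = ((1 / 2 : ℝ) : ℂ) := by
      rw [map_div₀, map_one, Complex.conj_ofNat]
      push_cast
      rfl
    rw [h3, Complex.re_ofReal_mul, Complex.add_re]
    have h4 : (⟪v, v⟫_ℂ).re = ‖v‖ ^ 2 := by
      rw [inner_self_eq_norm_sq_to_K]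
      norm_cast
    rw [h4]
    rfl
  rw [h2] at h1
  have hk' : (0 : ℝ) < k := by exact_mod_cast hk
  have e : En ρ y v / (2 * k) = 2 * (En ρ y v / (4 * k)) := by
    field_simp
    ring
  rw [e, ← h1]
  ring

/-- a subspace of vectors of small energy is small if the trace of a power of the walk is -/
theorem dim_le (ρ : G →* (V ≃ₗᵢ[ℂ] V)) {k : ℕ} (hk : 1 ≤ k) (y : Fin k → G) (ϑ : ℝ)
    (hϑ : 0 < ϑ) (hϑ1 : ϑ < 1) (L : ℕ) (η : ℝ) (hη : rtr (TL ρ y ^ (2 * L)) ≤ η)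
    (U : Submodule ℂ V) (hU : ∀ v ∈ U, En ρ y v ≤ 2 * k * ϑ * ‖v‖ ^ 2) :
    (Module.finrank ℂ U : ℝ) ≤ (1 / (1 - ϑ)) ^ (2 * L) * η := by
  have hk' : (0 : ℝ) < k := by exact_mod_cast hk
  obtain ⟨E, hE, htr, hgap⟩ := SPEC (TL ρ y) (TL_symm ρ y) (fun v => by
      have h1 := TL_energy ρ hk y v
      have : 0 ≤ En ρ y v := RC14.En_nonneg _ _ _
      have : 0 ≤ En ρ y v / (4 * k) := by positivity
      linarith) (1 - ϑ) (by linarith) (by linarith)
  have hθ : (0 : ℝ) < 1 - ϑ := by linarith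
  -- the rank
  have hidem : IsIdempotentElem E := hE.2
  have hproj : LinearMap.IsProj (LinearMap.range E) E := by
    refine ⟨fun x => LinearMap.mem_range_self E x, ?_⟩
    rintro _ ⟨z, rfl⟩
    have := congrArg (fun T : Module.End ℂ V => T z) hE.2
    simpa using this
  have htrE : rtr E = (Module.finrank ℂ (LinearMap.range E) : ℝ) := by
    unfold rtr
    rw [hproj.trace]
    simp
  have hinj : ∀ v ∈ U, E v = 0 → v = 0 := by
    intro v hv h0
    have h1 := hgap v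
    rw [h0, sub_zero, TL_energy ρ hk y v] at h1
    have h2 := hU v hv
    have h3 : En ρ y v / (4 * k) ≤ ϑ / 2 * ‖v‖ ^ 2 := by
      rw [div_le_iff₀ (by positivity)]
      nlinarith
    have h4 : (1 - (1 - ϑ)) * ‖v‖ ^ 2 ≤ ϑ / 2 * ‖v‖ ^ 2 := h1.trans h3
    have h5 : ‖v‖ ^ 2 ≤ 0 := by
      by_contra hcon
      push Not at hcon
      nlinarith [mul_pos hϑ hcon]
    have h6 : ‖v‖ = 0 := by
      have := sq_nonneg ‖v‖
      exact pow_eq_zero_iff (two_ne_zero) |>.1 (le_antisymm h5 this)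
    exact norm_eq_zero.1 h6
  have hfin : Module.finrank ℂ U ≤ Module.finrank ℂ (LinearMap.range E) := by
    have hi : Function.Injective ((LinearMap.rangeRestrict E).domRestrict U) := by
      rw [← LinearMap.ker_eq_bot, LinearMap.ker_eq_bot']
      intro u hu
      have : E (u : V) = 0 := congrArg Subtype.val hu
      exact Subtype.ext (hinj u u.2 this)
    exact LinearMap.finrank_le_finrank_of_injective hi
  have h1 := (htr L).trans hη
  have h2 : (1 / (1 - ϑ)) ^ (2 * L) * ((1 - ϑ) ^ (2 * L) * rtr E) = rtr E := by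
    rw [← mul_assoc, ← mul_pow, one_div, inv_mul_cancel₀ hθ.ne', one_pow, one_mul]
  calc (Module.finrank ℂ U : ℝ) ≤ (Module.finrank ℂ (LinearMap.range E) : ℝ) := by
        exact_mod_cast hfin
    _ = (1 / (1 - ϑ)) ^ (2 * L) * ((1 - ϑ) ^ (2 * L) * rtr E) := by rw [h2, htrE]
    _ ≤ (1 / (1 - ϑ)) ^ (2 * L) * η := by
        have : 0 ≤ (1 / (1 - ϑ)) ^ (2 * L) := by positivity
        exact mul_le_mul_of_nonneg_left h1 this

end

/-- few exceptional eigenvalues, if the characters are small at the elements with few fixed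
points -/
theorem exc_high {V : Type*} [NormedAddCommGroup V] [InnerProductSpace ℂ V]
    [FiniteDimensional ℂ V] (n m k : ℕ) (X : ℝ) (hX : 1 ≤ X) (ρ : Alt n →* (V ≃ₗᵢ[ℂ] V))
    (hch : ∀ g : Alt n, nfix (g : Equiv.Perm (Fin n)) ≤ n / 2 →
      ‖chr ρ g‖ ≤ Real.exp (-X) * Module.finrank ℂ V)
    (hmF : m ≤ n / 2) (hXm : (Fintype.card (Tup m n) : ℝ) ≤ Real.exp (3 * X))
    (hFm : 2 * Real.exp X ≤ ((n / 2).descFactorial m : ℝ))
    (hk : 1 ≤ k) (c : ℝ) (hc : 0 < c) (hc1 : c ≤ 1) (y : Fin k → Alt n)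
    (hgap : ∀ f : RC14.V m n, ∑ a, f a = 0 → c * ‖f‖ ^ 2 ≤ En (repA m n) y f)
    (U : Submodule ℂ V) (hU : ∀ v ∈ U, En ρ y v ≤ 2 * k * (c / (100 * k)) * ‖v‖ ^ 2) :
    (Module.finrank ℂ U : ℝ) ≤
      Real.exp (-(X / 2)) * Real.exp 1 * Module.finrank ℂ V := by
  have hk' : (1 : ℝ) ≤ k := by exact_mod_cast hk
  have hk0 : (0 : ℝ) < k := by linarith
  set ϑ : ℝ := c / (100 * k) with hϑ
  have hϑ0 : 0 < ϑ := by rw [hϑ]; positivity
  have hϑ1 : ϑ ≤ 1 / 100 := by
    rw [hϑ, div_le_div_iff₀ (by positivity) (by norm_num)]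
    nlinarith
  set L : ℕ := ⌈6 * X * k / c⌉₊ with hL
  have hL1 : 6 * X * k / c ≤ (L : ℝ) := Nat.le_ceil _
  have hL2 : (L : ℝ) ≤ 6 * X * k / c + 1 := by
    have := Nat.ceil_lt_add_one (show 0 ≤ 6 * X * k / c by positivity)
    linarith
  have hexp : 3 * X ≤ c * ((2 * L : ℕ) : ℝ) / (4 * k) := by
    rw [le_div_iff₀ (by positivity)]
    push_cast
    have : c * (6 * X * k / c) ≤ c * L := by gcongr
    rw [mul_div_cancel₀ _ hc.ne'] at this
    nlinarith
  have hη : rtr (TL ρ y ^ (2 * L)) ≤ (2 * Real.exp (-X)) * Module.finrank ℂ V := by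
    have h1 := TRL n m k (n / 2) hk hmF y c hc.le hgap (2 * L) ρ
      (Real.exp (-X)) (by positivity) hch
    refine h1.trans ?_
    have h2 : Real.exp (-(c * ((2 * L : ℕ) : ℝ) / (4 * k))) ≤ Real.exp (-(3 * X)) := by
      apply Real.exp_le_exp.mpr
      linarith
    have h3 : (Fintype.card (Tup m n) : ℝ) * Real.exp (-(c * ((2 * L : ℕ) : ℝ) / (4 * k))) ≤
        1 := by
      calc _ ≤ Real.exp (3 * X) * Real.exp (-(3 * X)) := by gcongr
        _ = 1 := by rw [← Real.exp_add]; simp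
    have h4 : (0 : ℝ) < (n / 2).descFactorial m := lt_of_lt_of_le (by positivity) hFm
    have h5 : (1 + (Fintype.card (Tup m n) : ℝ) *
        Real.exp (-(c * ((2 * L : ℕ) : ℝ) / (4 * k)))) /
        ((n / 2).descFactorial m : ℝ) ≤ Real.exp (-X) := by
      rw [div_le_iff₀ h4]
      calc 1 + (Fintype.card (Tup m n) : ℝ) *
          Real.exp (-(c * ((2 * L : ℕ) : ℝ) / (4 * k))) ≤ 2 := by linarith
        _ = Real.exp (-X) * (2 * Real.exp X) := by
            rw [mul_left_comm, ← Real.exp_add]; simp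
        _ ≤ Real.exp (-X) * ((n / 2).descFactorial m : ℝ) := by gcongr
    gcongr
    linarith
  have h := dim_le ρ hk y ϑ hϑ0 (by linarith) L _ hη U hU
  refine h.trans ?_
  have h1 : 1 / (1 - ϑ) ≤ Real.exp (ϑ * (9 / 8)) := by
    rw [div_le_iff₀ (by linarith)]
    have := Real.add_one_le_exp (ϑ * (9 / 8))
    calc (1 : ℝ) ≤ (ϑ * (9 / 8) + 1) * (1 - ϑ) := by nlinarith
      _ ≤ Real.exp (ϑ * (9 / 8)) * (1 - ϑ) := by
          apply mul_le_mul_of_nonneg_right this; linarith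
  have h2 : (1 / (1 - ϑ)) ^ (2 * L) ≤ Real.exp (27 / 200 * X + 9 / 400) := by
    calc (1 / (1 - ϑ)) ^ (2 * L) ≤ Real.exp (ϑ * (9 / 8)) ^ (2 * L) :=
          pow_le_pow_left₀ (by
            have : 0 < 1 - ϑ := by linarith
            positivity) h1 _
      _ = Real.exp (((2 * L : ℕ) : ℝ) * (ϑ * (9 / 8))) := by rw [← Real.exp_nat_mul]
      _ ≤ Real.exp (27 / 200 * X + 9 / 400) := by
          apply Real.exp_le_exp.mpr
          have e1 : ((2 * L : ℕ) : ℝ) * (ϑ * (9 / 8)) ≤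
              (2 * (6 * X * k / c + 1)) * (ϑ * (9 / 8)) := by
            push_cast
            gcongr
          refine e1.trans ?_
          have e2 : (2 * (6 * X * k / c + 1)) * (ϑ * (9 / 8)) =
              27 / 200 * X + 9 / 4 * ϑ := by
            rw [hϑ]
            field_simp
            ring
          rw [e2]
          linarith
  have hd : (0 : ℝ) ≤ Module.finrank ℂ V := Nat.cast_nonneg _
  have h2e : (2 : ℝ) ≤ Real.exp (7 / 10) := by
    have h := Real.log_two_lt_d9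
    have h3 : (2 : ℝ) = Real.exp (Real.log 2) := (Real.exp_log (by norm_num)).symm
    rw [h3]
    apply Real.exp_le_exp.mpr
    linarith
  calc (1 / (1 - ϑ)) ^ (2 * L) * (2 * Real.exp (-X) * Module.finrank ℂ V)
      ≤ Real.exp (27 / 200 * X + 9 / 400) *
        (Real.exp (7 / 10) * Real.exp (-X) * Module.finrank ℂ V) := by gcongr
    _ = Real.exp (27 / 200 * X + 9 / 400 + 7 / 10 - X) * Module.finrank ℂ V := by
        rw [show 27 / 200 * X + 9 / 400 + 7 / 10 - X = (27 / 200 * X + 9 / 400) + (7 / 10 + -X) by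
          ring, Real.exp_add (27 / 200 * X + 9 / 400) (7 / 10 + -X), Real.exp_add (7 / 10) (-X)]
        ring
    _ ≤ Real.exp (-(X / 2) + 1) * Module.finrank ℂ V := by
        apply mul_le_mul_of_nonneg_right _ hd
        apply Real.exp_le_exp.mpr
        linarith
    _ = _ := by rw [Real.exp_add]

end

end Pool.Agent.R236.Exc
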