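import Pool.Agent.R236.ExcA

/-!
MP_75608d_al: the representations with vectors fixed by the stabiliser of few points.
-/

namespace Pool.Agent.R236.Exc
open RC14 Finset
open scoped InnerProductSpace

noncomputable section

variable {V : Type*} [NormedAddCommGroup V] [InnerProductSpace ℂ V]

/-- an even permutation moving `κ` to `a` -/
def sh {j n : ℕ} (hj : j + 2 ≤ n) (κ a : Tup j n) : Alt n := (TRANS hj κ a).choose

lemma sh_spec {j n : ℕ} (hj : j + 2 ≤ n) (κ a : Tup j n) :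
    mv (sh hj κ a : Equiv.Perm (Fin n)) κ = a := (TRANS hj κ a).choose_spec

/-- matrix coefficients as functions on tuples: `v ↦ (a ↦ ⟨ρ(s_a) v₀, v⟩)` -/
def Phi {j n : ℕ} (hj : j + 2 ≤ n) (κ : Tup j n) (ρ : Alt n →* (V ≃ₗᵢ[ℂ] V)) (v0 : V) :
    V →ₗ[ℂ] RC14.V j n where
  toFun v := WithLp.toLp 2 fun a => ⟪ρ (sh hj κ a) v0, v⟫_ℂ
  map_add' v w := by
    ext a
    simp [inner_add_right]
  map_smul' c v := by
    ext a
    simp [inner_smul_right]

lemma Phi_apply {j n : ℕ} (hj : j + 2 ≤ n) (κ : Tup j n) (ρ : Alt n →* (V ≃ₗᵢ[ℂ] V)) (v0 v : V)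
    (a : Tup j n) : Phi hj κ ρ v0 v a = ⟪ρ (sh hj κ a) v0, v⟫_ℂ := rfl

lemma rho_eq {j n : ℕ} (κ : Tup j n) (ρ : Alt n →* (V ≃ₗᵢ[ℂ] V)) (v0 : V)
    (hinv : ∀ h : Alt n, mv (h : Equiv.Perm (Fin n)) κ = κ → ρ h v0 = v0) (g h : Alt n)
    (e : mv (g : Equiv.Perm (Fin n)) κ = mv (h : Equiv.Perm (Fin n)) κ) : ρ g v0 = ρ h v0 := by
  have h1 : mv ((h⁻¹ * g : Alt n) : Equiv.Perm (Fin n)) κ = κ := by
    rw [Subgroup.coe_mul, mv_mul, e, ← mv_mul]
    simp
  have h2 := hinv _ h1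
  have h3 : g = h * (h⁻¹ * g) := by group
  rw [h3, map_mul]
  change ρ h (ρ (h⁻¹ * g) v0) = _
  rw [h2]

lemma Phi_equi {j n : ℕ} (hj : j + 2 ≤ n) (κ : Tup j n) (ρ : Alt n →* (V ≃ₗᵢ[ℂ] V)) (v0 : V)
    (hinv : ∀ h : Alt n, mv (h : Equiv.Perm (Fin n)) κ = κ → ρ h v0 = v0) (h : Alt n) (v : V) :
    Phi hj κ ρ v0 (ρ h v) = repA j n h (Phi hj κ ρ v0 v) := by
  ext a
  rw [repA_apply, Phi_apply, Phi_apply]
  have e1 : ⟪ρ (sh hj κ a) v0, ρ h v⟫_ℂ = ⟪ρ h⁻¹ (ρ (sh hj κ a) v0), v⟫_ℂ := by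
    rw [FR.inner_rho ρ h⁻¹, inv_inv]
  rw [e1]
  congr 1
  change (ρ h⁻¹ * ρ (sh hj κ a)) v0 = _
  rw [← map_mul]
  apply rho_eq κ ρ v0 hinv
  rw [sh_spec, Subgroup.coe_mul, mv_mul, sh_spec]
  rfl

variable [FiniteDimensional ℂ V]

/-- a nontrivial irreducible representation with a vector fixed by the stabiliser of a `j`-tuple
inherits the gap on `j`-tuples -/
theorem low_gap {j n k : ℕ} (hj : j + 2 ≤ n) (κ : Tup j n) (ρ : Alt n →* (V ≃ₗᵢ[ℂ] V))
    (hirr : Irr ρ ⊤) (hnt : ∃ g v, ρ g v ≠ v) (v0 : V) (hv0 : v0 ≠ 0)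
    (hinv : ∀ h : Alt n, mv (h : Equiv.Perm (Fin n)) κ = κ → ρ h v0 = v0)
    (y : Fin k → Alt n) (c : ℝ)
    (hgap : ∀ f : RC14.V j n, ∑ a, f a = 0 → c * ‖f‖ ^ 2 ≤ En (repA j n) y f) (v : V) :
    c * ‖v‖ ^ 2 ≤ En ρ y v := by
  classical
  set Φ := Phi hj κ ρ v0 with hΦ
  have hequi : ∀ h v, Φ (ρ h v) = repA j n h (Φ v) := Phi_equi hj κ ρ v0 hinv
  -- injective
  have hker : LinearMap.ker Φ = ⊥ := by
    have h1 : Inv ρ (LinearMap.ker Φ) := by
      intro g w hw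
      rw [LinearMap.mem_ker] at hw ⊢
      rw [hequi, hw, map_zero]
    rcases hirr.2.2 _ le_top h1 with h2 | h2
    · exact h2
    · exfalso
      have h3 : v0 ∈ LinearMap.ker Φ := by rw [h2]; trivial
      rw [LinearMap.mem_ker] at h3
      have h4 : Φ v0 κ = 0 := by rw [h3]; rfl
      rw [hΦ, Phi_apply, hinv _ (sh_spec hj κ κ)] at h4
      exact hv0 (inner_self_eq_zero.1 h4)
  have hne : ∀ w, w ≠ 0 → Φ w ≠ 0 := by
    intro w hw h
    apply hw
    have : w ∈ LinearMap.ker Φ := h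
    rw [hker] at this
    exact (Submodule.mem_bot ℂ).1 this
  -- mean zero
  let ψ : V →ₗ[ℂ] ℂ :=
    { toFun := fun w => ∑ a, Φ w a
      map_add' := fun u w => by
        simp only [map_add, PiLp.add_apply, Finset.sum_add_distrib]
      map_smul' := fun c w => by
        simp only [map_smul, PiLp.smul_apply, smul_eq_mul, Finset.mul_sum, RingHom.id_apply] }
  have hψ : ∀ h w, ψ (ρ h w) = ψ w := by
    intro h w
    change ∑ a, Φ (ρ h w) a = ∑ a, Φ w a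
    rw [hequi]
    simp only [repA_apply]
    exact Equiv.sum_comp (mvE (h : Equiv.Perm (Fin n))).symm fun a => Φ w a
  have hmz : ∀ w, ∑ a, Φ w a = 0 := by
    have h1 : Inv ρ (LinearMap.ker ψ) := by
      intro g w hw
      rw [LinearMap.mem_ker] at hw ⊢
      rw [hψ, hw]
    rcases hirr.2.2 _ le_top h1 with h2 | h2
    · exfalso
      obtain ⟨g, w, hgw⟩ := hnt
      apply hgw
      have h3 : ρ g w - w ∈ LinearMap.ker ψ := by
        rw [LinearMap.mem_ker, map_sub, hψ, sub_self]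
      rw [h2] at h3
      exact sub_eq_zero.1 ((Submodule.mem_bot ℂ).1 h3)
    · intro w
      have : w ∈ LinearMap.ker ψ := by rw [h2]; trivial
      exact this
  have hEn : ∀ {W : Type _} [NormedAddCommGroup W] [InnerProductSpace ℂ W]
      (σ : Alt n →* (W ≃ₗᵢ[ℂ] W)) (μ : ℝ) (w : W), FR.Lap σ y w = (μ : ℂ) • w →
      En σ y w = μ * ‖w‖ ^ 2 := by
    intro W _ _ σ μ w hw
    rw [FR.En_eq, hw, inner_smul_left, inner_self_eq_norm_sq_to_K, Complex.conj_ofReal,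
      Complex.re_ofReal_mul]
    congr 1
    exact_mod_cast rfl
  have hLap : ∀ w, Φ (FR.Lap ρ y w) = FR.Lap (repA j n) y (Φ w) := by
    intro w
    rw [FR.Lap_apply, FR.Lap_apply, map_sum]
    refine Finset.sum_congr rfl fun i _ => ?_
    rw [map_sub, map_sub, map_smul, hequi, hequi]
  rw [FR.En_eq]
  refine FR.sym_lower _ (FR.Lap_sym ρ y) c ?_ v
  intro μ w hw hμ
  have h1 : FR.Lap (repA j n) y (Φ w) = (μ : ℂ) • Φ w := by
    rw [← hLap, hμ, map_smul]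
  have h2 := hgap (Φ w) (hmz w)
  rw [hEn (repA j n) μ (Φ w) h1] at h2
  have h3 : 0 < ‖Φ w‖ ^ 2 := by
    have := norm_pos_iff.2 (hne w hw)
    positivity
  exact le_of_mul_le_mul_right h2 h3

/-- the character of the regular representation vanishes off the identity -/
lemma chr_RR {n : ℕ} (g : Alt n) (hg : g ≠ 1) : chr (RR n) g = 0 := by
  classical
  unfold chr
  rw [LinearMap.trace_eq_sum_inner _ (EuclideanSpace.basisFun (Alt n) ℂ)]
  refine Finset.sum_eq_zero fun a _ => ?_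
  rw [EuclideanSpace.basisFun_apply, EuclideanSpace.inner_single_left, op_apply, RR_apply]
  have h : a * g ≠ a := by
    intro h
    apply hg
    exact mul_eq_left.1 h
  simp [h]

lemma nfix_one (n : ℕ) : nfix (1 : Equiv.Perm (Fin n)) = n := by
  simp [nfix]

end

end Pool.Agent.R236.Exc
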