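import Pool.Agent.R236.ExcB
import Pool.Agent.H852R2.TE.Defs
import Pool.Agent.H14R2.RC.Asy

/-!
MP_75608d_al: parameters.
-/

namespace Pool.Agent.R236.Exc
open RC14 Finset Filter Topology

noncomputable section

/-- the constant -/
def C0 : ℝ := 73156608

/-- the numerical conditions -/
theorem params (δ : ℝ) (hδ : 0 < δ) (hδ1 : δ ≤ 1) :
    ∀ᶠ n : ℕ in atTop, ∃ (N m : ℕ) (X : ℝ), 1 ≤ X ∧ 100 ≤ N ∧ 2 * (12096 * N) ≤ n ∧ 1000 ≤ n ∧
      (∀ j, N * j ≤ n → j ≤ TE852.Rr (1 - δ / 4) n) ∧ TE852.Rr (1 - δ / 4) n + 2 ≤ n ∧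
      m ≤ n / 2 ∧ m ≤ TE852.Rr (1 - δ / 4) n ∧ m + 2 ≤ n ∧
      (Fintype.card (Tup m n) : ℝ) ≤ Real.exp (3 * X) ∧
      2 * Real.exp X ≤ ((n / 2).descFactorial m : ℝ) ∧
      Real.exp (-(X / 2)) * Real.exp 1 ≤ Real.exp (-(n : ℝ) ^ (1 - δ)) ∧
      X ≤ 1 / (2 * 336 * 12096 * (N : ℝ) ^ 2) * n := by
  filter_upwards [ev_le (1 - δ) (1 - δ / 2) (4 * C0) (by linarith),
    ev_le (1 - δ / 2) (1 - δ / 4) 4 (by linarith), ev_le (1 - δ / 4) 1 4 (by linarith),
    ev_const (δ / 4) 99 (by linarith), ev_le (δ / 4) 1 (24192 * 3) (by linarith),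
    ev_log 0 (1 - δ / 2) (2 * C0) (by linarith), ev_const (1 - δ / 2) (8 * C0) (by linarith),
    ev_loggt 8, eventually_ge_atTop 1000, ev_const (1 - δ / 4) 4 (by linarith)]
    with n ha hb hc hd he hf hg hl hn hs4
  rw [Real.rpow_one] at hc he
  rw [Real.rpow_zero, mul_one] at hf
  have hn0 : (0 : ℝ) < n := by
    have : (1000 : ℝ) ≤ n := by exact_mod_cast hn
    linarith
  have hnr : (1000 : ℝ) ≤ n := by exact_mod_cast hn
  have hC0 : (0 : ℝ) < C0 := by norm_num [C0]
  have hC1 : (8 : ℝ) ≤ C0 := by norm_num [C0]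
  set r : ℕ := TE852.Rr (1 - δ / 4) n with hr
  set u : ℝ := (n : ℝ) ^ (δ / 4) with hu
  set s : ℝ := (n : ℝ) ^ (1 - δ / 4) with hs
  set Y : ℝ := (n : ℝ) ^ (1 - δ / 2) with hY
  have hu0 : 0 < u := by positivity
  have hus : u * s = n := by
    rw [hu, hs, ← Real.rpow_add hn0]
    norm_num
  have hYu : Y * u ^ 2 = n := by
    rw [hu, hY, ← Real.rpow_natCast, ← Real.rpow_mul hn0.le, ← Real.rpow_add hn0]
    norm_num
    rw [show 1 - δ / 2 + δ / 4 * 2 = 1 by ring, Real.rpow_one]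
  have hr1 : (r : ℝ) ≤ s := Nat.floor_le (by positivity)
  have hr2 : s - 1 < r := by
    have := Nat.lt_floor_add_one s
    have e : r = ⌊s⌋₊ := rfl
    rw [e]
    linarith
  have hr3 : s / 2 ≤ r := by linarith
  have hrpos : (0 : ℝ) < r := by linarith
  have hrpos' : 0 < r := by exact_mod_cast hrpos
  set N : ℕ := n / r + 1 with hN
  have hdiv : ((n / r : ℕ) : ℝ) ≤ n / r := Nat.cast_div_le
  have hN3 : (N : ℝ) ≤ 3 * u := by
    have h1 : (n : ℝ) / r ≤ 2 * u := by
      rw [div_le_iff₀ hrpos, ← hus]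
      nlinarith
    rw [hN]
    push_cast
    linarith
  have hN100 : 100 ≤ N := by
    have h1 : 99 ≤ n / r := by
      rw [Nat.le_div_iff_mul_le hrpos']
      have : ((99 * r : ℕ) : ℝ) ≤ n := by
        push_cast
        calc (99 : ℝ) * r ≤ u * s := by gcongr
          _ = n := hus
      exact_mod_cast this
    omega
  set X : ℝ := Y / C0 with hX
  have hX8 : 8 ≤ X := by
    rw [hX, le_div_iff₀ hC0]
    linarith
  set m : ℕ := ⌈(2 * X + 2) / Real.log n⌉₊ with hm
  have hl0 : 0 < Real.log n := by linarith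
  have hm1 : (2 * X + 2) / Real.log n ≤ m := Nat.le_ceil _
  have hm2 : (m : ℝ) ≤ (2 * X + 2) / Real.log n + 1 := by
    have := Nat.ceil_lt_add_one (show 0 ≤ (2 * X + 2) / Real.log n by positivity)
    linarith
  have hXY : X ≤ Y / 8 := by
    rw [hX]
    have : 0 ≤ Y := by positivity
    gcongr
  have hmr' : (m : ℝ) ≤ X := by
    have h1 : (2 * X + 2) / Real.log n ≤ (2 * X + 2) / 8 := by
      apply div_le_div_of_nonneg_left (by linarith) (by norm_num) hl
    linarith
  have hmr : (m : ℝ) ≤ r := by linarith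
  have hmr2 : m ≤ r := by exact_mod_cast hmr
  have hr4 : (r : ℝ) * 4 ≤ n := by linarith
  have hr4' : r * 4 ≤ n := by exact_mod_cast hr4
  have hmlog : 2 * X + 2 ≤ m * Real.log n := by
    rwa [div_le_iff₀ hl0] at hm1
  have hmlog2 : m * Real.log n ≤ 3 * X := by
    have : (m : ℝ) * Real.log n ≤ ((2 * X + 2) / Real.log n + 1) * Real.log n := by gcongr
    have e : ((2 * X + 2) / Real.log n + 1) * Real.log n = 2 * X + 2 + Real.log n := by
      field_simp
    rw [e] at this
    have h2 : Real.log n + 2 ≤ X := by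
      rw [hX, le_div_iff₀ hC0]
      have h3 : 2 * C0 * Real.log n ≤ Y := hf
      have h4 : 0 ≤ C0 * (Real.log n - 2) := mul_nonneg hC0.le (by linarith)
      linarith
    linarith
  refine ⟨N, m, X, by linarith, hN100, ?_, hn, ?_, by omega, by omega, hmr2, by omega,
    ?_, ?_, ?_, ?_⟩
  · have : ((2 * (12096 * N) : ℕ) : ℝ) ≤ n := by
      push_cast
      linarith
    exact_mod_cast this
  · intro j hj
    by_contra hcon
    push Not at hcon
    have h1 : N * (r + 1) ≤ N * j := Nat.mul_le_mul_left _ hcon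
    have h2 : n < (n / r + 1) * r := by
      have := Nat.lt_div_mul_add hrpos' (a := n)
      nlinarith
    have h3 : N * (r + 1) = N * r + N := by ring
    rw [← hN] at h2
    omega
  · have h1 : Fintype.card (Tup m n) ≤ n ^ m := by
      have : Fintype.card (Tup m n) = n.descFactorial m := by
        simp only [Tup, Fintype.card_embedding_eq, Fintype.card_fin]
      rw [this]
      exact Nat.descFactorial_le_pow n m
    calc (Fintype.card (Tup m n) : ℝ) ≤ (n : ℝ) ^ m := by exact_mod_cast h1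
      _ = Real.exp (m * Real.log n) := by
          rw [Real.exp_nat_mul, Real.exp_log hn0]
      _ ≤ _ := Real.exp_le_exp.mpr hmlog2
  · have h1 : (n / 2 + 1 - m) ^ m ≤ (n / 2).descFactorial m := Nat.pow_sub_le_descFactorial _ _
    have h2 : n ≤ 4 * (n / 2 + 1 - m) := by omega
    have h3' : (n : ℝ) / 4 ≤ ((n / 2 + 1 - m : ℕ) : ℝ) := by
      rw [div_le_iff₀ (by norm_num)]
      have : (n : ℝ) ≤ ((4 * (n / 2 + 1 - m) : ℕ) : ℝ) := by exact_mod_cast h2
      push_cast at this ⊢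
      linarith
    have hlog4 : Real.log n / 2 ≤ Real.log (n / 4) := by
      rw [Real.log_div hn0.ne' (by norm_num)]
      have : Real.log 4 ≤ 3 := by
        have := Real.log_le_sub_one_of_pos (show (0 : ℝ) < 4 by norm_num)
        linarith
      linarith
    have hlog2 : Real.log 2 ≤ 1 := by
      have := Real.log_le_sub_one_of_pos (show (0 : ℝ) < 2 by norm_num)
      linarith
    calc 2 * Real.exp X = Real.exp (Real.log 2 + X) := by
          rw [Real.exp_add, Real.exp_log (by norm_num)]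
      _ ≤ Real.exp (m * Real.log (n / 4)) := by
          apply Real.exp_le_exp.mpr
          have : (m : ℝ) * (Real.log n / 2) ≤ m * Real.log (n / 4) := by gcongr
          linarith
      _ = ((n : ℝ) / 4) ^ m := by
          rw [Real.exp_nat_mul, Real.exp_log (by positivity)]
      _ ≤ ((n / 2 + 1 - m : ℕ) : ℝ) ^ m := by gcongr
      _ ≤ _ := by exact_mod_cast h1
  · rw [← Real.exp_add]
    apply Real.exp_le_exp.mpr
    have h1 : (n : ℝ) ^ (1 - δ) ≤ X / 4 := by
      rw [hX, div_div, le_div_iff₀ (by positivity)]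
      linarith
    linarith
  · have hN0 : (0 : ℝ) < N := by
      have : (100 : ℝ) ≤ N := by exact_mod_cast hN100
      linarith
    rw [div_mul_eq_mul_div, one_mul, le_div_iff₀ (by positivity), hX, div_mul_eq_mul_div,
      div_le_iff₀ hC0, ← hYu]
    have hY0 : 0 < Y := by positivity
    have h1 : (N : ℝ) ^ 2 ≤ 9 * u ^ 2 := by
      have := pow_le_pow_left₀ hN0.le hN3 2
      nlinarith
    have h2 : Y * (2 * 336 * 12096 * (N : ℝ) ^ 2) ≤ Y * (2 * 336 * 12096 * (9 * u ^ 2)) := by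
      gcongr
    have h3 : Y * (2 * 336 * 12096 * (9 * u ^ 2)) = Y * u ^ 2 * C0 := by
      rw [C0]
      ring
    linarith

end

end Pool.Agent.R236.Exc
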