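import Pool.Agent.R236.ExcC
import Pool.Agent.H881R2.LL.HCHAR

/-!
MP_75608d_al: few exceptional eigenvalues from a gap on the low levels.
-/

namespace Pool.Agent.R236.Exc
open RC14 Finset Filter Topology
open scoped InnerProductSpace

noncomputable section

section
variable {G : Type*} [Group G]
variable {V : Type*} [NormedAddCommGroup V] [InnerProductSpace ℂ V]

/-- at most `η dim V` eigenvalues of the walk operator `P` in `ρ` are at least `1 - ε` -/
def FewAbove (ε η : ℝ) (ρ : G →* (V ≃ₗᵢ[ℂ] V)) {k : ℕ} (x : Fin k → G) : Prop :=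
  ∀ U : Submodule ℂ V, (∀ v ∈ U, (1 - ε) * ‖v‖ ^ 2 ≤ (⟪wop ρ x v, v⟫_ℂ).re) →
    (Module.finrank ℂ U : ℝ) ≤ η * Module.finrank ℂ V

lemma wop_smul (ρ : G →* (V ≃ₗᵢ[ℂ] V)) {k : ℕ} (x : Fin k → G) (a : ℂ) (v : V) :
    wop ρ x (a • v) = a • wop ρ x v := by
  unfold wop
  simp only [map_smul, ← smul_add, ← Finset.smul_sum]
  rw [smul_comm]

/-- few exceptional eigenvalues in a small representation: a gap -/
lemma gap_of_few (ε η : ℝ) (ρ : G →* (V ≃ₗᵢ[ℂ] V)) {k : ℕ} (x : Fin k → G)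
    (h : FewAbove ε η ρ x) (hd : η * Module.finrank ℂ V < 1) (v : V) :
    (⟪wop ρ x v, v⟫_ℂ).re ≤ (1 - ε) * ‖v‖ ^ 2 := by
  by_contra hcon
  push Not at hcon
  have hv : v ≠ 0 := by
    rintro rfl
    simp at hcon
  have h1 := h (Submodule.span ℂ {v}) (by
    intro w hw
    obtain ⟨a, rfl⟩ := Submodule.mem_span_singleton.1 hw
    rw [wop_smul, inner_smul_left, inner_smul_right, norm_smul, ← mul_assoc, Complex.conj_mul',
      mul_pow]
    have e : ((‖a‖ : ℂ) ^ 2 * ⟪wop ρ x v, v⟫_ℂ).re = ‖a‖ ^ 2 * (⟪wop ρ x v, v⟫_ℂ).re := by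
      rw [← Complex.ofReal_pow, Complex.re_ofReal_mul]
    rw [e]
    have h2 : 0 ≤ ‖a‖ ^ 2 := by positivity
    nlinarith)
  rw [finrank_span_singleton hv] at h1
  norm_num at h1
  linarith

end

/-- the property of the generators: in every nontrivial irreducible representation the proportion
of the eigenvalues of `P` which are `≥ 1 - ε` is at most `η`, in the irreducible representations
of dimension `< 1 / η` there are none, and the same proportion holds on `ℓ²(A_n)` -/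
def FewExceptional (n : ℕ) (ε η : ℝ) {k : ℕ} (x : Fin k → Alt n) : Prop :=
  (∀ (V : Type) [NormedAddCommGroup V] [InnerProductSpace ℂ V] [FiniteDimensional ℂ V]
    (ρ : Alt n →* (V ≃ₗᵢ[ℂ] V)), Irr ρ ⊤ → (∃ g v, ρ g v ≠ v) →
      FewAbove ε η ρ x ∧
      (η * Module.finrank ℂ V < 1 →
        ∀ v : V, (⟪wop ρ x v, v⟫_ℂ).re ≤ (1 - ε) * ‖v‖ ^ 2)) ∧
  FewAbove ε η (RR n) x

lemma FewExceptional.mono {n : ℕ} {ε η η' : ℝ} {k : ℕ} {x : Fin k → Alt n}
    (h : FewExceptional n ε η x) (hη : η ≤ η') : FewExceptional n ε η' x := by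
  have hm : ∀ {V : Type} [NormedAddCommGroup V] [InnerProductSpace ℂ V]
      (ρ : Alt n →* (V ≃ₗᵢ[ℂ] V)), FewAbove ε η ρ x → FewAbove ε η' ρ x := by
    intro V _ _ ρ h U hU
    refine (h U hU).trans ?_
    gcongr
  refine ⟨fun V _ _ _ ρ h1 h2 => ⟨hm ρ (h.1 V ρ h1 h2).1, fun hd => (h.1 V ρ h1 h2).2 ?_⟩,
    hm _ h.2⟩
  refine lt_of_le_of_lt ?_ hd
  gcongr

/-- the deterministic statement -/
theorem few_of_good (n k : ℕ) (hk : 1 ≤ k) (r : ℕ) (c η : ℝ) (hc : 0 < c) (hc1 : c ≤ 1)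
    (x : Fin k → Alt n) (hx : Good1 n r c x) (N m : ℕ) (X : ℝ) (hX : 1 ≤ X) (hN : 100 ≤ N)
    (hNn : 2 * (12096 * N) ≤ n) (hn : 1000 ≤ n) (hNj : ∀ j, N * j ≤ n → j ≤ r)
    (hr : r + 2 ≤ n) (hm : m ≤ n / 2) (hmr : m ≤ r) (hmn : m + 2 ≤ n)
    (hT : (Fintype.card (Tup m n) : ℝ) ≤ Real.exp (3 * X))
    (hF : 2 * Real.exp X ≤ ((n / 2).descFactorial m : ℝ))
    (hη : Real.exp (-(X / 2)) * Real.exp 1 ≤ η)
    (hXN : X ≤ 1 / (2 * 336 * 12096 * (N : ℝ) ^ 2) * n) :
    FewExceptional n (c / (100 * k)) η x := by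
  have hk0 : (0 : ℝ) < k := by exact_mod_cast hk
  have hη0 : 0 ≤ η := le_trans (by positivity) hη
  have hgapm : ∀ f : RC14.V m n, ∑ a, f a = 0 → c * ‖f‖ ^ 2 ≤ En (repA m n) x f :=
    FRV n m k hmn x c fun j h1 h2 => hx j h1 (h2.trans hmr)
  -- the energy on the exceptional space
  have hE : ∀ {V : Type} [NormedAddCommGroup V] [InnerProductSpace ℂ V] [FiniteDimensional ℂ V]
      (ρ : Alt n →* (V ≃ₗᵢ[ℂ] V)) (v : V),
      (1 - c / (100 * k)) * ‖v‖ ^ 2 ≤ (⟪wop ρ x v, v⟫_ℂ).re →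
      En ρ x v ≤ 2 * k * (c / (100 * k)) * ‖v‖ ^ 2 := by
    intro V _ _ _ ρ v h
    have h1 := wop_energy ρ hk x v
    have h2 : En ρ x v / (2 * k) ≤ c / (100 * k) * ‖v‖ ^ 2 := by
      rw [← h1]
      linarith
    rw [div_le_iff₀ (by positivity)] at h2
    linarith
  have hhigh : ∀ {V : Type} [NormedAddCommGroup V] [InnerProductSpace ℂ V]
      [FiniteDimensional ℂ V] (ρ : Alt n →* (V ≃ₗᵢ[ℂ] V)),
      (∀ g : Alt n, nfix (g : Equiv.Perm (Fin n)) ≤ n / 2 →
        ‖chr ρ g‖ ≤ Real.exp (-X) * Module.finrank ℂ V) →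
      FewAbove (c / (100 * k)) η ρ x := by
    intro V _ _ _ ρ hch U hU
    have h1 := exc_high n m k X hX ρ hch hm hT hF hk c hc hc1 x hgapm U
      fun v hv => hE ρ v (hU v hv)
    refine h1.trans ?_
    gcongr
  have hirr : ∀ (V : Type) [NormedAddCommGroup V] [InnerProductSpace ℂ V]
      [FiniteDimensional ℂ V] (ρ : Alt n →* (V ≃ₗᵢ[ℂ] V)), Irr ρ ⊤ → (∃ g v, ρ g v ≠ v) →
      FewAbove (c / (100 * k)) η ρ x := by
    intro V _ _ _ ρ hirr hnt
    by_cases hno : ∀ K : Finset (Fin n), N * K.card ≤ n → ∀ v : V,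
      (∀ h : Alt n, (∀ a ∈ K, (h : Equiv.Perm (Fin n)) a = a) → ρ h v = v) → v = 0
    · refine hhigh ρ fun g hg => ?_
      have hm' : 36 * (n / (12096 * N)) ≤ n := by
        calc 36 * (n / (12096 * N)) ≤ (12096 * N) * (n / (12096 * N)) :=
              Nat.mul_le_mul_right _ (by omega)
          _ ≤ n := Nat.mul_div_le _ _
      have key := LL14.HIGHN N hN n hn ρ hirr hno g (by omega) (n / (12096 * N)) hm'
      have hd : (0 : ℝ) ≤ Module.finrank ℂ V := Nat.cast_nonneg _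
      refine (pow_le_pow_iff_left₀ (norm_nonneg _) (by positivity) two_ne_zero).mp
        (key.trans ?_)
      rw [mul_pow]
      refine mul_le_mul_of_nonneg_right ((LL14.HCHARx.num N n hN hNn).trans ?_) (by positivity)
      apply pow_le_pow_left₀ (Real.exp_pos _).le
      apply Real.exp_le_exp.mpr
      linarith
    · push Not at hno
      obtain ⟨K, hK, v0, hinv, hv0⟩ := hno
      have hKr := hNj _ hK
      have hj : K.card + 2 ≤ n := by omega
      intro U hU
      have hg := low_gap hj (K.orderEmbOfFin rfl).toEmbedding ρ hirr hnt v0 hv0 (by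
        intro h hh
        apply hinv
        intro a ha
        have h1 : a ∈ Set.range (K.orderEmbOfFin rfl) := by
          rw [Finset.range_orderEmbOfFin]
          exact ha
        obtain ⟨i, rfl⟩ := h1
        exact DFunLike.congr_fun hh i) x c
        (FRV n K.card k hj x c fun j h1 h2 => hx j h1 (h2.trans hKr))
      have hU0 : U = ⊥ := by
        rw [Submodule.eq_bot_iff]
        intro v hv
        have h1 := hg v
        have h2 := hE ρ v (hU v hv)
        have h3 : 2 * k * (c / (100 * k)) * ‖v‖ ^ 2 = c / 50 * ‖v‖ ^ 2 := by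
          field_simp
          ring
        rw [h3] at h2
        by_contra hv0
        have h4 : 0 < ‖v‖ ^ 2 := by
          have := norm_pos_iff.2 hv0
          positivity
        have h5 : c * ‖v‖ ^ 2 ≤ c / 50 * ‖v‖ ^ 2 := h1.trans h2
        have h6 : 0 < c * ‖v‖ ^ 2 := by positivity
        linarith
      rw [hU0, finrank_bot]
      simp only [Nat.cast_zero]
      positivity
  refine ⟨fun V _ _ _ ρ h1 h2 => ⟨hirr V ρ h1 h2, fun hd =>
    gap_of_few _ _ ρ x (hirr V ρ h1 h2) hd⟩, hhigh (RR n) fun g hg => ?_⟩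
  have hg1 : g ≠ 1 := by
    rintro rfl
    rw [Subgroup.coe_one, nfix_one] at hg
    omega
  rw [chr_RR g hg1, norm_zero]
  positivity

end

end Pool.Agent.R236.Exc
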