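import Mathlib

/-!
The nonstationary-type ideal on the least cardinal `κ` with `2 ^ κ > 𝔠`, by hand: the ideal of sets
carrying a regressive function with small fibres. It contains a selector of every family of
disjoint pairs and `κ` pairwise disjoint sets lie outside it.
-/

namespace Pool.Agent.R236.NS

open Cardinal Set

/-- the least cardinal with `2 ^ κ > 𝔠` -/
noncomputable def kap : Cardinal.{0} := sInf {κ | 𝔠 < 2 ^ κ}

theorem kap_spec : 𝔠 < 2 ^ kap := csInf_mem (s := {κ : Cardinal.{0} | 𝔠 < 2 ^ κ}) ⟨𝔠, cantor 𝔠⟩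

theorem pow_le_of_lt {μ : Cardinal.{0}} (h : μ < kap) : 2 ^ μ ≤ 𝔠 := by
  by_contra hcon
  exact absurd (csInf_le' (s := {κ : Cardinal.{0} | 𝔠 < 2 ^ κ}) (not_le.1 hcon)) (not_le.2 h)

theorem kap_le : kap ≤ 𝔠 := csInf_le' (s := {κ : Cardinal.{0} | 𝔠 < 2 ^ κ}) (cantor 𝔠)

theorem aleph0_lt_kap : ℵ₀ < kap := by
  by_contra hcon
  have h1 : (2 : Cardinal.{0}) ^ kap ≤ 2 ^ ℵ₀ :=
    Cardinal.power_le_power_left two_ne_zero (not_lt.1 hcon)
  rw [two_power_aleph0] at h1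
  exact absurd kap_spec (not_lt.2 h1)

/-- a small union of small sets is small. -/
theorem iUnion_lt {ι α : Type} (A : ι → Set α) (hι : #ι < kap) (hA : ∀ i, #(A i) < kap) :
    #(⋃ i, A i) < kap := by
  by_contra hcon
  have h1 : kap ≤ sum fun i => #(A i) := (not_lt.1 hcon).trans mk_iUnion_le_sum_mk
  have h2 : (2 : Cardinal.{0}) ^ kap ≤ 2 ^ sum fun i => #(A i) :=
    Cardinal.power_le_power_left two_ne_zero h1
  rw [power_sum] at h2
  have h3 : (prod fun i => (2 : Cardinal.{0}) ^ #(A i)) ≤ prod fun _ : ι => (𝔠 : Cardinal.{0}) :=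
    prod_le_prod _ _ fun i => pow_le_of_lt (hA i)
  rw [prod_const', ← two_power_aleph0, ← power_mul] at h3
  have h4 : (2 : Cardinal.{0}) ^ (ℵ₀ * #ι) ≤ 𝔠 :=
    pow_le_of_lt (mul_lt_of_lt aleph0_lt_kap.le aleph0_lt_kap hι)
  exact absurd kap_spec (not_lt.2 ((h2.trans h3).trans h4))

/-- a set of order type `κ`. -/
abbrev W : Type := kap.ord.ToType

theorem mk_W : #W = kap := by simp

theorem mk_Iio_lt' (w : W) : #(Iio w) < kap := by
  simpa using Cardinal.mk_Iio_lt w (by simp)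

theorem mk_Iic_lt (w : W) : #(Iic w) < kap := by
  have h1 : #(Iic w) ≤ #(Iio w) + 1 := by
    rw [← Iio_insert]
    exact mk_insert_le
  exact lt_of_le_of_lt h1 (add_lt_of_lt aleph0_lt_kap.le (mk_Iio_lt' w)
    (one_lt_aleph0.trans aleph0_lt_kap))

/-- small sets are bounded. -/
theorem bounded_of_small (A : Set W) (hA : #A < kap) : ∃ b : W, ∀ a ∈ A, a < b := by
  by_contra hcon
  push Not at hcon
  have h1 : (univ : Set W) ⊆ ⋃ a : A, Iic a.1 := by
    intro w _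
    obtain ⟨a, ha, hwa⟩ := hcon w
    exact mem_iUnion.2 ⟨⟨a, ha⟩, hwa⟩
  have h2 : #(⋃ a : A, Iic a.1) < kap := iUnion_lt _ hA fun a => mk_Iic_lt a.1
  have h3 := mk_le_mk_of_subset h1
  rw [mk_univ, mk_W] at h3
  exact absurd h2 (not_lt.2 h3)

theorem exists_bound_seq (s : ℕ → W) : ∃ b : W, ∀ n, s n < b := by
  obtain ⟨b, hb⟩ := bounded_of_small (range s) (lt_of_le_of_lt mk_range_le (by simpa using aleph0_lt_kap))
  exact ⟨b, fun n => hb _ ⟨n, rfl⟩⟩

/-- The ideal. -/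
def J (A : Set W) : Prop :=
  ∃ g : W → W, (∀ a ∈ A, g a < a) ∧ ∀ γ, #(A ∩ g ⁻¹' {γ} : Set W) < kap

theorem J_mono {A B : Set W} (h : A ⊆ B) (hB : J B) : J A := by
  obtain ⟨g, hg1, hg2⟩ := hB
  exact ⟨g, fun a ha => hg1 a (h ha), fun γ =>
    lt_of_le_of_lt (mk_le_mk_of_subset (inter_subset_inter_left _ h)) (hg2 γ)⟩

theorem J_empty : J ∅ := ⟨id, by simp, fun γ => by
  simpa using lt_trans aleph0_pos aleph0_lt_kap⟩

/-- normality. -/
theorem J_normal {A : Set W} (f : W → W) (hf : ∀ a ∈ A, f a < a)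
    (h : ∀ γ, J (A ∩ f ⁻¹' {γ})) : J A := by
  choose g hg1 hg2 using h
  refine ⟨fun a => max (f a) (g (f a) a), fun a ha => max_lt (hf a ha) (hg1 _ a ⟨ha, rfl⟩), ?_⟩
  intro δ
  have h1 : (A ∩ (fun a => max (f a) (g (f a) a)) ⁻¹' {δ} : Set W) ⊆
      ⋃ γ : Iic δ, ⋃ ε : Iic δ, ((A ∩ f ⁻¹' {γ.1}) ∩ g γ.1 ⁻¹' {ε.1}) := by
    rintro a ⟨ha, had⟩
    simp only [mem_preimage, mem_singleton_iff] at had
    exact mem_iUnion.2 ⟨⟨f a, by rw [mem_Iic, ← had]; exact le_max_left _ _⟩,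
      mem_iUnion.2 ⟨⟨g (f a) a, by rw [mem_Iic, ← had]; exact le_max_right _ _⟩,
        ⟨ha, rfl⟩, rfl⟩⟩
  refine lt_of_le_of_lt (mk_le_mk_of_subset h1) ?_
  exact iUnion_lt _ (mk_Iic_lt δ) fun γ => iUnion_lt _ (mk_Iic_lt δ) fun ε => hg2 _ _

theorem J_iUnion {A : ℕ → Set W} (h : ∀ n, J (A n)) : J (⋃ n, A n) := by
  classical
  choose g hg1 hg2 using h
  have hex : ∀ a ∈ ⋃ n, A n, ∃ n, a ∈ A n := fun a ha => mem_iUnion.1 ha
  let N : W → ℕ := fun a => if h : ∃ n, a ∈ A n then h.choose else 0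
  have hN : ∀ a ∈ ⋃ n, A n, a ∈ A (N a) := by
    intro a ha
    have h := hex a ha
    simp only [N]
    rw [dif_pos h]
    exact h.choose_spec
  refine ⟨fun a => g (N a) a, fun a ha => hg1 _ a (hN a ha), fun γ => ?_⟩
  have h1 : ((⋃ n, A n) ∩ (fun a => g (N a) a) ⁻¹' {γ} : Set W) ⊆
      ⋃ n, (A n ∩ g n ⁻¹' {γ}) := by
    rintro a ⟨ha, hag⟩
    exact mem_iUnion.2 ⟨N a, hN a ha, hag⟩
  refine lt_of_le_of_lt (mk_le_mk_of_subset h1) ?_
  exact iUnion_lt _ (by simpa using aleph0_lt_kap) fun n => hg2 n γ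

theorem J_union {A B : Set W} (hA : J A) (hB : J B) : J (A ∪ B) := by
  have : A ∪ B ⊆ ⋃ n : ℕ, (if n = 0 then A else B) := by
    rintro x (hx | hx)
    · exact mem_iUnion.2 ⟨0, by simpa using hx⟩
    · exact mem_iUnion.2 ⟨1, by simpa using hx⟩
  refine J_mono this (J_iUnion fun n => ?_)
  split_ifs
  · exact hA
  · exact hB

/-- points of countable cofinality. -/
def Sω : Set W := {w | ∃ s : ℕ → W, (∀ n, s n < w) ∧ ∀ v < w, ∃ n, v < s n}

/-- The points of countable cofinality above `β` are not in the ideal. -/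
theorem Sω_not_J (β : W) : ¬ J (Sω ∩ Ioi β) := by
  rintro ⟨g, hg1, hg2⟩
  set A := Sω ∩ Ioi β with hA
  -- the bounding function
  have hbd : ∀ x : W, ∃ b : W, x < b ∧ ∀ a ∈ A, g a ≤ x → a < b := by
    intro x
    have h1 : #(⋃ γ : Iic x, (A ∩ g ⁻¹' {γ.1})) < kap :=
      iUnion_lt _ (mk_Iic_lt x) fun γ => hg2 _
    obtain ⟨b, hb⟩ := bounded_of_small _ h1
    obtain ⟨b', hb'⟩ := bounded_of_small {x, b} (lt_of_lt_of_le
      (lt_aleph0_of_finite _) aleph0_lt_kap.le)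
    refine ⟨b', hb' x (by simp), fun a ha hga => ?_⟩
    have h2 : a < b := hb a (mem_iUnion.2 ⟨⟨g a, hga⟩, ha, rfl⟩)
    exact h2.trans (hb' b (by simp))
  choose b hb1 hb2 using hbd
  let s : ℕ → W := fun n => b^[n] β
  have hs : ∀ n, s (n + 1) = b (s n) := fun n => Function.iterate_succ_apply' b n β
  obtain ⟨v, hv⟩ := exists_bound_seq s
  obtain ⟨w, hw1, hw2⟩ := WellFounded.has_min (wellFounded_lt : WellFounded ((· < ·) : W → W → Prop))
    {v | ∀ n, s n < v} ⟨v, hv⟩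
  have hwS : w ∈ Sω := by
    refine ⟨s, hw1, fun v hv => ?_⟩
    by_contra hcon
    push Not at hcon
    refine hw2 v (fun n => ?_) hv
    calc s n < s (n + 1) := by rw [hs]; exact hb1 _
      _ ≤ v := hcon _
  have hwA : w ∈ A := ⟨hwS, hw1 0⟩
  have h3 := hg1 w hwA
  have h4 : ∃ n, g w ≤ s n := by
    by_contra hcon
    push Not at hcon
    exact hw2 (g w) hcon h3
  obtain ⟨n, hn⟩ := h4
  have h5 := hb2 (s n) w hwA hn
  rw [← hs] at h5
  exact absurd (hw1 (n + 1)) (not_lt.2 h5.le)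

/-- `κ` many disjoint sets outside the ideal, as fibres of one function. -/
theorem exists_split : ∃ (f : W → W) (Γ : Set W), #Γ = kap ∧ ∀ γ ∈ Γ, ¬ J (f ⁻¹' {γ}) := by
  classical
  -- ladders
  have hl : ∀ w : W, ∃ s : ℕ → W, w ∈ Sω → (∀ n, s n < w) ∧ ∀ v < w, ∃ n, v < s n := by
    intro w
    by_cases hw : w ∈ Sω
    · obtain ⟨s, hs⟩ := hw
      exact ⟨s, fun _ => hs⟩
    · exact ⟨fun _ => w, fun h => absurd h hw⟩
  choose s hs using hl
  have hn : ∃ n, ∀ β : W, ¬ J (Sω ∩ {w | β ≤ s w n}) := by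
    by_contra hcon
    push Not at hcon
    choose β hβ using hcon
    obtain ⟨b, hb⟩ := exists_bound_seq β
    apply Sω_not_J b
    refine J_mono ?_ (J_iUnion hβ)
    rintro w ⟨hw1, hw2⟩
    obtain ⟨n, hn⟩ := (hs w hw1).2 b hw2
    exact mem_iUnion.2 ⟨n, hw1, ((hb n).trans hn).le⟩
  obtain ⟨n, hn⟩ := hn
  have hf : ∀ w ∈ Sω, s w n < w := fun w hw => (hs w hw).1 n
  refine ⟨fun w => s w n, {γ | ¬ J (Sω ∩ (fun w => s w n) ⁻¹' {γ})}, ?_, ?_⟩
  · by_contra hne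
    have hlt : #({γ | ¬ J (Sω ∩ (fun w => s w n) ⁻¹' {γ})} : Set W) < kap := by
      refine lt_of_le_of_ne ?_ hne
      rw [← mk_W]
      exact mk_set_le _
    obtain ⟨b, hb⟩ := bounded_of_small _ hlt
    apply hn b
    refine J_normal (fun w => s w n) (fun w hw => hf w hw.1) fun γ => ?_
    by_cases hγ : b ≤ γ
    · have h1 : J (Sω ∩ (fun w => s w n) ⁻¹' {γ}) := by
        by_contra hcon
        exact absurd (hb γ hcon) (not_lt.2 hγ)
      exact J_mono (by rintro w ⟨⟨h1, _⟩, h2⟩; exact ⟨h1, h2⟩) h1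
    · have h1 : (Sω ∩ {w | b ≤ s w n}) ∩ (fun w => s w n) ⁻¹' {γ} = ∅ := by
        ext w
        simp only [mem_inter_iff, mem_preimage, mem_singleton_iff, mem_empty_iff_false, iff_false,
          mem_ofPred_eq]
        rintro ⟨⟨_, h2⟩, h3⟩
        exact hγ (by rwa [h3] at h2)
      rw [h1]
      exact J_empty
  · intro γ hγ hcon
    exact hγ (J_mono inter_subset_right hcon)

end Pool.Agent.R236.NS
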