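import Mathlib

/-!
Quaternion algebras over polynomial rings: the algebra needed to show that the class of subdirect
products of division rings is not first order axiomatizable.
-/

namespace Pool.Agent.R236.SD

open Polynomial Cardinal

universe u v

/-! ### Amitsur's trick for division algebras over the complex numbers -/

section Amitsur

variable {E : Type v} [DivisionRing E] [Algebra ℂ E]

lemma aeval_ne_zero {e : E} (h : ∀ c : ℂ, e - algebraMap ℂ E c ≠ 0) :
    ∀ (n : ℕ) (P : ℂ[X]), P.natDegree = n → P ≠ 0 → aeval e P ≠ 0 := by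
  intro n
  induction n with
  | zero =>
    intro P hP h0
    rw [eq_C_of_natDegree_eq_zero hP] at h0 ⊢
    rw [aeval_C]
    intro h1
    apply h0
    rw [(map_eq_zero_iff (algebraMap ℂ E) (algebraMap ℂ E).injective).mp h1, map_zero]
  | succ n ih =>
    intro P hP h0
    obtain ⟨c, hc⟩ := IsAlgClosed.exists_root P (by
      rw [degree_eq_natDegree h0, hP]; exact_mod_cast Nat.succ_ne_zero n)
    obtain ⟨Q, hQ⟩ := dvd_iff_isRoot.mpr hc
    have hQ0 : Q ≠ 0 := by
      rintro rfl
      rw [mul_zero] at hQ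
      exact h0 hQ
    have hdeg : Q.natDegree = n := by
      have := natDegree_mul (X_sub_C_ne_zero c) hQ0
      rw [← hQ, hP, natDegree_X_sub_C] at this
      omega
    rw [hQ, map_mul, map_sub, aeval_X, aeval_C]
    exact mul_ne_zero (h c) (ih Q hdeg hQ0)

lemma linInd {e : E} (h : ∀ c : ℂ, e - algebraMap ℂ E c ≠ 0) :
    LinearIndependent ℂ (fun c : ℂ => (e - algebraMap ℂ E c)⁻¹) := by
  rw [linearIndependent_iff']
  intro s g hg i hi
  have h1 : aeval e (∑ k ∈ s, C (g k) * ∏ j ∈ s.erase k, (X - C j)) = 0 := by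
    have h2 : aeval e (∑ k ∈ s, C (g k) * ∏ j ∈ s.erase k, (X - C j))
        = aeval e (∏ j ∈ s, (X - C j)) * ∑ k ∈ s, g k • (e - algebraMap ℂ E k)⁻¹ := by
      rw [map_sum, Finset.mul_sum]
      refine Finset.sum_congr rfl fun k hk => ?_
      rw [← Finset.prod_erase_mul s _ hk, map_mul, map_mul, aeval_C, mul_smul_comm, mul_assoc,
        map_sub, aeval_X, aeval_C, mul_inv_cancel₀ (h k), mul_one, Algebra.smul_def]
    rw [h2, hg, mul_zero]
  have h2 : (∑ k ∈ s, C (g k) * ∏ j ∈ s.erase k, (X - C j)) = (0 : ℂ[X]) := by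
    by_contra h0
    exact aeval_ne_zero h _ _ rfl h0 h1
  have h3 := congrArg (eval i) h2
  rw [eval_finsetSum, eval_zero, Finset.sum_eq_single i] at h3
  · rw [eval_mul, eval_C, eval_prod] at h3
    rcases mul_eq_zero.mp h3 with h4 | h4
    · exact h4
    · exfalso
      rw [Finset.prod_eq_zero_iff] at h4
      obtain ⟨j, hj, hj'⟩ := h4
      rw [eval_sub, eval_X, eval_C, sub_eq_zero] at hj'
      exact (Finset.mem_erase.mp hj).1 hj'.symm
  · intro k _ hki
    rw [eval_mul, eval_prod, Finset.prod_eq_zero (i := i) (Finset.mem_erase.mpr ⟨hki.symm, hi⟩),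
      mul_zero]
    rw [eval_sub, eval_X, eval_C, sub_self]
  · intro h4
    exact absurd hi h4

lemma eq_algebraMap (hr : Module.rank ℂ E ≤ ℵ₀) (e : E) : ∃ c : ℂ, e = algebraMap ℂ E c := by
  by_contra h
  push Not at h
  have h1 := (linInd (fun c => sub_ne_zero.mpr (h c))).cardinal_lift_le_rank
  rw [Cardinal.mk_complex, Cardinal.lift_continuum] at h1
  have h2 : Cardinal.lift.{0} (Module.rank ℂ E) ≤ ℵ₀ := by
    rw [Cardinal.lift_uzero]; exact hr
  exact absurd (h1.trans h2) (not_le.mpr Cardinal.aleph0_lt_continuum)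

end Amitsur

/-! ### The rings -/

/-- The base ring `ℂ[s][t]`. -/
abbrev A : Type := ℂ[X][X]

/-- The element `s`. -/
noncomputable abbrev sA : A := Polynomial.C Polynomial.X

/-- The element `t`. -/
noncomputable abbrev tA : A := Polynomial.X

/-- The quaternion algebra `(s, t)` over `ℂ[s][t][X]`. -/
abbrev Q (V : Type u) : Type u :=
  QuaternionAlgebra (MvPolynomial V A) (MvPolynomial.C sA) 0 (MvPolynomial.C tA)

section qmap

variable {R : Type*} {S : Type*} {T : Type*} [CommRing R] [CommRing S] [CommRing T]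

/-- A ring homomorphism of the base rings induces one of quaternion algebras. -/
def qmap (f : R →+* S) {a b : R} {a' b' : S} (ha : f a = a') (hb : f b = b') :
    QuaternionAlgebra R a 0 b →+* QuaternionAlgebra S a' 0 b' where
  toFun q := ⟨f q.re, f q.imI, f q.imJ, f q.imK⟩
  map_one' := by ext <;> simp
  map_zero' := by ext <;> simp
  map_add' x y := by ext <;> simp
  map_mul' x y := by ext <;> simp [← ha, ← hb]

lemma qmap_re (f : R →+* S) {a b : R} {a' b' : S} (ha : f a = a') (hb : f b = b')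
    (q : QuaternionAlgebra R a 0 b) : (qmap f ha hb q).re = f q.re := rfl

lemma qmap_imI (f : R →+* S) {a b : R} {a' b' : S} (ha : f a = a') (hb : f b = b')
    (q : QuaternionAlgebra R a 0 b) : (qmap f ha hb q).imI = f q.imI := rfl

lemma qmap_imJ (f : R →+* S) {a b : R} {a' b' : S} (ha : f a = a') (hb : f b = b')
    (q : QuaternionAlgebra R a 0 b) : (qmap f ha hb q).imJ = f q.imJ := rfl

lemma qmap_imK (f : R →+* S) {a b : R} {a' b' : S} (ha : f a = a') (hb : f b = b')
    (q : QuaternionAlgebra R a 0 b) : (qmap f ha hb q).imK = f q.imK := rfl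

end qmap

/-! ### The norm form is anisotropic -/

lemma sq_eq_X_mul_sq {a b : ℂ[X]} (h : a ^ 2 = X * b ^ 2) : a = 0 ∧ b = 0 := by
  by_cases hb : b = 0
  · subst hb
    refine ⟨?_, rfl⟩
    have : a ^ 2 = 0 := by rw [h]; ring
    exact pow_eq_zero_iff (two_ne_zero) |>.mp this
  · exfalso
    have h1 := congrArg natDegree h
    rw [natDegree_pow, natDegree_mul X_ne_zero (pow_ne_zero 2 hb), natDegree_pow, natDegree_X] at h1
    omega

/-- The degree of `p ^ 2 - s q ^ 2` is even. -/
lemma even_natDegree {p q : A} (h : p ≠ 0 ∨ q ≠ 0) :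
    p ^ 2 - sA * q ^ 2 ≠ 0 ∧ Even (p ^ 2 - sA * q ^ 2).natDegree := by
  set m := max p.natDegree q.natDegree with hm
  have hp : p.natDegree ≤ m := le_max_left _ _
  have hq : q.natDegree ≤ m := le_max_right _ _
  have hc : (p ^ 2 - sA * q ^ 2).coeff (2 * m) = p.coeff m ^ 2 - X * q.coeff m ^ 2 := by
    rw [coeff_sub, coeff_C_mul]
    rw [coeff_pow_of_natDegree_le hp, coeff_pow_of_natDegree_le hq]
  have hne : p.coeff m ^ 2 - X * q.coeff m ^ 2 ≠ 0 := by
    intro h0
    obtain ⟨h1, h2⟩ := sq_eq_X_mul_sq (sub_eq_zero.mp h0)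
    rcases max_choice p.natDegree q.natDegree with h3 | h3
    · rw [← hm] at h3
      rw [h3, coeff_natDegree, leadingCoeff_eq_zero] at h1
      have hq0 : q ≠ 0 := by
        rcases h with h | h
        · exact absurd h1 h
        · exact h
      have h4 : m = 0 := by rw [h3, h1, natDegree_zero]
      have h5 : q.natDegree = m := by omega
      rw [← h5, coeff_natDegree, leadingCoeff_eq_zero] at h2
      exact hq0 h2
    · rw [← hm] at h3
      rw [h3, coeff_natDegree, leadingCoeff_eq_zero] at h2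
      have hp0 : p ≠ 0 := by
        rcases h with h | h
        · exact h
        · exact absurd h2 h
      have h4 : m = 0 := by rw [h3, h2, natDegree_zero]
      have h5 : p.natDegree = m := by omega
      rw [← h5, coeff_natDegree, leadingCoeff_eq_zero] at h1
      exact hp0 h1
  have h0 : (p ^ 2 - sA * q ^ 2).coeff (2 * m) ≠ 0 := by rw [hc]; exact hne
  have hle : (p ^ 2 - sA * q ^ 2).natDegree ≤ 2 * m := by
    refine (natDegree_sub_le _ _).trans (max_le ?_ ?_)
    · exact natDegree_pow_le.trans (by omega)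
    · refine (natDegree_C_mul_le _ _).trans (natDegree_pow_le.trans (by omega))
  have heq : (p ^ 2 - sA * q ^ 2).natDegree = 2 * m :=
    le_antisymm hle (le_natDegree_of_ne_zero h0)
  refine ⟨?_, ?_⟩
  · intro h1
    rw [h1, coeff_zero] at h0
    exact h0 rfl
  · rw [heq]
    exact even_two_mul m

lemma aniso_A {a b c d : A} (h : a ^ 2 - sA * b ^ 2 = tA * (c ^ 2 - sA * d ^ 2)) :
    a = 0 ∧ b = 0 ∧ c = 0 ∧ d = 0 := by
  by_cases hcd : c ≠ 0 ∨ d ≠ 0
  · exfalso
    obtain ⟨h1, h2⟩ := even_natDegree hcd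
    have h3 : (tA * (c ^ 2 - sA * d ^ 2)).natDegree = 1 + (c ^ 2 - sA * d ^ 2).natDegree := by
      rw [natDegree_mul X_ne_zero h1, natDegree_X]
    have h4 : a ≠ 0 ∨ b ≠ 0 := by
      by_contra h5
      push Not at h5
      rw [h5.1, h5.2] at h
      have h6 : tA * (c ^ 2 - sA * d ^ 2) = 0 := by rw [← h]; ring
      exact (mul_ne_zero X_ne_zero h1) h6
    obtain ⟨_, h6⟩ := even_natDegree h4
    rw [h, h3] at h6
    rw [Nat.even_add] at h6
    exact absurd (h6.mpr h2) (by decide)
  · push Not at hcd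
    rw [hcd.1, hcd.2] at h
    have h1 : a ^ 2 - sA * b ^ 2 = 0 := by rw [h]; ring
    by_contra h2
    have h3 : a ≠ 0 ∨ b ≠ 0 := by
      by_contra h4
      push Not at h4
      exact h2 ⟨h4.1, h4.2, hcd.1, hcd.2⟩
    exact (even_natDegree h3).1 h1

/-- The fraction field of `ℂ[s][t]`. -/
abbrev L : Type := FractionRing A

/-- The element `s`. -/
noncomputable abbrev sL : L := algebraMap A L sA

/-- The element `t`. -/
noncomputable abbrev tL : L := algebraMap A L tA

lemma aniso_L {a b c d : L} (h : a ^ 2 - sL * b ^ 2 = tL * (c ^ 2 - sL * d ^ 2)) :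
    a = 0 ∧ b = 0 ∧ c = 0 ∧ d = 0 := by
  obtain ⟨a1, a2, ha2, rfl⟩ := IsFractionRing.div_surjective (A := A) a
  obtain ⟨b1, b2, hb2, rfl⟩ := IsFractionRing.div_surjective (A := A) b
  obtain ⟨c1, c2, hc2, rfl⟩ := IsFractionRing.div_surjective (A := A) c
  obtain ⟨d1, d2, hd2, rfl⟩ := IsFractionRing.div_surjective (A := A) d
  have ha : algebraMap A L a2 ≠ 0 := IsFractionRing.to_map_ne_zero_of_mem_nonZeroDivisors ha2
  have hb : algebraMap A L b2 ≠ 0 := IsFractionRing.to_map_ne_zero_of_mem_nonZeroDivisors hb2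
  have hc : algebraMap A L c2 ≠ 0 := IsFractionRing.to_map_ne_zero_of_mem_nonZeroDivisors hc2
  have hd : algebraMap A L d2 ≠ 0 := IsFractionRing.to_map_ne_zero_of_mem_nonZeroDivisors hd2
  have ha' : a2 ≠ 0 := nonZeroDivisors.ne_zero ha2
  have hb' : b2 ≠ 0 := nonZeroDivisors.ne_zero hb2
  have hc' : c2 ≠ 0 := nonZeroDivisors.ne_zero hc2
  have hd' : d2 ≠ 0 := nonZeroDivisors.ne_zero hd2
  have key : algebraMap A L ((a1 * b2 * c2 * d2) ^ 2 - sA * (b1 * a2 * c2 * d2) ^ 2)
      = algebraMap A L (tA * ((c1 * a2 * b2 * d2) ^ 2 - sA * (d1 * a2 * b2 * c2) ^ 2)) := by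
    simp only [map_sub, map_mul, map_pow]
    field_simp at h
    linear_combination h
  have key2 := aniso_A (IsFractionRing.injective A L key)
  obtain ⟨h1, h2, h3, h4⟩ := key2
  simp only [mul_eq_zero, ha', hb', hc', hd', or_false] at h1 h2 h3 h4
  subst h1 h2 h3 h4
  simp

/-- The quaternion division algebra `(s, t)` over `ℂ(s, t)`. -/
abbrev H : Type := QuaternionAlgebra L sL 0 tL

lemma H_isUnit (q : H) : IsUnit q ∨ q = 0 := by
  by_cases hq : q = 0
  · exact Or.inr hq
  left
  have hN : (q * star q).re ≠ 0 := by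
    intro h0
    apply hq
    have h1 : (q * star q).re = q.re ^ 2 - sL * q.imI ^ 2 - tL * q.imJ ^ 2
        + sL * tL * q.imK ^ 2 := by
      simp
      ring
    rw [h1] at h0
    have h2 : q.re ^ 2 - sL * q.imI ^ 2 = tL * (q.imJ ^ 2 - sL * q.imK ^ 2) := by
      linear_combination h0
    obtain ⟨h3, h4, h5, h6⟩ := aniso_L h2
    ext1 <;> simp [h3, h4, h5, h6]
  have h1 : q * ((q * star q).re⁻¹ • star q) = 1 := by
    rw [mul_smul_comm, QuaternionAlgebra.mul_star_eq_coe, QuaternionAlgebra.re_coe,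
      QuaternionAlgebra.smul_coe, inv_mul_cancel₀ hN, QuaternionAlgebra.coe_one]
  have h2 : ((q * star q).re⁻¹ • star q) * q = 1 := by
    have h3 : star q * q = q * star q := star_comm_self' q
    rw [smul_mul_assoc, h3, QuaternionAlgebra.mul_star_eq_coe, QuaternionAlgebra.re_coe,
      QuaternionAlgebra.smul_coe, inv_mul_cancel₀ hN, QuaternionAlgebra.coe_one]
  exact ⟨⟨q, _, h1, h2⟩, rfl⟩

/-- The division ring structure on `H`. -/
noncomputable abbrev HDivRing : DivisionRing H := DivisionRing.ofIsUnitOrEqZero H_isUnit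

end Pool.Agent.R236.SD
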