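import Pool.Agent.R236.SDA

/-!
Over countably many variables every division quotient of the quaternion algebra is `ℂ`; over
`L × ℕ` variables the division quotients separate points.
-/

namespace Pool.Agent.R236.SD

open Polynomial Cardinal

universe u v

/-! ### Countable dimension -/

section rank

variable (V : Type u)

/-- The structure map. -/
noncomputable abbrev cm : ℂ →+* Q V := algebraMap ℂ (Q V)

/-- The structure map. -/
noncomputable abbrev am : MvPolynomial V A →+* Q V := algebraMap (MvPolynomial V A) (Q V)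

/-- The generators. -/
def gens : Set (Q V) :=
  Set.range (fun v : V => am V (MvPolynomial.X v)) ∪
    {am V (MvPolynomial.C sA),
      am V (MvPolynomial.C tA), ⟨0, 1, 0, 0⟩, ⟨0, 0, 1, 0⟩}

lemma gens_countable [Countable V] : (gens V).Countable := by
  refine (Set.countable_range _).union ?_
  exact (Set.toFinite _).countable

lemma algebraMap_mem (p : MvPolynomial V A) :
    am V p ∈ Algebra.adjoin ℂ (gens V) := by
  have hs : am V (MvPolynomial.C sA)
      ∈ Algebra.adjoin ℂ (gens V) := Algebra.subset_adjoin (Or.inr (by simp))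
  have ht : am V (MvPolynomial.C tA)
      ∈ Algebra.adjoin ℂ (gens V) := Algebra.subset_adjoin (Or.inr (by simp))
  have hcx : ∀ z : ℂ[X], am V
      (MvPolynomial.C (Polynomial.C z : A)) ∈ Algebra.adjoin ℂ (gens V) := by
    intro z
    induction z using Polynomial.induction_on' with
    | add p q hp hq =>
      rw [map_add, map_add, map_add]
      exact add_mem hp hq
    | monomial n a =>
      rw [← C_mul_X_pow_eq_monomial, map_mul, map_mul, map_mul, map_pow, map_pow, map_pow]
      refine mul_mem ?_ (pow_mem hs n)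
      have h1 : am V
          (MvPolynomial.C (Polynomial.C (Polynomial.C a) : A)) = cm V a := by
        have h2 : algebraMap ℂ (MvPolynomial V A) a
            = MvPolynomial.C (Polynomial.C (Polynomial.C a) : A) := by
          rw [MvPolynomial.algebraMap_apply]
          rfl
        rw [← h2]
        rfl
      rw [h1]
      exact Subalgebra.algebraMap_mem _ _
  have hcA : ∀ z : A, am V
      (MvPolynomial.C z) ∈ Algebra.adjoin ℂ (gens V) := by
    intro z
    induction z using Polynomial.induction_on' with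
    | add p q hp hq =>
      rw [map_add, map_add]
      exact add_mem hp hq
    | monomial n a =>
      rw [← C_mul_X_pow_eq_monomial, map_mul, map_mul, map_pow, map_pow]
      exact mul_mem (hcx a) (pow_mem ht n)
  induction p using MvPolynomial.induction_on with
  | C a => exact hcA a
  | add p q hp hq =>
    rw [map_add]
    exact add_mem hp hq
  | mul_X p v hp =>
    rw [map_mul]
    exact mul_mem hp (Algebra.subset_adjoin (Or.inl ⟨v, rfl⟩))

lemma adjoin_gens : Algebra.adjoin ℂ (gens V) = ⊤ := by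
  rw [eq_top_iff]
  intro q _
  have hi : (⟨0, 1, 0, 0⟩ : Q V) ∈ Algebra.adjoin ℂ (gens V) :=
    Algebra.subset_adjoin (Or.inr (by simp))
  have hj : (⟨0, 0, 1, 0⟩ : Q V) ∈ Algebra.adjoin ℂ (gens V) :=
    Algebra.subset_adjoin (Or.inr (by simp))
  have h1 : q = am V q.re
      + am V q.imI * ⟨0, 1, 0, 0⟩
      + am V q.imJ * ⟨0, 0, 1, 0⟩
      + am V q.imK * (⟨0, 1, 0, 0⟩ * ⟨0, 0, 1, 0⟩) := by
    have h0 : ∀ p : MvPolynomial V A, am V p = ⟨p, 0, 0, 0⟩ := fun p => rfl
    rw [h0, h0, h0, h0, QuaternionAlgebra.mk_mul_mk, QuaternionAlgebra.mk_mul_mk,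
      QuaternionAlgebra.mk_mul_mk, QuaternionAlgebra.mk_mul_mk, QuaternionAlgebra.mk_add_mk,
      QuaternionAlgebra.mk_add_mk, QuaternionAlgebra.mk_add_mk]
    ext1 <;> ring
  rw [h1]
  exact add_mem (add_mem (add_mem (algebraMap_mem V _) (mul_mem (algebraMap_mem V _) hi))
    (mul_mem (algebraMap_mem V _) hj)) (mul_mem (algebraMap_mem V _) (mul_mem hi hj))

lemma rank_le [Countable V] : Module.rank ℂ (Q V) ≤ ℵ₀ := by
  have h := Algebra.rank_adjoin_le (R := ℂ) (gens V)
  rw [adjoin_gens, Subalgebra.rank_top] at h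
  refine h.trans (max_le ?_ le_rfl)
  exact Cardinal.mk_le_aleph0_iff.mpr (gens_countable V)

end rank

/-- The element `k = ij`. -/
noncomputable def kk (V : Type u) : Q V := ⟨0, 0, 0, 1⟩

lemma kk_ne_zero (V : Type u) : kk V ≠ 0 := by
  intro h
  have := congrArg QuaternionAlgebra.imK h
  simp [kk] at this

/-- Division quotients of complex algebras of countable dimension are commutative. -/
lemma map_mul_comm {R : Type u} [Ring R] [Algebra ℂ R] (hR : Module.rank ℂ R ≤ ℵ₀)
    {E : Type u} [DivisionRing E] (φ : R →+* E) (hφ : Function.Surjective φ) (x y : R) :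
    φ (x * y) = φ (y * x) := by
  have hc : ∀ (c : ℂ) (z : E), (φ.comp (algebraMap ℂ R)) c * z
      = z * (φ.comp (algebraMap ℂ R)) c := by
    intro c z
    obtain ⟨q, rfl⟩ := hφ z
    rw [RingHom.comp_apply, ← map_mul, ← map_mul, Algebra.commutes]
  let inst : Algebra ℂ E := (φ.comp (algebraMap ℂ R)).toAlgebra' hc
  let ψ : R →ₐ[ℂ] E := { φ with commutes' := fun c => rfl }
  have hr : Module.rank ℂ E ≤ ℵ₀ :=
    (LinearMap.rank_le_of_surjective ψ.toLinearMap hφ).trans hR
  obtain ⟨a, ha⟩ := eq_algebraMap hr (φ x)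
  rw [map_mul, map_mul, ha, Algebra.commutes]

/-- Every surjection onto a division ring kills `k`, when there are countably many variables. -/
lemma map_kk {V : Type u} [Countable V] {E : Type u} [DivisionRing E] (φ : Q V →+* E)
    (hφ : Function.Surjective φ) : φ (kk V) = 0 := by
  have h1 : kk V = ⟨0, 1, 0, 0⟩ * ⟨0, 0, 1, 0⟩ := by
    rw [kk, QuaternionAlgebra.mk_mul_mk]
    ext1 <;> ring
  have h2 : -kk V = ⟨0, 0, 1, 0⟩ * ⟨0, 1, 0, 0⟩ := by
    rw [kk, QuaternionAlgebra.mk_mul_mk, QuaternionAlgebra.neg_mk]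
    ext1 <;> ring
  have h3 : φ (kk V) = φ (-kk V) := by
    rw [h2]
    nth_rw 1 [h1]
    exact map_mul_comm (rank_le V) φ hφ _ _
  have h4 : φ (kk V) = -φ (kk V) := h3.trans (map_neg φ (kk V))
  have h5 : φ (kk V) * 2 = 0 := by
    rw [mul_two]
    nth_rw 1 [h4]
    rw [neg_add_cancel]
  have h6 : φ (cm V (1 / 2)) * 2 = 1 := by
    have h7 : (2 : E) = (φ.comp (cm V)) 2 := (map_ofNat _ 2).symm
    have h8 : (φ.comp (cm V)) (1 / 2) * (φ.comp (cm V)) 2 = 1 := by
      rw [← map_mul, ← map_one (φ.comp (cm V))]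
      congr 1
      norm_num
    rw [h7]
    exact h8
  rcases mul_eq_zero.mp h5 with h7 | h7
  · exact h7
  · exfalso
    rw [h7, mul_zero] at h6
    exact zero_ne_one h6

/-! ### Many variables -/

lemma exists_eval_ne_zero {V : Type u} (p : MvPolynomial V A) (hp : p ≠ 0) :
    ∃ h0 : V → L, MvPolynomial.eval₂Hom (algebraMap A L) h0 p ≠ 0 := by
  by_contra h
  push Not at h
  apply hp
  have h1 : MvPolynomial.map (algebraMap A L) p = 0 := by
    refine MvPolynomial.funext fun x => ?_
    rw [MvPolynomial.eval_map, map_zero]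
    exact h x
  exact (map_eq_zero_iff _ (MvPolynomial.map_injective _ (IsFractionRing.injective A L))).mp h1

/-- The variables for the large ring. -/
abbrev W : Type u := ULift.{u} (L × ℕ)

lemma exists_eval (p : MvPolynomial W.{u} A) (hp : p ≠ 0) :
    ∃ h : W.{u} → L, MvPolynomial.eval₂Hom (algebraMap A L) h p ≠ 0 ∧
      ∀ l : L, ∃ w, h w = l := by
  classical
  obtain ⟨h0, hh⟩ := exists_eval_ne_zero p hp
  refine ⟨fun w => if w ∈ p.vars then h0 w else w.down.1, ?_, ?_⟩
  · have h1 : MvPolynomial.eval₂Hom (algebraMap A L)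
        (fun w => if w ∈ p.vars then h0 w else w.down.1) p
        = MvPolynomial.eval₂Hom (algebraMap A L) h0 p := by
      refine MvPolynomial.eval₂Hom_congr' rfl ?_ rfl
      intro i hi _
      rw [if_pos hi]
    rw [h1]
    exact hh
  · intro l
    have hinf : (Set.range (fun n : ℕ => (ULift.up (l, n) : W.{u}))).Infinite := by
      refine Set.infinite_range_of_injective ?_
      intro m n hmn
      exact (Prod.mk.inj (ULift.up.inj hmn)).2
    obtain ⟨w, ⟨n, rfl⟩, hw⟩ := hinf.exists_notMem_finset p.vars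
    refine ⟨ULift.up (l, n), ?_⟩
    simp only
    rw [if_neg hw]

/-- Every nonzero element of the large ring survives in some division quotient. -/
lemma exists_hom (q : Q W.{u}) (hq : q ≠ 0) :
    ∃ φ : Q W.{u} →+* H, Function.Surjective φ ∧ φ q ≠ 0 := by
  have h1 : ∃ p : MvPolynomial W.{u} A, p ≠ 0 ∧ (p = q.re ∨ p = q.imI ∨ p = q.imJ ∨ p = q.imK) := by
    by_contra h
    push Not at h
    apply hq
    have h2 : q.re = 0 := by
      by_contra h3
      exact (h _ h3).1 rfl
    have h3 : q.imI = 0 := by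
      by_contra h3
      exact (h _ h3).2.1 rfl
    have h4 : q.imJ = 0 := by
      by_contra h3
      exact (h _ h3).2.2.1 rfl
    have h5 : q.imK = 0 := by
      by_contra h3
      exact (h _ h3).2.2.2 rfl
    ext1 <;> simp [h2, h3, h4, h5]
  obtain ⟨p, hp, hpq⟩ := h1
  obtain ⟨h, hh, hsurj⟩ := exists_eval p hp
  have e1 : MvPolynomial.eval₂Hom (algebraMap A L) h (MvPolynomial.C sA) = sL :=
    MvPolynomial.eval₂Hom_C _ _ sA
  have e2 : MvPolynomial.eval₂Hom (algebraMap A L) h (MvPolynomial.C tA) = tL :=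
    MvPolynomial.eval₂Hom_C _ _ tA
  refine ⟨qmap (R := MvPolynomial W.{u} A) (S := L) (MvPolynomial.eval₂Hom (algebraMap A L) h)
    e1 e2, ?_, ?_⟩
  · intro x
    obtain ⟨w1, hw1⟩ := hsurj x.re
    obtain ⟨w2, hw2⟩ := hsurj x.imI
    obtain ⟨w3, hw3⟩ := hsurj x.imJ
    obtain ⟨w4, hw4⟩ := hsurj x.imK
    refine ⟨⟨MvPolynomial.X w1, MvPolynomial.X w2, MvPolynomial.X w3, MvPolynomial.X w4⟩, ?_⟩
    ext1
    · rw [qmap_re, MvPolynomial.eval₂Hom_X', hw1]
    · rw [qmap_imI, MvPolynomial.eval₂Hom_X', hw2]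
    · rw [qmap_imJ, MvPolynomial.eval₂Hom_X', hw3]
    · rw [qmap_imK, MvPolynomial.eval₂Hom_X', hw4]
  · intro h0
    apply hh
    rcases hpq with rfl | rfl | rfl | rfl
    · exact congrArg QuaternionAlgebra.re h0
    · exact congrArg QuaternionAlgebra.imI h0
    · exact congrArg QuaternionAlgebra.imJ h0
    · exact congrArg QuaternionAlgebra.imK h0

end Pool.Agent.R236.SD
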