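import Pool.Agent.R236.SDB

/-!
Elementary equivalence of the quaternion algebras over polynomial rings in infinitely many
variables.
-/

namespace Pool.Agent.R236.SD

open FirstOrder FirstOrder.Language

universe u v

/-! ### Permutations -/

lemma perm_exists {X Y : Type*} (j : X → Y) (hinf : (Set.range j).Infinite) (S : Finset Y)
    (hS : ∀ s ∈ S, s ∈ Set.range j) (B : Finset Y) :
    ∃ e : Equiv.Perm Y, (∀ s ∈ S, e s = s) ∧ ∀ b ∈ B, e b ∈ Set.range j := by
  classical
  induction B using Finset.induction_on with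
  | empty => exact ⟨Equiv.refl _, fun s _ => rfl, fun b hb => absurd hb (Finset.notMem_empty b)⟩
  | insert b B hb ih =>
    obtain ⟨e, he1, he2⟩ := ih
    by_cases hbr : e b ∈ Set.range j
    · refine ⟨e, he1, fun c hc => ?_⟩
      rcases Finset.mem_insert.mp hc with rfl | hc
      · exact hbr
      · exact he2 c hc
    · obtain ⟨y, hy, hyn⟩ := hinf.exists_notMem_finset (S ∪ B.image e)
      rw [Finset.mem_union, not_or] at hyn
      refine ⟨e.trans (Equiv.swap (e b) y), ?_, ?_⟩
      · intro s hs
        rw [Equiv.trans_apply, he1 s hs]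
        refine Equiv.swap_apply_of_ne_of_ne ?_ ?_
        · rintro rfl
          exact hbr (hS _ hs)
        · rintro rfl
          exact hyn.1 hs
      · intro c hc
        rcases Finset.mem_insert.mp hc with rfl | hc
        · rw [Equiv.trans_apply, Equiv.swap_apply_left]
          exact hy
        · rw [Equiv.trans_apply, Equiv.swap_apply_of_ne_of_ne]
          · exact he2 c hc
          · intro h
            exact hb (e.injective h ▸ hc)
          · rintro rfl
            exact hyn.2 (Finset.mem_image_of_mem e hc)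

/-! ### Functoriality -/

/-- Renaming of variables. -/
noncomputable def ren {X : Type u} {Y : Type v} (g : X → Y) : Q X →+* Q Y :=
  qmap (R := MvPolynomial X A) (S := MvPolynomial Y A) (MvPolynomial.rename g).toRingHom
    (MvPolynomial.rename_C g sA) (MvPolynomial.rename_C g tA)

lemma ren_apply {X : Type u} {Y : Type v} (g : X → Y) (q : Q X) :
    ren g q = ⟨MvPolynomial.rename g q.re, MvPolynomial.rename g q.imI,
      MvPolynomial.rename g q.imJ, MvPolynomial.rename g q.imK⟩ := rfl

lemma ren_injective {X : Type u} {Y : Type v} {g : X → Y} (hg : Function.Injective g) :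
    Function.Injective (ren g) := by
  intro p q h
  rw [ren_apply, ren_apply, QuaternionAlgebra.mk.injEq] at h
  obtain ⟨h1, h2, h3, h4⟩ := h
  have hi := MvPolynomial.rename_injective (R := A) g hg
  exact QuaternionAlgebra.ext (hi h1) (hi h2) (hi h3) (hi h4)

/-- The variables that occur. -/
noncomputable def supp {X : Type u} (q : Q X) : Finset X := by
  classical
  exact q.re.vars ∪ q.imI.vars ∪ q.imJ.vars ∪ q.imK.vars

lemma rename_congr {X : Type u} {Y : Type v} {g h : X → Y} (p : MvPolynomial X A)
    (hp : ∀ x ∈ p.vars, g x = h x) : MvPolynomial.rename g p = MvPolynomial.rename h p := by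
  refine MvPolynomial.hom_congr_vars (f₁ := (MvPolynomial.rename g).toRingHom)
    (f₂ := (MvPolynomial.rename h).toRingHom) ?_ ?_ rfl
  · refine RingHom.ext fun z => ?_
    simp
  · intro i hi _
    simp [hp i hi]

lemma ren_congr {X : Type u} {Y : Type v} {g h : X → Y} (q : Q X)
    (hq : ∀ x ∈ supp q, g x = h x) : ren g q = ren h q := by
  classical
  rw [ren_apply, ren_apply]
  simp only [supp, Finset.mem_union] at hq
  rw [rename_congr q.re (fun x hx => hq x (by tauto)),
    rename_congr q.imI (fun x hx => hq x (by tauto)),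
    rename_congr q.imJ (fun x hx => hq x (by tauto)),
    rename_congr q.imK (fun x hx => hq x (by tauto))]

lemma ren_ren {X Y Z : Type u} (g : X → Y) (h : Y → Z) (q : Q X) :
    ren h (ren g q) = ren (h ∘ g) q := by
  simp only [ren_apply, MvPolynomial.rename_rename]

lemma ren_id {X : Type u} (q : Q X) : ren id q = q := by
  simp only [ren_apply, MvPolynomial.rename_id_apply]

lemma mem_range_ren {X Y : Type u} {j : X → Y} (hj : Function.Injective j) (q : Q Y)
    (hq : ∀ y ∈ supp q, y ∈ Set.range j) : ∃ p : Q X, ren j p = q := by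
  classical
  simp only [supp, Finset.mem_union] at hq
  obtain ⟨p1, h1⟩ := MvPolynomial.exists_rename_eq_of_vars_subset_range q.re j hj
    (fun y hy => hq y (by simp at hy; tauto))
  obtain ⟨p2, h2⟩ := MvPolynomial.exists_rename_eq_of_vars_subset_range q.imI j hj
    (fun y hy => hq y (by simp at hy; tauto))
  obtain ⟨p3, h3⟩ := MvPolynomial.exists_rename_eq_of_vars_subset_range q.imJ j hj
    (fun y hy => hq y (by simp at hy; tauto))
  obtain ⟨p4, h4⟩ := MvPolynomial.exists_rename_eq_of_vars_subset_range q.imK j hj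
    (fun y hy => hq y (by simp at hy; tauto))
  refine ⟨⟨p1, p2, p3, p4⟩, ?_⟩
  rw [ren_apply, h1, h2, h3, h4]

lemma supp_ren {X : Type u} {Y : Type u} (g : X → Y) (q : Q X) :
    ∀ y ∈ supp (ren g q), ∃ x ∈ supp q, g x = y := by
  classical
  intro y hy
  rw [ren_apply] at hy
  simp only [supp, Finset.mem_union] at hy ⊢
  have key : ∀ p : MvPolynomial X A, y ∈ (MvPolynomial.rename g p).vars →
      ∃ x ∈ p.vars, g x = y := by
    intro p hp
    have := MvPolynomial.vars_rename g p hp
    simpa using this
  rcases hy with ((hy | hy) | hy) | hy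
  all_goals
    obtain ⟨x, hx, hxy⟩ := key _ hy
    exact ⟨x, by tauto, hxy⟩

/-- Key property for the Tarski-Vaught test. -/
lemma exists_perm_ren {X Y : Type u} [Infinite X] {j : X → Y} (hj : Function.Injective j)
    {n : ℕ} (x : Fin n → Q X) (a : Q Y) :
    ∃ e : Equiv.Perm Y, (∀ i, ren e (ren j (x i)) = ren j (x i)) ∧
      ∃ b : Q X, ren j b = ren e a := by
  classical
  obtain ⟨e, he1, he2⟩ := perm_exists j (Set.infinite_range_of_injective hj)
    ((Finset.univ.biUnion fun i => supp (x i)).image j)
    (fun s hs => by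
      obtain ⟨t, _, rfl⟩ := Finset.mem_image.mp hs
      exact ⟨t, rfl⟩) (supp a)
  refine ⟨e, ?_, ?_⟩
  · intro i
    rw [ren_ren]
    refine ren_congr _ fun v hv => ?_
    exact he1 _ (Finset.mem_image_of_mem j (Finset.mem_biUnion.mpr ⟨i, Finset.mem_univ i, hv⟩))
  · refine mem_range_ren hj _ fun y hy => ?_
    obtain ⟨v, hv, rfl⟩ := supp_ren _ _ y hy
    exact he2 v hv

/-- Renaming by a permutation is bijective. -/
noncomputable def renEquiv {Y : Type u} (e : Equiv.Perm Y) : Q Y ≃ Q Y where
  toFun := ren e
  invFun := ren e.symm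
  left_inv q := by
    rw [ren_ren]
    have : (e.symm : Y → Y) ∘ e = id := by funext y; simp
    rw [this, ren_id]
  right_inv q := by
    rw [ren_ren]
    have : (e : Y → Y) ∘ e.symm = id := by funext y; simp
    rw [this, ren_id]

/-! ### Elementary equivalence for any language whose symbols are interpreted naturally -/

lemma elementarilyEquivalent {L : FirstOrder.Language.{0, 0}} [IsEmpty (Σ n, L.Relations n)]
    {X Y : Type u} [Infinite X] {j : X → Y} (hj : Function.Injective j)
    (sX : L.Structure (Q X)) (sY : L.Structure (Q Y))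
    (h1 : ∀ (n : ℕ) (F : L.Functions n) (x : Fin n → Q X),
      ren j (sX.funMap F x) = sY.funMap F (ren j ∘ x))
    (h2 : ∀ (e : Equiv.Perm Y) (n : ℕ) (F : L.Functions n) (x : Fin n → Q Y),
      ren e (sY.funMap F x) = sY.funMap F (ren e ∘ x)) :
    (Q X) ≅[L] (Q Y) := by
  let f : (Q X) ↪[L] (Q Y) :=
    { toFun := ren j
      inj' := ren_injective hj
      map_fun' := fun F x => h1 _ F x
      map_rel' := fun {n} R x => isEmptyElim (⟨n, R⟩ : Σ n, L.Relations n) }
  have hf : ∀ q, f q = ren j q := fun q => rfl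
  refine (f.toElementaryEmbedding ?_).elementarilyEquivalent
  intro n φ x a h
  obtain ⟨e, he, b, hb⟩ := exists_perm_ren hj x a
  let σ : (Q Y) ≃[L] (Q Y) :=
    { renEquiv e with
      map_fun' := fun F x => h2 e _ F x
      map_rel' := fun {n} R x => isEmptyElim (⟨n, R⟩ : Σ n, L.Relations n) }
  have hσ : ∀ q, σ q = ren e q := fun q => rfl
  refine ⟨b, ?_⟩
  have h3 := (StrongHomClass.realize_boundedFormula σ φ).mpr h
  rw [Fin.comp_snoc] at h3
  have h4 : (σ ∘ (f ∘ x) : Fin n → Q Y) = f ∘ x := by
    funext i
    simp only [Function.comp_apply, hσ, hf, he]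
  rw [h4, hσ, ← hb, ← hf b] at h3
  have h5 : ∀ v w : Empty → Q Y, φ.Realize v (Fin.snoc (f ∘ x) (f b)) →
      φ.Realize w (Fin.snoc (f ∘ x) (f b)) := by
    intro v w hv
    have h6 : v = w := funext fun z => z.elim
    rwa [← h6]
  exact h5 _ _ h3

end Pool.Agent.R236.SD
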