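import Mathlib

/-!
Combinatorial core for the construction of semigroups with prescribed semigroup covering number.
Code words over the alphabet `Fin n`: for letters `i ≠ j` and `m`, the word
`i^(n+1) j^(m+1) i j^(n+2)` codes the letter `m`.
-/

namespace Pool.Agent.R236.SemiCover

open List

/-- States of the reading automaton for the code. -/
inductive St (n : ℕ) : Type
  | e : St n
  | I (i : Fin n) (r : ℕ) : St n
  | J (i j : Fin n) (m : Fin n) : St n
  | F (i j : Fin n) (m : Fin n) (d : ℕ) : St n

variable {n : ℕ}

/-- One step of the automaton; the first component is the letter emitted, if any. -/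
def step : St n → Fin n → Option (Option (Fin n) × St n)
  | St.e, x => some (none, St.I x 0)
  | St.I i r, x =>
      if x = i then (if r < n then some (none, St.I i (r + 1)) else none)
      else (if h : r = n ∧ 0 < n then some (none, St.J i x ⟨0, h.2⟩) else none)
  | St.J i j m, x =>
      if i = j then none
      else if x = j then (if h : m.1 + 1 < n then some (none, St.J i j ⟨m.1 + 1, h⟩) else none)
      else if x = i then some (none, St.F i j m 0) else none
  | St.F i j m d, x =>
      if i = j then none
      else if x = j then
        (if d < n + 1 then some (none, St.F i j m (d + 1))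
         else if d = n + 1 then some (some m, St.e) else none)
      else none

/-- The first letter of the code word that is being read. -/
def fst : St n → Option (Fin n)
  | St.e => none
  | St.I i _ => some i
  | St.J i _ _ => some i
  | St.F i _ _ _ => some i

/-- Reading a word: the list of emitted letters and the final state. -/
def dl : St n → List (Fin n) → Option (List (Fin n) × St n)
  | s, [] => some ([], s)
  | s, x :: u =>
      match step s x with
      | none => none
      | some (o, s') => (dl s' u).map (fun p => (o.toList ++ p.1, p.2))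

@[simp] theorem dl_nil (s : St n) : dl s [] = some ([], s) := rfl

theorem dl_cons_none {s : St n} {x : Fin n} (u : List (Fin n)) (h : step s x = none) :
    dl s (x :: u) = none := by
  simp only [dl, h]

theorem dl_cons_some {s s' : St n} {x : Fin n} {o : Option (Fin n)} (u : List (Fin n))
    (h : step s x = some (o, s')) :
    dl s (x :: u) = (dl s' u).map (fun p => (o.toList ++ p.1, p.2)) := by
  simp only [dl, h]

theorem dl_cons_silent {s s' : St n} {x : Fin n} (u : List (Fin n))
    (h : step s x = some (none, s')) :
    dl s (x :: u) = dl s' u := by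
  rw [dl_cons_some u h]
  cases dl s' u with
  | none => rfl
  | some p => simp

/-! ### step lemmas -/

theorem step_e (x : Fin n) : step (St.e) x = some (none, St.I x 0) := rfl

theorem step_I_same {i : Fin n} {r : ℕ} (h : r < n) :
    step (St.I i r) i = some (none, St.I i (r + 1)) := by
  simp [step, h]

theorem step_I_same_none {i : Fin n} {r : ℕ} (h : ¬ r < n) :
    step (St.I i r) i = none := by
  simp [step, h]

theorem step_I_diff {i x : Fin n} (h : x ≠ i) (hn : 0 < n) :
    step (St.I i n) x = some (none, St.J i x ⟨0, hn⟩) := by
  simp [step, h, hn]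

theorem step_I_diff_none {i x : Fin n} {r : ℕ} (h : x ≠ i) (hr : r ≠ n) :
    step (St.I i r) x = none := by
  simp [step, h, hr]

theorem step_J_same {i j m : Fin n} (hij : i ≠ j) (h : m.1 + 1 < n) :
    step (St.J i j m) j = some (none, St.J i j ⟨m.1 + 1, h⟩) := by
  simp [step, hij, h]

theorem step_J_same_none {i j m : Fin n} (h : ¬ m.1 + 1 < n) :
    step (St.J i j m) j = none := by
  simp [step, h]

theorem step_J_fst {i j m : Fin n} (hij : i ≠ j) :
    step (St.J i j m) i = some (none, St.F i j m 0) := by
  simp [step, hij]

theorem step_J_none {i j m x : Fin n} (h1 : x ≠ j) (h2 : x ≠ i) :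
    step (St.J i j m) x = none := by
  simp [step, h1, h2]

theorem step_J_diag {i m x : Fin n} : step (St.J i i m) x = none := by
  simp [step]

theorem step_F_same {i j m : Fin n} {d : ℕ} (hij : i ≠ j) (h : d < n + 1) :
    step (St.F i j m d) j = some (none, St.F i j m (d + 1)) := by
  simp [step, hij, h]

theorem step_F_emit {i j m : Fin n} (hij : i ≠ j) :
    step (St.F i j m (n + 1)) j = some (some m, St.e) := by
  simp [step, hij]

theorem step_F_big {i j m : Fin n} {d : ℕ} (h1 : ¬ d < n + 1) (h2 : d ≠ n + 1) (x : Fin n) :
    step (St.F i j m d) x = none := by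
  simp [step, h1, h2]

theorem step_F_diff {i j m x : Fin n} {d : ℕ} (h : x ≠ j) :
    step (St.F i j m d) x = none := by
  simp [step, h]

theorem step_F_diag {i m x : Fin n} {d : ℕ} : step (St.F i i m d) x = none := by
  simp [step]

/-- Emission only leads to the initial state. -/
theorem step_emit {s s' : St n} {x l : Fin n} (h : step s x = some (some l, s')) :
    s' = St.e := by
  cases s with
  | e => simp [step] at h
  | I i r => simp only [step] at h; split_ifs at h <;> simp_all
  | J i j m => simp only [step] at h; split_ifs at h <;> simp_all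
  | F i j m d => simp only [step] at h; split_ifs at h <;> simp_all

/-- A silent step never leads to `e` and keeps the first letter (except from `e`). -/
theorem step_silent {s s' : St n} {x : Fin n} (h : step s x = some (none, s')) :
    s' ≠ St.e ∧ (s ≠ St.e → fst s' = fst s) := by
  cases s with
  | e => simp [step] at h; subst h; simp
  | I i r => simp only [step] at h; split_ifs at h <;> simp_all <;> (subst h; simp [fst])
  | J i j m => simp only [step] at h; split_ifs at h <;> simp_all <;> (subst h; simp [fst])
  | F i j m d => simp only [step] at h; split_ifs at h <;> simp_all <;> (subst h; simp [fst])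

/-- If nothing is emitted then the first letter is kept. -/
theorem dl_silent {s s' : St n} {u : List (Fin n)} (hs : s ≠ St.e)
    (h : dl s u = some ([], s')) : s' ≠ St.e ∧ fst s' = fst s := by
  induction u generalizing s with
  | nil => simp at h; subst h; exact ⟨hs, rfl⟩
  | cons x u ih =>
    cases hst : step s x with
    | none => rw [dl_cons_none u hst] at h; simp at h
    | some p =>
      obtain ⟨o, s1⟩ := p
      cases o with
      | none =>
        rw [dl_cons_silent u hst] at h
        obtain ⟨h1, h2⟩ := step_silent hst
        obtain ⟨h3, h4⟩ := ih h1 h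
        exact ⟨h3, h4.trans (h2 hs)⟩
      | some l =>
        rw [dl_cons_some u hst] at h
        cases hd : dl s1 u with
        | none => rw [hd] at h; simp at h
        | some p => rw [hd] at h; simp at h

/-! ### runs -/

theorem runI {i : Fin n} {r t : ℕ} (u : List (Fin n)) (h : r + t ≤ n) :
    dl (St.I i r) (replicate t i ++ u) = dl (St.I i (r + t)) u := by
  induction t generalizing r with
  | zero => simp
  | succ t ih =>
    rw [replicate_succ, cons_append, dl_cons_silent _ (step_I_same (by omega)), ih (by omega)]
    congr 2; omega

theorem runI_none {i : Fin n} {r t : ℕ} (u : List (Fin n)) (h : n < r + t) (ht : 0 < t) :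
    dl (St.I i r) (replicate t i ++ u) = none := by
  induction t generalizing r with
  | zero => omega
  | succ t ih =>
    rw [replicate_succ, cons_append]
    by_cases hr : r < n
    · rw [dl_cons_silent _ (step_I_same hr)]
      exact ih (by omega) (by omega)
    · exact dl_cons_none _ (step_I_same_none hr)

theorem runJ {i j m : Fin n} (hij : i ≠ j) {t : ℕ} (u : List (Fin n)) (h : m.1 + t < n) :
    dl (St.J i j m) (replicate t j ++ u) = dl (St.J i j ⟨m.1 + t, h⟩) u := by
  induction t generalizing m with
  | zero => simp
  | succ t ih =>
    rw [replicate_succ, cons_append, dl_cons_silent _ (step_J_same hij (by omega)),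
      ih (m := ⟨m.1 + 1, by omega⟩) (by simp only; omega)]
    have : (⟨m.1 + 1 + t, by omega⟩ : Fin n) = ⟨m.1 + (t + 1), h⟩ := by
      ext; simp only; omega
    rw [this]

theorem runJ_none {i j m : Fin n} (hij : i ≠ j) {t : ℕ} (u : List (Fin n)) (h : n ≤ m.1 + t) :
    dl (St.J i j m) (replicate t j ++ u) = none := by
  induction t generalizing m with
  | zero => have := m.2; omega
  | succ t ih =>
    rw [replicate_succ, cons_append]
    by_cases hr : m.1 + 1 < n
    · rw [dl_cons_silent _ (step_J_same hij hr)]
      exact ih (by simp only; omega)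
    · exact dl_cons_none _ (step_J_same_none hr)

theorem runF {i j m : Fin n} (hij : i ≠ j) {d t : ℕ} (u : List (Fin n)) (h : d + t ≤ n + 1) :
    dl (St.F i j m d) (replicate t j ++ u) = dl (St.F i j m (d + t)) u := by
  induction t generalizing d with
  | zero => simp
  | succ t ih =>
    rw [replicate_succ, cons_append, dl_cons_silent _ (step_F_same hij (by omega)), ih (by omega)]
    congr 2; omega

theorem runF_emit {i j m : Fin n} (hij : i ≠ j) {d t : ℕ} (u : List (Fin n)) (hd : d ≤ n + 1) :
    dl (St.F i j m d) (replicate (n + 2 - d + t) j ++ u) =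
      (dl St.e (replicate t j ++ u)).map (fun p => (m :: p.1, p.2)) := by
  have h1 : n + 2 - d + t = (n + 1 - d) + (1 + t) := by omega
  rw [h1, replicate_add, append_assoc, runF hij _ (by omega)]
  have h2 : d + (n + 1 - d) = n + 1 := by omega
  rw [h2, replicate_add, append_assoc]
  change dl (St.F i j m (n + 1)) (j :: (replicate t j ++ u)) = _
  rw [dl_cons_some _ (step_F_emit hij)]
  rfl

/-! ### dead words -/

/-- From `e`. -/
theorem dead_e {i j : Fin n} (hij : i ≠ j) {p t : ℕ} (hp : p ≤ n) (ht : t ≤ n)
    (y : List (Fin n)) :
    dl (St.e) (replicate p i ++ (replicate t j ++ i :: (replicate (n + 2) j ++ y))) = none := by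
  have hn : 0 < n := i.pos
  have hI : ∀ r, r ≤ n → dl (St.I i r) (replicate (n + 2) j ++ y) = none := by
    intro r hr
    rw [show n + 2 = 1 + (n + 1) by omega, replicate_add, append_assoc]
    change dl (St.I i r) (j :: (replicate (n + 1) j ++ y)) = none
    by_cases h : r = n
    · subst h
      rw [dl_cons_silent _ (step_I_diff hij.symm hn)]
      exact runJ_none hij _ (by simp)
    · exact dl_cons_none _ (step_I_diff_none hij.symm h)
  rcases p with _ | p
  · rcases t with _ | t
    · simp only [replicate_zero, nil_append]
      rw [dl_cons_silent _ (step_e i)]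
      exact hI 0 (by omega)
    · simp only [replicate_zero, nil_append, replicate_succ, cons_append]
      rw [dl_cons_silent _ (step_e j), runI _ (by omega)]
      exact dl_cons_none _ (step_I_diff_none hij (by omega))
  · rw [replicate_succ, cons_append, dl_cons_silent _ (step_e i), runI _ (by omega)]
    rcases t with _ | t
    · simp only [replicate_zero, nil_append]
      by_cases h : 0 + p < n
      · rw [dl_cons_silent _ (step_I_same h)]
        exact hI _ (by omega)
      · exact dl_cons_none _ (step_I_same_none h)
    · simp only [replicate_succ, cons_append]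
      exact dl_cons_none _ (step_I_diff_none hij.symm (by omega))

/-- From `F` states with first letter `j`. -/
theorem dead_F {i j b m : Fin n} (hij : i ≠ j) {p t d : ℕ} (hp : p ≤ n) (ht : t ≤ n)
    (y : List (Fin n)) :
    dl (St.F j b m d) (replicate p i ++ (replicate t j ++ i :: (replicate (n + 2) j ++ y)))
      = none := by
  have hn : 0 < n := i.pos
  -- reading `j` in a state `F j b` fails
  have hj : ∀ d u, dl (St.F j b m d) (j :: u) = none := by
    intro d u
    by_cases hjb : j = b
    · subst hjb; exact dl_cons_none _ step_F_diag
    · exact dl_cons_none _ (step_F_diff hjb)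
  by_cases hjb : j = b
  · subst hjb
    rcases p with _ | p
    · rcases t with _ | t
      · exact dl_cons_none _ step_F_diag
      · exact hj _ _
    · exact dl_cons_none _ step_F_diag
  by_cases hib : i = b
  · subst hib
    -- the tail after `p` letters `i`
    have key : ∀ d, dl (St.F j i m d) (replicate t j ++ i :: (replicate (n + 2) j ++ y)) = none := by
      intro d
      rcases t with _ | t
      · simp only [replicate_zero, nil_append]
        have h2 : replicate (n + 2) j ++ y = j :: (replicate (n + 1) j ++ y) := by
          rw [replicate_succ, cons_append]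
        by_cases hd : d < n + 1
        · rw [dl_cons_silent _ (step_F_same hjb hd), h2]
          exact hj _ _
        · by_cases hd2 : d = n + 1
          · subst hd2
            rw [dl_cons_some _ (step_F_emit hjb), show n + 2 = (n + 1) + 1 by omega,
              replicate_succ, cons_append, dl_cons_silent _ (step_e j),
              runI_none _ (by omega) (by omega)]
            rfl
          · exact dl_cons_none _ (step_F_big hd hd2 _)
      · simp only [replicate_succ, cons_append]
        exact hj _ _
    by_cases hd : d ≤ n + 1
    · by_cases hdp : d + p ≤ n + 1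
      · rw [runF hjb _ hdp]
        exact key _
      · have : p = n + 2 - d + (d + p - (n + 2)) := by omega
        rw [this, runF_emit hjb _ hd, dead_e hij (by omega) ht]
        rfl
    · rcases p with _ | p
      · exact key _
      · exact dl_cons_none _ (step_F_big (by omega) (by omega) _)
  · -- `i ≠ b`: reading `i` fails as well
    have hi : ∀ d u, dl (St.F j b m d) (i :: u) = none := fun d u =>
      dl_cons_none _ (step_F_diff hib)
    rcases p with _ | p
    · rcases t with _ | t
      · exact hi _ _
      · exact hj _ _
    · exact hi _ _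

/-- From `J` states with first letter `j`. -/
theorem dead_J {i j b m : Fin n} (hij : i ≠ j) {p t : ℕ} (hp : p ≤ n) (ht : t ≤ n)
    (y : List (Fin n)) :
    dl (St.J j b m) (replicate p i ++ (replicate t j ++ i :: (replicate (n + 2) j ++ y)))
      = none := by
  have hn : 0 < n := i.pos
  by_cases hjb : j = b
  · subst hjb
    rcases p with _ | p
    · rcases t with _ | t
      · exact dl_cons_none _ step_J_diag
      · exact dl_cons_none _ step_J_diag
    · exact dl_cons_none _ step_J_diag
  -- after the letters `i`
  have key : ∀ m, dl (St.J j b m) (replicate t j ++ i :: (replicate (n + 2) j ++ y)) = none := by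
    intro m
    rcases t with _ | t
    · simp only [replicate_zero, nil_append]
      by_cases hib : i = b
      · subst hib
        by_cases hm : m.1 + 1 < n
        · rw [dl_cons_silent _ (step_J_same hjb hm), show n + 2 = (n + 1) + 1 by omega,
            replicate_succ, cons_append, dl_cons_silent _ (step_J_fst hjb),
            replicate_succ, cons_append]
          exact dl_cons_none _ (step_F_diff hjb)
        · exact dl_cons_none _ (step_J_same_none hm)
      · exact dl_cons_none _ (step_J_none hib hij)
    · rw [replicate_succ, cons_append, dl_cons_silent _ (step_J_fst hjb)]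
      have := dead_F (b := b) (m := m) (d := 0) hij (Nat.zero_le n) (show t ≤ n by omega) y
      simpa using this
  rcases p with _ | p
  · exact key m
  · by_cases hib : i = b
    · subst hib
      by_cases hm : m.1 + (p + 1) < n
      · rw [runJ hjb _ hm]
        exact key _
      · exact runJ_none hjb _ (by omega)
    · exact dl_cons_none _ (step_J_none hib hij)

/-- From `I` states with first letter `j`. -/
theorem dead_I {i j : Fin n} (hij : i ≠ j) {p t r : ℕ} (hp : p ≤ n) (ht : t ≤ n)
    (y : List (Fin n)) :
    dl (St.I j r) (replicate p i ++ (replicate t j ++ i :: (replicate (n + 2) j ++ y)))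
      = none := by
  have hn : 0 < n := i.pos
  -- reading `i` in state `I j r`
  have hi : ∀ r u, (dl (St.J j i ⟨0, hn⟩) u = none) → dl (St.I j r) (i :: u) = none := by
    intro r u hu
    by_cases hr : r = n
    · subst hr
      rw [dl_cons_silent _ (step_I_diff hij hn)]
      exact hu
    · exact dl_cons_none _ (step_I_diff_none hij hr)
  rcases p with _ | p
  · rcases t with _ | t
    · simp only [replicate_zero, nil_append]
      apply hi
      rw [show n + 2 = (n + 1) + 1 by omega, replicate_succ, cons_append,
        dl_cons_silent _ (step_J_fst hij.symm), replicate_succ, cons_append]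
      exact dl_cons_none _ (step_F_diff hij.symm)
    · simp only [replicate_zero, nil_append]
      by_cases hr : r + (t + 1) ≤ n
      · rw [runI _ hr]
        apply hi
        rw [show n + 2 = (n + 1) + 1 by omega, replicate_succ, cons_append,
          dl_cons_silent _ (step_J_fst hij.symm), replicate_succ, cons_append]
        exact dl_cons_none _ (step_F_diff hij.symm)
      · exact runI_none _ (by omega) (by omega)
  · rw [replicate_succ, cons_append]
    apply hi
    exact dead_J hij (by omega) ht y

/-- No state with first letter `j`, and not `e`, can read such a word. -/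
theorem dead {i j : Fin n} (hij : i ≠ j) {p t : ℕ} (hp : p ≤ n) (ht : t ≤ n)
    (y : List (Fin n)) (s : St n) (hs : s = St.e ∨ fst s = some j) :
    dl s (replicate p i ++ (replicate t j ++ i :: (replicate (n + 2) j ++ y))) = none := by
  rcases s with _ | ⟨a, r⟩ | ⟨a, b, m⟩ | ⟨a, b, m, d⟩
  · exact dead_e hij hp ht y
  · have : a = j := by simpa [fst] using hs
    subst this; exact dead_I hij hp ht y
  · have : a = j := by simpa [fst] using hs
    subst this; exact dead_J hij hp ht y
  · have : a = j := by simpa [fst] using hs
    subst this; exact dead_F hij hp ht y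

/-! ### words that complete a code word -/

theorem compl_F {i j m : Fin n} {d : ℕ} {u v : List (Fin n)} {s' : St n}
    (h : dl (St.F i j m d) u = some (v, s')) (hv : v ≠ []) :
    i ≠ j ∧ d ≤ n + 1 ∧ ∃ y, u = replicate (n + 2 - d) j ++ y ∧ dl St.e y ≠ none := by
  induction u generalizing d v with
  | nil => simp at h; exact absurd h.1.symm (fun hh => hv (by rw [hh]))
  | cons x u ih =>
    by_cases hij : i = j
    · subst hij; rw [dl_cons_none _ step_F_diag] at h; simp at h
    by_cases hx : x = j
    · subst hx
      by_cases hd : d < n + 1
      · rw [dl_cons_silent _ (step_F_same hij hd)] at h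
        obtain ⟨h1, h2, y, hy, hy2⟩ := ih h hv
        refine ⟨hij, by omega, y, ?_, hy2⟩
        rw [hy, show n + 2 - d = (n + 2 - (d + 1)) + 1 by omega, replicate_succ, cons_append]
      · by_cases hd2 : d = n + 1
        · subst hd2
          rw [dl_cons_some _ (step_F_emit hij)] at h
          refine ⟨hij, le_refl _, u, ?_, ?_⟩
          · rw [show n + 2 - (n + 1) = 1 by omega]; rfl
          · intro h0; rw [h0] at h; simp at h
        · rw [dl_cons_none _ (step_F_big hd hd2 _)] at h; simp at h
    · rw [dl_cons_none _ (step_F_diff hx)] at h; simp at h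

theorem compl_J {i j m : Fin n} {u v : List (Fin n)} {s' : St n}
    (h : dl (St.J i j m) u = some (v, s')) (hv : v ≠ []) :
    i ≠ j ∧ ∃ t y, m.1 + t < n ∧ u = replicate t j ++ i :: (replicate (n + 2) j ++ y) := by
  induction u generalizing m v with
  | nil => simp at h; exact absurd h.1.symm (fun hh => hv (by rw [hh]))
  | cons x u ih =>
    by_cases hij : i = j
    · subst hij; rw [dl_cons_none _ step_J_diag] at h; simp at h
    by_cases hx : x = j
    · subst hx
      by_cases hm : m.1 + 1 < n
      · rw [dl_cons_silent _ (step_J_same hij hm)] at h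
        obtain ⟨h1, t, y, ht, hy⟩ := ih h hv
        refine ⟨hij, t + 1, y, by simp only at ht; omega, ?_⟩
        rw [hy]; rfl
      · rw [dl_cons_none _ (step_J_same_none hm)] at h; simp at h
    · by_cases hx2 : x = i
      · subst hx2
        rw [dl_cons_silent _ (step_J_fst hij)] at h
        obtain ⟨h1, h2, y, hy, hy2⟩ := compl_F h hv
        refine ⟨hij, 0, y, by omega, ?_⟩
        rw [hy]; rfl
      · rw [dl_cons_none _ (step_J_none hx hx2)] at h; simp at h

theorem compl_I {i : Fin n} {r : ℕ} {u v : List (Fin n)} {s' : St n}
    (h : dl (St.I i r) u = some (v, s')) (hv : v ≠ []) :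
    r ≤ n ∧ ∃ j t y, i ≠ j ∧ t < n ∧
      u = replicate (n - r) i ++ (replicate (t + 1) j ++ i :: (replicate (n + 2) j ++ y)) := by
  have hn : 0 < n := i.pos
  induction u generalizing r v with
  | nil => simp at h; exact absurd h.1.symm (fun hh => hv (by rw [hh]))
  | cons x u ih =>
    by_cases hx : x = i
    · subst hx
      by_cases hr : r < n
      · rw [dl_cons_silent _ (step_I_same hr)] at h
        obtain ⟨h1, j, t, y, hj, ht, hy⟩ := ih h hv
        refine ⟨by omega, j, t, y, hj, ht, ?_⟩
        rw [hy, show n - r = (n - (r + 1)) + 1 by omega]; rfl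
      · rw [dl_cons_none _ (step_I_same_none hr)] at h; simp at h
    · by_cases hr : r = n
      · subst hr
        rw [dl_cons_silent _ (step_I_diff hx hn)] at h
        obtain ⟨h1, t, y, ht, hy⟩ := compl_J h hv
        refine ⟨le_refl _, x, t, y, h1, by simpa using ht, ?_⟩
        rw [hy, Nat.sub_self]; rfl
      · rw [dl_cons_none _ (step_I_diff_none hx hr)] at h; simp at h

theorem compl_e {u v : List (Fin n)} {s' : St n}
    (h : dl St.e u = some (v, s')) (hv : v ≠ []) :
    ∃ i j t y, i ≠ j ∧ t < n ∧
      u = replicate (n + 1) i ++ (replicate (t + 1) j ++ i :: (replicate (n + 2) j ++ y)) := by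
  rcases u with _ | ⟨x, u⟩
  · simp at h; exact absurd h.1.symm (fun hh => hv (by rw [hh]))
  · rw [dl_cons_silent _ (step_e x)] at h
    obtain ⟨h1, j, t, y, hj, ht, hy⟩ := compl_I h hv
    refine ⟨x, j, t, y, hj, ht, ?_⟩
    rw [hy]; rfl

/-! ### synchronisation -/

theorem sync_aux {i j : Fin n} (hij : i ≠ j) {t : ℕ} (ht : t < n) (y : List (Fin n))
    (s : St n) (hs : s ≠ St.e) :
    dl s (replicate (n + 1) i ++ (replicate (t + 1) j ++ i :: (replicate (n + 2) j ++ y)))
      = none := by
  have hn : 0 < n := i.pos
  rcases s with _ | ⟨a, r⟩ | ⟨a, b, m⟩ | ⟨a, b, m, d⟩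
  · exact absurd rfl hs
  · by_cases hi : i = a
    · subst hi
      exact runI_none _ (by omega) (by omega)
    · rw [replicate_succ, cons_append]
      by_cases hr : r = n
      · subst hr
        rw [dl_cons_silent _ (step_I_diff hi hn)]
        exact runJ_none (Ne.symm hi) _ (by simp)
      · exact dl_cons_none _ (step_I_diff_none hi hr)
  · by_cases hab : a = b
    · subst hab; exact dl_cons_none _ step_J_diag
    by_cases hi : i = b
    · subst hi
      exact runJ_none hab _ (by omega)
    · by_cases hi2 : i = a
      · subst hi2
        rw [show n + 1 = (n - 1) + 1 + 1 by omega, replicate_succ, cons_append,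
          dl_cons_silent _ (step_J_fst hab), replicate_succ, cons_append]
        exact dl_cons_none _ (step_F_diff hab)
      · exact dl_cons_none _ (step_J_none hi hi2)
  · by_cases hab : a = b
    · subst hab; exact dl_cons_none _ step_F_diag
    by_cases hi : i = b
    · subst hi
      by_cases hd : d ≤ n + 1
      · rcases d with _ | d
        · rw [runF hab _ (by omega), replicate_succ, cons_append]
          exact dl_cons_none _ (step_F_diff hij.symm)
        · rw [show n + 1 = n + 2 - (d + 1) + d by omega, runF_emit hab _ hd,
            dead_e hij (by omega) (by omega)]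
          rfl
      · exact dl_cons_none _ (step_F_big (by omega) (by omega) _)
    · exact dl_cons_none _ (step_F_diff hi)

/-- A word that completes a code word from `e` cannot be read from any other state. -/
theorem sync {u v : List (Fin n)} {s' : St n}
    (h : dl St.e u = some (v, s')) (hv : v ≠ []) (s : St n) (hs : s ≠ St.e) :
    dl s u = none := by
  obtain ⟨i, j, t, y, hij, ht, rfl⟩ := compl_e h hv
  exact sync_aux hij ht y s hs

/-! ### good colours -/

/-- The colour `c` is good for the word `u`: read from `e` or from a state with first letter `c`,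
the word ends in a state with first letter `c` (or cannot be read). -/
def Good (c : Fin n) (u : List (Fin n)) : Prop :=
  ∀ s v s', (s = St.e ∨ fst s = some c) → dl s u = some (v, s') → s' ≠ St.e ∧ fst s' = some c

theorem cmp_II {j : Fin n} {y v : List (Fin n)} {s' : St n} {r1 r2 : ℕ} (hr : r1 < r2)
    (h1 : dl (St.I j r1) y ≠ none) (h2 : dl (St.I j r2) y = some (v, s')) :
    s' ≠ St.e ∧ fst s' = some j := by
  induction y generalizing r1 r2 v with
  | nil => simp at h2; rw [← h2.2]; exact ⟨by simp, rfl⟩
  | cons x y ih =>
    by_cases hx : x = j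
    · subst hx
      by_cases hr2 : r2 < n
      · rw [dl_cons_silent _ (step_I_same hr2)] at h2
        rw [dl_cons_silent _ (step_I_same (by omega))] at h1
        exact ih (by omega) h1 h2
      · rw [dl_cons_none _ (step_I_same_none hr2)] at h2; simp at h2
    · by_cases hr1 : r1 = n
      · rw [dl_cons_none _ (step_I_diff_none hx (by omega))] at h2; simp at h2
      · exact absurd (dl_cons_none _ (step_I_diff_none hx hr1)) h1

theorem cmp_IJ {j x m : Fin n} {y v : List (Fin n)} {s' : St n} {k : ℕ} (hx : x ≠ j)
    (hk : k ≤ m.1)
    (h1 : dl (St.I x k) y ≠ none) (h2 : dl (St.J j x m) y = some (v, s')) :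
    s' ≠ St.e ∧ fst s' = some j := by
  induction y generalizing k m v with
  | nil => simp at h2; rw [← h2.2]; exact ⟨by simp, rfl⟩
  | cons z y ih =>
    by_cases hz : z = x
    · subst hz
      by_cases hm : m.1 + 1 < n
      · rw [dl_cons_silent _ (step_J_same hx.symm hm)] at h2
        rw [dl_cons_silent _ (step_I_same (by omega))] at h1
        exact ih (m := ⟨m.1 + 1, hm⟩) (by simp only; omega) h1 h2
      · rw [dl_cons_none _ (step_J_same_none hm)] at h2; simp at h2
    · have : k ≠ n := by have := m.2; omega
      exact absurd (dl_cons_none _ (step_I_diff_none hz this)) h1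

theorem cmp_IF {j b m : Fin n} {y v : List (Fin n)} {s' : St n} {k : ℕ} (hb : b ≠ j)
    (h1 : dl (St.I b k) y ≠ none) (h2 : dl (St.F j b m (k + 1)) y = some (v, s')) :
    s' ≠ St.e ∧ fst s' = some j := by
  induction y generalizing k v with
  | nil => simp at h2; rw [← h2.2]; exact ⟨by simp, rfl⟩
  | cons z y ih =>
    by_cases hz : z = b
    · subst hz
      by_cases hk : k < n
      · rw [dl_cons_silent _ (step_I_same hk)] at h1
        rw [dl_cons_silent _ (step_F_same hb.symm (by omega))] at h2
        exact ih h1 h2
      · exact absurd (dl_cons_none _ (step_I_same_none hk)) h1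
    · rw [dl_cons_none _ (step_F_diff hz)] at h2; simp at h2

theorem cmp_eI {j : Fin n} {y v : List (Fin n)} {s' : St n} {r : ℕ}
    (h1 : dl St.e y ≠ none) (h2 : dl (St.I j r) y = some (v, s')) :
    s' ≠ St.e ∧ fst s' = some j := by
  have hn : 0 < n := j.pos
  rcases y with _ | ⟨x, y⟩
  · simp at h2; rw [← h2.2]; exact ⟨by simp, rfl⟩
  · rw [dl_cons_silent _ (step_e x)] at h1
    by_cases hx : x = j
    · subst hx
      by_cases hr : r < n
      · rw [dl_cons_silent _ (step_I_same hr)] at h2
        exact cmp_II (by omega) h1 h2
      · rw [dl_cons_none _ (step_I_same_none hr)] at h2; simp at h2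
    · by_cases hr : r = n
      · subst hr
        rw [dl_cons_silent _ (step_I_diff hx hn)] at h2
        exact cmp_IJ hx (by simp) h1 h2
      · rw [dl_cons_none _ (step_I_diff_none hx hr)] at h2; simp at h2

theorem cmp_eF {j b m : Fin n} {y v : List (Fin n)} {s' : St n}
    (h1 : dl St.e y ≠ none) (h2 : dl (St.F j b m 0) y = some (v, s')) :
    s' ≠ St.e ∧ fst s' = some j := by
  rcases y with _ | ⟨x, y⟩
  · simp at h2; rw [← h2.2]; exact ⟨by simp, rfl⟩
  · rw [dl_cons_silent _ (step_e x)] at h1
    by_cases hb : j = b
    · subst hb; rw [dl_cons_none _ step_F_diag] at h2; simp at h2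
    by_cases hx : x = b
    · subst hx
      rw [dl_cons_silent _ (step_F_same hb (by omega))] at h2
      exact cmp_IF (Ne.symm hb) h1 h2
    · rw [dl_cons_none _ (step_F_diff hx)] at h2; simp at h2

theorem good_F {j : Fin n} {t : ℕ} (ht : 1 ≤ t) {y : List (Fin n)} (hy : dl St.e y ≠ none) :
    Good j (replicate t j ++ y) := by
  intro s v s' hs h
  obtain ⟨t, rfl⟩ : ∃ t', t = t' + 1 := ⟨t - 1, by omega⟩
  rcases s with _ | ⟨a, r⟩ | ⟨a, b, m⟩ | ⟨a, b, m, d⟩
  · rw [replicate_succ, cons_append, dl_cons_silent _ (step_e j)] at h
    by_cases h1 : 0 + t ≤ n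
    · rw [runI _ h1] at h; exact cmp_eI hy h
    · rw [runI_none _ (by omega) (by omega)] at h; simp at h
  · have : a = j := by simpa [fst] using hs
    subst this
    by_cases h1 : r + (t + 1) ≤ n
    · rw [runI _ h1] at h; exact cmp_eI hy h
    · rw [runI_none _ (by omega) (by omega)] at h; simp at h
  · have : a = j := by simpa [fst] using hs
    subst this
    by_cases hab : a = b
    · subst hab; rw [replicate_succ, cons_append, dl_cons_none _ step_J_diag] at h; simp at h
    · rw [replicate_succ, cons_append, dl_cons_silent _ (step_J_fst hab)] at h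
      rcases t with _ | t
      · exact cmp_eF hy h
      · rw [replicate_succ, cons_append, dl_cons_none _ (step_F_diff hab)] at h; simp at h
  · have : a = j := by simpa [fst] using hs
    subst this
    by_cases hab : a = b
    · subst hab; rw [replicate_succ, cons_append, dl_cons_none _ step_F_diag] at h; simp at h
    · rw [replicate_succ, cons_append, dl_cons_none _ (step_F_diff hab)] at h; simp at h

theorem good_dead {i j : Fin n} (hij : i ≠ j) {p t : ℕ} (hp : p ≤ n) (ht : t ≤ n)
    (y : List (Fin n)) :
    Good j (replicate p i ++ (replicate t j ++ i :: (replicate (n + 2) j ++ y))) := by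
  intro s v s' hs h
  rw [dead hij hp ht y s hs] at h
  simp at h

/-- The main combinatorial lemma. -/
theorem main {u : List (Fin n)} (hu : u ≠ []) :
    (∃ c, Good c u) ∨
      (∃ v, v ≠ [] ∧ dl St.e u = some (v, St.e) ∧ ∀ s, s ≠ St.e → dl s u = none) := by
  by_cases hX : ∃ s v s', s ≠ St.e ∧ v ≠ [] ∧ dl s u = some (v, s')
  · left
    obtain ⟨s, v, s', hs, hv, h⟩ := hX
    rcases s with _ | ⟨i, r⟩ | ⟨i, j, m⟩ | ⟨i, j, m, d⟩
    · exact absurd rfl hs
    · obtain ⟨h1, j, t, y, hij, ht, rfl⟩ := compl_I h hv
      exact ⟨j, good_dead hij (by omega) (by omega) y⟩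
    · obtain ⟨hij, t, y, ht, rfl⟩ := compl_J h hv
      refine ⟨j, ?_⟩
      have := good_dead hij (p := 0) (t := t) (by omega) (by omega) y
      simpa using this
    · obtain ⟨hij, hd, y, rfl, hy⟩ := compl_F h hv
      exact ⟨j, good_F (by omega) hy⟩
  · push Not at hX
    have hsil : ∀ s v s', s ≠ St.e → dl s u = some (v, s') → s' ≠ St.e ∧ fst s' = fst s := by
      intro s v s' hs h
      by_cases hv : v = []
      · subst hv; exact dl_silent hs h
      · exact absurd h (hX s v s' hs hv)
    cases he : dl St.e u with
    | none =>
      left
      obtain ⟨x, u', rfl⟩ : ∃ x u', u = x :: u' := by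
        rcases u with _ | ⟨x, u'⟩
        · exact absurd rfl hu
        · exact ⟨x, u', rfl⟩
      refine ⟨x, ?_⟩
      intro s v s' hs h
      have hse : s ≠ St.e := by
        intro h0; subst h0; rw [he] at h; simp at h
      obtain ⟨h1, h2⟩ := hsil s v s' hse h
      exact ⟨h1, h2.trans (hs.resolve_left hse)⟩
    | some p =>
      obtain ⟨v0, s0⟩ := p
      by_cases hs0 : s0 = St.e
      · right
        subst hs0
        have hv0 : v0 ≠ [] := by
          rintro rfl
          rcases u with _ | ⟨x, u'⟩
          · exact absurd rfl hu
          · rw [dl_cons_silent _ (step_e x)] at he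
            exact (dl_silent (by simp) he).1 rfl
        exact ⟨v0, hv0, rfl, fun s hs => sync he hv0 s hs⟩
      · left
        obtain ⟨c, hc⟩ : ∃ c, fst s0 = some c := by
          rcases s0 with _ | ⟨i, r⟩ | ⟨i, j, m⟩ | ⟨i, j, m, d⟩
          · exact absurd rfl hs0
          · exact ⟨_, rfl⟩
          · exact ⟨_, rfl⟩
          · exact ⟨_, rfl⟩
        refine ⟨c, ?_⟩
        intro s v s' hs h
        by_cases hse : s = St.e
        · subst hse
          rw [he] at h
          simp only [Option.some.injEq, Prod.mk.injEq] at h
          rw [← h.2]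
          exact ⟨hs0, hc⟩
        · obtain ⟨h1, h2⟩ := hsil s v s' hse h
          exact ⟨h1, h2.trans (hs.resolve_left hse)⟩

/-- The code word of the letter `m` over the alphabet `{i, j}`. -/
def wd (i j m : Fin n) : List (Fin n) :=
  replicate (n + 1) i ++ (replicate (m.1 + 1) j ++ i :: (replicate (n + 2) j ++ []))

theorem wd_ne_nil (i j m : Fin n) : wd i j m ≠ [] := by
  simp [wd]

theorem dl_wd {i j : Fin n} (hij : i ≠ j) (m : Fin n) :
    dl St.e (wd i j m) = some ([m], St.e) := by
  have hn : 0 < n := i.pos
  unfold wd
  rw [replicate_succ, cons_append, dl_cons_silent _ (step_e i), runI _ (by omega),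
    replicate_succ, cons_append, Nat.zero_add, dl_cons_silent _ (step_I_diff hij.symm hn),
    runJ hij _ (by simp), dl_cons_silent _ (step_J_fst hij)]
  have : n + 2 = n + 2 - 0 + 0 := by omega
  rw [this, runF_emit hij _ (by omega)]
  simp

end Pool.Agent.R236.SemiCover
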