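import Mathlib
import Pool.Agent.R236.SemiCover

/-!
The semigroup of partial maps built from the reading automata at all levels, and its covering
number.
-/

namespace Pool.Agent.R236.SemiCover

open List

/-- Partial maps `Q → Option Q`, composed from left to right. -/
def PMap (Q : Type) : Type := Q → Option Q

instance (Q : Type) : Semigroup (PMap Q) where
  mul f g := fun q => (f q).bind g
  mul_assoc f g h := by
    funext q
    change ((f q).bind g).bind h = (f q).bind (fun q => (g q).bind h)
    cases f q <;> rfl

theorem PMap.mul_apply {Q : Type} (f g : PMap Q) (q : Q) : (f * g) q = (f q).bind g := rfl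

variable {n : ℕ}

/-- Global states: one automaton state for each level. -/
abbrev Qs (n : ℕ) : Type := ℕ → St n

open Classical in
/-- The letter `i` of level `k`. -/
noncomputable def g : ℕ → Fin n → Qs n → Option (Qs n)
  | 0, l => fun q => if (∀ m, q m = St.e) then some (Function.update q 0 (St.I l 0)) else none
  | k + 1, i => fun q =>
      if (∀ m, k + 1 < m → q m = St.e) then
        (match step (q (k + 1)) i with
          | none => none
          | some (none, s') => some (Function.update q (k + 1) s')
          | some (some l, s') => g k l (Function.update q (k + 1) s'))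
      else none

/-- Reading a word in the letters of level `k`. -/
noncomputable def f (k : ℕ) : List (Fin n) → Qs n → Option (Qs n)
  | [] => fun q => some q
  | x :: u => fun q => (g k x q).bind (f k u)

theorem f_nil (k : ℕ) (q : Qs n) : f k [] q = some q := rfl

theorem f_cons (k : ℕ) (x : Fin n) (u : List (Fin n)) (q : Qs n) :
    f k (x :: u) q = (g k x q).bind (f k u) := rfl

theorem f_append (k : ℕ) (u v : List (Fin n)) (q : Qs n) :
    f k (u ++ v) q = (f k u q).bind (f k v) := by
  induction u generalizing q with
  | nil => rfl
  | cons x u ih =>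
    rw [cons_append, f_cons, f_cons]
    cases g k x q with
    | none => rfl
    | some q1 =>
      simp only [Option.bind_some]
      exact ih q1

theorem f_single (k : ℕ) (x : Fin n) : f k [x] = g k x := by
  funext q
  rw [f_cons]
  cases g k x q <;> rfl

/-- `g k i` is defined only if all levels above `k` are empty, and it leaves them empty. -/
theorem g_above {k : ℕ} {i : Fin n} {q q' : Qs n} (h : g k i q = some q') :
    (∀ m, k < m → q m = St.e) ∧ (∀ m, k < m → q' m = St.e) := by
  induction k generalizing i q with
  | zero =>
    simp only [g] at h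
    split_ifs at h with h1
    simp only [Option.some.injEq] at h
    subst h
    refine ⟨fun m _ => h1 m, fun m hm => ?_⟩
    rw [Function.update_of_ne (by omega)]
    exact h1 m
  | succ k ih =>
    simp only [g] at h
    split_ifs at h with h1
    refine ⟨h1, ?_⟩
    cases hst : step (q (k + 1)) i with
    | none => rw [hst] at h; simp at h
    | some p =>
      obtain ⟨o, s'⟩ := p
      rw [hst] at h
      cases o with
      | none =>
        simp only [Option.some.injEq] at h
        subst h
        intro m hm
        rw [Function.update_of_ne (by omega)]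
        exact h1 m hm
      | some l =>
        simp only at h
        intro m hm
        exact (ih h).2 m (by omega)

theorem f_above {k : ℕ} {u : List (Fin n)} {q q' : Qs n} (h : f k u q = some q')
    {l : ℕ} (hl : k ≤ l) (hq : ∀ m, l < m → q m = St.e) : ∀ m, l < m → q' m = St.e := by
  induction u generalizing q with
  | nil => rw [f_nil] at h; simp only [Option.some.injEq] at h; subst h; exact hq
  | cons x u ih =>
    rw [f_cons] at h
    cases hg : g k x q with
    | none => rw [hg] at h; simp at h
    | some q1 =>
      rw [hg] at h
      exact ih h (fun m hm => (g_above hg).2 m (by omega))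

theorem f_cons_above {k : ℕ} {u : List (Fin n)} (hu : u ≠ []) {q q' : Qs n}
    (h : f k u q = some q') : ∀ m, k < m → q m = St.e := by
  rcases u with _ | ⟨x, u⟩
  · exact absurd rfl hu
  · rw [f_cons] at h
    cases hg : g k x q with
    | none => rw [hg] at h; simp at h
    | some q1 => exact (g_above hg).1

/-- Level lemma: a word of level `k + 1` is read through the automaton and the emitted word is
read at level `k`. -/
theorem level {k : ℕ} (u : List (Fin n)) {q : Qs n} (hq : ∀ m, k + 1 < m → q m = St.e) :
    f (k + 1) u q = (dl (q (k + 1)) u).bind (fun p =>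
      (f k p.1 (Function.update q (k + 1) St.e)).map (fun q' =>
        Function.update q' (k + 1) p.2)) := by
  induction u generalizing q with
  | nil =>
    simp only [f_nil, dl_nil, Option.bind_some, Option.map_some]
    rw [Function.update_idem, Function.update_eq_self]
  | cons x u ih =>
    rw [f_cons]
    have hg : g (k + 1) x q = (match step (q (k + 1)) x with
          | none => none
          | some (none, s') => some (Function.update q (k + 1) s')
          | some (some l, s') => g k l (Function.update q (k + 1) s')) := by
      simp only [g]
      rw [if_pos hq]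
    cases hst : step (q (k + 1)) x with
    | none =>
      rw [hg, hst, dl_cons_none _ hst]
      rfl
    | some p =>
      obtain ⟨o, s'⟩ := p
      cases o with
      | none =>
        rw [hg, hst, dl_cons_silent _ hst]
        simp only [Option.bind_some]
        rw [ih (fun m hm => by rw [Function.update_of_ne (by omega)]; exact hq m hm)]
        rw [Function.update_self, Function.update_idem]
      | some l =>
        have hs' := step_emit hst
        subst hs'
        rw [hg, hst, dl_cons_some _ hst]
        simp only
        cases hd : g k l (Function.update q (k + 1) St.e) with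
        | none =>
          cases dl St.e u with
          | none => rfl
          | some p => simp [f_cons, hd]
        | some q1 =>
          have ha := (g_above hd).2
          simp only [Option.bind_some]
          rw [ih (fun m hm => ha m (by omega))]
          rw [ha (k + 1) (by omega)]
          have h1 : Function.update q1 (k + 1) St.e = q1 := by
            rw [← ha (k + 1) (by omega), Function.update_eq_self]
          rw [h1]
          cases dl St.e u with
          | none => rfl
          | some p => simp [f_cons, hd]

/-- The coloured sets of states. -/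
def A (c : Fin n) : Set (Qs n) :=
  {q | ∀ k, (∀ m, k < m → q m = St.e) → q k = St.e ∨ fst (q k) = some c}

/-- `x` preserves the set `A c`. -/
def Pres (c : Fin n) (x : Qs n → Option (Qs n)) : Prop :=
  ∀ q q', q ∈ A c → x q = some q' → q' ∈ A c

theorem Pres.mul {c : Fin n} {x y : Qs n → Option (Qs n)} (hx : Pres c x) (hy : Pres c y) :
    Pres c (fun q => (x q).bind y) := by
  intro q q' hq h
  simp only at h
  cases h1 : x q with
  | none => rw [h1] at h; simp at h
  | some q1 => rw [h1] at h; exact hy q1 q' (hx q q1 hq h1) h

theorem mem_A_of_level {c : Fin n} {q : Qs n} {k : ℕ} (h1 : ∀ m, k < m → q m = St.e)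
    (h2 : q k ≠ St.e) (h3 : fst (q k) = some c) : q ∈ A c := by
  intro l hl
  rcases lt_trichotomy l k with h | h | h
  · exact absurd (hl k h) h2
  · subst h; exact Or.inr h3
  · exact Or.inl (h1 l h)

theorem pres_zero {u : List (Fin n)} {x : Fin n} : Pres x (f 0 (x :: u)) := by
  intro q q' hq h
  rw [f_cons] at h
  cases hg : g 0 x q with
  | none => rw [hg] at h; simp at h
  | some q1 =>
    rw [hg] at h
    simp only [g] at hg
    split_ifs at hg with h1
    simp only [Option.some.injEq] at hg
    rcases u with _ | ⟨y, u⟩
    · simp only [Option.bind_some, f_nil, Option.some.injEq] at h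
      subst h; subst hg
      refine mem_A_of_level (k := 0) ?_ ?_ ?_
      · intro m hm
        rw [Function.update_of_ne (by omega)]
        exact h1 m
      · rw [Function.update_self]; simp
      · rw [Function.update_self]; rfl
    · exfalso
      have h2 : g 0 y q1 = none := by
        simp only [g]
        rw [if_neg]
        intro h3
        have := h3 0
        rw [← hg, Function.update_self] at this
        simp at this
      simp only [Option.bind_some, f_cons, h2, Option.bind_none] at h
      simp at h

theorem pres_exists (k : ℕ) : ∀ u : List (Fin n), u ≠ [] → ∃ c, Pres c (f k u) := by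
  induction k with
  | zero =>
    intro u hu
    rcases u with _ | ⟨x, u⟩
    · exact absurd rfl hu
    · exact ⟨x, pres_zero⟩
  | succ k ih =>
    intro u hu
    rcases main hu with ⟨c, hc⟩ | ⟨v, hv, he, hs⟩
    · refine ⟨c, ?_⟩
      intro q q' hq h
      have ha := f_cons_above hu h
      have hst := hq (k + 1) ha
      rw [level u ha] at h
      cases hd : dl (q (k + 1)) u with
      | none => rw [hd] at h; simp at h
      | some p =>
        obtain ⟨v, s'⟩ := p
        rw [hd] at h
        obtain ⟨g1, g2⟩ := hc _ _ _ hst hd
        simp only [Option.bind_some] at h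
        cases hf : f k v (Function.update q (k + 1) St.e) with
        | none => rw [hf] at h; simp at h
        | some q2 =>
          rw [hf] at h
          simp only [Option.map_some, Option.some.injEq] at h
          subst h
          have h2 : ∀ m, k < m → q2 m = St.e := f_above hf (le_refl k) (by
            intro m hm
            by_cases hm2 : m = k + 1
            · subst hm2; rw [Function.update_self]
            · rw [Function.update_of_ne hm2]; exact ha m (by omega))
          refine mem_A_of_level (k := k + 1) ?_ ?_ ?_
          · intro m hm
            rw [Function.update_of_ne (by omega)]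
            exact h2 m (by omega)
          · rw [Function.update_self]; exact g1
          · rw [Function.update_self]; exact g2
    · obtain ⟨c, hc⟩ := ih v hv
      refine ⟨c, ?_⟩
      intro q q' hq h
      have ha := f_cons_above hu h
      rw [level u ha] at h
      by_cases hqk : q (k + 1) = St.e
      · rw [hqk, he] at h
        simp only [Option.bind_some] at h
        have hup : Function.update q (k + 1) St.e = q := by
          rw [← hqk, Function.update_eq_self]
        rw [hup] at h
        cases hf : f k v q with
        | none => rw [hf] at h; simp at h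
        | some q2 =>
          rw [hf] at h
          simp only [Option.map_some, Option.some.injEq] at h
          subst h
          have h2 : ∀ m, k < m → q2 m = St.e := f_above hf (le_refl k) (by
            intro m hm
            by_cases hm2 : m = k + 1
            · subst hm2; exact hqk
            · exact ha m (by omega))
          have hup2 : Function.update q2 (k + 1) St.e = q2 := by
            rw [← h2 (k + 1) (by omega), Function.update_eq_self]
          rw [hup2]
          exact hc q q2 hq hf
      · rw [hs _ hqk] at h; simp at h

/-- A letter of level `k` is the value of its code words at level `k + 1`. -/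
theorem f_wd {k : ℕ} {i j : Fin n} (hij : i ≠ j) (m : Fin n) :
    f (k + 1) (wd i j m) = g k m := by
  funext q
  by_cases ha : ∀ l, k + 1 < l → q l = St.e
  · rw [level _ ha]
    by_cases hqk : q (k + 1) = St.e
    · rw [hqk, dl_wd hij]
      have hup : Function.update q (k + 1) St.e = q := by
        rw [← hqk, Function.update_eq_self]
      simp only [Option.bind_some]
      rw [hup, f_single]
      cases hg : g k m q with
      | none => rfl
      | some q1 =>
        simp only [Option.map_some, Option.some.injEq]
        rw [← (g_above hg).2 (k + 1) (by omega), Function.update_eq_self]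
    · rw [sync (dl_wd hij m) (by simp) _ hqk]
      simp only [Option.bind_none]
      cases hg : g k m q with
      | none => rfl
      | some q1 => exact absurd ((g_above hg).1 (k + 1) (by omega)) hqk
  · have h1 : f (k + 1) (wd i j m) q = none := by
      cases hf : f (k + 1) (wd i j m) q with
      | none => rfl
      | some q1 => exact absurd (f_cons_above (wd_ne_nil i j m) hf) ha
    rw [h1]
    cases hg : g k m q with
    | none => rfl
    | some q1 =>
      exact absurd (fun l (hl : k + 1 < l) => (g_above hg).1 l (by omega)) ha

/-- Words of level `k` are words of level `k + 1`. -/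
theorem f_lift {i j : Fin n} (hij : i ≠ j) (k : ℕ) (u : List (Fin n)) :
    f (k + 1) (u.flatMap (wd i j)) = f k u := by
  induction u with
  | nil => funext q; rfl
  | cons x u ih =>
    funext q
    rw [flatMap_cons, f_append, f_wd hij, ih]
    rfl

theorem f_lift_exists {i j : Fin n} (hij : i ≠ j) (k : ℕ) (u : List (Fin n)) (hu : u ≠ []) (d : ℕ) :
    ∃ u', u' ≠ [] ∧ f (k + d) u' = f k u := by
  induction d with
  | zero => exact ⟨u, hu, rfl⟩
  | succ d ih =>
    obtain ⟨u', hu', h⟩ := ih
    refine ⟨u'.flatMap (wd i j), ?_, ?_⟩
    · rcases u' with _ | ⟨x, u'⟩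
      · exact absurd rfl hu'
      · intro h0
        rw [flatMap_cons, append_eq_nil_iff] at h0
        exact wd_ne_nil i j x h0.1
    · rw [← h]
      exact f_lift hij (k + d) u'

/-- The letter as an element of the semigroup of partial maps. -/
noncomputable def G (k : ℕ) (i : Fin n) : PMap (Qs n) := g k i

/-- The word as an element of the semigroup of partial maps. -/
noncomputable def W (k : ℕ) (u : List (Fin n)) : PMap (Qs n) := f k u

theorem W_single (k : ℕ) (i : Fin n) : W k [i] = G k i := f_single k i

theorem W_append (k : ℕ) (u v : List (Fin n)) : W k (u ++ v) = W k u * W k v := by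
  funext q
  exact f_append k u v q

theorem W_wd {k : ℕ} {i j : Fin n} (hij : i ≠ j) (m : Fin n) : W (k + 1) (wd i j m) = G k m :=
  f_wd hij m

/-- The subsemigroup generated by all letters. -/
noncomputable def SS (n : ℕ) : Subsemigroup (PMap (Qs n)) :=
  Subsemigroup.closure (Set.range (fun p : ℕ × Fin n => G p.1 p.2))

theorem g_mem (k : ℕ) (i : Fin n) : G k i ∈ SS n :=
  Subsemigroup.subset_closure ⟨(k, i), rfl⟩

theorem SS_form (hn : 2 ≤ n) {x : PMap (Qs n)} (hx : x ∈ SS n) :
    ∃ k u, u ≠ [] ∧ x = W k u := by
  have h0 : (⟨0, by omega⟩ : Fin n) ≠ ⟨1, by omega⟩ := by simp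
  induction hx using Subsemigroup.closure_induction with
  | mem x h =>
    obtain ⟨⟨k, i⟩, rfl⟩ := h
    exact ⟨k, [i], by simp, (W_single k i).symm⟩
  | mul x y _ _ hx hy =>
    obtain ⟨k, u, hu, rfl⟩ := hx
    obtain ⟨l, v, hv, rfl⟩ := hy
    obtain ⟨u', hu', h1⟩ := f_lift_exists h0 k u hu l
    obtain ⟨v', hv', h2⟩ := f_lift_exists h0 l v hv k
    refine ⟨k + l, u' ++ v', by simp [hu'], ?_⟩
    have h1' : W (k + l) u' = W k u := h1
    have h2' : W (l + k) v' = W l v := h2
    rw [W_append, h1', Nat.add_comm k l, h2']

/-- The covering subsemigroups. -/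
noncomputable def Uc (c : Fin n) : Subsemigroup (SS n) where
  carrier := {x | Pres c x.1}
  mul_mem' := fun ha hb => Pres.mul ha hb

theorem mem_Uc {c : Fin n} {x : SS n} : x ∈ Uc c ↔ Pres c x.1 := Iff.rfl

theorem start_mem (c : Fin n) : (fun _ => St.e : Qs n) ∈ A c := fun _ _ => Or.inl rfl

theorem g_zero_not_pres {c l : Fin n} (h : l ≠ c) : ¬ Pres c (g 0 l) := by
  intro hp
  have h1 : g 0 l (fun _ => St.e : Qs n) =
      some (Function.update (fun _ => St.e : Qs n) 0 (St.I l 0)) := by
    simp only [g]
    rw [if_pos]
    intro m; rfl
  have h2 := hp _ _ (start_mem c) h1 0 (by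
    intro m hm
    rw [Function.update_of_ne (by omega)])
  rw [Function.update_self] at h2
  simp [fst, h] at h2

theorem g_zero_pres (c : Fin n) : Pres c (g 0 c) := by
  have := pres_zero (n := n) (u := []) (x := c)
  rwa [f_single] at this

/-- If a subsemigroup of `SS n` contains two different letters of level `k + 1` then it contains
all letters of level `k`. -/
theorem mem_of_pair {V : Subsemigroup (SS n)} {k : ℕ} {i j : Fin n} (hij : i ≠ j)
    (hi : (⟨G (k + 1) i, g_mem _ _⟩ : SS n) ∈ V) (hj : (⟨G (k + 1) j, g_mem _ _⟩ : SS n) ∈ V)
    (m : Fin n) : (⟨G k m, g_mem _ _⟩ : SS n) ∈ V := by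
  have key : ∀ u : List (Fin n), u ≠ [] → (∀ x ∈ u, x = i ∨ x = j) →
      ∃ h : W (k + 1) u ∈ SS n, (⟨W (k + 1) u, h⟩ : SS n) ∈ V := by
    intro u
    induction u with
    | nil => intro h; exact absurd rfl h
    | cons x u ih =>
      intro _ hx
      have hxV : (⟨G (k + 1) x, g_mem _ _⟩ : SS n) ∈ V := by
        rcases hx x (by simp) with h | h
        · subst h; exact hi
        · subst h; exact hj
      by_cases hu : u = []
      · subst hu
        refine ⟨by rw [W_single]; exact g_mem _ _, ?_⟩
        have : (⟨W (k + 1) [x], by rw [W_single]; exact g_mem _ _⟩ : SS n)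
            = ⟨G (k + 1) x, g_mem _ _⟩ := by
          apply Subtype.ext
          exact W_single _ _
        rw [this]
        exact hxV
      · obtain ⟨h1, h2⟩ := ih hu (fun y hy => hx y (by simp [hy]))
        have h3 : W (k + 1) (x :: u) = G (k + 1) x * W (k + 1) u := rfl
        refine ⟨by rw [h3]; exact (SS n).mul_mem (g_mem _ _) h1, ?_⟩
        have := V.mul_mem hxV h2
        exact this
  obtain ⟨h1, h2⟩ := key (wd i j m) (wd_ne_nil i j m) (by
    intro x hx
    simp only [wd, mem_append, mem_replicate, mem_cons, append_nil] at hx
    tauto)
  have : (⟨W (k + 1) (wd i j m), h1⟩ : SS n) = ⟨G k m, g_mem _ _⟩ := by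
    apply Subtype.ext
    exact W_wd hij m
  rw [this] at h2
  exact h2

theorem lower (hn : 2 ≤ n) {m : ℕ} (hm : m < n) (V : Fin m → Subsemigroup (SS n))
    (hV : ∀ x, ∃ a, x ∈ V a) : ∃ a, V a = ⊤ := by
  -- `P a k`: all letters of level `k` lie in `V a`
  have hdown : ∀ a k, (∀ l : Fin n, (⟨G (k + 1) l, g_mem _ _⟩ : SS n) ∈ V a) →
      (∀ l : Fin n, (⟨G k l, g_mem _ _⟩ : SS n) ∈ V a) := by
    intro a k h l
    exact mem_of_pair (i := ⟨0, by omega⟩) (j := ⟨1, by omega⟩) (by simp) (h _) (h _) l
  have hdown' : ∀ a d k, (∀ l : Fin n, (⟨G (k + d) l, g_mem _ _⟩ : SS n) ∈ V a) →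
      (∀ l : Fin n, (⟨G k l, g_mem _ _⟩ : SS n) ∈ V a) := by
    intro a d
    induction d with
    | zero => intro k h; exact h
    | succ d ih => intro k h; exact ih k (hdown a (k + d) h)
  have hex : ∀ k, ∃ a, ∀ l : Fin n, (⟨G k l, g_mem _ _⟩ : SS n) ∈ V a := by
    intro k
    choose φ hφ using fun i : Fin n => hV ⟨G (k + 1) i, g_mem _ _⟩
    have : ¬ Function.Injective φ := by
      intro hinj
      have := Fintype.card_le_of_injective φ hinj
      simp at this
      omega
    simp only [Function.Injective, not_forall] at this
    obtain ⟨i, j, hij, hne⟩ := this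
    refine ⟨φ i, fun l => mem_of_pair hne (hφ i) ?_ l⟩
    rw [hij]; exact hφ j
  have hall : ∃ a, ∀ k, ∀ l : Fin n, (⟨G k l, g_mem _ _⟩ : SS n) ∈ V a := by
    by_contra hcon
    push Not at hcon
    choose K L hL using hcon
    obtain ⟨a, ha⟩ := hex (∑ a, K a)
    have hle : K a ≤ ∑ a, K a := Finset.single_le_sum (fun _ _ => Nat.zero_le _) (Finset.mem_univ a)
    have := hdown' a ((∑ a, K a) - K a) (K a) (by
      rw [Nat.add_sub_cancel' hle]; exact ha)
    exact hL a (this (L a))
  obtain ⟨a, ha⟩ := hall
  refine ⟨a, ?_⟩
  rw [eq_top_iff]
  rintro ⟨x, hx⟩ -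
  have key : ∀ x (hx : x ∈ SS n), (⟨x, hx⟩ : SS n) ∈ V a := by
    intro x hx
    induction hx using Subsemigroup.closure_induction with
    | mem x h =>
      obtain ⟨⟨k, i⟩, rfl⟩ := h
      exact ha k i
    | mul x y hx0 hy0 hx hy => exact (V a).mul_mem hx hy
  exact key x hx

end Pool.Agent.R236.SemiCover
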